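import Mathlib

/-!
Project RPL (MP_8c6f77_pr): `a_n ≤ mu ^ n * exp (C n ^ (1/3))` for every doubly periodic connected subgraph of the triangular
lattice in which every vertex has neighbours in both adjacent columns (all eleven Archimedean lattices have such drawings).

Shared definitions of the abstract part (A) and the geometric part (B). A strand is a list of letters; a letter has a width
`≥ 1`, a displacement and a mass. `At A P i x`: `i` is a level of the list `P` (the width of an initial part) and `x` is the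
displacement there. `Sgz A κ n P Q`: at the common levels `≤ i0` (for some `i0 ≤ κ`) the two lists are at the same height,
and at the common levels in `(i0, n]` one of them is always strictly higher. `V`: chains of strands; the strand with the
index `d` has the width `d / R`.
-/

set_option autoImplicit false

namespace Pool.Agent.RPL

open Finset
open scoped ENNReal NNReal

/-- An alphabet. -/
structure Alph where
  ι : Type
  w : ι → ℕ
  dl : ι → ℤ
  ms : ι → ℝ≥0∞
  w1 : ∀ a, 1 ≤ w a
  tot : ∑' a, ms a ≤ 1
  pos : ∃ a b, w a = 1 ∧ w b = 1 ∧ dl a ≠ dl b ∧ ms a ≠ 0 ∧ ms b ≠ 0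

/-- Width of a list. -/
def wd (A : Alph) (l : List A.ι) : ℕ := (l.map A.w).sum

/-- Displacement of a list. -/
def ds (A : Alph) (l : List A.ι) : ℤ := (l.map A.dl).sum

/-- Mass of a list. -/
noncomputable def mm (A : Alph) (l : List A.ι) : ℝ≥0∞ := (l.map A.ms).prod

/-- Lists of width `r`. -/
def Lr (A : Alph) (r : ℕ) : Set (List A.ι) := {l | wd A l = r}

/-- `i` is a level of `P`, with displacement `x`. -/
def At (A : Alph) (P : List A.ι) (i : ℕ) (x : ℤ) : Prop := ∃ u v : List A.ι, P = u ++ v ∧ wd A u = i ∧ ds A u = x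

/-- The fold condition. -/
def Sgz (A : Alph) (κ n : ℕ) (P Q : List A.ι) : Prop :=
  ∃ i0 ≤ κ, (∀ (i : ℕ) (x y : ℤ), i ≤ i0 → i ≤ n → At A P i x → At A Q i y → x = y) ∧
    ((∀ (i : ℕ) (x y : ℤ), i0 < i → i ≤ n → At A P i x → At A Q i y → y < x) ∨
      (∀ (i : ℕ) (x y : ℤ), i0 < i → i ≤ n → At A P i x → At A Q i y → x < y))

open Classical in
/-- Chains of strands, all folds with the condition `Sgz` (cutoff `n m` for a strand of width `m`), a factor `C2` for each strand. -/
noncomputable def V (A : Alph) (κ R : ℕ) (C2 : ℝ≥0∞) (n : ℕ → ℕ) (y : ℝ≥0∞) : ℕ → ℕ → List A.ι → ℝ≥0∞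
  | 0, _, _ => 1
  | K + 1, h, X => 1 + ∑ d ∈ Ico R h, C2 * y ^ (d / R) *
      ∑' Y : Lr A (d / R), mm A Y * (if Sgz A κ (n (d / R)) X.reverse (Y : List A.ι) then V A κ R C2 n y K d Y else 0)

end Pool.Agent.RPL
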