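import Pool.Agent.RPL.ADefs

/-!
Project RPL, part A, module ACh: chains of matrices.

PAPER PROOF. As `chR_nonneg`, `ch_le` in `Pool/Agent/ZLF/DatZ.lean` (copy them): induction on `K` for all `m`, `r ≤ D` (only indices `≤ D` occur).
-/

set_option autoImplicit false

namespace Pool.Agent.RPL

open Finset
open scoped ENNReal NNReal

theorem chQ_nonneg {D lo : ℕ} {w : ℕ → ℝ} (hw : ∀ d, 0 ≤ w d) {b : ℕ → ℝ} {G : ℕ → ℕ → ℝ} {B : ℕ → ℕ → ℕ → ℝ}
    (hb : ∀ r, 0 ≤ b r) (hG : ∀ r a, 0 ≤ G r a) (hB : ∀ d a a', 0 ≤ B d a a') (K h r : ℕ) :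
    0 ≤ chQ D lo w b G B K h r := by
  induction K generalizing h r with
  | zero => exact hb r
  | succ K ih =>
    rw [chQ]
    refine add_nonneg (hb r) (Finset.sum_nonneg fun d _ => mul_nonneg (hw d) ?_)
    exact Finset.sum_nonneg fun a _ => Finset.sum_nonneg fun a' _ =>
      mul_nonneg (mul_nonneg (hG r a) (hB d a a')) (ih d a')

/-- `G B` in the chain of matrices may be bounded by a constant times real matrices: the factors `w' d * (G' r a * B' d a a')` are compared with `w d * (G r a * B d a a')`. -/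
theorem chE_le {D lo : ℕ} {w : ℕ → ℝ} (hw : ∀ d, 0 ≤ w d) {b : ℕ → ℝ} {G : ℕ → ℕ → ℝ} {B : ℕ → ℕ → ℕ → ℝ}
    (hb : ∀ r, 0 ≤ b r) (hG : ∀ r a, 0 ≤ G r a) (hB : ∀ d a a', 0 ≤ B d a a')
    {w' : ℕ → ℝ≥0∞} {b' : ℕ → ℝ≥0∞} {G' : ℕ → ℕ → ℝ≥0∞} {B' : ℕ → ℕ → ℕ → ℝ≥0∞}
    (hb' : ∀ r, b' r ≤ ENNReal.ofReal (b r))
    (h : ∀ d r a a', lo ≤ d → r ≤ D → a ≤ D → a' ≤ D → w' d * (G' r a * B' d a a') ≤ ENNReal.ofReal (w d * (G r a * B d a a')))
    (K m r : ℕ) (hr : r ≤ D) :
    chE D lo w' b' G' B' K m r ≤ ENNReal.ofReal (chQ D lo w b G B K m r) := by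
  induction K generalizing m r with
  | zero => exact hb' r
  | succ K ih =>
    have hfac : ∀ d a a', 0 ≤ w d * (G r a * B d a a') := fun d a a' =>
      mul_nonneg (hw d) (mul_nonneg (hG r a) (hB d a a'))
    have hterm : ∀ d a a', 0 ≤ w d * (G r a * B d a a') * chQ D lo w b G B K d a' := fun d a a' =>
      mul_nonneg (hfac d a a') (chQ_nonneg hw hb hG hB K d a')
    have hin : ∀ d a, 0 ≤ ∑ a' ∈ range (D + 1), w d * (G r a * B d a a') * chQ D lo w b G B K d a' := fun d a =>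
      Finset.sum_nonneg fun a' _ => hterm d a a'
    have hmid : ∀ d, 0 ≤ ∑ a ∈ range (D + 1), ∑ a' ∈ range (D + 1),
        w d * (G r a * B d a a') * chQ D lo w b G B K d a' := fun d => Finset.sum_nonneg fun a _ => hin d a
    have e1 : chQ D lo w b G B (K + 1) m r = b r + ∑ d ∈ Ico lo m, ∑ a ∈ range (D + 1),
        ∑ a' ∈ range (D + 1), w d * (G r a * B d a a') * chQ D lo w b G B K d a' := by
      rw [chQ]
      congr 1
      refine Finset.sum_congr rfl fun d _ => ?_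
      rw [Finset.mul_sum]
      refine Finset.sum_congr rfl fun a _ => ?_
      rw [Finset.mul_sum]
      exact Finset.sum_congr rfl fun a' _ => (mul_assoc _ _ _).symm
    have e2 : chE D lo w' b' G' B' (K + 1) m r = b' r + ∑ d ∈ Ico lo m, ∑ a ∈ range (D + 1),
        ∑ a' ∈ range (D + 1), w' d * (G' r a * B' d a a') * chE D lo w' b' G' B' K d a' := by
      rw [chE]
      congr 1
      refine Finset.sum_congr rfl fun d _ => ?_
      rw [Finset.mul_sum]
      refine Finset.sum_congr rfl fun a _ => ?_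
      rw [Finset.mul_sum]
      exact Finset.sum_congr rfl fun a' _ => (mul_assoc _ _ _).symm
    rw [e1, e2, ENNReal.ofReal_add (hb r) (Finset.sum_nonneg fun d _ => hmid d),
      ENNReal.ofReal_sum_of_nonneg fun d _ => hmid d]
    refine add_le_add (hb' r) (Finset.sum_le_sum fun d hd => ?_)
    have hlo : lo ≤ d := (Finset.mem_Ico.1 hd).1
    rw [ENNReal.ofReal_sum_of_nonneg fun a _ => hin d a]
    refine Finset.sum_le_sum fun a ha => ?_
    rw [ENNReal.ofReal_sum_of_nonneg fun a' _ => hterm d a a']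
    refine Finset.sum_le_sum fun a' ha' => ?_
    have ha1 : a ≤ D := Nat.lt_succ_iff.1 (Finset.mem_range.1 ha)
    have ha2 : a' ≤ D := Nat.lt_succ_iff.1 (Finset.mem_range.1 ha')
    rw [ENNReal.ofReal_mul (hfac d a a')]
    exact mul_le_mul' (h d r a a' hlo hr ha1 ha2) (ih d a' ha2)

end Pool.Agent.RPL
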