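import Pool.Agent.RPL.AList

/-!
Project RPL, part A, module ANear: the fold condition only sees the near parts.

PAPER PROOF. If `wd A x = r ≤ n` and `w` has no level among `1, ..., n - r` then the levels `≤ n` of `x ++ w` are the levels of `x` (all of them are `≤ r`), with the same displacements (`At_append_le`; a level `i` with `r < i ≤ n`
of `x ++ w` would be the level `i - r` of `w`, `Lv_append`). So `∀ i x0, i ≤ n → (At A (x ++ w) i x0 ↔ At A x i x0)` (`near`), and `Sgz A κ n` only uses the levels `≤ n`.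
-/

set_option autoImplicit false

namespace Pool.Agent.RPL

open Finset

variable {A : Alph}

theorem near {n : ℕ} {x w : List A.ι} (hx : wd A x ≤ n) (hw : NL A (n - wd A x) w) (i : ℕ) (z : ℤ) (hi : i ≤ n) :
    At A (x ++ w) i z ↔ At A x i z := by
  rcases le_or_gt i (wd A x) with h | h
  · exact At_append_le x w z h
  · constructor
    · intro h1
      exfalso
      have h2 : Lv A (x ++ w) (wd A x + (i - wd A x)) := by
        have : wd A x + (i - wd A x) = i := by omega
        rw [this]
        exact At_Lv h1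
      exact hw (i - wd A x) (by omega) (by omega) ((Lv_append x w _).1 h2)
    · intro h1
      have := Lv_le (At_Lv h1)
      omega

theorem Sgz_left {κ n : ℕ} {x w : List A.ι} (Y : List A.ι) (hx : wd A x ≤ n) (hw : NL A (n - wd A x) w) :
    Sgz A κ n (x ++ w) Y ↔ Sgz A κ n x Y := by
  unfold Sgz
  constructor
  · rintro ⟨i0, h0, h1, h2⟩
    refine ⟨i0, h0, fun i u v hi hn hu hv => h1 i u v hi hn ((near hx hw i u hn).2 hu) hv, ?_⟩
    rcases h2 with h2 | h2
    · exact Or.inl fun i u v hi hn hu hv => h2 i u v hi hn ((near hx hw i u hn).2 hu) hv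
    · exact Or.inr fun i u v hi hn hu hv => h2 i u v hi hn ((near hx hw i u hn).2 hu) hv
  · rintro ⟨i0, h0, h1, h2⟩
    refine ⟨i0, h0, fun i u v hi hn hu hv => h1 i u v hi hn ((near hx hw i u hn).1 hu) hv, ?_⟩
    rcases h2 with h2 | h2
    · exact Or.inl fun i u v hi hn hu hv => h2 i u v hi hn ((near hx hw i u hn).1 hu) hv
    · exact Or.inr fun i u v hi hn hu hv => h2 i u v hi hn ((near hx hw i u hn).1 hu) hv

theorem Sgz_right {κ n : ℕ} {x w : List A.ι} (Y : List A.ι) (hx : wd A x ≤ n) (hw : NL A (n - wd A x) w) :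
    Sgz A κ n Y (x ++ w) ↔ Sgz A κ n Y x := by
  unfold Sgz
  constructor
  · rintro ⟨i0, h0, h1, h2⟩
    refine ⟨i0, h0, fun i u v hi hn hu hv => h1 i u v hi hn hu ((near hx hw i v hn).2 hv), ?_⟩
    rcases h2 with h2 | h2
    · exact Or.inl fun i u v hi hn hu hv => h2 i u v hi hn hu ((near hx hw i v hn).2 hv)
    · exact Or.inr fun i u v hi hn hu hv => h2 i u v hi hn hu ((near hx hw i v hn).2 hv)
  · rintro ⟨i0, h0, h1, h2⟩
    refine ⟨i0, h0, fun i u v hi hn hu hv => h1 i u v hi hn hu ((near hx hw i v hn).1 hv), ?_⟩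
    rcases h2 with h2 | h2
    · exact Or.inl fun i u v hi hn hu hv => h2 i u v hi hn hu ((near hx hw i v hn).1 hv)
    · exact Or.inr fun i u v hi hn hu hv => h2 i u v hi hn hu ((near hx hw i v hn).1 hv)

end Pool.Agent.RPL
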