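import Pool.Agent.RPL.ATwo
import Pool.Agent.RPL.ANear

/-!
Project RPL, part A, module AChain: the chains of one scale are products of matrices.

PAPER PROOF. Compare `Pool/Agent/ZLF/ChainM.lean`. Here `Y = x ++ (M ++ x'.reverse)` with `x ∈ Lr A a`, `M ∈ MW A (m - a - a') (D - a) (D - a')`, `x' ∈ Lr A a'`, `a, a' ≤ D`, `2 * D < m`.
(1) `Y.reverse = x' ++ (M.reverse ++ x.reverse)`, and `M.reverse ++ x.reverse` has no level among `1, ..., D - a'` (`Lv_append_le`, as `D - a' ≤ m - a - a' = wd A M`, and `M ∈ MW`); so by `Sgz_left`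
`Wc A κ R C2 D lo y K d Y = Wc A κ R C2 D lo y K d x'.reverse` (only the condition `Sgz A κ D Y.reverse Y'` at the top depends on `Y`; `K = 0` trivial; `(x'.reverse).reverse = x'`).
(2) For `x0 ∈ Lr A r`, `r ≤ D`: `Sgz A κ D x0 Y ↔ Sgz A κ D x0 x` (`Sgz_right`, as `M ++ x'.reverse` has no level among `1, ..., D - a`).
(3) `chain_vec`: `s1 A (Lr A r) (fun x0 => Wc A κ R C2 D lo y K h x0.reverse) ≤ chE D lo w (bb A) (g2 A κ D) (fun d => Wm A D (d / R)) K h r` for `r ≤ D`, with `w d = C2 * y ^ (d / R)` (equality even): induction on `K` for all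
`h`, `r`. `K = 0`: `s1_const`. `K + 1`: `Wc (K + 1) h x0.reverse = 1 + ∑ d, w d * s1 A (Lr A (d / R)) (fun Y => if Sgz A κ D x0 Y then Wc K d Y else 0)` (`List.reverse_reverse`); by `two_dec` (`m = d / R`), (1), (2) the `s1` over `Y` is
`∑ a a', s1 (Lr A a) (fun x => if Sgz A κ D x0 x then 1 else 0) * Wm A D m a a' * s1 (Lr A a') (fun x' => Wc K d x'.reverse)`; sum over `x0`: `g2 A κ D r a`; induction hypothesis for `r = a'`.
(4) `chain_sm`: `two_dec` and (1), then (3) for `r = a'`.
-/

set_option autoImplicit false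

namespace Pool.Agent.RPL

open Finset
open scoped ENNReal NNReal

variable {A : Alph}

private theorem tail_NL {k p : ℕ} {Z W : List A.ι} (hZ : wd A Z = k) (hp : p ≤ k) (hN : NL A p Z) : NL A p (Z ++ W) := by
  intro i h1 h2 h3
  exact hN i h1 h2 ((Lv_append_le Z W (by omega)).1 h3)

private theorem chain_Wc {κ R : ℕ} {C2 : ℝ≥0∞} {D lo : ℕ} (y : ℝ≥0∞) (K d : ℕ) {m a a' : ℕ} (hm : 2 * D < m)
    (ha : a ≤ D) (ha' : a' ≤ D) {x M x' : List A.ι} (hM : M ∈ MW A (m - a - a') (D - a) (D - a'))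
    (hx' : x' ∈ Lr A a') : Wc A κ R C2 D lo y K d (x ++ (M ++ x'.reverse)) = Wc A κ R C2 D lo y K d x'.reverse := by
  classical
  cases K with
  | zero => rfl
  | succ K =>
    have hx1 : wd A x' = a' := hx'
    have hk : (x ++ (M ++ x'.reverse)).reverse = x' ++ (M.reverse ++ x.reverse) := by
      rw [List.reverse_append, List.reverse_append, List.reverse_reverse, List.append_assoc]
    have h2 : NL A (D - wd A x') (M.reverse ++ x.reverse) := by
      rw [hx1]
      refine tail_NL (k := m - a - a') ?_ (by omega) hM.2.2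
      rw [wd_reverse]
      exact hM.1
    have hS : ∀ Y : List A.ι, Sgz A κ D (x ++ (M ++ x'.reverse)).reverse Y ↔ Sgz A κ D x'.reverse.reverse Y := by
      intro Y
      rw [hk, List.reverse_reverse]
      exact Sgz_left Y (by omega) h2
    simp only [Wc]
    refine congrArg _ (Finset.sum_congr rfl fun e _ => congrArg _ (s1_congr fun Y _ => ?_))
    exact if_congr (hS Y) rfl rfl

private theorem chain_Sgz {κ D m a a' : ℕ} (hm : 2 * D < m) (ha : a ≤ D) (ha' : a' ≤ D) {x M x' : List A.ι} (x0 : List A.ι)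
    (hx : x ∈ Lr A a) (hM : M ∈ MW A (m - a - a') (D - a) (D - a')) :
    Sgz A κ D x0 (x ++ (M ++ x'.reverse)) ↔ Sgz A κ D x0 x := by
  have hx1 : wd A x = a := hx
  have h2 : NL A (D - wd A x) (M ++ x'.reverse) := by
    rw [hx1]
    exact tail_NL (k := m - a - a') hM.1 (by omega) hM.2.1
  exact Sgz_right x0 (by omega) h2

private theorem s1_const' (S : Set (List A.ι)) (c : ℝ≥0∞) : s1 A S (fun _ => c) = s1 A S (fun _ => 1) * c := by
  have h := s1_mul_const (A := A) S c (fun _ => 1)
  simp only [one_mul] at h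
  exact h

theorem chain_vec (κ R : ℕ) (C2 : ℝ≥0∞) (D lo : ℕ) (hlo : ∀ d, lo ≤ d → 2 * D < d / R) (y : ℝ≥0∞) (K h r : ℕ) (hr : r ≤ D) :
    s1 A (Lr A r) (fun x0 => Wc A κ R C2 D lo y K h x0.reverse) ≤
      chE D lo (fun d => C2 * y ^ (d / R)) (bb A) (g2 A κ D) (fun d => Wm A D (d / R)) K h r := by
  classical
  induction K generalizing h r with
  | zero =>
    simp only [Wc, chE]
    exact le_rfl
  | succ K ih =>
    simp only [Wc, chE, List.reverse_reverse]
    rw [s1_add, s1_sum]
    refine add_le_add le_rfl (Finset.sum_le_sum fun d hd => ?_)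
    rw [Finset.mem_Ico] at hd
    rw [s1_const_mul]
    refine mul_le_mul_right ?_ _
    have hm := hlo d hd.1
    have key : ∀ x0 ∈ Lr A r, s1 A (Lr A (d / R)) (fun Y => if Sgz A κ D x0 Y then Wc A κ R C2 D lo y K d Y else 0) =
        ∑ a ∈ range (D + 1), ∑ a' ∈ range (D + 1),
          s1 A (Lr A a) (fun x => if Sgz A κ D x0 x then 1 else 0) *
            (Wm A D (d / R) a a' * s1 A (Lr A a') (fun x' => Wc A κ R C2 D lo y K d x'.reverse)) := by
      intro x0 _
      rw [two_dec D (d / R) hm]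
      refine Finset.sum_congr rfl fun a ha => Finset.sum_congr rfl fun a' ha' => ?_
      rw [Finset.mem_range] at ha ha'
      rw [← s1_mul_const]
      refine s1_congr fun x hx => ?_
      have h2 : ∀ M ∈ MW A (d / R - a - a') (D - a) (D - a'),
          s1 A (Lr A a') (fun x' => if Sgz A κ D x0 (x ++ (M ++ x'.reverse)) then
            Wc A κ R C2 D lo y K d (x ++ (M ++ x'.reverse)) else 0) =
          (if Sgz A κ D x0 x then 1 else 0) * s1 A (Lr A a') (fun x' => Wc A κ R C2 D lo y K d x'.reverse) := by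
        intro M hM
        rw [← s1_const_mul]
        refine s1_congr fun x' hx' => ?_
        rw [chain_Wc y K d hm (by omega) (by omega) hM hx']
        simp only [chain_Sgz hm (by omega : a ≤ D) (by omega : a' ≤ D) x0 hx hM]
        split_ifs <;> simp
      rw [s1_congr h2, s1_const']
      unfold Wm
      ring
    rw [s1_congr key, s1_sum]
    refine Finset.sum_le_sum fun a ha => ?_
    rw [s1_sum]
    refine Finset.sum_le_sum fun a' ha' => ?_
    rw [Finset.mem_range] at ha ha'
    rw [s1_mul_const, ← mul_assoc]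
    exact mul_le_mul_right (ih d a' (by omega)) _

theorem chain_sm (κ R : ℕ) (C2 : ℝ≥0∞) (D lo : ℕ) (hlo : ∀ d, lo ≤ d → 2 * D < d / R) (y : ℝ≥0∞) (K d : ℕ) (hd : lo ≤ d) :
    s1 A (Lr A (d / R)) (Wc A κ R C2 D lo y K d) ≤
      ∑ a ∈ range (D + 1), ∑ a' ∈ range (D + 1), bb A a * Wm A D (d / R) a a' *
        chE D lo (fun d => C2 * y ^ (d / R)) (bb A) (g2 A κ D) (fun d => Wm A D (d / R)) K d a' := by
  have hm := hlo d hd
  rw [two_dec D (d / R) hm]
  refine Finset.sum_le_sum fun a ha => Finset.sum_le_sum fun a' ha' => ?_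
  rw [Finset.mem_range] at ha ha'
  have h1 : s1 A (Lr A a) (fun x => s1 A (MW A (d / R - a - a') (D - a) (D - a')) (fun M =>
      s1 A (Lr A a') (fun x' => Wc A κ R C2 D lo y K d (x ++ (M ++ x'.reverse))))) =
      bb A a * Wm A D (d / R) a a' * s1 A (Lr A a') (fun x' => Wc A κ R C2 D lo y K d x'.reverse) := by
    have h2 : ∀ x ∈ Lr A a, s1 A (MW A (d / R - a - a') (D - a) (D - a')) (fun M =>
        s1 A (Lr A a') (fun x' => Wc A κ R C2 D lo y K d (x ++ (M ++ x'.reverse)))) =
        Wm A D (d / R) a a' * s1 A (Lr A a') (fun x' => Wc A κ R C2 D lo y K d x'.reverse) := by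
      intro x _
      have h3 : ∀ M ∈ MW A (d / R - a - a') (D - a) (D - a'),
          s1 A (Lr A a') (fun x' => Wc A κ R C2 D lo y K d (x ++ (M ++ x'.reverse))) =
          s1 A (Lr A a') (fun x' => Wc A κ R C2 D lo y K d x'.reverse) := fun M hM =>
        s1_congr fun x' hx' => chain_Wc y K d hm (by omega) (by omega) hM hx'
      rw [s1_congr h3, s1_const']
      rfl
    rw [s1_congr h2, s1_const, mul_assoc]
  rw [h1]
  exact mul_le_mul_right (chain_vec κ R C2 D lo hlo y K d a' (by omega)) _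

end Pool.Agent.RPL
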