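import Pool.Agent.RPL.AList

/-!
Project RPL, part A, module AIpd: the irreducible pairs by their difference.

PAPER PROOF. As in `Pool/Agent/ZCS/GpB.lean`: `ipd_sum`: partition of `IP A i` by the value of `δ`; `ipd_symm`: exchange of the two lists.
-/

set_option autoImplicit false

namespace Pool.Agent.RPL

open Finset
open scoped ENNReal NNReal

variable {A : Alph}

theorem ipd_sum (i : ℕ) : ∑' δ : ℤ, gf2 A (IPd A i δ) = ff A i := by
  unfold ff gf2 s2
  have h1 : ∀ δ : ℤ, (∑' l : IPd A i δ, mm A (l : List A.ι × List A.ι).1 * mm A (l : List A.ι × List A.ι).2 * 1) =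
      ∑' l : IP A i, if ds A (l : List A.ι × List A.ι).1 - ds A (l : List A.ι × List A.ι).2 = δ
        then mm A (l : List A.ι × List A.ι).1 * mm A (l : List A.ι × List A.ι).2 * 1 else 0 := by
    intro δ
    rw [tsum_subtype (IPd A i δ) (fun l : List A.ι × List A.ι => mm A l.1 * mm A l.2 * 1),
      tsum_subtype (IP A i) (fun l : List A.ι × List A.ι => if ds A l.1 - ds A l.2 = δ then
        mm A l.1 * mm A l.2 * 1 else 0)]
    refine tsum_congr fun l => ?_
    by_cases h : l ∈ IP A i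
    · by_cases h2 : ds A l.1 - ds A l.2 = δ
      · rw [Set.indicator_of_mem (show l ∈ IPd A i δ from ⟨h, h2⟩), Set.indicator_of_mem h,
          if_pos h2]
      · rw [Set.indicator_of_notMem (fun h3 : l ∈ IPd A i δ => h2 h3.2), Set.indicator_of_mem h,
          if_neg h2]
    · rw [Set.indicator_of_notMem (fun h3 : l ∈ IPd A i δ => h h3.1), Set.indicator_of_notMem h]
  rw [tsum_congr h1, ENNReal.tsum_comm]
  refine tsum_congr fun l => ?_
  exact (tsum_eq_single _ (fun b hb => if_neg (Ne.symm hb))).trans (if_pos rfl)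

private theorem ipd_swap {i : ℕ} {δ : ℤ} {p : List A.ι × List A.ι} (hp : p ∈ IPd A i δ) :
    p.swap ∈ IPd A i (-δ) := by
  obtain ⟨⟨h1, h2, h3⟩, h4⟩ := hp
  refine ⟨⟨h2, h1, fun j hj1 hj2 hj => h3 j hj1 hj2 ⟨hj.2, hj.1⟩⟩, ?_⟩
  simp only [Prod.fst_swap, Prod.snd_swap]
  omega

theorem ipd_symm (i : ℕ) (δ : ℤ) : gf2 A (IPd A i (-δ)) = gf2 A (IPd A i δ) := by
  unfold gf2 s2
  let e : IPd A i δ ≃ IPd A i (-δ) :=
    { toFun := fun p => ⟨p.1.swap, ipd_swap p.2⟩
      invFun := fun p => ⟨p.1.swap, by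
        have h := ipd_swap p.2
        rwa [neg_neg] at h⟩
      left_inv := fun p => Subtype.ext (Prod.swap_swap _)
      right_inv := fun p => Subtype.ext (Prod.swap_swap _) }
  rw [← e.tsum_eq (fun p : IPd A i (-δ) => mm A (p : List A.ι × List A.ι).1 * mm A (p : List A.ι × List A.ι).2 * 1)]
  refine tsum_congr fun p => ?_
  show mm A p.1.2 * mm A p.1.1 * 1 = mm A p.1.1 * mm A p.1.2 * 1
  rw [mul_comm (mm A p.1.2)]

end Pool.Agent.RPL
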