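import Pool.Agent.RPL.ARen
import Pool.Agent.RPL.AIpd
import Pool.Agent.ZCS.LadC

/-!
Project RPL, part A, module AEw: the masses of the positive block sequences.

PAPER PROOF. `ew_zero`, `ew_conv`, `ew_last`: as in `Pool/Agent/ZLF/Ew.lean` (`lad_conv` of ZCS/LadC with `c i δ = gf2 A (IPd A i δ)`, `u r = (bb A r) ^ 2`; the private lemma `Ew_last` there is for arbitrary `c`,
copy it). `fp_step`: the first block has width 1 and positive difference `δ > 0`: `ew A (l + 1) = gw c (l + 1) 0 ≥ ∑' δ, if 0 < δ then c 0 δ * gw c l δ else 0` (`gw_succ`, the term `i = 0`), and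
`gw c l x ≥ gw c l 0` for `x ≥ 0` (`gw c l` is monotone in `x`: strong induction on `l`, `gw_succ`). `fp_ne`: by `A.pos` there are letters `a`, `b` of width 1 with `dl a ≠ dl b` and positive masses; for
`dl b < dl a` the pair `([a], [b])` is in `IPd A 0 (dl a - dl b)` (`NCo A 0` is trivial), so `fp A ≥ ms a * ms b > 0`; otherwise exchange them. `fp_le`: `fp A ≤ ff A 0 ≤ 1` (`ipd_sum`, `ff_sum 1`).
-/

set_option autoImplicit false

namespace Pool.Agent.RPL

open Finset Pool.Agent.ZCS
open scoped ENNReal NNReal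

variable {A : Alph}

private theorem AEw_tri (f : ℕ → ℕ → ℝ≥0∞) (r : ℕ) :
    ∑ i ∈ range (r + 1), ∑ j ∈ range (r - i + 1), f i j =
      ∑ j ∈ range (r + 1), ∑ i ∈ range (r - j + 1), f i j := by
  rw [Finset.sum_sigma', Finset.sum_sigma']
  refine Finset.sum_bij' (fun p _ => ⟨p.2, p.1⟩) (fun p _ => ⟨p.2, p.1⟩) ?_ ?_ ?_ ?_ ?_
  · rintro ⟨i, j⟩ h
    simp only [Finset.mem_sigma, Finset.mem_range] at h ⊢
    omega
  · rintro ⟨i, j⟩ h
    simp only [Finset.mem_sigma, Finset.mem_range] at h ⊢
    omega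
  · rintro ⟨i, j⟩ _
    rfl
  · rintro ⟨i, j⟩ _
    rfl
  · rintro ⟨i, j⟩ _
    rfl

private theorem AEw_last (c : ℕ → ℤ → ℝ≥0∞) (r : ℕ) : ∀ x : ℤ,
    gw c (r + 1) x ≤ ∑ i ∈ range (r + 1), (∑' δ : ℤ, c i δ) * gw c (r - i) x := by
  induction r using Nat.strong_induction_on with
  | _ r ih =>
    intro x
    cases r with
    | zero =>
      rw [gw_succ, Finset.sum_range_one, Finset.sum_range_one, Nat.sub_zero, gw_zero, mul_one]
      refine ENNReal.tsum_le_tsum fun δ => ?_
      by_cases h : 0 < x + δ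
      · rw [if_pos h, gw_zero, mul_one]
      · rw [if_neg h]
        exact zero_le
    | succ r =>
      rw [gw_succ, Finset.sum_range_succ, Finset.sum_range_succ _ (r + 1)]
      refine add_le_add ?_ ?_
      · have h1 : ∀ i ∈ range (r + 1), (∑' δ : ℤ, if 0 < x + δ then
            c i δ * gw c (r + 1 - i) (x + δ) else 0) ≤
            ∑ j ∈ range (r - i + 1), (∑' d : ℤ, c j d) * ∑' δ : ℤ, if 0 < x + δ then
              c i δ * gw c (r - i - j) (x + δ) else 0 := by
          intro i hi
          rw [Finset.mem_range] at hi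
          have e1 : r + 1 - i = r - i + 1 := by omega
          rw [e1]
          calc (∑' δ : ℤ, if 0 < x + δ then c i δ * gw c (r - i + 1) (x + δ) else 0)
              ≤ ∑' δ : ℤ, ∑ j ∈ range (r - i + 1), (∑' d : ℤ, c j d) *
                  (if 0 < x + δ then c i δ * gw c (r - i - j) (x + δ) else 0) := by
                refine ENNReal.tsum_le_tsum fun δ => ?_
                by_cases h : 0 < x + δ
                · simp only [h, if_true]
                  refine (mul_le_mul_right (ih (r - i) (by omega) (x + δ)) _).trans (le_of_eq ?_)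
                  rw [Finset.mul_sum]
                  refine Finset.sum_congr rfl fun j _ => ?_
                  ring
                · simp [h]
            _ = _ := by
                rw [Summable.tsum_finsetSum (fun i _ => ENNReal.summable)]
                refine Finset.sum_congr rfl fun j _ => ?_
                rw [ENNReal.tsum_mul_left]
        refine (Finset.sum_le_sum h1).trans (le_of_eq ?_)
        rw [AEw_tri (fun i j => (∑' d : ℤ, c j d) * ∑' δ : ℤ, if 0 < x + δ then
              c i δ * gw c (r - i - j) (x + δ) else 0) r]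
        refine Finset.sum_congr rfl fun j hj => ?_
        rw [Finset.mem_range] at hj
        have e1 : r + 1 - j = r - j + 1 := by omega
        rw [e1, gw_succ, Finset.mul_sum]
        refine Finset.sum_congr rfl fun i _ => ?_
        have e2 : r - i - j = r - j - i := by omega
        rw [e2]
      · rw [Nat.sub_self, gw_zero, mul_one]
        refine ENNReal.tsum_le_tsum fun δ => ?_
        by_cases h : 0 < x + δ
        · rw [if_pos h, gw_zero, mul_one]
        · rw [if_neg h]
          exact zero_le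

private theorem AEw_mono (c : ℕ → ℤ → ℝ≥0∞) (l : ℕ) : ∀ {x y : ℤ}, x ≤ y → gw c l x ≤ gw c l y := by
  induction l using Nat.strong_induction_on with
  | _ l ih =>
    intro x y hxy
    cases l with
    | zero => rw [gw_zero, gw_zero]
    | succ l =>
      rw [gw_succ, gw_succ]
      refine Finset.sum_le_sum fun i _ => ENNReal.tsum_le_tsum fun δ => ?_
      by_cases h : 0 < x + δ
      · rw [if_pos h, if_pos (by omega)]
        exact mul_le_mul_right (ih (l - i) (by omega) (by omega)) _
      · rw [if_neg h]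
        exact zero_le

private theorem AEw_ne {a b : A.ι} (ha : A.w a = 1) (hb : A.w b = 1) (h1 : A.ms a ≠ 0) (h2 : A.ms b ≠ 0)
    (h : A.dl b < A.dl a) : fp A ≠ 0 := by
  have hm : (([a], [b]) : List A.ι × List A.ι) ∈ IPd A 0 (A.dl a - A.dl b) := by
    refine ⟨⟨?_, ?_, ?_⟩, ?_⟩
    · show wd A [a] = 0 + 1
      rw [wd_singleton, ha]
    · show wd A [b] = 0 + 1
      rw [wd_singleton, hb]
    · intro i hi hi'
      omega
    · show ds A [a] - ds A [b] = A.dl a - A.dl b
      unfold ds
      simp
  have e1 : A.ms a * A.ms b ≤ gf2 A (IPd A 0 (A.dl a - A.dl b)) := by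
    unfold gf2 s2
    have h3 := ENNReal.le_tsum (f := fun p : IPd A 0 (A.dl a - A.dl b) =>
      mm A (p : List A.ι × List A.ι).1 * mm A (p : List A.ι × List A.ι).2 * (1 : ℝ≥0∞)) ⟨([a], [b]), hm⟩
    refine le_trans (le_of_eq ?_) h3
    show A.ms a * A.ms b = mm A [a] * mm A [b] * 1
    unfold mm
    simp
  have e2 : gf2 A (IPd A 0 (A.dl a - A.dl b)) ≤ fp A := by
    unfold fp
    have h3 := ENNReal.le_tsum (f := fun δ : ℤ => if 0 < δ then gf2 A (IPd A 0 δ) else 0) (A.dl a - A.dl b)
    simp only [if_pos (show 0 < A.dl a - A.dl b by omega)] at h3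
    exact h3
  intro h0
  rw [h0] at e2
  have h3 : A.ms a * A.ms b = 0 := le_antisymm (e1.trans e2) zero_le
  exact (mul_ne_zero h1 h2) h3

theorem ew_zero : ew A 0 = 1 := by
  exact gw_zero _ _

theorem ew_conv (r : ℕ) : ∑ k ∈ range (r + 1), ew A k * ew A (r - k) ≤ (bb A r) ^ 2 := by
  have h := lad_conv (fun i δ => gf2 A (IPd A i δ)) (fun i δ => ipd_symm i δ)
    (fun r => (bb A r) ^ 2) (by simp only [bb_zero, one_pow])
    (fun r => by
      simp only [ipd_sum]
      exact ren_eq r) r
  exact h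

theorem ew_last (r : ℕ) : ew A (r + 1) ≤ ∑ i ∈ range (r + 1), ff A i * ew A (r - i) := by
  have h := AEw_last (fun i δ => gf2 A (IPd A i δ)) r 0
  simp only [ipd_sum] at h
  exact h

theorem fp_step (l : ℕ) : fp A * ew A l ≤ ew A (l + 1) := by
  have h1 : fp A * ew A l ≤ ∑' δ : ℤ, if 0 < (0 : ℤ) + δ then
      gf2 A (IPd A 0 δ) * gw (fun i δ => gf2 A (IPd A i δ)) (l - 0) (0 + δ) else 0 := by
    unfold fp ew
    rw [← ENNReal.tsum_mul_right]
    refine ENNReal.tsum_le_tsum fun δ => ?_
    by_cases h : 0 < δ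
    · rw [if_pos h, if_pos (by omega), Nat.sub_zero]
      exact mul_le_mul_right (AEw_mono _ l (by omega)) _
    · rw [if_neg h, zero_mul]
      exact zero_le
  refine h1.trans ?_
  unfold ew
  rw [gw_succ]
  exact Finset.single_le_sum (f := fun i => ∑' δ : ℤ, if 0 < (0 : ℤ) + δ then
      gf2 A (IPd A i δ) * gw (fun i δ => gf2 A (IPd A i δ)) (l - i) (0 + δ) else 0)
    (fun i _ => zero_le) (Finset.mem_range.2 (Nat.succ_pos l))

theorem fp_ne : fp A ≠ 0 := by
  obtain ⟨a, b, ha, hb, hab, h1, h2⟩ := A.pos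
  rcases lt_or_gt_of_ne hab with h | h
  · exact AEw_ne hb ha h2 h1 h
  · exact AEw_ne ha hb h1 h2 h

theorem fp_le : fp A ≤ 1 := by
  have h1 : fp A ≤ ff A 0 := by
    rw [← ipd_sum]
    refine ENNReal.tsum_le_tsum fun δ => ?_
    by_cases h : 0 < δ
    · rw [if_pos h]
    · rw [if_neg h]
      exact zero_le
  have h2 := ff_sum (A := A) 1
  rw [Finset.sum_range_one] at h2
  exact h1.trans h2

end Pool.Agent.RPL
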