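import Pool.Agent.RPL.AList

/-!
Project RPL, part A, module APair: pairs of lists, decomposed at their last common level.

PAPER PROOF. This is `cob_dec`, `cc_dec` of `Pool/Agent/ZLF/CDec.lean` for lists of letters. `cob_dec`: the map
`(l, a, b) ↦ (a.1 ++ b.1, a.2 ++ b.2)` from the disjoint union over `l ≤ min r s` of `CC A l × NCC A (r - l) (s - l)` to `Lr A r × Lr A s` is a bijection: `wd_append`; `l` is determined: for
`l < l'` the level `l'` would be a common level `l' - l ≥ 1` of `b` (`Lv_append`), against `NCo`; then `pre_unique`. Surjective: take the greatest `l ≤ min r s` (`Nat.findGreatest`) which is a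
common level (`Lv_zero`) and cut both lists there; the rests have no common level `i` with `1 ≤ i ≤ r - l` (`Lv_append`, `Lv_le`).
`mm_append` for the masses. `cc_dec`: `F = 1` (`s1_const`). `pair_sum`: a pair of lists of width `r`.
-/

set_option autoImplicit false

namespace Pool.Agent.RPL

open Finset
open scoped ENNReal NNReal

variable {A : Alph}

private theorem APair_lt {r s l l' : ℕ} (hl' : l' ≤ min r s) {a b a' b' : List A.ι × List A.ι} (ha : a ∈ CC A l)
    (hb : b ∈ NCC A (r - l) (s - l)) (ha' : a' ∈ CC A l')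
    (h1 : a.1 ++ b.1 = a'.1 ++ b'.1) (h2 : a.2 ++ b.2 = a'.2 ++ b'.2) : ¬ l < l' := by
  intro hlt
  have hr : l' ≤ r := hl'.trans (min_le_left _ _)
  have g1 : Lv A (a.1 ++ b.1) (wd A a.1 + (l' - l)) := by
    rw [h1]
    refine ⟨a'.1, b'.1, rfl, ?_⟩
    rw [ha'.1, ha.1]
    omega
  have g2 : Lv A (a.2 ++ b.2) (wd A a.2 + (l' - l)) := by
    rw [h2]
    refine ⟨a'.2, b'.2, rfl, ?_⟩
    rw [ha'.2, ha.2]
    omega
  exact hb.2.2 (l' - l) (by omega) (by omega)
    ⟨(Lv_append _ _ _).1 g1, (Lv_append _ _ _).1 g2⟩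

theorem cob_dec (r s : ℕ) (F : List A.ι → List A.ι → ℝ≥0∞) :
    s1 A (Lr A r) (fun x => s1 A (Lr A s) (fun x' => F x x')) =
      ∑ l ∈ range (min r s + 1), s2 A (CC A l) (fun a b => s2 A (NCC A (r - l) (s - l)) (fun c d => F (a ++ c) (b ++ d))) := by
  classical
  let S : Type := Σ l : Fin (min r s + 1), (CC A (l : ℕ) × NCC A (r - l) (s - l))
  have hmem : ∀ x : S, (x.2.1 : List A.ι × List A.ι).1 ++ (x.2.2 : List A.ι × List A.ι).1 ∈ Lr A r ∧
      (x.2.1 : List A.ι × List A.ι).2 ++ (x.2.2 : List A.ι × List A.ι).2 ∈ Lr A s := by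
    rintro ⟨l, a, b⟩
    have hl : (l : ℕ) ≤ min r s := by have := l.2; omega
    have hlr : (l : ℕ) ≤ r := hl.trans (min_le_left _ _)
    have hls : (l : ℕ) ≤ s := hl.trans (min_le_right _ _)
    constructor
    · show wd A _ = r
      rw [wd_append]
      have e1 : wd A (a : List A.ι × List A.ι).1 = l := a.2.1
      have e2 : wd A (b : List A.ι × List A.ι).1 = r - l := b.2.1
      simp only [e1, e2]
      omega
    · show wd A _ = s
      rw [wd_append]
      have e1 : wd A (a : List A.ι × List A.ι).2 = l := a.2.2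
      have e2 : wd A (b : List A.ι × List A.ι).2 = s - l := b.2.2.1
      simp only [e1, e2]
      omega
  let f : S → Lr A r × Lr A s := fun x => (⟨_, (hmem x).1⟩, ⟨_, (hmem x).2⟩)
  have hf : Function.Bijective f := by
    constructor
    · rintro ⟨l, a, b⟩ ⟨l', a', b'⟩ he
      have h1 : (a : List A.ι × List A.ι).1 ++ (b : List A.ι × List A.ι).1 =
          (a' : List A.ι × List A.ι).1 ++ (b' : List A.ι × List A.ι).1 :=
        congrArg (fun x => (x.1 : List A.ι)) he
      have h2 : (a : List A.ι × List A.ι).2 ++ (b : List A.ι × List A.ι).2 =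
          (a' : List A.ι × List A.ι).2 ++ (b' : List A.ι × List A.ι).2 :=
        congrArg (fun x => (x.2 : List A.ι)) he
      have hl : (l : ℕ) ≤ min r s := by have := l.2; omega
      have hl' : (l' : ℕ) ≤ min r s := by have := l'.2; omega
      have k1 := APair_lt hl' a.2 b.2 a'.2 h1 h2
      have k2 := APair_lt hl a'.2 b'.2 a.2 h1.symm h2.symm
      have hll : l = l' := Fin.ext (by omega)
      subst hll
      obtain ⟨x1, y1⟩ := pre_unique h1 (a.2.1.trans a'.2.1.symm)
      obtain ⟨x2, y2⟩ := pre_unique h2 (a.2.2.trans a'.2.2.symm)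
      have ea : a = a' := Subtype.ext (Prod.ext x1 x2)
      have eb : b = b' := Subtype.ext (Prod.ext y1 y2)
      rw [ea, eb]
    · rintro ⟨⟨P, hP⟩, ⟨Q, hQ⟩⟩
      let p : ℕ → Prop := fun i => Lv A P i ∧ Lv A Q i
      have h0 : p 0 := ⟨Lv_zero P, Lv_zero Q⟩
      have hsp : p (Nat.findGreatest p (min r s)) := Nat.findGreatest_spec (Nat.zero_le _) h0
      have hle : Nat.findGreatest p (min r s) ≤ min r s := Nat.findGreatest_le _
      have hgr : ∀ k, Nat.findGreatest p (min r s) < k → k ≤ min r s → ¬ p k := fun k hk hk' =>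
        Nat.findGreatest_is_greatest hk hk'
      generalize Nat.findGreatest p (min r s) = l at hsp hle hgr
      have hlr : l ≤ r := hle.trans (min_le_left _ _)
      have hls : l ≤ s := hle.trans (min_le_right _ _)
      obtain ⟨⟨u, v, e1, hu⟩, ⟨u', v', e2, hu'⟩⟩ := hsp
      have hPw : wd A P = r := hP
      have hQw : wd A Q = s := hQ
      have w1 : wd A v = r - l := by
        rw [e1, wd_append] at hPw
        omega
      have w2 : wd A v' = s - l := by
        rw [e2, wd_append] at hQw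
        omega
      have hnc : NCo A (r - l) v v' := by
        intro i hi hin hc
        have his : i ≤ s - l := by
          rw [← w2]
          exact Lv_le hc.2
        refine hgr (l + i) (by omega) (le_min (by omega) (by omega)) ⟨?_, ?_⟩
        · rw [e1, ← hu]
          exact (Lv_append _ _ _).2 hc.1
        · rw [e2, ← hu']
          exact (Lv_append _ _ _).2 hc.2
      refine ⟨⟨⟨l, by omega⟩, ⟨(u, u'), hu, hu'⟩, ⟨(v, v'), w1, w2, hnc⟩⟩, ?_⟩
      exact Prod.ext (Subtype.ext e1.symm) (Subtype.ext e2.symm)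
  have h1 : s1 A (Lr A r) (fun P => s1 A (Lr A s) (fun Q => F P Q)) =
      ∑' p : Lr A r × Lr A s, mm A (p.1 : List A.ι) * mm A (p.2 : List A.ι) * F p.1 p.2 := by
    unfold s1
    rw [ENNReal.tsum_prod (f := fun (P : Lr A r) (Q : Lr A s) =>
      mm A (P : List A.ι) * mm A (Q : List A.ι) * F P Q)]
    refine tsum_congr fun P => ?_
    rw [← ENNReal.tsum_mul_left]
    refine tsum_congr fun Q => ?_
    rw [mul_assoc]
  have h2 : (∑ l ∈ range (min r s + 1), s2 A (CC A l) (fun a b => s2 A (NCC A (r - l) (s - l))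
        (fun c d => F (a ++ c) (b ++ d)))) =
      ∑' x : S, mm A ((f x).1 : List A.ι) * mm A ((f x).2 : List A.ι) * F (f x).1 (f x).2 := by
    rw [ENNReal.tsum_sigma', tsum_fintype, Finset.sum_range]
    refine Finset.sum_congr rfl fun l _ => ?_
    unfold s2
    rw [ENNReal.tsum_prod']
    refine tsum_congr fun a => ?_
    rw [← ENNReal.tsum_mul_left]
    refine tsum_congr fun b => ?_
    have e1 : mm A ((f ⟨l, a, b⟩).1 : List A.ι) =
        mm A (a : List A.ι × List A.ι).1 * mm A (b : List A.ι × List A.ι).1 := mm_append _ _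
    have e2 : mm A ((f ⟨l, a, b⟩).2 : List A.ι) =
        mm A (a : List A.ι × List A.ι).2 * mm A (b : List A.ι × List A.ι).2 := mm_append _ _
    rw [e1, e2]
    show _ = _ * F ((a : List A.ι × List A.ι).1 ++ (b : List A.ι × List A.ι).1)
      ((a : List A.ι × List A.ι).2 ++ (b : List A.ι × List A.ι).2)
    ring
  rw [h1, h2]
  exact ((Equiv.ofBijective f hf).tsum_eq
    (fun p : Lr A r × Lr A s => mm A (p.1 : List A.ι) * mm A (p.2 : List A.ι) * F p.1 p.2)).symm

/-- `CC A r` is a product. -/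
theorem pair_sum (r : ℕ) (F : List A.ι → List A.ι → ℝ≥0∞) :
    s2 A (CC A r) F = s1 A (Lr A r) (fun x => s1 A (Lr A r) (fun x' => F x x')) := by
  have h1 : s1 A (Lr A r) (fun P => s1 A (Lr A r) (fun Q => F P Q)) =
      ∑' p : Lr A r × Lr A r, mm A (p.1 : List A.ι) * mm A (p.2 : List A.ι) * F p.1 p.2 := by
    unfold s1
    rw [ENNReal.tsum_prod (f := fun (P : Lr A r) (Q : Lr A r) =>
      mm A (P : List A.ι) * mm A (Q : List A.ι) * F P Q)]
    refine tsum_congr fun P => ?_
    rw [← ENNReal.tsum_mul_left]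
    refine tsum_congr fun Q => ?_
    rw [mul_assoc]
  rw [h1]
  unfold s2
  let e : CC A r ≃ Lr A r × Lr A r :=
    { toFun := fun p => (⟨p.1.1, p.2.1⟩, ⟨p.1.2, p.2.2⟩)
      invFun := fun q => ⟨(q.1.1, q.2.1), q.1.2, q.2.2⟩
      left_inv := fun _ => rfl
      right_inv := fun _ => rfl }
  exact e.tsum_eq (fun p : Lr A r × Lr A r => mm A (p.1 : List A.ι) * mm A (p.2 : List A.ι) * F p.1 p.2)

private theorem APair_s2_const (S : Set (List A.ι × List A.ι)) (c : ℝ≥0∞) :
    s2 A S (fun _ _ => c) = gf2 A S * c := by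
  unfold gf2 s2
  rw [← ENNReal.tsum_mul_right]
  exact tsum_congr fun p => by rw [mul_one]

theorem cc_dec (r s : ℕ) : bb A r * bb A s = ∑ l ∈ range (min r s + 1), (bb A l) ^ 2 * cc A (r - l) (s - l) := by
  have h := cob_dec (A := A) r s (fun _ _ => 1)
  have h1 : s1 A (Lr A r) (fun _ => s1 A (Lr A s) (fun _ => 1)) = bb A r * bb A s := by
    rw [s1_const]
    rfl
  rw [h1] at h
  rw [h]
  refine Finset.sum_congr rfl fun l _ => ?_
  have h2 : gf2 A (CC A l) = (bb A l) ^ 2 := by
    unfold gf2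
    rw [pair_sum, s1_const, sq]
    rfl
  have h3 : s2 A (CC A l) (fun _ _ => s2 A (NCC A (r - l) (s - l)) (fun _ _ => 1)) =
      (bb A l) ^ 2 * cc A (r - l) (s - l) := by
    rw [APair_s2_const, h2]
    rfl
  exact h3

end Pool.Agent.RPL
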