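import Pool.Agent.RPL.AOwn
import Pool.Agent.RPL.APair

/-!
Project RPL, part A, module ARen: the renewal equation of the pairs of lists of equal width.

PAPER PROOF. `ren_eq` (first common level): the map `(i, a, b) ↦ (a.1 ++ b.1, a.2 ++ b.2)` from the disjoint union over `i ≤ r` of `IP A i × CC A (r - i)` to `CC A (r + 1)` is a bijection: `i + 1`
is the smallest common level `≥ 1` of the image (`Lv_append`, `Lv_append_le`); `i` is determined because for `i < i'` the level `i + 1 ≤ i'` would be a common level of the first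
factor `a'` (`Lv_append_le`), then `pre_unique`; surjective: the smallest common level `l ≥ 1` (`Nat.find`; `r + 1` is a common level, `Lv_self`), `l = i + 1`. `gf2 A (CC A r) = (bb A r) ^ 2`
(`pair_sum`, `s1_const`). `ff_sum`: from `ren_eq`, `bb_zero`, `bb_le_one` by the lemma `anIrr` (Pool/Agent/ZHW/AnIrr, as `irr_sum` in ZHW/Ren) with `I = ff A`, `u r = (bb A r) ^ 2`.
-/

set_option autoImplicit false

namespace Pool.Agent.RPL

open Finset
open scoped ENNReal NNReal

variable {A : Alph}

private theorem ARen_CC (r : ℕ) : gf2 A (CC A r) = (bb A r) ^ 2 := by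
  unfold gf2
  rw [pair_sum]
  simp only [s1_const, mul_one]
  rw [sq]

private theorem ARen_lt {i i' : ℕ} {a b a' b' : List A.ι × List A.ι} (ha : a ∈ IP A i) (ha' : a' ∈ IP A i')
    (h1 : a.1 ++ b.1 = a'.1 ++ b'.1) (h2 : a.2 ++ b.2 = a'.2 ++ b'.2) : ¬ i < i' := by
  intro hlt
  have g1 : Lv A (a'.1 ++ b'.1) (i + 1) := by
    rw [← h1]
    exact ⟨a.1, b.1, rfl, ha.1⟩
  have g2 : Lv A (a'.2 ++ b'.2) (i + 1) := by
    rw [← h2]
    exact ⟨a.2, b.2, rfl, ha.2.1⟩
  have k1 := ha'.1
  have k2 := ha'.2.1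
  exact ha'.2.2 (i + 1) (by omega) (by omega)
    ⟨(Lv_append_le _ _ (by omega)).1 g1, (Lv_append_le _ _ (by omega)).1 g2⟩

theorem ren_eq (r : ℕ) : (bb A (r + 1)) ^ 2 = ∑ i ∈ range (r + 1), ff A i * (bb A (r - i)) ^ 2 := by
  classical
  let S : Type := Σ i : Fin (r + 1), (IP A (i : ℕ) × CC A (r - i))
  have hmem : ∀ x : S, ((x.2.1 : List A.ι × List A.ι).1 ++ (x.2.2 : List A.ι × List A.ι).1,
      (x.2.1 : List A.ι × List A.ι).2 ++ (x.2.2 : List A.ι × List A.ι).2) ∈ CC A (r + 1) := by
    rintro ⟨i, a, b⟩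
    have hi := i.2
    have a1 := a.2.1
    have a2 := a.2.2.1
    have b1 := b.2.1
    have b2 := b.2.2
    refine ⟨?_, ?_⟩
    · show wd A ((a : List A.ι × List A.ι).1 ++ (b : List A.ι × List A.ι).1) = r + 1
      rw [wd_append, a1, b1]
      omega
    · show wd A ((a : List A.ι × List A.ι).2 ++ (b : List A.ι × List A.ι).2) = r + 1
      rw [wd_append, a2, b2]
      omega
  let f : S → CC A (r + 1) := fun x => ⟨_, hmem x⟩
  have hf : Function.Bijective f := by
    constructor
    · rintro ⟨i, a, b⟩ ⟨i', a', b'⟩ he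
      have h0 := congrArg Subtype.val he
      have h1 : (a : List A.ι × List A.ι).1 ++ (b : List A.ι × List A.ι).1 =
          (a' : List A.ι × List A.ι).1 ++ (b' : List A.ι × List A.ι).1 := congrArg Prod.fst h0
      have h2 : (a : List A.ι × List A.ι).2 ++ (b : List A.ι × List A.ι).2 =
          (a' : List A.ι × List A.ι).2 ++ (b' : List A.ι × List A.ι).2 := congrArg Prod.snd h0
      have k1 := ARen_lt a.2 a'.2 h1 h2
      have k2 := ARen_lt a'.2 a.2 h1.symm h2.symm
      have hii : i = i' := Fin.ext (by omega)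
      subst hii
      obtain ⟨x1, y1⟩ := pre_unique h1 (a.2.1.trans a'.2.1.symm)
      obtain ⟨x2, y2⟩ := pre_unique h2 (a.2.2.1.trans a'.2.2.1.symm)
      have ea : a = a' := Subtype.ext (Prod.ext x1 x2)
      have eb : b = b' := Subtype.ext (Prod.ext y1 y2)
      rw [ea, eb]
    · rintro ⟨⟨P, Q⟩, hPQ⟩
      have hP : wd A P = r + 1 := hPQ.1
      have hQ : wd A Q = r + 1 := hPQ.2
      have hex : ∃ l : ℕ, 1 ≤ l ∧ Lv A P l ∧ Lv A Q l := by
        refine ⟨r + 1, by omega, ?_, ?_⟩
        · have := Lv_self P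
          rwa [hP] at this
        · have := Lv_self Q
          rwa [hQ] at this
      obtain ⟨hl1, hlP, hlQ⟩ := Nat.find_spec hex
      have hmin : ∀ k, k < Nat.find hex → ¬ (1 ≤ k ∧ Lv A P k ∧ Lv A Q k) := fun k hk => Nat.find_min hex hk
      generalize Nat.find hex = l at hl1 hlP hlQ hmin
      have hlr : l ≤ r + 1 := by
        have := Lv_le hlP
        omega
      obtain ⟨u, v, e1, hu⟩ := hlP
      obtain ⟨u', v', e2, hu'⟩ := hlQ
      have hv : wd A v = r + 1 - l := by
        have := congrArg (wd A) e1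
        rw [wd_append] at this
        omega
      have hv' : wd A v' = r + 1 - l := by
        have := congrArg (wd A) e2
        rw [wd_append] at this
        omega
      have hip : (u, u') ∈ IP A (l - 1) := by
        refine ⟨?_, ?_, ?_⟩
        · show wd A u = l - 1 + 1
          omega
        · show wd A u' = l - 1 + 1
          omega
        · intro i hi hin hc
          refine hmin i (by omega) ⟨hi, ?_, ?_⟩
          · rw [e1]
            exact (Lv_append_le u v (by omega)).2 hc.1
          · rw [e2]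
            exact (Lv_append_le u' v' (by omega)).2 hc.2
      have hcc : (v, v') ∈ CC A (r - (l - 1)) := by
        refine ⟨?_, ?_⟩
        · show wd A v = r - (l - 1)
          omega
        · show wd A v' = r - (l - 1)
          omega
      refine ⟨⟨⟨l - 1, by omega⟩, ⟨(u, u'), hip⟩, ⟨(v, v'), hcc⟩⟩, ?_⟩
      exact Subtype.ext (Prod.ext e1.symm e2.symm)
  rw [← ARen_CC]
  have h2 : (∑ i ∈ range (r + 1), ff A i * (bb A (r - i)) ^ 2) =
      ∑' x : S, mm A (f x : List A.ι × List A.ι).1 * mm A (f x : List A.ι × List A.ι).2 * 1 := by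
    rw [ENNReal.tsum_sigma', tsum_fintype, Finset.sum_range]
    refine Finset.sum_congr rfl fun i _ => ?_
    rw [← ARen_CC]
    unfold ff gf2 s2
    rw [ENNReal.tsum_prod', ← ENNReal.tsum_mul_right]
    refine tsum_congr fun a => ?_
    rw [← ENNReal.tsum_mul_left]
    refine tsum_congr fun b => ?_
    show mm A (a : List A.ι × List A.ι).1 * mm A (a : List A.ι × List A.ι).2 * 1 *
        (mm A (b : List A.ι × List A.ι).1 * mm A (b : List A.ι × List A.ι).2 * 1) =
      mm A ((a : List A.ι × List A.ι).1 ++ (b : List A.ι × List A.ι).1) *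
        mm A ((a : List A.ι × List A.ι).2 ++ (b : List A.ι × List A.ι).2) * 1
    rw [mm_append, mm_append]
    ring
  rw [h2]
  unfold gf2 s2
  exact ((Equiv.ofBijective f hf).tsum_eq
    (fun p : CC A (r + 1) => mm A (p : List A.ι × List A.ι).1 * mm A (p : List A.ι × List A.ι).2 * 1)).symm

theorem ff_sum (N : ℕ) : ∑ i ∈ range N, ff A i ≤ 1 := by
  refine Pool.Agent.ZHW.anIrr (fun i => ff A i) (fun i => (bb A i) ^ 2) ?_ ?_ ?_ N
  · simp [bb_zero]
  · intro n
    exact pow_le_one₀ zero_le (bb_le_one n)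
  · intro r
    exact (ren_eq r).symm.le

end Pool.Agent.RPL
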