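import Pool.Agent.RPL.AOwn
import Pool.Agent.RPL.APair
import Pool.Agent.RPL.ARen
import Pool.Agent.RPL.AEw

/-!
Project RPL, part A, module ADat: the masses as real numbers.

PAPER PROOF. As `dat` in `Pool/Agent/ZLF/DatZ.lean` (copy that file): `S.b r = (bb A r).toReal` etc. All masses are finite: `bb_le_one`, `la_sum`, `ff_sum`; `ew A r = ew A r * ew A 0 ≤ bb A r ^ 2 ≤ 1`
(`ew_conv`, `ew_zero`); `cc A r s = bb A 0 ^ 2 * cc A r s ≤ bb A r * bb A s ≤ 1` (`cc_dec`, `bb_zero`). The fields: `bb_zero`, `bb_ren`, `la_sum`, `ren_eq`, `ff_sum`, `ew_zero`, `ew_conv`, `ew_last`, `cc_dec`.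
-/

set_option autoImplicit false

namespace Pool.Agent.RPL

open Finset
open scoped ENNReal NNReal

private theorem ADat_be (A : Alph) (r : ℕ) : bb A r ≤ 1 := bb_le_one r

private theorem ADat_be_ne (A : Alph) (r : ℕ) : bb A r ≠ ∞ :=
  ne_top_of_le_ne_top ENNReal.one_ne_top (ADat_be A r)

private theorem ADat_la (A : Alph) (i : ℕ) : la A i ≤ 1 :=
  (Finset.single_le_sum (f := fun i => la A i) (fun _ _ => zero_le) (Finset.self_mem_range_succ i)).trans
    (la_sum (i + 1))

private theorem ADat_la_ne (A : Alph) (i : ℕ) : la A i ≠ ∞ :=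
  ne_top_of_le_ne_top ENNReal.one_ne_top (ADat_la A i)

private theorem ADat_f (A : Alph) (i : ℕ) : ff A i ≤ 1 :=
  (Finset.single_le_sum (f := fun i => ff A i) (fun _ _ => zero_le)
    (Finset.self_mem_range_succ i)).trans (ff_sum (i + 1))

private theorem ADat_f_ne (A : Alph) (i : ℕ) : ff A i ≠ ∞ :=
  ne_top_of_le_ne_top ENNReal.one_ne_top (ADat_f A i)

private theorem ADat_ew (A : Alph) (r : ℕ) : ew A r ≤ 1 := by
  have h := (Finset.single_le_sum (f := fun k => ew A k * ew A (r - k)) (fun _ _ => zero_le)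
    (Finset.self_mem_range_succ r)).trans (ew_conv r)
  simp only [Nat.sub_self, ew_zero, mul_one] at h
  exact h.trans (pow_le_one₀ zero_le (ADat_be A r))

private theorem ADat_ew_ne (A : Alph) (r : ℕ) : ew A r ≠ ∞ :=
  ne_top_of_le_ne_top ENNReal.one_ne_top (ADat_ew A r)

private theorem ADat_cc (A : Alph) (a a' : ℕ) : cc A a a' ≤ 1 := by
  have h0 := cc_dec (A := A) a a'
  have h := Finset.single_le_sum (f := fun l => (bb A l) ^ 2 * cc A (a - l) (a' - l))
    (fun _ _ => zero_le) (Finset.mem_range.2 (Nat.succ_pos (min a a')))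
  simp only [Nat.sub_zero, bb_zero, one_pow, one_mul] at h
  rw [← h0] at h
  exact h.trans (mul_le_one' (ADat_be A a) (ADat_be A a'))

private theorem ADat_cc_ne (A : Alph) (a a' : ℕ) : cc A a a' ≠ ∞ :=
  ne_top_of_le_ne_top ENNReal.one_ne_top (ADat_cc A a a')

private theorem ADat_le_one {x : ℝ≥0∞} (h : x ≤ 1) : x.toReal ≤ 1 := by
  have := ENNReal.toReal_mono ENNReal.one_ne_top h
  simpa using this

theorem dat (A : Alph) : ∃ S : Pool.Agent.ZLF.Sq, (∀ r, bb A r = ENNReal.ofReal (S.b r)) ∧
    (∀ i, la A i = ENNReal.ofReal (S.la i)) ∧ (∀ l, ew A l = ENNReal.ofReal (S.e l)) ∧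
    ∀ a a', cc A a a' = ENNReal.ofReal (S.cc a a') := by
  refine ⟨{ b := fun r => (bb A r).toReal
            la := fun i => (la A i).toReal
            f := fun i => (ff A i).toReal
            e := fun r => (ew A r).toReal
            cc := fun a a' => (cc A a a').toReal
            b0 := by simp [bb_zero]
            bnn := fun r => ENNReal.toReal_nonneg
            b1 := fun r => ADat_le_one (ADat_be A r)
            lann := fun i => ENNReal.toReal_nonneg
            bren := ?_
            lasum := ?_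
            fnn := fun i => ENNReal.toReal_nonneg
            uren := ?_
            fsum := ?_
            e0 := by simp [ew_zero]
            enn := fun r => ENNReal.toReal_nonneg
            econv := ?_
            elast := ?_
            ccnn := fun a a' => ENNReal.toReal_nonneg
            ccdec := ?_ }, ?_, ?_, ?_, ?_⟩
  · intro r
    rw [bb_ren r, ENNReal.toReal_sum (fun i _ => ENNReal.mul_ne_top (ADat_la_ne A i) (ADat_be_ne A _))]
    exact Finset.sum_congr rfl fun i _ => ENNReal.toReal_mul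
  · intro N
    rw [← ENNReal.toReal_sum (fun i _ => ADat_la_ne A i)]
    exact ADat_le_one (la_sum N)
  · intro r
    rw [← ENNReal.toReal_pow, ren_eq r, ENNReal.toReal_sum (fun i _ =>
      ENNReal.mul_ne_top (ADat_f_ne A i) (ENNReal.pow_ne_top (ADat_be_ne A _)))]
    exact Finset.sum_congr rfl fun i _ => by rw [ENNReal.toReal_mul, ENNReal.toReal_pow]
  · intro N
    rw [← ENNReal.toReal_sum (fun i _ => ADat_f_ne A i)]
    exact ADat_le_one (ff_sum N)
  · intro r
    have h := ENNReal.toReal_mono (ENNReal.pow_ne_top (ADat_be_ne A r)) (ew_conv r)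
    rw [ENNReal.toReal_pow, ENNReal.toReal_sum (fun k _ =>
      ENNReal.mul_ne_top (ADat_ew_ne A k) (ADat_ew_ne A _))] at h
    refine le_trans (le_of_eq ?_) h
    exact Finset.sum_congr rfl fun i _ => by rw [ENNReal.toReal_mul]
  · intro r
    have h := ENNReal.toReal_mono (ENNReal.sum_ne_top.2 fun i _ =>
      ENNReal.mul_ne_top (ADat_f_ne A i) (ADat_ew_ne A _)) (ew_last r)
    rw [ENNReal.toReal_sum (fun k _ =>
      ENNReal.mul_ne_top (ADat_f_ne A k) (ADat_ew_ne A _))] at h
    refine h.trans (le_of_eq ?_)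
    exact Finset.sum_congr rfl fun i _ => by rw [ENNReal.toReal_mul]
  · intro r s
    rw [← ENNReal.toReal_mul, cc_dec (A := A) r s, ENNReal.toReal_sum (fun l _ =>
      ENNReal.mul_ne_top (ENNReal.pow_ne_top (ADat_be_ne A _)) (ADat_cc_ne A _ _))]
    exact Finset.sum_congr rfl fun i _ => by rw [ENNReal.toReal_mul, ENNReal.toReal_pow]
  · exact fun r => (ENNReal.ofReal_toReal (ADat_be_ne A r)).symm
  · exact fun r => (ENNReal.ofReal_toReal (ADat_la_ne A r)).symm
  · exact fun r => (ENNReal.ofReal_toReal (ADat_ew_ne A r)).symm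
  · exact fun a a' => (ENNReal.ofReal_toReal (ADat_cc_ne A a a')).symm

end Pool.Agent.RPL
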