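import Pool.Agent.RPL.A0
import Pool.Agent.ZCS.Defs
import Pool.Agent.ZLF.RDefs

/-!
Project RPL, part A: definitions. The parameter `A : Alph` is explicit everywhere.
-/

set_option autoImplicit false

namespace Pool.Agent.RPL

open Finset
open scoped ENNReal NNReal

/-- Weighted sum over a set of lists. -/
noncomputable def s1 (A : Alph) (S : Set (List A.ι)) (F : List A.ι → ℝ≥0∞) : ℝ≥0∞ :=
  ∑' l : S, mm A (l : List A.ι) * F l

/-- Weighted sum over a set of pairs of lists. -/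
noncomputable def s2 (A : Alph) (S : Set (List A.ι × List A.ι)) (F : List A.ι → List A.ι → ℝ≥0∞) : ℝ≥0∞ :=
  ∑' p : S, mm A (p : List A.ι × List A.ι).1 * mm A (p : List A.ι × List A.ι).2 * F (p : List A.ι × List A.ι).1 (p : List A.ι × List A.ι).2

/-- Mass of a set of pairs of lists. -/
noncomputable def gf2 (A : Alph) (S : Set (List A.ι × List A.ι)) : ℝ≥0∞ := s2 A S (fun _ _ => 1)

/-- Mass of the lists of width `r`. -/
noncomputable def bb (A : Alph) (r : ℕ) : ℝ≥0∞ := s1 A (Lr A r) (fun _ => 1)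

/-- Mass of the letters of width `i + 1`. -/
noncomputable def la (A : Alph) (i : ℕ) : ℝ≥0∞ := ∑' a : {a : A.ι // A.w a = i + 1}, A.ms a

/-- `i` is a level of `P`. -/
def Lv (A : Alph) (P : List A.ι) (i : ℕ) : Prop := ∃ u v : List A.ι, P = u ++ v ∧ wd A u = i

/-- No level among `1, ..., n`. -/
def NL (A : Alph) (n : ℕ) (P : List A.ι) : Prop := ∀ i : ℕ, 1 ≤ i → i ≤ n → ¬ Lv A P i

/-- No common level among `1, ..., n`. -/
def NCo (A : Alph) (n : ℕ) (P Q : List A.ι) : Prop := ∀ i : ℕ, 1 ≤ i → i ≤ n → ¬ (Lv A P i ∧ Lv A Q i)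

/-- Pairs of lists of width `r`. -/
def CC (A : Alph) (r : ℕ) : Set (List A.ι × List A.ι) := {p | wd A p.1 = r ∧ wd A p.2 = r}

/-- Pairs of lists of widths `a`, `a'` without common level `≥ 1`. -/
def NCC (A : Alph) (a a' : ℕ) : Set (List A.ι × List A.ι) := {p | wd A p.1 = a ∧ wd A p.2 = a' ∧ NCo A a p.1 p.2}

/-- Irreducible pairs of lists of width `i + 1`. -/
def IP (A : Alph) (i : ℕ) : Set (List A.ι × List A.ι) := {p | wd A p.1 = i + 1 ∧ wd A p.2 = i + 1 ∧ NCo A i p.1 p.2}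

/-- Irreducible pairs of lists of width `i + 1` with difference `δ`. -/
def IPd (A : Alph) (i : ℕ) (δ : ℤ) : Set (List A.ι × List A.ι) := {p | p ∈ IP A i ∧ ds A p.1 - ds A p.2 = δ}

/-- Pairs of lists of width `r`; at all common levels `≥ 1` the first is higher if it starts `x` higher. -/
def PosP (A : Alph) (x : ℤ) (r : ℕ) : Set (List A.ι × List A.ι) :=
  {p | wd A p.1 = r ∧ wd A p.2 = r ∧ ∀ (i : ℕ) (u v : ℤ), 1 ≤ i → At A p.1 i u → At A p.2 i v → 0 < x + (u - v)}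

/-- Middle parts. -/
def MW (A : Alph) (k a a' : ℕ) : Set (List A.ι) := {M | wd A M = k ∧ NL A a M ∧ NL A a' M.reverse}

/-- Mass of the irreducible pairs. -/
noncomputable def ff (A : Alph) (i : ℕ) : ℝ≥0∞ := gf2 A (IP A i)

/-- Mass of the pairs without common level. -/
noncomputable def cc (A : Alph) (a a' : ℕ) : ℝ≥0∞ := gf2 A (NCC A a a')

/-- Mass of the positive block sequences of width `l`. -/
noncomputable def ew (A : Alph) (l : ℕ) : ℝ≥0∞ := Pool.Agent.ZCS.gw (fun i δ => gf2 A (IPd A i δ)) l 0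

/-- Mass of the irreducible pairs of width 1 with positive difference. -/
noncomputable def fp (A : Alph) : ℝ≥0∞ := ∑' δ : ℤ, if 0 < δ then gf2 A (IPd A 0 δ) else 0

/-- Half of the mass of the ordered pairs of widths `r`, `s`. -/
noncomputable def JJ (A : Alph) (r s : ℕ) : ℝ≥0∞ := ∑ l ∈ range (min r s + 1), ew A l * cc A (r - l) (s - l)

/-- The constant of the fold condition. -/
noncomputable def Cz (A : Alph) (κ : ℕ) : ℝ≥0∞ := 2 * ∑ i ∈ range (κ + 1), (fp A)⁻¹ ^ i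

open Classical in
/-- The fold matrix. -/
noncomputable def g2 (A : Alph) (κ D r s : ℕ) : ℝ≥0∞ :=
  s1 A (Lr A r) (fun x => s1 A (Lr A s) (fun x' => if Sgz A κ D x x' then 1 else 0))

/-- Mass of the middle parts of a strand of width `m` with end parts of widths `a`, `a'`. -/
noncomputable def Wm (A : Alph) (D m a a' : ℕ) : ℝ≥0∞ := s1 A (MW A (m - a - a') (D - a) (D - a')) (fun _ => 1)

open Classical in
/-- Chains of one scale. -/
noncomputable def Wc (A : Alph) (κ R : ℕ) (C2 : ℝ≥0∞) (D lo : ℕ) (y : ℝ≥0∞) : ℕ → ℕ → List A.ι → ℝ≥0∞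
  | 0, _, _ => 1
  | K + 1, h, X => 1 + ∑ d ∈ Ico lo h, C2 * y ^ (d / R) *
      s1 A (Lr A (d / R)) (fun Y => if Sgz A κ D X.reverse Y then Wc A κ R C2 D lo y K d Y else 0)

/-- Chains of matrices. -/
noncomputable def chE (D lo : ℕ) (w : ℕ → ℝ≥0∞) (b : ℕ → ℝ≥0∞) (G : ℕ → ℕ → ℝ≥0∞) (B : ℕ → ℕ → ℕ → ℝ≥0∞) :
    ℕ → ℕ → ℕ → ℝ≥0∞
  | 0, _, r => b r
  | K + 1, h, r => b r + ∑ d ∈ Ico lo h, w d *
      ∑ a ∈ range (D + 1), ∑ a' ∈ range (D + 1), G r a * B d a a' * chE D lo w b G B K d a'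

/-- Chains of real matrices. -/
noncomputable def chQ (D lo : ℕ) (w : ℕ → ℝ) (b : ℕ → ℝ) (G : ℕ → ℕ → ℝ) (B : ℕ → ℕ → ℕ → ℝ) : ℕ → ℕ → ℕ → ℝ
  | 0, _, r => b r
  | K + 1, h, r => b r + ∑ d ∈ Ico lo h, w d *
      ∑ a ∈ range (D + 1), ∑ a' ∈ range (D + 1), G r a * B d a a' * chQ D lo w b G B K d a'

end Pool.Agent.RPL
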