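import Pool.Agent.RPL.AOwn

/-!
Project RPL, part A, module AProd: the chains of all scales are at most the product over the scales; the trivial bounds.

Put `cut Ds m = if m ≤ 1 then 0 else Ds (Nat.log 2 (m - 1))`; the indices `d` of the scale `k` are `Ico (R * (2 ^ k + 1)) (R * (2 ^ (k + 1) + 1))`, for them `Nat.log 2 (d / R - 1) = k`; the indices `Ico R (2 * R)` have width 1.

PAPER PROOF. `Wc_triv`: for `y ≤ 1` and `lo ≤ h`: `Wc A κ R C2 D lo y K h X ≤ (1 + C2) ^ (h - lo)`, induction on `K`: `∑ d ∈ Ico lo h, C2 * y ^ (d / R) * s1 (Lr (d / R)) (.. ≤ (1 + C2) ^ (d - lo)) ≤ ∑ d ∈ Ico lo h, C2 * (1 + C2) ^ (d - lo)`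
(`bb_le_one`) and `1 + ∑ j ∈ range n, C2 * (1 + C2) ^ j = (1 + C2) ^ n`. `V_triv`: the same for `V`, `lo = R`. `sc_triv`: `1 + ∑ d ∈ Ico lo hi, C2 * y ^ (d / R) * s1 (Lr (d / R)) (Wc .. K d) ≤ (1 + C2) ^ (hi - lo)`.
`v_prod`: compare `v_prod` in `Pool/Agent/ZLF/VProd.lean`. Let `n = cut Ds`, `P j = (1 + C2) ^ R * ∏ k ∈ range j, Ak k`. All `Ak k ≥ 1` (`hA` with any `K`). Claim for every `j`: (i) `V A κ R C2 n y K h X ≤ P j` for all `K`, `X` and all `h ≤ R * (2 ^ j + 1)`;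
(ii) `1 + ∑ d ∈ Ico R (R * (2 ^ j + 1)), C2 * y ^ (d / R) * s1 A (Lr A (d / R)) (V .. K d) ≤ P j`. `j = 0` (`R * 2`): `V_triv`, `h - R ≤ R` (and for (ii) as in `sc_triv`). Step: let `D = Ds j`, `lo = R * (2 ^ j + 1)`. First
`V .. K h X ≤ P j * Wc A κ R C2 D lo y K h X` for `lo ≤ h ≤ R * (2 ^ (j + 1) + 1)`, induction on `K` for all `h`, `X`: `K + 1`: `V (K + 1) h X = (1 + ∑ d ∈ Ico R lo, ..) + ∑ d ∈ Ico lo h, ..`; the first part is `≤ P j` by (ii) (drop the condition `Sgz`), and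
for `d ∈ Ico lo h`: `n (d / R) = D`. Then (i), (ii) for `j + 1` as in VProd.
-/

set_option autoImplicit false

namespace Pool.Agent.RPL

open Finset
open scoped ENNReal NNReal

variable {A : Alph}

/-- The cutoff. -/
def cut (Ds : ℕ → ℕ) (m : ℕ) : ℕ := if m ≤ 1 then 0 else Ds (Nat.log 2 (m - 1))

private theorem geo_le (C2 : ℝ≥0∞) (F : ℕ → ℝ≥0∞) (lo h : ℕ) (hlo : lo ≤ h)
    (hF : ∀ d, lo ≤ d → d < h → F d ≤ C2 * (1 + C2) ^ (d - lo)) :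
    1 + ∑ d ∈ Ico lo h, F d ≤ (1 + C2) ^ (h - lo) := by
  induction h, hlo using Nat.le_induction with
  | base => simp
  | succ h hh ih =>
    rw [sum_Ico_succ_top hh, ← add_assoc]
    have h1 : h + 1 - lo = (h - lo) + 1 := by omega
    rw [h1, pow_succ, mul_add, mul_one]
    refine add_le_add (ih fun d hd hd' => hF d hd (by omega)) ?_
    rw [mul_comm]
    exact hF h hh (by omega)

private theorem geo_le' (C2 : ℝ≥0∞) (F : ℕ → ℝ≥0∞) (lo h : ℕ)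
    (hF : ∀ d, lo ≤ d → d < h → F d ≤ C2 * (1 + C2) ^ (d - lo)) :
    1 + ∑ d ∈ Ico lo h, F d ≤ (1 + C2) ^ (h - lo) := by
  rcases le_total lo h with hlo | hlo
  · exact geo_le C2 F lo h hlo hF
  · rw [Ico_eq_empty (by omega)]
    simp [Nat.sub_eq_zero_of_le hlo]

private theorem term_le (C2 y c : ℝ≥0∞) (hy : y ≤ 1) (e r : ℕ) (F : List A.ι → ℝ≥0∞) (hF : ∀ l, F l ≤ c) :
    C2 * y ^ e * s1 A (Lr A r) F ≤ C2 * c := by
  have h1 : s1 A (Lr A r) F ≤ c := by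
    refine (s1_mono fun l _ => hF l).trans ?_
    rw [s1_const]
    calc bb A r * c ≤ 1 * c := mul_le_mul' (bb_le_one r) le_rfl
      _ = c := one_mul c
  have h2 : C2 * y ^ e ≤ C2 * 1 := mul_le_mul' le_rfl (pow_le_one' hy e)
  rw [mul_one] at h2
  exact mul_le_mul' h2 h1

open Classical in
private theorem drop_pt (c : List A.ι → Prop) (F : List A.ι → ℝ≥0∞) (l : List A.ι) :
    (if c l then F l else 0) ≤ F l := by
  by_cases h : c l
  · simp [h]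
  · simp [h]

private theorem Wc_triv (κ R : ℕ) (C2 : ℝ≥0∞) (D lo : ℕ) (y : ℝ≥0∞) (hy : y ≤ 1) (K : ℕ) :
    ∀ (h : ℕ) (X : List A.ι), Wc A κ R C2 D lo y K h X ≤ (1 + C2) ^ (h - lo) := by
  induction K with
  | zero =>
    intro h X
    simp only [Wc]
    exact one_le_pow₀ le_self_add
  | succ K ih =>
    intro h X
    simp only [Wc]
    refine geo_le' C2 _ lo h fun d _ _ => term_le C2 y _ hy _ _ _ fun l => ?_
    exact (drop_pt _ _ l).trans (ih d l)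

open Classical in
private theorem V_triv (κ R : ℕ) (C2 : ℝ≥0∞) (n : ℕ → ℕ) (y : ℝ≥0∞) (hy : y ≤ 1) (K : ℕ) :
    ∀ (h : ℕ) (X : List A.ι), V A κ R C2 n y K h X ≤ (1 + C2) ^ (h - R) := by
  induction K with
  | zero =>
    intro h X
    simp only [V]
    exact one_le_pow₀ le_self_add
  | succ K ih =>
    intro h X
    simp only [V]
    refine geo_le' C2 _ R h fun d _ _ => ?_
    refine term_le (A := A) C2 y _ hy (d / R) (d / R)
      (fun Y => if Sgz A κ (n (d / R)) X.reverse Y then V A κ R C2 n y K d Y else 0) fun l => ?_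
    exact (drop_pt _ _ l).trans (ih d l)

theorem sc_triv (κ R : ℕ) (C2 : ℝ≥0∞) (D lo hi : ℕ) (h : lo ≤ hi) (y : ℝ≥0∞) (hy : y ≤ 1) (K : ℕ) :
    1 + ∑ d ∈ Ico lo hi, C2 * y ^ (d / R) * s1 A (Lr A (d / R)) (Wc A κ R C2 D lo y K d) ≤ (1 + C2) ^ (hi - lo) :=
  geo_le C2 _ lo hi h fun d _ _ => term_le C2 y _ hy _ _ _ fun l => Wc_triv κ R C2 D lo y hy K d l

private noncomputable def PP (R : ℕ) (C2 : ℝ≥0∞) (Ak : ℕ → ℝ≥0∞) (j : ℕ) : ℝ≥0∞ :=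
  (1 + C2) ^ R * ∏ k ∈ range j, Ak k

private theorem PP_succ (R : ℕ) (C2 : ℝ≥0∞) (Ak : ℕ → ℝ≥0∞) (j : ℕ) : PP R C2 Ak (j + 1) = PP R C2 Ak j * Ak j := by
  unfold PP
  rw [prod_range_succ, mul_assoc]

private theorem one_le_PP (R : ℕ) (C2 : ℝ≥0∞) {Ak : ℕ → ℝ≥0∞} (h : ∀ k, 1 ≤ Ak k) (j : ℕ) : 1 ≤ PP R C2 Ak j := by
  induction j with
  | zero =>
    unfold PP
    simpa using one_le_pow₀ (M₀ := ℝ≥0∞) (a := 1 + C2) le_self_add
  | succ j ih =>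
    rw [PP_succ]
    exact one_le_mul ih (h j)

private theorem cut_eq (Ds : ℕ → ℕ) {R j d : ℕ} (hR : 1 ≤ R) (h1 : R * (2 ^ j + 1) ≤ d) (h2 : d < R * (2 ^ (j + 1) + 1)) :
    cut Ds (d / R) = Ds j := by
  have h3 : 2 ^ j + 1 ≤ d / R := (Nat.le_div_iff_mul_le (by omega)).2 (by rw [mul_comm]; exact h1)
  have h4 : d / R < 2 ^ (j + 1) + 1 := (Nat.div_lt_iff_lt_mul (by omega)).2 (by rw [mul_comm]; exact h2)
  have h5 : 1 ≤ 2 ^ j := Nat.one_le_two_pow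
  have h6 : Nat.log 2 (d / R - 1) = j := (Nat.log_eq_iff (Or.inr ⟨by norm_num, by omega⟩)).2 ⟨by omega, by omega⟩
  unfold cut
  rw [if_neg (by omega), h6]

open Classical in
private theorem step_a (κ R : ℕ) (hR : 1 ≤ R) (C2 : ℝ≥0∞) {Ds : ℕ → ℕ} {y : ℝ≥0∞} {Ak : ℕ → ℝ≥0∞}
    (hA : ∀ k, 1 ≤ Ak k) (j : ℕ)
    (h2 : ∀ K, 1 + ∑ d ∈ Ico R (R * (2 ^ j + 1)), C2 * y ^ (d / R) *
      s1 A (Lr A (d / R)) (V A κ R C2 (cut Ds) y K d) ≤ PP R C2 Ak j) (K : ℕ) :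
    ∀ (h : ℕ) (X : List A.ι), R * (2 ^ j + 1) ≤ h → h ≤ R * (2 ^ (j + 1) + 1) →
      V A κ R C2 (cut Ds) y K h X ≤ PP R C2 Ak j * Wc A κ R C2 (Ds j) (R * (2 ^ j + 1)) y K h X := by
  have hRlo : R ≤ R * (2 ^ j + 1) := Nat.le_mul_of_pos_right R (Nat.succ_pos _)
  induction K with
  | zero =>
    intro h X _ _
    simp only [V, Wc, mul_one]
    exact one_le_PP R C2 hA j
  | succ K ih =>
    intro h X h1 h3
    simp only [V, Wc]
    rw [← sum_Ico_consecutive _ hRlo h1, ← add_assoc, mul_add (PP R C2 Ak j), mul_one]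
    refine add_le_add ?_ ?_
    · refine le_trans (add_le_add le_rfl ?_) (h2 K)
      refine sum_le_sum fun d _ => ?_
      refine mul_le_mul' le_rfl ?_
      exact s1_mono (A := A) (F := fun Y => if Sgz A κ (cut Ds (d / R)) X.reverse Y then V A κ R C2 (cut Ds) y K d Y else 0)
        fun l _ => drop_pt _ _ l
    · rw [mul_sum]
      refine sum_le_sum fun d hd => ?_
      rw [mem_Ico] at hd
      rw [cut_eq Ds hR hd.1 (lt_of_lt_of_le hd.2 h3)]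
      rw [mul_left_comm, ← s1_const_mul (Lr A (d / R)) (PP R C2 Ak j)]
      refine mul_le_mul' le_rfl ?_
      refine s1_mono (A := A) (F := fun Y => if Sgz A κ (Ds j) X.reverse Y then V A κ R C2 (cut Ds) y K d Y else 0)
        fun l _ => ?_
      by_cases hs : Sgz A κ (Ds j) X.reverse l
      · simp only [hs, if_true]
        exact ih d l hd.1 (le_trans hd.2.le h3)
      · simp [hs]

private theorem main_ind (κ R : ℕ) (hR : 1 ≤ R) (C2 : ℝ≥0∞) {Ds : ℕ → ℕ} {y : ℝ≥0∞} (hy : y ≤ 1) {Ak : ℕ → ℝ≥0∞}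
    (hA : ∀ k K : ℕ, 1 + ∑ d ∈ Ico (R * (2 ^ k + 1)) (R * (2 ^ (k + 1) + 1)), C2 * y ^ (d / R) *
      s1 A (Lr A (d / R)) (Wc A κ R C2 (Ds k) (R * (2 ^ k + 1)) y K d) ≤ Ak k) (j : ℕ) (K : ℕ) :
    1 + ∑ d ∈ Ico R (R * (2 ^ j + 1)), C2 * y ^ (d / R) * s1 A (Lr A (d / R)) (V A κ R C2 (cut Ds) y K d) ≤
      PP R C2 Ak j := by
  induction j generalizing K with
  | zero =>
    unfold PP
    rw [prod_range_zero, mul_one]
    refine (geo_le' C2 _ R (R * (2 ^ 0 + 1)) fun d _ _ =>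
      term_le C2 y _ hy _ _ _ fun l => V_triv κ R C2 (cut Ds) y hy K d l).trans (le_of_eq ?_)
    have h1 : R * (2 ^ 0 + 1) - R = R := by rw [pow_zero]; omega
    rw [h1]
  | succ j ih =>
    rw [PP_succ]
    refine le_trans ?_ (mul_le_mul' le_rfl (hA j K))
    have hRlo : R ≤ R * (2 ^ j + 1) := Nat.le_mul_of_pos_right R (Nat.succ_pos _)
    have hle : R * (2 ^ j + 1) ≤ R * (2 ^ (j + 1) + 1) :=
      Nat.mul_le_mul_left R (Nat.add_le_add_right (Nat.pow_le_pow_right (by norm_num) (Nat.le_succ j)) 1)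
    rw [← sum_Ico_consecutive _ hRlo hle, ← add_assoc, mul_add (PP R C2 Ak j), mul_one]
    refine add_le_add (ih K) ?_
    rw [mul_sum]
    refine sum_le_sum fun d hd => ?_
    rw [mem_Ico] at hd
    rw [mul_left_comm, ← s1_const_mul (Lr A (d / R)) (PP R C2 Ak j)]
    refine mul_le_mul' le_rfl (s1_mono fun l _ => ?_)
    exact step_a κ R hR C2 (fun k => le_trans le_self_add (hA k 0)) j ih K d l hd.1 hd.2.le

theorem v_prod (κ R : ℕ) (hR : 1 ≤ R) (C2 : ℝ≥0∞) (Ds : ℕ → ℕ) (y : ℝ≥0∞) (hy : y ≤ 1) (Ak : ℕ → ℝ≥0∞)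
    (hA : ∀ k K : ℕ, 1 + ∑ d ∈ Ico (R * (2 ^ k + 1)) (R * (2 ^ (k + 1) + 1)), C2 * y ^ (d / R) *
      s1 A (Lr A (d / R)) (Wc A κ R C2 (Ds k) (R * (2 ^ k + 1)) y K d) ≤ Ak k) (j K : ℕ) :
    1 + ∑ d ∈ Ico R (R * (2 ^ j + 1)), C2 * y ^ (d / R) * s1 A (Lr A (d / R)) (V A κ R C2 (cut Ds) y K d) ≤
      (1 + C2) ^ R * ∏ k ∈ range j, Ak k :=
  main_ind κ R hR C2 hy hA j K

end Pool.Agent.RPL
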