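import Pool.Agent.RPL.AScale
import Pool.Agent.RPL.AProd
import Pool.Agent.ZLF.ExpSum

/-!
Project RPL, part A, module AFin: the theorem of part A.

PAPER PROOF. `C`, `D = D k` from `scaleA` (choose). Let `Ds k = if 2 ^ k < K0 then 0 else D k`, `n = cut Ds`. `4 * n m ≤ m`: for `m ≥ 2`, `k = Nat.log 2 (m - 1)`: `4 * D k ≤ 2 ^ k ≤ m - 1`. `m < K0 → n m = 0`: `2 ^ k ≤ m - 1 < K0`. `y = 1 - ε`,
`Ak k = (1 + C2) ^ (R * 2 ^ k)` if `2 ^ k < K0` (`sc_triv`; `R * (2 ^ (k + 1) + 1) - R * (2 ^ k + 1) = R * 2 ^ k`), `Ak k = ofReal (1 + C * 2 ^ (3 k) * y ^ (2 ^ k) * exp (..))` otherwise (`scaleA`). `v_prod` with `j` so large that `H ≤ R * (2 ^ j + 1)` (`Ico R H ⊆ Ico R (R * (2 ^ j + 1))`), and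
`∏ k ∈ range j, Ak k ≤ (∏ k ∈ range j with 2 ^ k < K0, (1 + C2) ^ (R * 2 ^ k)) * ∏ k ∈ range j, ofReal (1 + ..) ≤ (1 + C2) ^ (R * K0 ^ 2) * ofReal (exp (C1 * √(1 / ε)))` (`exp_sum` of ZLF/ExpSum; the `k` with `2 ^ k < K0` are `< K0`, the exponents add up to at most `R * K0 * K0`). The factor
`(1 + C2) ^ (R + R * K0 ^ 2) ≤ ofReal (exp c)` for a real `c ≥ 0` (`C2 ≠ ∞`: `x ≤ exp x`), and `exp c ≤ exp (c * √(1 / ε))` as `1 ≤ √(1 / ε)`.
-/

set_option autoImplicit false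

namespace Pool.Agent.RPL

open Finset
open scoped ENNReal NNReal

/-- The exponents of the small scales. -/
private theorem AFin_exps (R K0 j : ℕ) :
    ∑ k ∈ range j, (if 2 ^ k < K0 then R * 2 ^ k else 0) ≤ R * K0 * K0 := by
  have h1 : ∀ k ∈ range j, (if 2 ^ k < K0 then R * 2 ^ k else 0) ≤ if k < K0 then R * K0 else 0 := by
    intro k _
    by_cases h : 2 ^ k < K0
    · have h2 : k < K0 := lt_trans k.lt_two_pow_self h
      rw [if_pos h, if_pos h2]
      exact Nat.mul_le_mul_left R h.le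
    · rw [if_neg h]
      exact Nat.zero_le _
  refine (Finset.sum_le_sum h1).trans ?_
  rw [← Finset.sum_filter, Finset.sum_const, smul_eq_mul]
  have h3 : (filter (fun k => k < K0) (range j)).card ≤ K0 := by
    refine (Finset.card_le_card (t := range K0) ?_).trans (by rw [card_range])
    intro k hk
    rw [mem_filter] at hk
    exact mem_range.2 hk.2
  calc (filter (fun k => k < K0) (range j)).card * (R * K0) ≤ K0 * (R * K0) := Nat.mul_le_mul_right _ h3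
    _ = R * K0 * K0 := by ring

theorem chain_exp (A : Alph) (κ R : ℕ) (hR : 1 ≤ R) (C2 : ℝ≥0∞) (hC2 : C2 ≠ ∞) (K0 : ℕ) :
    ∃ n : ℕ → ℕ, (∀ m, 4 * n m ≤ m) ∧ (∀ m, m < K0 → n m = 0) ∧ ∃ C : ℝ, 0 < C ∧ ∀ ε : ℝ, 0 < ε → ε ≤ 1 / 2 → ∀ H K : ℕ,
      1 + ∑ d ∈ Ico R H, C2 * (ENNReal.ofReal (1 - ε)) ^ (d / R) *
        ∑' Y : Lr A (d / R), mm A (Y : List A.ι) * V A κ R C2 n (ENNReal.ofReal (1 - ε)) K d Y ≤
      ENNReal.ofReal (Real.exp (C * Real.sqrt (1 / ε))) := by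
  obtain ⟨C, hC, hs⟩ := scaleA A κ R hR C2 hC2
  choose D hD hs using hs
  obtain ⟨C1, hC1, he⟩ := Pool.Agent.ZLF.exp_sum C hC
  set Ds : ℕ → ℕ := fun k => if 2 ^ k < K0 then 0 else D k with hDs
  refine ⟨cut Ds, ?_, ?_, ?_⟩
  · intro m
    unfold cut
    by_cases hm : m ≤ 1
    · rw [if_pos hm]
      exact Nat.zero_le _
    · rw [if_neg hm]
      have h1 : 2 ^ (Nat.log 2 (m - 1)) ≤ m - 1 := Nat.pow_log_le_self 2 (by omega)
      rw [hDs]
      show 4 * (if 2 ^ (Nat.log 2 (m - 1)) < K0 then 0 else D (Nat.log 2 (m - 1))) ≤ m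
      split
      · exact Nat.zero_le _
      · exact (hD _).trans (h1.trans (Nat.sub_le _ _))
  · intro m hm
    unfold cut
    by_cases hm1 : m ≤ 1
    · rw [if_pos hm1]
    · rw [if_neg hm1]
      have h1 : 2 ^ (Nat.log 2 (m - 1)) ≤ m - 1 := Nat.pow_log_le_self 2 (by omega)
      rw [hDs]
      show (if 2 ^ (Nat.log 2 (m - 1)) < K0 then 0 else D (Nat.log 2 (m - 1))) = 0
      rw [if_pos (by omega)]
  · set T : ℝ≥0∞ := (1 + C2) ^ (R + R * K0 * K0) with hT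
    have hTt : T ≠ ∞ := ENNReal.pow_ne_top (ENNReal.add_ne_top.2 ⟨ENNReal.one_ne_top, hC2⟩)
    have h1C : (1 : ℝ≥0∞) ≤ 1 + C2 := le_self_add
    refine ⟨C1 + T.toReal, by have := ENNReal.toReal_nonneg (a := T); linarith, ?_⟩
    intro ε hε hε2 H K
    have hy0 : (0 : ℝ) ≤ 1 - ε := by linarith
    have hy1 : (1 : ℝ) - ε ≤ 1 := by linarith
    have hyE : ENNReal.ofReal (1 - ε) ≤ 1 := ENNReal.ofReal_le_one.2 hy1
    have hf0 : ∀ k : ℕ, 0 ≤ C * 2 ^ (3 * k) * (1 - ε) ^ (2 ^ k) *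
        Real.exp (C * Real.sqrt (2 ^ k) * (1 - ε) ^ (2 ^ k)) := by
      intro k
      have := pow_nonneg hy0 (2 ^ k)
      positivity
    set Af : ℕ → ℝ≥0∞ := fun k => ENNReal.ofReal (1 + C * 2 ^ (3 * k) * (1 - ε) ^ (2 ^ k) *
        Real.exp (C * Real.sqrt (2 ^ k) * (1 - ε) ^ (2 ^ k))) with hAf
    set Ak : ℕ → ℝ≥0∞ := fun k => if 2 ^ k < K0 then (1 + C2) ^ (R * 2 ^ k) else Af k with hAk
    have hA : ∀ k K : ℕ, 1 + ∑ d ∈ Ico (R * (2 ^ k + 1)) (R * (2 ^ (k + 1) + 1)),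
        C2 * ENNReal.ofReal (1 - ε) ^ (d / R) *
        s1 A (Lr A (d / R)) (Wc A κ R C2 (Ds k) (R * (2 ^ k + 1)) (ENNReal.ofReal (1 - ε)) K d) ≤ Ak k := by
      intro k K
      by_cases hk : 2 ^ k < K0
      · have h1 := sc_triv (A := A) κ R C2 (Ds k) (R * (2 ^ k + 1)) (R * (2 ^ (k + 1) + 1))
          (Nat.mul_le_mul_left R (by rw [pow_succ]; omega)) (ENNReal.ofReal (1 - ε)) hyE K
        refine h1.trans (le_of_eq ?_)
        show _ = if 2 ^ k < K0 then (1 + C2) ^ (R * 2 ^ k) else Af k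
        rw [if_pos hk]
        congr 1
        rw [← Nat.mul_sub]
        congr 1
        rw [pow_succ]
        omega
      · have h1 := hs k (1 - ε) hy0 hy1 K
        show _ ≤ if 2 ^ k < K0 then (1 + C2) ^ (R * 2 ^ k) else Af k
        rw [if_neg hk]
        have h2 : Ds k = D k := by
          rw [hDs]
          show (if 2 ^ k < K0 then 0 else D k) = D k
          rw [if_neg hk]
        rw [h2, hAf]
        show _ ≤ ENNReal.ofReal (1 + _)
        rw [ENNReal.ofReal_add zero_le_one (hf0 k), ENNReal.ofReal_one]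
        exact add_le_add le_rfl h1
    have hAf1 : ∀ k : ℕ, 1 ≤ Af k := by
      intro k
      rw [hAf]
      show 1 ≤ ENNReal.ofReal (1 + _)
      rw [ENNReal.one_le_ofReal]
      have := hf0 k
      linarith
    have hprod : ∀ j : ℕ, ∏ k ∈ range j, Ak k ≤
        (1 + C2) ^ (R * K0 * K0) * ENNReal.ofReal (Real.exp (C1 * Real.sqrt (1 / ε))) := by
      intro j
      have h1 : ∀ k ∈ range j, Ak k ≤ (1 + C2) ^ (if 2 ^ k < K0 then R * 2 ^ k else 0) * Af k := by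
        intro k _
        show (if 2 ^ k < K0 then (1 + C2) ^ (R * 2 ^ k) else Af k) ≤ _
        by_cases hk : 2 ^ k < K0
        · rw [if_pos hk, if_pos hk]
          exact le_mul_of_one_le_right zero_le (hAf1 k)
        · rw [if_neg hk, if_neg hk, pow_zero, one_mul]
      refine (Finset.prod_le_prod' h1).trans ?_
      rw [Finset.prod_mul_distrib, Finset.prod_pow_eq_pow_sum]
      refine mul_le_mul' (pow_le_pow_right₀ h1C (AFin_exps R K0 j)) ?_
      rw [hAf, ← ENNReal.ofReal_prod_of_nonneg (fun k _ => by have := hf0 k; linarith)]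
      exact ENNReal.ofReal_le_ofReal (he ε hε hε2 j)
    have hmain := v_prod (A := A) κ R hR C2 Ds (ENNReal.ofReal (1 - ε)) hyE Ak hA H K
    have hsub : Ico R H ⊆ Ico R (R * (2 ^ H + 1)) := by
      apply Ico_subset_Ico le_rfl
      have h1 : H < 2 ^ H := H.lt_two_pow_self
      calc H ≤ 1 * (2 ^ H + 1) := by omega
        _ ≤ R * (2 ^ H + 1) := Nat.mul_le_mul_right _ hR
    have h0 : 1 + ∑ d ∈ Ico R H, C2 * (ENNReal.ofReal (1 - ε)) ^ (d / R) *
        ∑' Y : Lr A (d / R), mm A (Y : List A.ι) * V A κ R C2 (cut Ds) (ENNReal.ofReal (1 - ε)) K d Y ≤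
        (1 + C2) ^ R * ∏ k ∈ range H, Ak k := by
      refine le_trans ?_ hmain
      exact add_le_add le_rfl (Finset.sum_le_sum_of_subset hsub)
    refine h0.trans ?_
    have h6 : (1 : ℝ) ≤ Real.sqrt (1 / ε) := by
      rw [Real.one_le_sqrt, le_div_iff₀ hε]
      linarith
    have h7 : T ≤ ENNReal.ofReal (Real.exp (T.toReal * Real.sqrt (1 / ε))) := by
      rw [← ENNReal.ofReal_toReal hTt]
      apply ENNReal.ofReal_le_ofReal
      rw [ENNReal.ofReal_toReal hTt]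
      have h8 := Real.add_one_le_exp (T.toReal * Real.sqrt (1 / ε))
      have h9 : 0 ≤ T.toReal := ENNReal.toReal_nonneg
      nlinarith
    calc (1 + C2) ^ R * ∏ k ∈ range H, Ak k
        ≤ (1 + C2) ^ R * ((1 + C2) ^ (R * K0 * K0) * ENNReal.ofReal (Real.exp (C1 * Real.sqrt (1 / ε)))) :=
          mul_le_mul' le_rfl (hprod H)
      _ = T * ENNReal.ofReal (Real.exp (C1 * Real.sqrt (1 / ε))) := by
          rw [hT, pow_add]
          exact (mul_assoc _ _ _).symm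
      _ ≤ ENNReal.ofReal (Real.exp (T.toReal * Real.sqrt (1 / ε))) *
            ENNReal.ofReal (Real.exp (C1 * Real.sqrt (1 / ε))) := mul_le_mul' h7 le_rfl
      _ = ENNReal.ofReal (Real.exp ((C1 + T.toReal) * Real.sqrt (1 / ε))) := by
          rw [← ENNReal.ofReal_mul (Real.exp_pos _).le, ← Real.exp_add]
          congr 2
          ring

end Pool.Agent.RPL
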