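import Pool.Agent.RPL.APos

/-!
Project RPL, part A, module AFold: the fold matrix.

PAPER PROOF. `g2_le`: let `(P, Q)` have widths `r, s ≤ D` and `Sgz A κ D P Q` with `i0 ≤ κ`. Let `l0` be the greatest common level `≤ i0` (`0` is one). Then `l0 ≤ κ`, `l0 ≤ min r s`; cut both there:
`P = u ++ v`, `Q = u' ++ v'`, `wd u = wd u' = l0`, `ds u = ds u'` (as `l0 ≤ i0` and `l0 ≤ D`), and for every common level `i ≥ 1` of `(v, v')` the level `l0 + i` of `(P, Q)` is `> i0`, so the difference of `(v, v')` at `i` is `> 0`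
for all of them or `< 0` for all of them. So the mass is at most `∑ l0 ≤ min κ (min r s), (bb A l0) ^ 2 * 2 * JJ A (r - l0) (s - l0)` (`pos_le`; for the sign `< 0` exchange the two lists, `JJ` is
symmetric because `cc` is, or prove `pos_le` for both signs), `bb_le_one`, and `JJ A (r - l0) (s - l0) ≤ (fp A)⁻¹ ^ l0 * JJ A r s` (`JJ_shift` `l0` times, `fp_ne`, `fp A ≠ ∞`).
-/

set_option autoImplicit false

namespace Pool.Agent.RPL

open Finset
open scoped ENNReal NNReal

variable {A : Alph}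

open Classical in
private theorem cut_le (l r : ℕ) (F : List A.ι → ℝ≥0∞) :
    s1 A (Lr A r) (fun P => if Lv A P l then F P else 0) ≤
      s1 A (Lr A l) (fun u => s1 A (Lr A (r - l)) (fun v => F (u ++ v))) := by
  have h1 : s1 A (Lr A l) (fun u => s1 A (Lr A (r - l)) (fun v => F (u ++ v))) =
      ∑' p : Lr A l × Lr A (r - l), mm A ((p.1 : List A.ι) ++ (p.2 : List A.ι)) * F ((p.1 : List A.ι) ++ (p.2 : List A.ι)) := by
    unfold s1
    rw [ENNReal.tsum_prod']
    refine tsum_congr fun u => ?_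
    rw [← ENNReal.tsum_mul_left]
    refine tsum_congr fun v => ?_
    rw [mm_append]
    ring
  let S : Set (Lr A r) := {P | Lv A P.1 l}
  have h2 : s1 A (Lr A r) (fun P => if Lv A P l then F P else 0) =
      ∑' P : S, mm A ((P : Lr A r) : List A.ι) * F ((P : Lr A r) : List A.ι) := by
    unfold s1
    rw [tsum_subtype S (fun P : Lr A r => mm A (P : List A.ι) * F (P : List A.ι))]
    refine tsum_congr fun P => ?_
    show mm A P.1 * (if Lv A P.1 l then F P.1 else 0) = S.indicator (fun P : Lr A r => mm A (P : List A.ι) * F (P : List A.ι)) P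
    by_cases h : Lv A P.1 l
    · rw [if_pos h, Set.indicator_of_mem (show P ∈ S from h)]
    · rw [if_neg h, Set.indicator_of_notMem (show P ∉ S from h), mul_zero]
  have hch : ∀ P : S, ∃ p : Lr A l × Lr A (r - l), ((P : Lr A r) : List A.ι) = (p.1 : List A.ι) ++ (p.2 : List A.ι) := by
    rintro ⟨⟨P, hP⟩, u, v, h, hw⟩
    have hP' : wd A P = r := hP
    refine ⟨(⟨u, hw⟩, ⟨v, ?_⟩), h⟩
    show wd A v = r - l
    have h' : P = u ++ v := h
    rw [h', wd_append] at hP'
    omega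
  choose f hf using hch
  have hinj : Function.Injective f := by
    intro P P' h
    apply Subtype.ext
    apply Subtype.ext
    rw [hf P, hf P', h]
  rw [h1, h2]
  calc ∑' P : S, mm A ((P : Lr A r) : List A.ι) * F ((P : Lr A r) : List A.ι)
      = ∑' P : S, (fun p : Lr A l × Lr A (r - l) => mm A ((p.1 : List A.ι) ++ (p.2 : List A.ι)) *
          F ((p.1 : List A.ι) ++ (p.2 : List A.ι))) (f P) := by
        refine tsum_congr fun P => ?_
        show mm A ((P : Lr A r) : List A.ι) * F ((P : Lr A r) : List A.ι) = _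
        rw [hf P]
    _ ≤ _ := ENNReal.tsum_comp_le_tsum_of_injective hinj _

private theorem cc_symm (a b : ℕ) : cc A a b = cc A b a := by
  have key : ∀ a b : ℕ, ∀ p : List A.ι × List A.ι, p ∈ NCC A a b → p.swap ∈ NCC A b a := by
    rintro a b ⟨P, Q⟩ ⟨h1, h2, h3⟩
    refine ⟨h2, h1, fun i hi _ hL => ?_⟩
    exact h3 i hi (by have := Lv_le hL.2; have h1' : wd A P = a := h1; have h4 : i ≤ wd A P := this; omega) ⟨hL.2, hL.1⟩
  let e : NCC A a b ≃ NCC A b a :=
    { toFun := fun p => ⟨p.1.swap, key a b p.1 p.2⟩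
      invFun := fun p => ⟨p.1.swap, key b a p.1 p.2⟩
      left_inv := fun p => Subtype.ext (Prod.swap_swap _)
      right_inv := fun p => Subtype.ext (Prod.swap_swap _) }
  unfold cc gf2 s2
  rw [← e.tsum_eq]
  refine tsum_congr fun p => ?_
  show mm A p.1.1 * mm A p.1.2 * 1 = mm A p.1.2 * mm A p.1.1 * 1
  ring

private theorem JJ_symm (r s : ℕ) : JJ A r s = JJ A s r := by
  unfold JJ
  rw [min_comm]
  exact Finset.sum_congr rfl fun l _ => by rw [cc_symm]

open Classical in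
private theorem neg_le (r s : ℕ) :
    s1 A (Lr A r) (fun P => s1 A (Lr A s) (fun Q => if (∀ (i : ℕ) (x y : ℤ), 1 ≤ i → At A P i x → At A Q i y → x < y) then 1 else 0)) ≤ JJ A r s := by
  rw [JJ_symm, s1_comm]
  refine le_trans (s1_mono fun P hP => s1_mono fun Q hQ => ?_) (pos_le s r)
  by_cases h : ∀ (i : ℕ) (x y : ℤ), 1 ≤ i → At A Q i x → At A P i y → x < y
  · rw [if_pos h, if_pos (fun i x y hi hx hy => h i y x hi hy hx)]
  · rw [if_neg h]
    exact zero_le

private theorem JJ_pow (l r s : ℕ) (hr : l ≤ r) (hs : l ≤ s) : JJ A (r - l) (s - l) ≤ (fp A)⁻¹ ^ l * JJ A r s := by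
  have h1 : ∀ l : ℕ, ∀ a b : ℕ, (fp A) ^ l * JJ A a b ≤ JJ A (a + l) (b + l) := by
    intro l
    induction l with
    | zero => intro a b; simp
    | succ l ih =>
      intro a b
      calc (fp A) ^ (l + 1) * JJ A a b = (fp A) ^ l * (fp A * JJ A a b) := by ring
        _ ≤ (fp A) ^ l * JJ A (a + 1) (b + 1) := mul_le_mul_right (JJ_shift a b) _
        _ ≤ JJ A (a + 1 + l) (b + 1 + l) := ih _ _
        _ = JJ A (a + (l + 1)) (b + (l + 1)) := by rw [add_assoc, add_assoc, add_comm 1 l]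
  have h2 := h1 l (r - l) (s - l)
  rw [Nat.sub_add_cancel hr, Nat.sub_add_cancel hs] at h2
  have h3 : (fp A) ^ l ≠ 0 := pow_ne_zero _ fp_ne
  have h4 : (fp A) ^ l ≠ ∞ := ENNReal.pow_ne_top (ne_top_of_le_ne_top ENNReal.one_ne_top fp_le)
  rw [ENNReal.mul_le_iff_le_inv h3 h4, ENNReal.inv_pow] at h2
  exact h2

open Classical in
/-- Pairs with a common level `l`, the rest after it satisfying `T`. -/
private theorem part_le (l r s : ℕ) (T : List A.ι → List A.ι → Prop) (K : List A.ι → List A.ι → Prop) (J : ℝ≥0∞)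
    (hT : ∀ u v u' v' : List A.ι, wd A u = l → wd A u' = l → K (u ++ v) (u' ++ v') → T v v')
    (hJ : s1 A (Lr A (r - l)) (fun P => s1 A (Lr A (s - l)) (fun Q => if T P Q then 1 else 0)) ≤ J) :
    s1 A (Lr A r) (fun P => s1 A (Lr A s) (fun Q => if (Lv A P l ∧ Lv A Q l ∧ K P Q) then 1 else 0)) ≤
      bb A l * (bb A l * J) := by
  calc s1 A (Lr A r) (fun P => s1 A (Lr A s) (fun Q => if (Lv A P l ∧ Lv A Q l ∧ K P Q) then 1 else 0))
      ≤ s1 A (Lr A r) (fun P => if Lv A P l then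
          s1 A (Lr A s) (fun Q => if Lv A Q l then (if K P Q then 1 else 0) else 0) else 0) := by
        refine s1_mono fun P _ => ?_
        by_cases h : Lv A P l
        · rw [if_pos h]
          refine s1_mono fun Q _ => ?_
          by_cases h' : Lv A Q l
          · rw [if_pos h']
            by_cases h'' : K P Q
            · rw [if_pos ⟨h, h', h''⟩, if_pos h'']
            · rw [if_neg (fun hh => h'' hh.2.2)]
              exact zero_le
          · rw [if_neg (fun hh => h' hh.2.1)]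
            exact zero_le
        · rw [if_neg h]
          refine le_of_eq ?_
          have : (fun Q => if (Lv A P l ∧ Lv A Q l ∧ K P Q) then (1 : ℝ≥0∞) else 0) = fun Q => 0 * 1 := by
            funext Q
            rw [if_neg (fun hh => h hh.1), zero_mul]
          rw [this, s1_const_mul, zero_mul]
    _ ≤ s1 A (Lr A l) (fun u => s1 A (Lr A (r - l)) (fun v =>
          s1 A (Lr A s) (fun Q => if Lv A Q l then (if K (u ++ v) Q then 1 else 0) else 0))) := cut_le l r _
    _ ≤ s1 A (Lr A l) (fun _ => s1 A (Lr A (r - l)) (fun v =>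
          s1 A (Lr A l) (fun _ => s1 A (Lr A (s - l)) (fun v' => if T v v' then 1 else 0)))) := by
        refine s1_mono fun u hu => s1_mono fun v _ => ?_
        refine le_trans (cut_le l s _) ?_
        refine s1_mono fun u' hu' => s1_mono fun v' _ => ?_
        by_cases h : K (u ++ v) (u' ++ v')
        · rw [if_pos h, if_pos (hT u v u' v' hu hu' h)]
        · rw [if_neg h]
          exact zero_le
    _ = bb A l * (bb A l * s1 A (Lr A (r - l)) (fun P => s1 A (Lr A (s - l)) (fun Q => if T P Q then 1 else 0))) := by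
        rw [s1_const]
        simp only [s1_const]
        rw [s1_const_mul]
    _ ≤ bb A l * (bb A l * J) := mul_le_mul_right (mul_le_mul_right hJ _) _

private theorem sum_split (T : Finset ℕ) (a b : ℕ → List A.ι → List A.ι → ℝ≥0∞) (r s : ℕ) :
    s1 A (Lr A r) (fun P => s1 A (Lr A s) (fun Q => ∑ l ∈ T, (a l P Q + b l P Q))) =
      ∑ l ∈ T, (s1 A (Lr A r) (fun P => s1 A (Lr A s) (fun Q => a l P Q)) +
        s1 A (Lr A r) (fun P => s1 A (Lr A s) (fun Q => b l P Q))) := by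
  calc s1 A (Lr A r) (fun P => s1 A (Lr A s) (fun Q => ∑ l ∈ T, (a l P Q + b l P Q)))
      = s1 A (Lr A r) (fun P => ∑ l ∈ T, s1 A (Lr A s) (fun Q => a l P Q + b l P Q)) :=
        s1_congr fun P _ => s1_sum _ _ (fun l Q => a l P Q + b l P Q)
    _ = ∑ l ∈ T, s1 A (Lr A r) (fun P => s1 A (Lr A s) (fun Q => a l P Q + b l P Q)) :=
        s1_sum _ _ (fun l P => s1 A (Lr A s) (fun Q => a l P Q + b l P Q))
    _ = _ := Finset.sum_congr rfl fun l _ => by
        rw [← s1_add]
        exact s1_congr fun P _ => s1_add _ _ _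

private def K1 (A : Alph) (l : ℕ) (P Q : List A.ι) : Prop :=
  (∀ x y : ℤ, At A P l x → At A Q l y → x = y) ∧ ∀ (i : ℕ) (x y : ℤ), l < i → At A P i x → At A Q i y → y < x

private def K2 (A : Alph) (l : ℕ) (P Q : List A.ι) : Prop :=
  (∀ x y : ℤ, At A P l x → At A Q l y → x = y) ∧ ∀ (i : ℕ) (x y : ℤ), l < i → At A P i x → At A Q i y → x < y

theorem g2_le (κ D r s : ℕ) (hr : r ≤ D) (hs : s ≤ D) : g2 A κ D r s ≤ Cz A κ * JJ A r s := by
  classical
  have hone : ∀ u v : List A.ι, At A (u ++ v) (wd A u) (ds A u) := fun u v => ⟨u, v, rfl, rfl, rfl⟩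
  have hT1 : ∀ l : ℕ, ∀ u v u' v' : List A.ι, wd A u = l → wd A u' = l → K1 A l (u ++ v) (u' ++ v') →
      ∀ (i : ℕ) (x y : ℤ), 1 ≤ i → At A v i x → At A v' i y → y < x := by
    rintro l u v u' v' rfl hu' ⟨h1, h2⟩ i x y hi hx hy
    have e : ds A u = ds A u' := h1 _ _ (hone u v) (by rw [← hu']; exact hone u' v')
    have h3 := h2 (wd A u + i) (ds A u + x) (ds A u' + y) (by omega) ((At_append u v i x).2 hx)
      (by rw [← hu']; exact (At_append u' v' i y).2 hy)
    omega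
  have hT2 : ∀ l : ℕ, ∀ u v u' v' : List A.ι, wd A u = l → wd A u' = l → K2 A l (u ++ v) (u' ++ v') →
      ∀ (i : ℕ) (x y : ℤ), 1 ≤ i → At A v i x → At A v' i y → x < y := by
    rintro l u v u' v' rfl hu' ⟨h1, h2⟩ i x y hi hx hy
    have e : ds A u = ds A u' := h1 _ _ (hone u v) (by rw [← hu']; exact hone u' v')
    have h3 := h2 (wd A u + i) (ds A u + x) (ds A u' + y) (by omega) ((At_append u v i x).2 hx)
      (by rw [← hu']; exact (At_append u' v' i y).2 hy)
    omega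
  have hind : ∀ P ∈ Lr A r, ∀ Q ∈ Lr A s, (if Sgz A κ D P Q then (1 : ℝ≥0∞) else 0) ≤
      ∑ l ∈ range (min κ (min r s) + 1), ((if (Lv A P l ∧ Lv A Q l ∧ K1 A l P Q) then 1 else 0) +
        (if (Lv A P l ∧ Lv A Q l ∧ K2 A l P Q) then 1 else 0)) := by
    intro P hP Q hQ
    have hP' : wd A P = r := hP
    have hQ' : wd A Q = s := hQ
    by_cases h : Sgz A κ D P Q
    swap
    · rw [if_neg h]
      exact zero_le
    rw [if_pos h]
    obtain ⟨i0, hi0, h1, h2⟩ := h
    set l0 := Nat.findGreatest (fun l => Lv A P l ∧ Lv A Q l) i0 with hl0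
    have hle : l0 ≤ i0 := Nat.findGreatest_le i0
    have hLL : Lv A P l0 ∧ Lv A Q l0 :=
      Nat.findGreatest_spec (P := fun l => Lv A P l ∧ Lv A Q l) (Nat.zero_le i0) ⟨Lv_zero P, Lv_zero Q⟩
    have hlr : l0 ≤ r := by have := Lv_le hLL.1; omega
    have hls : l0 ≤ s := by have := Lv_le hLL.2; omega
    have hgt : ∀ (i : ℕ) (x y : ℤ), l0 < i → At A P i x → At A Q i y → i0 < i ∧ i ≤ D := by
      intro i x y hi hx hy
      refine ⟨?_, ?_⟩
      · by_contra hc
        have := Nat.le_findGreatest (P := fun l => Lv A P l ∧ Lv A Q l) (not_lt.1 hc) ⟨At_Lv hx, At_Lv hy⟩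
        omega
      · have := Lv_le (At_Lv hx)
        omega
    have heq : ∀ x y : ℤ, At A P l0 x → At A Q l0 y → x = y := fun x y hx hy => h1 l0 x y hle (by omega) hx hy
    have hmem : l0 ∈ range (min κ (min r s) + 1) := by
      rw [mem_range]
      have : l0 ≤ κ := hle.trans hi0
      omega
    refine le_trans ?_ (Finset.single_le_sum (f := fun l => ((if (Lv A P l ∧ Lv A Q l ∧ K1 A l P Q) then (1 : ℝ≥0∞) else 0) +
        (if (Lv A P l ∧ Lv A Q l ∧ K2 A l P Q) then 1 else 0))) (fun _ _ => zero_le) hmem)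
    rcases h2 with h2 | h2
    · have hK : K1 A l0 P Q := ⟨heq, fun i x y hi hx hy => h2 i x y (hgt i x y hi hx hy).1 (hgt i x y hi hx hy).2 hx hy⟩
      show (1 : ℝ≥0∞) ≤ (if (Lv A P l0 ∧ Lv A Q l0 ∧ K1 A l0 P Q) then 1 else 0) + _
      rw [if_pos ⟨hLL.1, hLL.2, hK⟩]
      exact le_self_add
    · have hK : K2 A l0 P Q := ⟨heq, fun i x y hi hx hy => h2 i x y (hgt i x y hi hx hy).1 (hgt i x y hi hx hy).2 hx hy⟩
      show (1 : ℝ≥0∞) ≤ (if (Lv A P l0 ∧ Lv A Q l0 ∧ K1 A l0 P Q) then 1 else 0) +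
        (if (Lv A P l0 ∧ Lv A Q l0 ∧ K2 A l0 P Q) then 1 else 0)
      rw [if_pos (⟨hLL.1, hLL.2, hK⟩ : Lv A P l0 ∧ Lv A Q l0 ∧ K2 A l0 P Q)]
      exact le_add_self
  have hterm : ∀ l ∈ range (min κ (min r s) + 1),
      s1 A (Lr A r) (fun P => s1 A (Lr A s) (fun Q => if (Lv A P l ∧ Lv A Q l ∧ K1 A l P Q) then 1 else 0)) +
      s1 A (Lr A r) (fun P => s1 A (Lr A s) (fun Q => if (Lv A P l ∧ Lv A Q l ∧ K2 A l P Q) then 1 else 0)) ≤
        2 * ((fp A)⁻¹ ^ l * JJ A r s) := by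
    intro l hl
    rw [mem_range] at hl
    have hb : ∀ J : ℝ≥0∞, bb A l * (bb A l * J) ≤ J := by
      intro J
      calc bb A l * (bb A l * J) ≤ 1 * (1 * J) := mul_le_mul' (bb_le_one l) (mul_le_mul' (bb_le_one l) le_rfl)
        _ = J := by rw [one_mul, one_mul]
    have hJ := JJ_pow (A := A) l r s (by omega) (by omega)
    have a1 := (part_le l r s _ (K1 A l) _ (hT1 l) (pos_le (A := A) (r - l) (s - l))).trans ((hb _).trans hJ)
    have a2 := (part_le l r s _ (K2 A l) _ (hT2 l) (neg_le (A := A) (r - l) (s - l))).trans ((hb _).trans hJ)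
    rw [two_mul]
    exact add_le_add a1 a2
  calc g2 A κ D r s
      ≤ s1 A (Lr A r) (fun P => s1 A (Lr A s) (fun Q => ∑ l ∈ range (min κ (min r s) + 1),
          ((if (Lv A P l ∧ Lv A Q l ∧ K1 A l P Q) then 1 else 0) + (if (Lv A P l ∧ Lv A Q l ∧ K2 A l P Q) then 1 else 0)))) := by
        unfold g2
        exact s1_mono fun P hP => s1_mono fun Q hQ => hind P hP Q hQ
    _ = ∑ l ∈ range (min κ (min r s) + 1),
        (s1 A (Lr A r) (fun P => s1 A (Lr A s) (fun Q => if (Lv A P l ∧ Lv A Q l ∧ K1 A l P Q) then 1 else 0)) +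
        s1 A (Lr A r) (fun P => s1 A (Lr A s) (fun Q => if (Lv A P l ∧ Lv A Q l ∧ K2 A l P Q) then 1 else 0))) := by
        exact sum_split _ (fun l P Q => if (Lv A P l ∧ Lv A Q l ∧ K1 A l P Q) then 1 else 0)
          (fun l P Q => if (Lv A P l ∧ Lv A Q l ∧ K2 A l P Q) then 1 else 0) r s
    _ ≤ ∑ l ∈ range (min κ (min r s) + 1), 2 * ((fp A)⁻¹ ^ l * JJ A r s) := Finset.sum_le_sum hterm
    _ ≤ ∑ l ∈ range (κ + 1), 2 * ((fp A)⁻¹ ^ l * JJ A r s) :=
        Finset.sum_le_sum_of_subset (Finset.range_subset_range.2 (by omega))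
    _ = Cz A κ * JJ A r s := by
        unfold Cz
        rw [← Finset.mul_sum, ← Finset.sum_mul, mul_assoc]

theorem Cz_ne (κ : ℕ) : Cz A κ ≠ ∞ := by
  unfold Cz
  refine ENNReal.mul_ne_top ENNReal.ofNat_ne_top ?_
  rw [ENNReal.sum_ne_top]
  intro i _
  exact ENNReal.pow_ne_top (ENNReal.inv_ne_top.2 fp_ne)

theorem two_le_Cz (κ : ℕ) : 2 ≤ Cz A κ := by
  unfold Cz
  calc (2 : ℝ≥0∞) = 2 * 1 := (mul_one _).symm
    _ ≤ 2 * ∑ i ∈ range (κ + 1), (fp A)⁻¹ ^ i := by
        refine mul_le_mul_right ?_ _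
        calc (1 : ℝ≥0∞) = (fp A)⁻¹ ^ 0 := (pow_zero _).symm
          _ ≤ _ := Finset.single_le_sum (f := fun i => (fp A)⁻¹ ^ i) (fun _ _ => zero_le) (mem_range.2 (by omega))

end Pool.Agent.RPL
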