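import Pool.Agent.RPL.AList

/-!
Project RPL, part A, module AGp: ordered pairs of lists against the positive block sequences.

PAPER PROOF. `ap_le`: strong induction on `r` for
all `x`. `r = 0`: both lists are `[]`, mass `≤ 1 = gw c 0 x` (`ZCS.gw_zero`). `r + 1`: a pair in `PosP A x (r + 1)` has a smallest common level `i + 1 ≥ 1` (`r + 1` is one); cut there:
`(P, Q) = (a ++ b, a' ++ b')` with `(a, a') ∈ IPd A i δ`, `0 < x + δ` (the condition at the level `i + 1`), `(b, b') ∈ PosP A (x + δ) (r - i)` (`At_append`). The map is injective, so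
`gf2 A (PosP A x (r + 1)) ≤ ∑ i ≤ r, ∑' δ, if 0 < x + δ then gf2 A (IPd A i δ) * gf2 A (PosP A (x + δ) (r - i)) else 0` (compare `arc_rec` in ZHW/ArcRec), then the induction hypothesis and
`ZCS.gw_succ`.
-/

set_option autoImplicit false

namespace Pool.Agent.RPL

open Finset
open scoped ENNReal NNReal

variable {A : Alph}

private theorem AGp_ind (S : Set (List A.ι × List A.ι)) :
    gf2 A S = ∑' p : List A.ι × List A.ι, S.indicator (fun q => mm A q.1 * mm A q.2) p := by
  unfold gf2 s2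
  simp only [mul_one]
  exact tsum_subtype S (fun q : List A.ι × List A.ι => mm A q.1 * mm A q.2)

private theorem AGp_zero (x : ℤ) : gf2 A (PosP A x 0) ≤ 1 := by
  rw [AGp_ind, tsum_eq_single (([] : List A.ι), ([] : List A.ι))]
  · refine le_trans (Set.indicator_le_self _ _ _) (le_of_eq ?_)
    show mm A [] * mm A [] = 1
    rw [mm_nil, one_mul]
  · rintro ⟨P, Q⟩ hne
    refine Set.indicator_of_notMem (fun h => hne ?_) _
    obtain ⟨h1, h2, -⟩ := h
    rw [Prod.mk.injEq]
    exact ⟨wd_eq_zero.1 h1, wd_eq_zero.1 h2⟩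

/-- The first block. -/
private theorem AGp_block {x : ℤ} {r : ℕ} {p : List A.ι × List A.ι} (hp : p ∈ PosP A x (r + 1)) :
    ∃ i : ℕ, ∃ u v u' v' : List A.ι, i < r + 1 ∧ p = (u ++ v, u' ++ v') ∧ (u, u') ∈ IP A i ∧
      0 < x + (ds A u - ds A u') ∧ (v, v') ∈ PosP A (x + (ds A u - ds A u')) (r - i) := by
  classical
  obtain ⟨P, Q⟩ := p
  obtain ⟨hP, hQ, hpos⟩ := hp
  simp only at hP hQ hpos
  have hex : ∃ j : ℕ, 1 ≤ j ∧ Lv A P j ∧ Lv A Q j :=
    ⟨r + 1, by omega, hP ▸ Lv_self P, hQ ▸ Lv_self Q⟩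
  have hle : Nat.find hex ≤ r + 1 := Nat.find_min' hex ⟨by omega, hP ▸ Lv_self P, hQ ▸ Lv_self Q⟩
  obtain ⟨h1, hRP, hRQ⟩ := Nat.find_spec hex
  have hmin : ∀ m : ℕ, m < Nat.find hex → ¬ (1 ≤ m ∧ Lv A P m ∧ Lv A Q m) :=
    fun m hm => Nat.find_min hex hm
  generalize Nat.find hex = j at hle h1 hRP hRQ hmin
  obtain ⟨i, rfl⟩ : ∃ i, j = i + 1 := ⟨j - 1, by omega⟩
  obtain ⟨u, v, hPe, hu⟩ := hRP
  obtain ⟨u', v', hQe, hu'⟩ := hRQ
  have hv : wd A v = r - i := by
    have := congrArg (wd A) hPe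
    rw [wd_append] at this
    omega
  have hv' : wd A v' = r - i := by
    have := congrArg (wd A) hQe
    rw [wd_append] at this
    omega
  refine ⟨i, u, v, u', v', by omega, ?_, ⟨hu, hu', ?_⟩, ?_, ⟨hv, hv', ?_⟩⟩
  · rw [hPe, hQe]
  · intro k hk hki hboth
    refine hmin k (by omega) ⟨hk, ?_, ?_⟩
    · rw [hPe]
      exact (Lv_append_le u v (by omega)).2 hboth.1
    · rw [hQe]
      exact (Lv_append_le u' v' (by omega)).2 hboth.2
  · exact hpos (i + 1) _ _ (by omega) ⟨u, v, hPe, hu, rfl⟩ ⟨u', v', hQe, hu', rfl⟩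
  · intro k a b hk ha hb
    have h2 : At A P (i + 1 + k) (ds A u + a) := by
      rw [hPe, ← hu]
      exact (At_append u v k a).2 ha
    have h3 : At A Q (i + 1 + k) (ds A u' + b) := by
      rw [hQe, ← hu']
      exact (At_append u' v' k b).2 hb
    have h := hpos (i + 1 + k) _ _ (by omega) h2 h3
    omega

private theorem AGp_rec (x : ℤ) (r : ℕ) :
    gf2 A (PosP A x (r + 1)) ≤ ∑ i ∈ range (r + 1), ∑' δ : ℤ,
      if 0 < x + δ then gf2 A (IPd A i δ) * gf2 A (PosP A (x + δ) (r - i)) else 0 := by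
  classical
  have hch : ∀ p : PosP A x (r + 1), ∃ y : ℕ × ℤ × (List A.ι × List A.ι) × (List A.ι × List A.ι),
      y.1 < r + 1 ∧ 0 < x + y.2.1 ∧ y.2.2.1 ∈ IPd A y.1 y.2.1 ∧
      y.2.2.2 ∈ PosP A (x + y.2.1) (r - y.1) ∧
      (p : List A.ι × List A.ι) = (y.2.2.1.1 ++ y.2.2.2.1, y.2.2.1.2 ++ y.2.2.2.2) := by
    rintro ⟨p, hp⟩
    obtain ⟨i, u, v, u', v', hi, hpe, hI, hx, hA⟩ := AGp_block hp
    exact ⟨(i, ds A u - ds A u', (u, u'), (v, v')), hi, hx, ⟨hI, rfl⟩, hA, hpe⟩
  choose f hf1 hf2 hf3 hf4 hf5 using hch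
  have hinj : Function.Injective f := by
    intro p q hpq
    apply Subtype.ext
    rw [hf5 p, hf5 q, hpq]
  let W : List A.ι × List A.ι → ℝ≥0∞ := fun q => mm A q.1 * mm A q.2
  let F : ℕ × ℤ × (List A.ι × List A.ι) × (List A.ι × List A.ι) → ℝ≥0∞ := fun y =>
    if y.1 < r + 1 then
      (if 0 < x + y.2.1 then
        (IPd A y.1 y.2.1).indicator W y.2.2.1 * (PosP A (x + y.2.1) (r - y.1)).indicator W y.2.2.2
      else 0)
    else 0
  have h1 : gf2 A (PosP A x (r + 1)) = ∑' p : PosP A x (r + 1), F (f p) := by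
    unfold gf2 s2
    refine tsum_congr fun p => ?_
    show _ = (if (f p).1 < r + 1 then _ else 0)
    rw [if_pos (hf1 p), if_pos (hf2 p), Set.indicator_of_mem (hf3 p),
      Set.indicator_of_mem (hf4 p), mul_one]
    show mm A (p : List A.ι × List A.ι).1 * mm A (p : List A.ι × List A.ι).2 =
      mm A (f p).2.2.1.1 * mm A (f p).2.2.1.2 * (mm A (f p).2.2.2.1 * mm A (f p).2.2.2.2)
    have ha : mm A (p : List A.ι × List A.ι).1 = mm A (f p).2.2.1.1 * mm A (f p).2.2.2.1 := by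
      rw [hf5 p]
      exact mm_append _ _
    have hb : mm A (p : List A.ι × List A.ι).2 = mm A (f p).2.2.1.2 * mm A (f p).2.2.2.2 := by
      rw [hf5 p]
      exact mm_append _ _
    rw [ha, hb]
    ring
  rw [h1]
  refine le_trans (ENNReal.tsum_comp_le_tsum_of_injective hinj F) ?_
  rw [ENNReal.tsum_prod']
  have h2 : ∀ i : ℕ, ∑' w : ℤ × (List A.ι × List A.ι) × (List A.ι × List A.ι), F (i, w) =
      if i < r + 1 then (∑' δ : ℤ,
        if 0 < x + δ then gf2 A (IPd A i δ) * gf2 A (PosP A (x + δ) (r - i)) else 0) else 0 := by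
    intro i
    by_cases hi : i < r + 1
    · rw [if_pos hi, ENNReal.tsum_prod']
      refine tsum_congr fun δ => ?_
      by_cases hδ : 0 < x + δ
      · rw [if_pos hδ, ENNReal.tsum_prod', AGp_ind (IPd A i δ),
          AGp_ind (PosP A (x + δ) (r - i)), ← ENNReal.tsum_mul_right]
        refine tsum_congr fun a => ?_
        rw [← ENNReal.tsum_mul_left]
        refine tsum_congr fun b => ?_
        show (if i < r + 1 then (if 0 < x + δ then _ else 0) else 0) = _
        rw [if_pos hi, if_pos hδ]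
      · rw [if_neg hδ]
        refine ENNReal.tsum_eq_zero.2 fun c => ?_
        show (if i < r + 1 then (if 0 < x + δ then _ else 0) else 0) = _
        rw [if_pos hi, if_neg hδ]
    · rw [if_neg hi]
      refine ENNReal.tsum_eq_zero.2 fun c => ?_
      show (if i < r + 1 then _ else 0) = _
      rw [if_neg hi]
  have h3 : ∑' i : ℕ, ∑' w : ℤ × (List A.ι × List A.ι) × (List A.ι × List A.ι), F (i, w) =
      ∑' i : ℕ, if i < r + 1 then (∑' δ : ℤ,
        if 0 < x + δ then gf2 A (IPd A i δ) * gf2 A (PosP A (x + δ) (r - i)) else 0) else 0 :=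
    tsum_congr h2
  rw [h3, tsum_eq_sum (s := range (r + 1))]
  · refine le_of_eq (Finset.sum_congr rfl fun i hi => ?_)
    rw [if_pos (mem_range.1 hi)]
  · intro i hi
    rw [if_neg (fun h => hi (mem_range.2 h))]

theorem ap_le (r : ℕ) (x : ℤ) : gf2 A (PosP A x r) ≤ Pool.Agent.ZCS.gw (fun i δ => gf2 A (IPd A i δ)) r x := by
  induction r using Nat.strong_induction_on generalizing x with
  | _ r ih =>
    cases r with
    | zero =>
      rw [Pool.Agent.ZCS.gw_zero]
      exact AGp_zero x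
    | succ r =>
      refine (AGp_rec x r).trans ?_
      rw [Pool.Agent.ZCS.gw_succ]
      refine Finset.sum_le_sum fun i _ => ENNReal.tsum_le_tsum fun δ => ?_
      by_cases h : 0 < x + δ
      · rw [if_pos h, if_pos h]
        exact mul_le_mul_right (ih (r - i) (by omega) (x + δ)) _
      · rw [if_neg h, if_neg h]

end Pool.Agent.RPL
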