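import Pool.Agent.RPL.ADefs

/-!
Project RPL, part A, module AList: lists, levels, sums.
-/

set_option autoImplicit false

namespace Pool.Agent.RPL

open Finset
open scoped ENNReal NNReal

variable {A : Alph}

theorem wd_nil : wd A [] = 0 := rfl

theorem ds_nil : ds A [] = 0 := rfl

theorem mm_nil : mm A [] = 1 := rfl

theorem wd_append (u v : List A.ι) : wd A (u ++ v) = wd A u + wd A v := by
  unfold wd
  rw [List.map_append, List.sum_append]

theorem ds_append (u v : List A.ι) : ds A (u ++ v) = ds A u + ds A v := by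
  unfold ds
  rw [List.map_append, List.sum_append]

theorem mm_append (u v : List A.ι) : mm A (u ++ v) = mm A u * mm A v := by
  unfold mm
  rw [List.map_append, List.prod_append]

theorem wd_cons (a : A.ι) (v : List A.ι) : wd A (a :: v) = A.w a + wd A v := by
  unfold wd
  rw [List.map_cons, List.sum_cons]

theorem mm_cons (a : A.ι) (v : List A.ι) : mm A (a :: v) = A.ms a * mm A v := by
  unfold mm
  rw [List.map_cons, List.prod_cons]

theorem wd_singleton (a : A.ι) : wd A [a] = A.w a := by
  rw [wd_cons, wd_nil, add_zero]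

theorem wd_reverse (u : List A.ι) : wd A u.reverse = wd A u := by
  unfold wd
  rw [List.map_reverse, List.sum_reverse]

theorem ds_reverse (u : List A.ι) : ds A u.reverse = ds A u := by
  unfold ds
  rw [List.map_reverse, List.sum_reverse]

theorem mm_reverse (u : List A.ι) : mm A u.reverse = mm A u := by
  unfold mm
  rw [List.map_reverse, List.prod_reverse]

theorem wd_eq_zero {u : List A.ι} : wd A u = 0 ↔ u = [] := by
  cases u with
  | nil => simp [wd_nil]
  | cons a v =>
    rw [wd_cons]
    have := A.w1 a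
    simp
    omega

/-- Two initial parts of the same width are equal. -/
theorem pre_unique {u v u' v' : List A.ι} (h : u ++ v = u' ++ v') (hw : wd A u = wd A u') : u = u' ∧ v = v' := by
  rcases List.append_eq_append_iff.1 h with ⟨c, h1, h2⟩ | ⟨c, h1, h2⟩
  · have h3 : wd A c = 0 := by
      have := congrArg (wd A) h1
      rw [wd_append] at this
      omega
    rw [wd_eq_zero] at h3
    subst h3
    simp at h1 h2
    exact ⟨h1.symm, h2⟩
  · have h3 : wd A c = 0 := by
      have := congrArg (wd A) h1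
      rw [wd_append] at this
      omega
    rw [wd_eq_zero] at h3
    subst h3
    simp at h1 h2
    exact ⟨h1, h2.symm⟩

theorem Lv_zero (P : List A.ι) : Lv A P 0 := ⟨[], P, rfl, rfl⟩

theorem Lv_self (P : List A.ι) : Lv A P (wd A P) := ⟨P, [], (List.append_nil P).symm, rfl⟩

theorem Lv_le {P : List A.ι} {i : ℕ} (h : Lv A P i) : i ≤ wd A P := by
  obtain ⟨u, v, h1, h2⟩ := h
  rw [h1, wd_append]
  omega

/-- Levels of `u ++ v` beyond `u`. -/
theorem Lv_append (u v : List A.ι) (i : ℕ) : Lv A (u ++ v) (wd A u + i) ↔ Lv A v i := by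
  constructor
  · rintro ⟨a, b, h, hw⟩
    rcases List.append_eq_append_iff.1 h with ⟨c, h1, h2⟩ | ⟨c, h1, h2⟩
    · refine ⟨c, b, h2, ?_⟩
      rw [h1, wd_append] at hw
      omega
    · have h3 : wd A c = 0 := by
        rw [h1, wd_append] at hw
        omega
      have h4 : i = 0 := by
        rw [h1, wd_append] at hw
        omega
      rw [h4]
      exact Lv_zero v
  · rintro ⟨a, b, h, hw⟩
    refine ⟨u ++ a, b, ?_, ?_⟩
    · rw [h, List.append_assoc]
    · rw [wd_append, hw]

/-- Levels of `u ++ v` in `u`. -/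
theorem Lv_append_le (u v : List A.ι) {i : ℕ} (hi : i ≤ wd A u) : Lv A (u ++ v) i ↔ Lv A u i := by
  constructor
  · rintro ⟨a, b, h, hw⟩
    rcases List.append_eq_append_iff.1 h with ⟨c, h1, h2⟩ | ⟨c, h1, h2⟩
    · have h3 : wd A c = 0 := by
        have h4 := congrArg (wd A) h1
        rw [wd_append] at h4
        omega
      rw [wd_eq_zero] at h3
      subst h3
      rw [List.append_nil] at h1
      exact ⟨a, [], by rw [h1, List.append_nil], hw⟩
    · exact ⟨a, c, h1, hw⟩
  · rintro ⟨a, b, h, hw⟩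
    exact ⟨a, b ++ v, by rw [h, List.append_assoc], hw⟩

theorem At_Lv {P : List A.ι} {i : ℕ} {x : ℤ} (h : At A P i x) : Lv A P i := by
  obtain ⟨u, v, h1, h2, _⟩ := h
  exact ⟨u, v, h1, h2⟩

theorem Lv_At {P : List A.ι} {i : ℕ} (h : Lv A P i) : ∃ x, At A P i x := by
  obtain ⟨u, v, h1, h2⟩ := h
  exact ⟨ds A u, u, v, h1, h2, rfl⟩

theorem At_unique {P : List A.ι} {i : ℕ} {x y : ℤ} (h : At A P i x) (h' : At A P i y) : x = y := by
  obtain ⟨u, v, h1, h2, h3⟩ := h
  obtain ⟨u', v', h1', h2', h3'⟩ := h'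
  have := (pre_unique (h1.symm.trans h1') (h2.trans h2'.symm)).1
  rw [← h3, ← h3', this]

theorem At_append (u v : List A.ι) (i : ℕ) (x : ℤ) : At A (u ++ v) (wd A u + i) (ds A u + x) ↔ At A v i x := by
  constructor
  · intro h
    obtain ⟨y, hy⟩ := Lv_At ((Lv_append u v i).1 (At_Lv h))
    have h1 : At A (u ++ v) (wd A u + i) (ds A u + y) := by
      obtain ⟨a, b, e1, e2, e3⟩ := hy
      exact ⟨u ++ a, b, by rw [e1, List.append_assoc], by rw [wd_append, e2], by rw [ds_append, e3]⟩
    have h2 := At_unique h h1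
    have h3 : x = y := by omega
    rw [h3]
    exact hy
  · rintro ⟨a, b, e1, e2, e3⟩
    exact ⟨u ++ a, b, by rw [e1, List.append_assoc], by rw [wd_append, e2], by rw [ds_append, e3]⟩

theorem At_append_le (u v : List A.ι) {i : ℕ} (x : ℤ) (hi : i ≤ wd A u) : At A (u ++ v) i x ↔ At A u i x := by
  constructor
  · intro h
    obtain ⟨y, hy⟩ := Lv_At ((Lv_append_le u v hi).1 (At_Lv h))
    have h1 : At A (u ++ v) i y := by
      obtain ⟨a, b, e1, e2, e3⟩ := hy
      exact ⟨a, b ++ v, by rw [e1, List.append_assoc], e2, e3⟩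
    rw [At_unique h h1]
    exact hy
  · rintro ⟨a, b, e1, e2, e3⟩
    exact ⟨a, b ++ v, by rw [e1, List.append_assoc], e2, e3⟩

theorem At_zero {P : List A.ι} {x : ℤ} (h : At A P 0 x) : x = 0 :=
  At_unique h ⟨[], P, rfl, rfl, rfl⟩

theorem s1_mono {S : Set (List A.ι)} {F G : List A.ι → ℝ≥0∞} (h : ∀ l ∈ S, F l ≤ G l) : s1 A S F ≤ s1 A S G := by
  unfold s1
  exact ENNReal.tsum_le_tsum fun l => mul_le_mul_right (h l l.2) _

theorem s1_congr {S : Set (List A.ι)} {F G : List A.ι → ℝ≥0∞} (h : ∀ l ∈ S, F l = G l) : s1 A S F = s1 A S G := by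
  unfold s1
  exact tsum_congr fun l => by rw [h l l.2]

theorem s1_const_mul (S : Set (List A.ι)) (c : ℝ≥0∞) (F : List A.ι → ℝ≥0∞) : s1 A S (fun l => c * F l) = c * s1 A S F := by
  unfold s1
  rw [← ENNReal.tsum_mul_left]
  exact tsum_congr fun l => by ring

theorem s1_mul_const (S : Set (List A.ι)) (c : ℝ≥0∞) (F : List A.ι → ℝ≥0∞) : s1 A S (fun l => F l * c) = s1 A S F * c := by
  unfold s1
  rw [← ENNReal.tsum_mul_right]
  exact tsum_congr fun l => by ring

theorem s1_add (S : Set (List A.ι)) (F G : List A.ι → ℝ≥0∞) : s1 A S (fun l => F l + G l) = s1 A S F + s1 A S G := by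
  unfold s1
  rw [← ENNReal.tsum_add]
  exact tsum_congr fun l => by ring

theorem s1_sum {β : Type} (S : Set (List A.ι)) (T : Finset β) (F : β → List A.ι → ℝ≥0∞) :
    s1 A S (fun l => ∑ i ∈ T, F i l) = ∑ i ∈ T, s1 A S (F i) := by
  unfold s1
  rw [← Summable.tsum_finsetSum (fun i _ => ENNReal.summable)]
  exact tsum_congr fun l => by rw [Finset.mul_sum]

theorem s1_const (r : ℕ) (c : ℝ≥0∞) : s1 A (Lr A r) (fun _ => c) = bb A r * c := by
  have h := s1_mul_const (A := A) (Lr A r) c (fun _ => 1)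
  simp only [one_mul] at h
  exact h

theorem s1_comm (S T : Set (List A.ι)) (F : List A.ι → List A.ι → ℝ≥0∞) :
    s1 A S (fun x => s1 A T (fun y => F x y)) = s1 A T (fun y => s1 A S (fun x => F x y)) := by
  unfold s1
  simp only [← ENNReal.tsum_mul_left]
  rw [ENNReal.tsum_comm]
  exact tsum_congr fun y => tsum_congr fun x => by ring

/-- Reversal of the lists of width `r`. -/
theorem s1_reverse (r : ℕ) (F : List A.ι → ℝ≥0∞) : s1 A (Lr A r) (fun l => F l.reverse) = s1 A (Lr A r) F := by
  unfold s1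
  let e : Lr A r ≃ Lr A r :=
    { toFun := fun l => ⟨l.1.reverse, by
        show wd A l.1.reverse = r
        rw [wd_reverse]
        exact l.2⟩
      invFun := fun l => ⟨l.1.reverse, by
        show wd A l.1.reverse = r
        rw [wd_reverse]
        exact l.2⟩
      left_inv := fun l => Subtype.ext (List.reverse_reverse _)
      right_inv := fun l => Subtype.ext (List.reverse_reverse _) }
  rw [← e.tsum_eq (fun l : Lr A r => mm A (l : List A.ι) * F l)]
  refine tsum_congr fun l => ?_
  show mm A l.1 * F l.1.reverse = mm A l.1.reverse * F l.1.reverse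
  rw [mm_reverse]

end Pool.Agent.RPL
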