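import Pool.Agent.RPL.AOwn

/-!
Project RPL, part A, module AMw: the mass of the middle parts.

PAPER PROOF. `mw_le`: `M ∈ MW A k a a'`, `k ≥ 1`: `M` is one letter (of width `k`, mass `la A (k - 1)` in total) or `M = c :: (N ++ [c'])`; the first letter has width `j + 1 > a` (`A.w c` is a level of `M`), so `a ≤ j`; the last one
`j' + 1 > a'` in the same way; `wd A N = h`, `(j + 1) + h + (j' + 1) = k`. The map `(j, c, h, N, j', c') ↦ c :: (N ++ [c'])` is injective.
-/

set_option autoImplicit false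

namespace Pool.Agent.RPL

open Finset
open scoped ENNReal NNReal

variable {A : Alph}

/-- The lists with first letter of width `j + 1`, last letter of width `j' + 1` and `h` between them. -/
private def XX (A : Alph) (x : ℕ × ℕ × ℕ) : Set (List A.ι) :=
  {M | ∃ (c : A.ι) (N : List A.ι) (c' : A.ι), A.w c = x.1 + 1 ∧ wd A N = x.2.1 ∧ A.w c' = x.2.2 + 1 ∧
    M = c :: (N ++ [c'])}

private theorem xx_le (x : ℕ × ℕ × ℕ) : ∑' M : XX A x, mm A (M : List A.ι) ≤
    la A x.1 * bb A x.2.1 * la A x.2.2 := by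
  classical
  have h0 : ∀ M : XX A x, ∃ t : {c : A.ι // A.w c = x.1 + 1} × (Lr A x.2.1) × {c : A.ι // A.w c = x.2.2 + 1},
      (M : List A.ι) = (t.1 : A.ι) :: ((t.2.1 : List A.ι) ++ [(t.2.2 : A.ι)]) := by
    rintro ⟨M, c, N, c', h1, h2, h3, h4⟩
    exact ⟨(⟨c, h1⟩, ⟨N, h2⟩, ⟨c', h3⟩), h4⟩
  choose f hf using h0
  have hinj : Function.Injective f := by
    intro M M' h
    apply Subtype.ext
    rw [hf M, hf M', h]
  have h1 : ∀ M : XX A x, mm A (M : List A.ι) =
      A.ms ((f M).1 : A.ι) * (mm A ((f M).2.1 : List A.ι) * A.ms ((f M).2.2 : A.ι)) := by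
    intro M
    rw [hf M, mm_cons, mm_append, mm_cons, mm_nil, mul_one]
  calc ∑' M : XX A x, mm A (M : List A.ι)
      = ∑' M : XX A x, (fun t : {c : A.ι // A.w c = x.1 + 1} × (Lr A x.2.1) ×
          {c : A.ι // A.w c = x.2.2 + 1} =>
          A.ms (t.1 : A.ι) * (mm A (t.2.1 : List A.ι) * A.ms (t.2.2 : A.ι))) (f M) :=
        tsum_congr h1
    _ ≤ ∑' t : {c : A.ι // A.w c = x.1 + 1} × (Lr A x.2.1) × {c : A.ι // A.w c = x.2.2 + 1},
          A.ms (t.1 : A.ι) * (mm A (t.2.1 : List A.ι) * A.ms (t.2.2 : A.ι)) :=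
        ENNReal.tsum_comp_le_tsum_of_injective hinj _
    _ = la A x.1 * bb A x.2.1 * la A x.2.2 := by
        have e1 : bb A x.2.1 = ∑' N : Lr A x.2.1, mm A (N : List A.ι) := by
          unfold bb s1
          exact tsum_congr fun N => mul_one _
        rw [ENNReal.tsum_prod']
        have e2 : ∀ c : {c : A.ι // A.w c = x.1 + 1},
            ∑' b : (Lr A x.2.1) × {c : A.ι // A.w c = x.2.2 + 1},
              A.ms (c : A.ι) * (mm A (b.1 : List A.ι) * A.ms (b.2 : A.ι)) =
            A.ms (c : A.ι) * (bb A x.2.1 * la A x.2.2) := by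
          intro c
          rw [ENNReal.tsum_mul_left, ENNReal.tsum_prod', e1]
          congr 1
          rw [← ENNReal.tsum_mul_right]
          refine tsum_congr fun N => ?_
          have e3 := ENNReal.tsum_mul_left (a := mm A (N : List A.ι))
            (f := fun b : {c : A.ι // A.w c = x.2.2 + 1} => A.ms (b : A.ι))
          exact e3
        rw [tsum_congr e2, ENNReal.tsum_mul_right, mul_assoc]
        rfl

private theorem one_le (k : ℕ) : ∑' M : {M : List A.ι | ∃ c : A.ι, A.w c = k + 1 ∧ M = [c]}, mm A (M : List A.ι) ≤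
    la A k := by
  classical
  have h0 : ∀ M : {M : List A.ι | ∃ c : A.ι, A.w c = k + 1 ∧ M = [c]}, ∃ t : {c : A.ι // A.w c = k + 1},
      (M : List A.ι) = [(t : A.ι)] := by
    rintro ⟨M, c, h1, h2⟩
    exact ⟨⟨c, h1⟩, h2⟩
  choose f hf using h0
  have hinj : Function.Injective f := by
    intro M M' h
    apply Subtype.ext
    rw [hf M, hf M', h]
  have h1 : ∀ M : {M : List A.ι | ∃ c : A.ι, A.w c = k + 1 ∧ M = [c]}, mm A (M : List A.ι) =
      A.ms ((f M) : A.ι) := by
    intro M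
    rw [hf M, mm_cons, mm_nil, mul_one]
  calc ∑' M : {M : List A.ι | ∃ c : A.ι, A.w c = k + 1 ∧ M = [c]}, mm A (M : List A.ι)
      = ∑' M : {M : List A.ι | ∃ c : A.ι, A.w c = k + 1 ∧ M = [c]},
          (fun t : {c : A.ι // A.w c = k + 1} => A.ms (t : A.ι)) (f M) := tsum_congr h1
    _ ≤ ∑' t : {c : A.ι // A.w c = k + 1}, A.ms (t : A.ι) :=
        ENNReal.tsum_comp_le_tsum_of_injective hinj _
    _ = la A k := rfl

private theorem mw_sub (k a a' : ℕ) (hk : 1 ≤ k) : MW A k a a' ⊆
    (⋃ x ∈ (range (k - 1) ×ˢ range (k - 1) ×ˢ range (k - 1)).filter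
      (fun x : ℕ × ℕ × ℕ => a ≤ x.1 ∧ a' ≤ x.2.2 ∧ x.1 + x.2.1 + x.2.2 + 1 = k - 1), XX A x) ∪
    {M : List A.ι | ∃ c : A.ι, A.w c = (k - 1) + 1 ∧ M = [c]} := by
  intro M hM
  obtain ⟨h1, h2, h3⟩ := hM
  cases M with
  | nil =>
    rw [wd_nil] at h1
    omega
  | cons c L =>
    rcases List.eq_nil_or_concat L with rfl | ⟨N, c', rfl⟩
    · right
      refine ⟨c, ?_, rfl⟩
      rw [wd_singleton] at h1
      omega
    · left
      have w1 := A.w1 c
      have w2 := A.w1 c'
      rw [List.concat_eq_append] at h1 h2 h3 ⊢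
      rw [wd_cons, wd_append, wd_singleton] at h1
      have g1 : a < A.w c := by
        by_contra hcon
        refine h2 (A.w c) w1 (by omega) ⟨[c], N ++ [c'], rfl, wd_singleton c⟩
      have g2 : a' < A.w c' := by
        by_contra hcon
        refine h3 (A.w c') w2 (by omega) ⟨[c'], (c :: N).reverse, ?_, wd_singleton c'⟩
        simp
      refine Set.mem_biUnion (x := (A.w c - 1, wd A N, A.w c' - 1)) ?_ ?_
      · rw [Finset.mem_coe, Finset.mem_filter, Finset.mem_product, Finset.mem_product]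
        simp only [Finset.mem_range]
        omega
      · refine ⟨c, N, c', ?_, rfl, ?_, rfl⟩
        · show A.w c = A.w c - 1 + 1
          omega
        · show A.w c' = A.w c' - 1 + 1
          omega

theorem mw_le (k a a' : ℕ) (hk : 1 ≤ k) : s1 A (MW A k a a') (fun _ => 1) ≤
    (∑ j ∈ range (k - 1), ∑ h ∈ range (k - 1), ∑ j' ∈ range (k - 1),
      if a ≤ j ∧ a' ≤ j' ∧ j + h + j' + 1 = k - 1 then la A j * bb A h * la A j' else 0) + la A (k - 1) := by
  classical
  have h1 : s1 A (MW A k a a') (fun _ => 1) = ∑' M : MW A k a a', mm A (M : List A.ι) := by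
    unfold s1
    exact tsum_congr fun M => mul_one _
  rw [h1]
  refine (ENNReal.tsum_mono_subtype (mm A) (mw_sub k a a' hk)).trans ?_
  refine (ENNReal.tsum_union_le (mm A) _ _).trans ?_
  refine add_le_add ?_ (one_le (k - 1))
  refine (ENNReal.tsum_biUnion_le (mm A) _ _).trans ?_
  refine (Finset.sum_le_sum fun x _ => xx_le x).trans ?_
  rw [Finset.sum_filter, Finset.sum_product]
  refine Finset.sum_le_sum fun j _ => ?_
  rw [Finset.sum_product]

end Pool.Agent.RPL
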