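import Pool.Agent.RPL.AList
import Pool.Agent.ZHW.AnIrr

/-!
Project RPL, part A, module AOwn: the renewal equation of the lists.

PAPER PROOF. `bb_zero`: the only list of width 0 is `[]` (`wd_eq_zero`). `bb_ren`: first letter: the lists of width `r + 1` are the disjoint union over
`i ≤ r` of the products (letters of width `i + 1`) x (lists of width `r - i`), `(a, l) ↦ a :: l` (`wd_cons`, `mm_cons`, `A.w1`); a bijection from the sigma type
`Σ i : Fin (r + 1), {a // A.w a = i + 1} × Lr A (r - i)` (`Equiv.ofBijective`, `tsum_sigma'`, `ENNReal.tsum_prod'`; compare `cob_dec` in ZLF/CDec). `la_sum`: the sum over `i < N` of the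
`la A i` is at most `∑' a, A.ms a ≤ 1` (`A.tot`): the sets `{a | A.w a = i + 1}` are disjoint (e.g. write `la A i = ∑' a, if A.w a = i + 1 then A.ms a else 0` by `tsum_subtype`, exchange the
sums, `∑ i ∈ range N, if A.w a = i + 1 then c else 0 ≤ c`). `bb_le_one`: strong induction with `bb_ren`, `la_sum`.
-/

set_option autoImplicit false

namespace Pool.Agent.RPL

open Finset
open scoped ENNReal NNReal

variable {A : Alph}

theorem bb_zero : bb A 0 = 1 := by
  have h : Lr A 0 = {[]} := by
    ext l
    exact wd_eq_zero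
  unfold bb s1
  rw [h, tsum_singleton ([] : List A.ι) (fun l : List A.ι => mm A l * 1), mm_nil, mul_one]

theorem bb_ren (r : ℕ) : bb A (r + 1) = ∑ i ∈ range (r + 1), la A i * bb A (r - i) := by
  classical
  let S : Type := Σ i : Fin (r + 1), ({a : A.ι // A.w a = (i : ℕ) + 1} × Lr A (r - i))
  have hmem : ∀ x : S, (x.2.1 : A.ι) :: (x.2.2 : List A.ι) ∈ Lr A (r + 1) := by
    rintro ⟨i, ⟨a, ha⟩, ⟨l, hl⟩⟩
    have hi : (i : ℕ) ≤ r := by have := i.2; omega
    have hl' : wd A l = r - i := hl
    show wd A (a :: l) = r + 1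
    rw [wd_cons, ha, hl']
    omega
  let f : S → Lr A (r + 1) := fun x => ⟨_, hmem x⟩
  have hf : Function.Bijective f := by
    constructor
    · rintro ⟨i, ⟨a, ha⟩, ⟨l, hl⟩⟩ ⟨i', ⟨a', ha'⟩, ⟨l', hl'⟩⟩ he
      have h1 : a :: l = a' :: l' := congrArg (fun x : Lr A (r + 1) => (x : List A.ι)) he
      obtain ⟨h2, h3⟩ := List.cons.inj h1
      subst h2
      subst h3
      have hii : i = i' := Fin.ext (by omega)
      subst hii
      rfl
    · rintro ⟨P, hP⟩
      have hP' : wd A P = r + 1 := hP
      cases P with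
      | nil =>
        rw [wd_nil] at hP'
        omega
      | cons a l =>
        rw [wd_cons] at hP'
        have h1 := A.w1 a
        refine ⟨⟨⟨A.w a - 1, by omega⟩, ⟨a, ?_⟩, ⟨l, ?_⟩⟩, ?_⟩
        · show A.w a = A.w a - 1 + 1
          omega
        · show wd A l = r - (A.w a - 1)
          omega
        · rfl
  have h2 : (∑ i ∈ range (r + 1), la A i * bb A (r - i)) = ∑' x : S, mm A (f x : List A.ι) * 1 := by
    rw [ENNReal.tsum_sigma', tsum_fintype, Finset.sum_range]
    refine Finset.sum_congr rfl fun i _ => ?_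
    unfold la bb s1
    rw [ENNReal.tsum_prod', ← ENNReal.tsum_mul_right]
    refine tsum_congr fun a => ?_
    rw [← ENNReal.tsum_mul_left]
    refine tsum_congr fun l => ?_
    show A.ms a * (mm A l * 1) = mm A ((a : A.ι) :: (l : List A.ι)) * 1
    rw [mm_cons, mul_one, mul_one]
  rw [h2]
  unfold bb s1
  exact ((Equiv.ofBijective f hf).tsum_eq (fun p : Lr A (r + 1) => mm A (p : List A.ι) * 1)).symm

theorem la_sum (N : ℕ) : ∑ i ∈ range N, la A i ≤ 1 := by
  classical
  have h1 : ∀ i : ℕ, la A i = ∑' a : A.ι, if A.w a - 1 = i then A.ms a else 0 := by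
    intro i
    unfold la
    have h2 : (∑' a : {a : A.ι // A.w a = i + 1}, A.ms a) =
        ∑' a : A.ι, ({a : A.ι | A.w a = i + 1}).indicator A.ms a :=
      tsum_subtype {a : A.ι | A.w a = i + 1} A.ms
    rw [h2]
    refine tsum_congr fun a => ?_
    have h3 := A.w1 a
    by_cases h : A.w a = i + 1
    · rw [Set.indicator_of_mem (show a ∈ {a : A.ι | A.w a = i + 1} from h), if_pos (by omega)]
    · rw [Set.indicator_of_notMem (show a ∉ {a : A.ι | A.w a = i + 1} from h), if_neg (by omega)]
  have h2 : ∑ i ∈ range N, la A i = ∑' a : A.ι, ∑ i ∈ range N, if A.w a - 1 = i then A.ms a else 0 := by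
    rw [Summable.tsum_finsetSum (fun i _ => ENNReal.summable)]
    exact Finset.sum_congr rfl fun i _ => h1 i
  rw [h2]
  refine le_trans (ENNReal.tsum_le_tsum fun a => ?_) A.tot
  rw [Finset.sum_ite_eq]
  split_ifs
  · exact le_rfl
  · exact zero_le

theorem bb_le_one (r : ℕ) : bb A r ≤ 1 := by
  induction r using Nat.strong_induction_on with
  | _ r ih =>
    cases r with
    | zero => exact bb_zero.le
    | succ r =>
      rw [bb_ren]
      refine le_trans (Finset.sum_le_sum fun i _ => ?_) (la_sum (A := A) (r + 1))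
      calc la A i * bb A (r - i) ≤ la A i * 1 := mul_le_mul_right (ih (r - i) (by omega)) _
        _ = la A i := mul_one _

end Pool.Agent.RPL
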