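import Pool.Agent.RPL.AEw
import Pool.Agent.RPL.AGp
import Pool.Agent.RPL.APair

/-!
Project RPL, part A, module APos: pairs of lists, the first one always higher.

PAPER PROOF. `JJ_shift`: `fp A * JJ A r s ≤ JJ A (r + 1) (s + 1)`: `JJ A (r + 1) (s + 1) = ∑ l ≤ min r s + 1, ew A l * cc A (r + 1 - l) (s + 1 - l)`; leave out `l = 0`, `fp_step`.
`pos_le`: pairs `(P, Q)` of widths `r`, `s` with positive difference at all common levels `≥ 1`: by `cob_dec` (last common level `l`) the mass is at most `∑ l, gf2 A (PosP A 0 l) * cc A (r - l) (s - l) ≤ JJ A r s`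
(`ap_le`; the condition for `(a ++ c, b ++ d)` implies the one for `(a, b)`: `At_append_le`).
-/

set_option autoImplicit false

namespace Pool.Agent.RPL

open Finset
open scoped ENNReal NNReal

variable {A : Alph}

theorem JJ_shift (r s : ℕ) : fp A * JJ A r s ≤ JJ A (r + 1) (s + 1) := by
  unfold JJ
  have e : min (r + 1) (s + 1) + 1 = (min r s + 1) + 1 := by omega
  rw [e, Finset.mul_sum, Finset.sum_range_succ' (fun l => ew A l * cc A (r + 1 - l) (s + 1 - l))]
  refine le_trans (Finset.sum_le_sum fun l _ => ?_) le_self_add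
  rw [← mul_assoc, Nat.add_sub_add_right, Nat.add_sub_add_right]
  exact mul_le_mul_left (fp_step l) _

private theorem APos_ind (S : Set (List A.ι × List A.ι)) (F : List A.ι → List A.ι → ℝ≥0∞) :
    s2 A S F = ∑' p : List A.ι × List A.ι, S.indicator (fun q => mm A q.1 * mm A q.2 * F q.1 q.2) p := by
  unfold s2
  exact tsum_subtype S (fun q : List A.ι × List A.ι => mm A q.1 * mm A q.2 * F q.1 q.2)

private theorem APos_mono (S : Set (List A.ι × List A.ι)) {F G : List A.ι → List A.ι → ℝ≥0∞}
    (h : ∀ a b, F a b ≤ G a b) : s2 A S F ≤ s2 A S G := by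
  unfold s2
  exact ENNReal.tsum_le_tsum fun p => mul_le_mul_right (h _ _) _

open Classical in
private theorem APos_step (r s l : ℕ) :
    s2 A (CC A l) (fun a b => s2 A (NCC A (r - l) (s - l)) (fun c d =>
      if (∀ (i : ℕ) (x y : ℤ), 1 ≤ i → At A (a ++ c) i x → At A (b ++ d) i y → y < x) then 1 else 0)) ≤
      gf2 A (PosP A 0 l) * cc A (r - l) (s - l) := by
  have h1 : gf2 A (PosP A 0 l) = ∑' p : List A.ι × List A.ι,
      (PosP A 0 l).indicator (fun q => mm A q.1 * mm A q.2 * 1) p := APos_ind _ _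
  rw [h1, APos_ind, ← ENNReal.tsum_mul_right]
  refine ENNReal.tsum_le_tsum fun p => ?_
  obtain ⟨a, b⟩ := p
  by_cases hC : (a, b) ∈ CC A l
  · rw [Set.indicator_of_mem hC]
    by_cases hP : (a, b) ∈ PosP A 0 l
    · rw [Set.indicator_of_mem hP, mul_one]
      refine mul_le_mul_right ?_ _
      show _ ≤ s2 A (NCC A (r - l) (s - l)) (fun _ _ => 1)
      refine APos_mono _ fun c d => ?_
      dsimp only
      split_ifs
      · exact le_refl _
      · exact zero_le
    · have h2 : s2 A (NCC A (r - l) (s - l)) (fun c d =>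
          if (∀ (i : ℕ) (x y : ℤ), 1 ≤ i → At A (a ++ c) i x → At A (b ++ d) i y → y < x) then 1 else 0) = 0 := by
        unfold s2
        refine ENNReal.tsum_eq_zero.2 fun q => ?_
        dsimp only
        rw [if_neg, mul_zero]
        intro hall
        refine hP ⟨hC.1, hC.2, fun i u v hi hu hv => ?_⟩
        have hu' : At A (a ++ (q : List A.ι × List A.ι).1) i u :=
          (At_append_le _ _ u (Lv_le (At_Lv hu))).2 hu
        have hv' : At A (b ++ (q : List A.ι × List A.ι).2) i v :=
          (At_append_le _ _ v (Lv_le (At_Lv hv))).2 hv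
        have h3 := hall i u v hi hu' hv'
        omega
      simp only [h2, mul_zero]
      exact zero_le
  · rw [Set.indicator_of_notMem hC]
    exact zero_le

open Classical in
theorem pos_le (r s : ℕ) :
    s1 A (Lr A r) (fun P => s1 A (Lr A s) (fun Q => if (∀ (i : ℕ) (x y : ℤ), 1 ≤ i → At A P i x → At A Q i y → y < x) then 1 else 0)) ≤ JJ A r s := by
  rw [cob_dec (A := A) r s (fun P Q =>
    if (∀ (i : ℕ) (x y : ℤ), 1 ≤ i → At A P i x → At A Q i y → y < x) then 1 else 0)]
  unfold JJ
  refine Finset.sum_le_sum fun l _ => (APos_step r s l).trans ?_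
  exact mul_le_mul_left (ap_le l 0) _

end Pool.Agent.RPL
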