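import Pool.Agent.RPL.ADefs
import Pool.Agent.ZLF.Eta

/-!
Project RPL, part A, module AScaleR: the total mass of the chains of one scale (real numbers), index `d`, matrix `d / R - 1`.

PAPER PROOF. Copy the proof of `scale` in `Pool/Agent/ZLF/Eta.lean`. With `N = 2 ^ k`, `lo = R * (N + 1)`, `hi = R * (2 * N + 1)`: for `d ∈ Ico lo hi` one has `d / R - 1 ∈ Ico N (2 * N)`, every value is taken `R` times. Apply `lor_chain`
(ZLF/LorB) with `M d = Mm S Z D (d / R - 1)`, `L d = Lm S Z D (d / R - 1)`, `w d = 2 * y ^ (d / R)`, `lo`, `g K h i = chQ D lo (fun d => y ^ (d / R)) S.b (fun r s => 2 * S.J r s) (fun d => Bm S Z D (d / R - 1)) K h i`; `C`, `D` from `etaA`.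
`H = ∑ d ∈ Ico lo hi, eta (d / R - 1) = R * ∑ m ∈ Ico N (2 * N), eta m ≤ R * C * √N` (e.g. `Finset.sum_fiberwise` / `Finset.sum_comp`, or induction on `N`; `≤` is enough). `y ^ (d / R) ≤ y ^ N`. The constant `32 * (R * C)`.
-/

set_option autoImplicit false

namespace Pool.Agent.RPL

open Finset Matrix Pool.Agent.ZLF

/-- Every value of `d / R - 1` in `Ico N N'` is taken `R` times on `Ico (R * (N + 1)) (R * (N' + 1))`. -/
theorem sum_div (R : ℕ) (hR : 1 ≤ R) (N N' : ℕ) (hN : N ≤ N') (F : ℕ → ℝ) :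
    ∑ d ∈ Ico (R * (N + 1)) (R * (N' + 1)), F (d / R - 1) = R * ∑ m ∈ Ico N N', F m := by
  induction N', hN using Nat.le_induction with
  | base => simp
  | succ n hn ih =>
    have h1 : R * (N + 1) ≤ R * (n + 1) := Nat.mul_le_mul_left R (by omega)
    have h2 : R * (n + 1) ≤ R * (n + 1 + 1) := Nat.mul_le_mul_left R (by omega)
    rw [← Finset.sum_Ico_consecutive _ h1 h2, ih, Finset.sum_Ico_succ_top hn, mul_add (R : ℝ)]
    congr 1
    have h3 : ∀ d ∈ Ico (R * (n + 1)) (R * (n + 1 + 1)), F (d / R - 1) = F n := by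
      intro d hd
      rw [Finset.mem_Ico] at hd
      have h4 : d / R = n + 1 := by
        apply Nat.div_eq_of_lt_le
        · rw [mul_comm]
          exact hd.1
        · rw [mul_comm]
          exact hd.2
      rw [h4, Nat.add_sub_cancel]
    rw [Finset.sum_congr rfl h3, Finset.sum_const, Nat.card_Ico, nsmul_eq_mul]
    congr 2
    rw [Nat.mul_add R (n + 1) 1]
    omega

theorem scaleq (S : Sq) (Z : ℝ) (hZ : 0 < Z) (R : ℕ) (hR : 1 ≤ R) : ∃ C : ℝ, 0 < C ∧ ∀ k : ℕ, ∃ D : ℕ, 4 * D ≤ 2 ^ k ∧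
    ∀ y : ℝ, 0 ≤ y → y ≤ 1 → ∀ K : ℕ,
    ∑ d ∈ Ico (R * (2 ^ k + 1)) (R * (2 ^ (k + 1) + 1)), y ^ (d / R) * ∑ a ∈ range (D + 1), ∑ a' ∈ range (D + 1),
      S.b a * Bm S Z D (d / R - 1) a a' *
        chQ D (R * (2 ^ k + 1)) (fun d => y ^ (d / R)) S.b (fun r s => 2 * S.J r s) (fun d => Bm S Z D (d / R - 1)) K d a' ≤
    C * 2 ^ (3 * k) * y ^ (2 ^ k) * Real.exp (C * Real.sqrt (2 ^ k) * y ^ (2 ^ k)) := by
  obtain ⟨C0, hC0, h⟩ := etaA S Z hZ
  have hR0 : (0 : ℝ) < R := by exact_mod_cast hR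
  obtain ⟨C, hCd⟩ : ∃ C : ℝ, C = R * C0 := ⟨_, rfl⟩
  have hC : 0 < C := by
    rw [hCd]
    positivity
  refine ⟨32 * C, by positivity, fun k => ?_⟩
  obtain ⟨D, hD, hθ, hc, hH0⟩ := h k
  refine ⟨D, hD, fun y hy0 hy1 K => ?_⟩
  obtain ⟨lo, hlo⟩ : ∃ lo, lo = R * (2 ^ k + 1) := ⟨_, rfl⟩
  obtain ⟨hi, hhi⟩ : ∃ hi, hi = R * (2 ^ (k + 1) + 1) := ⟨_, rfl⟩
  let g : ℕ → ℕ → Fin (D + 1) → ℝ := fun K h i =>
    chQ D lo (fun d => y ^ (d / R)) S.b (fun r s => 2 * S.J r s) (fun d => Bm S Z D (d / R - 1)) K h i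
  have hB : ∀ d (a a' : Fin (D + 1)), (Mm S Z D (d / R - 1) + Lm S Z D (d / R - 1)) a a' =
      Bm S Z D (d / R - 1) a a' := by
    intro d a a'
    simp only [Matrix.add_apply, Mm, Lm, Matrix.of_apply, Bm]
    ring
  have hdot : ∀ K d, ∑ a ∈ range (D + 1), ∑ a' ∈ range (D + 1),
      S.b a * Bm S Z D (d / R - 1) a a' *
        chQ D lo (fun d => y ^ (d / R)) S.b (fun r s => 2 * S.J r s) (fun d => Bm S Z D (d / R - 1)) K d a' =
      bv S D ⬝ᵥ ((Mm S Z D (d / R - 1) + Lm S Z D (d / R - 1)) *ᵥ g K d) := by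
    intro K d
    rw [Finset.sum_range]
    simp only [dotProduct, Matrix.mulVec]
    refine Finset.sum_congr rfl fun a _ => ?_
    rw [Finset.sum_range, Finset.mul_sum]
    refine Finset.sum_congr rfl fun a' _ => ?_
    rw [hB]
    simp only [bv, g]
    ring
  have hg0 : ∀ h, g 0 h = bv S D := by
    intro h
    funext i
    simp only [g, chQ, bv]
  have hg : ∀ K h, g (K + 1) h = bv S D + ∑ d ∈ Ico lo h,
      (2 * y ^ (d / R)) • (Jm S D *ᵥ ((Mm S Z D (d / R - 1) + Lm S Z D (d / R - 1)) *ᵥ g K d)) := by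
    intro K h
    funext i
    rw [Pi.add_apply, Finset.sum_apply]
    change chQ D lo (fun d => y ^ (d / R)) S.b (fun r s => 2 * S.J r s)
      (fun d => Bm S Z D (d / R - 1)) (K + 1) h i = _
    rw [chQ]
    congr 1
    refine Finset.sum_congr rfl fun d _ => ?_
    rw [Pi.smul_apply, smul_eq_mul, mul_comm (2 : ℝ), mul_assoc]
    congr 1
    rw [Finset.sum_range]
    simp only [dotProduct, Matrix.mulVec]
    rw [Finset.mul_sum]
    refine Finset.sum_congr rfl fun a _ => ?_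
    rw [Finset.sum_range, Finset.mul_sum, Finset.mul_sum]
    refine Finset.sum_congr rfl fun a' _ => ?_
    rw [hB]
    simp only [Jm, Matrix.of_apply, g]
    ring
  have hy2 : ∀ i, 0 ≤ yv S Z k D i := yv_nonneg S Z k D
  set E0 : ℕ → ℝ := fun d => eta (Jm S D) (Mm S Z D d) (Lm S Z D d) (yv S Z k D) with hE0d
  have hE00 : ∀ d, 0 ≤ E0 d := fun d => eta_nonneg _ _ _ (Jm_nonneg S D) (Mm_nonneg S hZ D d)
    (Lm_nonneg S hZ D d) _ hy2
  obtain ⟨E, hE⟩ : ∃ E : ℕ → ℝ, E = fun d => E0 (d / R - 1) := ⟨_, rfl⟩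
  have hE0 : ∀ d, 0 ≤ E d := fun d => by
    rw [hE]
    exact hE00 _
  have key : ∀ d, bv S D ⬝ᵥ ((Mm S Z D (d / R - 1) + Lm S Z D (d / R - 1)) *ᵥ g K d) ≤
      E d * (2 * (yv S Z k D ⬝ᵥ bv S D) ^ 2 / (yv S Z k D ⬝ᵥ (Jm S D *ᵥ yv S Z k D))) *
        ∏ i ∈ Ico lo d, (1 + 2 * y ^ (i / R) * E i) := by
    intro d
    have := lor_chain (Jm S D) (Jm_symm S D) (Jm_nonneg S D) (bv S D) (yv S Z k D)
      (Jm_psd S D) hy2 hθ (fun d => Mm S Z D (d / R - 1)) (fun d => Lm S Z D (d / R - 1))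
      (fun d => Mm_symm S Z D _) (fun d => Lm_symm S Z D _)
      (fun d => Mm_nonneg S hZ D _) (fun d => Lm_nonneg S hZ D _) (fun d => 2 * y ^ (d / R))
      (fun d => by positivity) lo g hg0 hg K d
    rw [hE]
    exact this
  set c : ℝ := 2 * (yv S Z k D ⬝ᵥ bv S D) ^ 2 / (yv S Z k D ⬝ᵥ (Jm S D *ᵥ yv S Z k D)) with hcdef
  set H : ℝ := ∑ d ∈ Ico lo hi, E d with hHdef
  have hH : H ≤ C * Real.sqrt (2 ^ k) := by
    rw [hHdef, hlo, hhi, hE, sum_div R hR _ _ (Nat.pow_le_pow_right (by norm_num) (Nat.le_succ k)) E0,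
      hCd, mul_assoc]
    exact mul_le_mul_of_nonneg_left hH0 hR0.le
  have hc0 : 0 ≤ c := by positivity
  have hpow : ∀ i, lo ≤ i → y ^ (i / R) ≤ y ^ (2 ^ k) := fun i hi => by
    apply pow_le_pow_of_le_one hy0 hy1
    have h1 : 2 ^ k + 1 ≤ i / R := by
      rw [Nat.le_div_iff_mul_le (by omega), mul_comm]
      rw [← hlo]
      exact hi
    omega
  have hyN : 0 ≤ y ^ (2 ^ k) := by positivity
  have hprod : ∀ d ∈ Ico lo hi,
      ∏ i ∈ Ico lo d, (1 + 2 * y ^ (i / R) * E i) ≤ Real.exp (2 * y ^ (2 ^ k) * H) := by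
    intro d hd
    rw [Finset.mem_Ico] at hd
    have h1 : ∏ i ∈ Ico lo d, (1 + 2 * y ^ (i / R) * E i) ≤
        ∏ i ∈ Ico lo d, Real.exp (2 * y ^ (2 ^ k) * E i) := by
      refine Finset.prod_le_prod (fun i _ => ?_) fun i hi => ?_
      · have := hE0 i
        positivity
      · rw [Finset.mem_Ico] at hi
        have h2 : 2 * y ^ (i / R) * E i ≤ 2 * y ^ (2 ^ k) * E i :=
          mul_le_mul_of_nonneg_right (by linarith [hpow i hi.1]) (hE0 i)
        linarith [Real.add_one_le_exp (2 * y ^ (2 ^ k) * E i)]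
    rw [← Real.exp_sum, ← Finset.mul_sum] at h1
    refine h1.trans (Real.exp_le_exp.2 (mul_le_mul_of_nonneg_left ?_ (by positivity)))
    exact Finset.sum_le_sum_of_subset_of_nonneg
      (Finset.Ico_subset_Ico le_rfl hd.2.le) fun i _ _ => hE0 i
  have hmain : ∑ d ∈ Ico lo hi, y ^ (d / R) * ∑ a ∈ range (D + 1), ∑ a' ∈ range (D + 1),
      S.b a * Bm S Z D (d / R - 1) a a' *
        chQ D lo (fun d => y ^ (d / R)) S.b (fun r s => 2 * S.J r s) (fun d => Bm S Z D (d / R - 1)) K d a' ≤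
      ∑ d ∈ Ico lo hi,
        y ^ (2 ^ k) * (32 * (2 ^ k) ^ 2) * Real.exp (2 * y ^ (2 ^ k) * H) * E d := by
    refine Finset.sum_le_sum fun d hd => ?_
    rw [hdot]
    have h1 := key d
    have h2 := hprod d hd
    have h3 : 0 ≤ ∏ i ∈ Ico lo d, (1 + 2 * y ^ (i / R) * E i) :=
      Finset.prod_nonneg fun i _ => by
        have := hE0 i
        positivity
    have h4 : E d * c * ∏ i ∈ Ico lo d, (1 + 2 * y ^ (i / R) * E i) ≤
        E d * (32 * (2 ^ k) ^ 2) * Real.exp (2 * y ^ (2 ^ k) * H) := by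
      have h5 := hE0 d
      exact mul_le_mul (mul_le_mul_of_nonneg_left hc h5) h2 h3 (by positivity)
    have h6 : bv S D ⬝ᵥ ((Mm S Z D (d / R - 1) + Lm S Z D (d / R - 1)) *ᵥ g K d) ≤
        E d * (32 * (2 ^ k) ^ 2) * Real.exp (2 * y ^ (2 ^ k) * H) := h1.trans h4
    have h7 : 0 ≤ E d * (32 * (2 ^ k : ℝ) ^ 2) * Real.exp (2 * y ^ (2 ^ k) * H) := by
      have h5 := hE0 d
      positivity
    rw [Finset.mem_Ico] at hd
    calc y ^ (d / R) * (bv S D ⬝ᵥ ((Mm S Z D (d / R - 1) + Lm S Z D (d / R - 1)) *ᵥ g K d))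
        ≤ y ^ (d / R) * (E d * (32 * (2 ^ k) ^ 2) * Real.exp (2 * y ^ (2 ^ k) * H)) :=
          mul_le_mul_of_nonneg_left h6 (by positivity)
      _ ≤ y ^ (2 ^ k) * (E d * (32 * (2 ^ k) ^ 2) * Real.exp (2 * y ^ (2 ^ k) * H)) :=
          mul_le_mul_of_nonneg_right (hpow d hd.1) h7
      _ = y ^ (2 ^ k) * (32 * (2 ^ k) ^ 2) * Real.exp (2 * y ^ (2 ^ k) * H) * E d := by ring
  rw [← hlo, ← hhi]
  refine hmain.trans ?_
  rw [← Finset.mul_sum]
  have hs : Real.sqrt (2 ^ k) ≤ 2 ^ k := by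
    have h1 : (1 : ℝ) ≤ 2 ^ k := one_le_pow₀ (by norm_num)
    rw [Real.sqrt_le_left (by positivity)]
    nlinarith
  have hs0 : 0 ≤ Real.sqrt (2 ^ k) := Real.sqrt_nonneg _
  have hH0' : 0 ≤ H := Finset.sum_nonneg fun d _ => hE0 d
  have e1 : Real.exp (2 * y ^ (2 ^ k) * H) ≤
      Real.exp (32 * C * Real.sqrt (2 ^ k) * y ^ (2 ^ k)) := by
    apply Real.exp_le_exp.2
    have h1 : 2 * y ^ (2 ^ k) * H ≤ 2 * y ^ (2 ^ k) * (C * Real.sqrt (2 ^ k)) :=
      mul_le_mul_of_nonneg_left hH (by positivity)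
    have h2 : 0 ≤ 30 * (C * Real.sqrt (2 ^ k) * y ^ (2 ^ k)) := by positivity
    linarith
  have e2 : H ≤ C * 2 ^ k := hH.trans (mul_le_mul_of_nonneg_left hs hC.le)
  calc y ^ (2 ^ k) * (32 * (2 ^ k) ^ 2) * Real.exp (2 * y ^ (2 ^ k) * H) * H
      ≤ y ^ (2 ^ k) * (32 * (2 ^ k) ^ 2) *
          Real.exp (32 * C * Real.sqrt (2 ^ k) * y ^ (2 ^ k)) * (C * 2 ^ k) :=
        mul_le_mul (mul_le_mul_of_nonneg_left e1 (by positivity)) e2 hH0' (by positivity)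
    _ = 32 * C * 2 ^ (3 * k) * y ^ (2 ^ k) *
          Real.exp (32 * C * Real.sqrt (2 ^ k) * y ^ (2 ^ k)) := by
        rw [show 3 * k = k * 3 by ring, pow_mul]
        ring

end Pool.Agent.RPL
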