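import Pool.Agent.RPL.AChain
import Pool.Agent.RPL.AFold
import Pool.Agent.RPL.ADat
import Pool.Agent.RPL.ACh
import Pool.Agent.RPL.AMw
import Pool.Agent.RPL.AScaleR

/-!
Project RPL, part A, module AScale: the mass of the chains of one scale.

PAPER PROOF. Compare `scaleB` in `Pool/Agent/ZLF/ScaleB.lean`. `S` from `dat A`; `Z = (C2 * Cz A κ).toReal + 1 > 0` (finite: `hC2`, `Cz_ne`), `C`, `D` from `scaleq S Z hZ R hR`. `lo = R * (2 ^ k + 1)`: for `d ≥ lo`, `m = d / R ≥ 2 ^ k + 1 > 2 * D`. `chain_sm`,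
then `chE_le` with `w' d = C2 * ofReal y ^ (d / R)`, `G' = g2 A κ D`, `B' d = Wm A D (d / R)`, `w d = y ^ (d / R)`, `G r s = 2 * S.J r s`, `B d = Bm S Z D (d / R - 1)`: for `r, a, a' ≤ D`:
`C2 * g2 A κ D r a * Wm .. ≤ C2 * Cz * JJ A r a * Wm ..`, `JJ A r a = ofReal (S.J r a) ≤ ofReal (2 * S.J r a)`, `Wm A D m a a' ≤ ofReal (S.mid (m - 1 - a - a') (D - a) (D - a') + S.la (m - 1 - a - a'))` by `mw_le` with `k = m - a - a' ≥ 1`
(`k - 1 = m - 1 - a - a'`; the triple sum is `S.mid (k - 1) (D - a) (D - a')`), and `C2 * Cz ≤ ofReal Z`. The outer factors: `C2 * bb A a * Wm .. ≤ ofReal (S.b a * Bm S Z D (m - 1) a a')` as `C2 ≤ C2 * Cz` (`two_le_Cz`).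
`ENNReal.ofReal_sum_of_nonneg`, `ENNReal.ofReal_mul`, `ENNReal.ofReal_pow` etc. as in ZLF/ScaleB.
-/

set_option autoImplicit false

namespace Pool.Agent.RPL

open Finset
open scoped ENNReal NNReal

private theorem AScale_J_nonneg (S : Pool.Agent.ZLF.Sq) (r s : ℕ) : 0 ≤ S.J r s :=
  Finset.sum_nonneg fun l _ => mul_nonneg (S.enn l) (S.ccnn _ _)

private theorem AScale_mid_nonneg (S : Pool.Agent.ZLF.Sq) (k a a' : ℕ) : 0 ≤ S.mid k a a' := by
  unfold Pool.Agent.ZLF.Sq.mid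
  refine Finset.sum_nonneg fun j _ => Finset.sum_nonneg fun h _ => Finset.sum_nonneg fun j' _ => ?_
  split_ifs
  · exact mul_nonneg (mul_nonneg (S.lann _) (S.bnn _)) (S.lann _)
  · exact le_refl _

private theorem AScale_JJ {A : Alph} {S : Pool.Agent.ZLF.Sq} (he : ∀ l, ew A l = ENNReal.ofReal (S.e l))
    (hc : ∀ a a', cc A a a' = ENNReal.ofReal (S.cc a a')) (r s : ℕ) :
    JJ A r s = ENNReal.ofReal (S.J r s) := by
  rw [Pool.Agent.ZLF.Sq.J, ENNReal.ofReal_sum_of_nonneg (fun l _ => mul_nonneg (S.enn l) (S.ccnn _ _))]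
  unfold JJ
  refine Finset.sum_congr rfl fun l _ => ?_
  rw [he, hc, ENNReal.ofReal_mul (S.enn l)]

private theorem AScale_Wm {A : Alph} {S : Pool.Agent.ZLF.Sq} (hb : ∀ r, bb A r = ENNReal.ofReal (S.b r))
    (hl : ∀ i, la A i = ENNReal.ofReal (S.la i)) {D m a a' : ℕ} (hm : 2 * D < m) (ha : a ≤ D) (ha' : a' ≤ D) :
    Wm A D m a a' ≤
      ENNReal.ofReal (S.mid (m - 1 - a - a') (D - a) (D - a') + S.la (m - 1 - a - a')) := by
  have hk : m - a - a' - 1 = m - 1 - a - a' := by omega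
  refine (mw_le (A := A) (m - a - a') (D - a) (D - a') (by omega)).trans (le_of_eq ?_)
  rw [hk, ENNReal.ofReal_add (AScale_mid_nonneg S _ _ _) (S.lann _), ← hl]
  congr 1
  unfold Pool.Agent.ZLF.Sq.mid
  have h0 : ∀ (j h j' : ℕ), (0 : ℝ) ≤ (if D - a ≤ j ∧ D - a' ≤ j' ∧ j + h + j' + 1 = m - 1 - a - a' then
      S.la j * S.b h * S.la j' else 0) := by
    intro j h j'
    split_ifs
    · exact mul_nonneg (mul_nonneg (S.lann _) (S.bnn _)) (S.lann _)
    · exact le_refl _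
  rw [ENNReal.ofReal_sum_of_nonneg (fun j _ => Finset.sum_nonneg fun h _ => Finset.sum_nonneg fun j' _ => h0 j h j')]
  refine Finset.sum_congr rfl fun j _ => ?_
  rw [ENNReal.ofReal_sum_of_nonneg (fun h _ => Finset.sum_nonneg fun j' _ => h0 j h j')]
  refine Finset.sum_congr rfl fun h _ => ?_
  rw [ENNReal.ofReal_sum_of_nonneg (fun j' _ => h0 j h j')]
  refine Finset.sum_congr rfl fun j' _ => ?_
  split_ifs
  · rw [hl, hb, hl, ENNReal.ofReal_mul (mul_nonneg (S.lann _) (S.bnn _)), ENNReal.ofReal_mul (S.lann _)]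
  · simp

theorem scaleA (A : Alph) (κ R : ℕ) (hR : 1 ≤ R) (C2 : ℝ≥0∞) (hC2 : C2 ≠ ∞) : ∃ C : ℝ, 0 < C ∧ ∀ k : ℕ, ∃ D : ℕ, 4 * D ≤ 2 ^ k ∧
    ∀ y : ℝ, 0 ≤ y → y ≤ 1 → ∀ K : ℕ,
    ∑ d ∈ Ico (R * (2 ^ k + 1)) (R * (2 ^ (k + 1) + 1)), C2 * ENNReal.ofReal y ^ (d / R) *
      s1 A (Lr A (d / R)) (Wc A κ R C2 D (R * (2 ^ k + 1)) (ENNReal.ofReal y) K d) ≤
    ENNReal.ofReal (C * 2 ^ (3 * k) * y ^ (2 ^ k) * Real.exp (C * Real.sqrt (2 ^ k) * y ^ (2 ^ k))) := by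
  obtain ⟨S, hb, hl, he, hc⟩ := dat A
  obtain ⟨Z, hZdef⟩ : ∃ Z : ℝ, Z = (C2 * Cz A κ).toReal + 1 := ⟨_, rfl⟩
  have hZ : 0 < Z := by
    rw [hZdef]
    positivity
  have hCZ : C2 * Cz A κ ≤ ENNReal.ofReal Z := by
    rw [hZdef]
    calc C2 * Cz A κ = ENNReal.ofReal (C2 * Cz A κ).toReal :=
          (ENNReal.ofReal_toReal (ENNReal.mul_ne_top hC2 (Cz_ne κ))).symm
      _ ≤ _ := ENNReal.ofReal_le_ofReal (by linarith)
  have hCz1 : 1 ≤ Cz A κ := le_trans (by norm_num) (two_le_Cz (A := A) κ)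
  have hC2Z : C2 ≤ ENNReal.ofReal Z := le_trans (by
    calc C2 = C2 * 1 := (mul_one _).symm
      _ ≤ C2 * Cz A κ := mul_le_mul_right hCz1 C2) hCZ
  obtain ⟨C, hC, hsc⟩ := scaleq S Z hZ R hR
  refine ⟨C, hC, fun k => ?_⟩
  obtain ⟨D, hD, hs⟩ := hsc k
  refine ⟨D, hD, fun y hy hy1 K => ?_⟩
  have hlo : ∀ d, R * (2 ^ k + 1) ≤ d → 2 * D < d / R := by
    intro d hd
    have h1 : 2 ^ k + 1 ≤ d / R := by
      rw [Nat.le_div_iff_mul_le (by omega), mul_comm]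
      exact hd
    omega
  have hml : ∀ m a a', 0 ≤ S.mid (m - 1 - a - a') (D - a) (D - a') + S.la (m - 1 - a - a') :=
    fun m a a' => add_nonneg (AScale_mid_nonneg S _ _ _) (S.lann _)
  have hBm : ∀ m a a', 0 ≤ Pool.Agent.ZLF.Bm S Z D m a a' := fun m a a' =>
    mul_nonneg hZ.le (add_nonneg (AScale_mid_nonneg S _ _ _) (S.lann _))
  have hJ2 : ∀ r s, (0 : ℝ) ≤ 2 * S.J r s := fun r s => mul_nonneg (by norm_num) (AScale_J_nonneg S r s)
  have hw : ∀ d : ℕ, 0 ≤ y ^ (d / R) := fun d => pow_nonneg hy _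
  have hQ : ∀ d a', 0 ≤ chQ D (R * (2 ^ k + 1)) (fun d => y ^ (d / R)) S.b (fun r s => 2 * S.J r s)
      (fun d => Pool.Agent.ZLF.Bm S Z D (d / R - 1)) K d a' :=
    fun d a' => chQ_nonneg hw S.bnn hJ2 (fun d a a' => hBm _ a a') K d a'
  -- the comparison of the factors
  have hfac : ∀ d r a a', R * (2 ^ k + 1) ≤ d → r ≤ D → a ≤ D → a' ≤ D →
      C2 * ENNReal.ofReal y ^ (d / R) * (g2 A κ D r a * Wm A D (d / R) a a') ≤
      ENNReal.ofReal (y ^ (d / R) * (2 * S.J r a * Pool.Agent.ZLF.Bm S Z D (d / R - 1) a a')) := by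
    intro d r a a' hd hr ha ha'
    have h1 : g2 A κ D r a ≤ Cz A κ * ENNReal.ofReal (S.J r a) := by
      rw [← AScale_JJ he hc]
      exact g2_le κ D r a hr ha
    have h2 := AScale_Wm hb hl (hlo d hd) ha ha'
    have hx : 0 ≤ y ^ (d / R) := pow_nonneg hy _
    calc C2 * ENNReal.ofReal y ^ (d / R) * (g2 A κ D r a * Wm A D (d / R) a a')
        ≤ C2 * ENNReal.ofReal y ^ (d / R) * (Cz A κ * ENNReal.ofReal (S.J r a) *
            ENNReal.ofReal (S.mid (d / R - 1 - a - a') (D - a) (D - a') + S.la (d / R - 1 - a - a'))) :=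
          mul_le_mul_right (mul_le_mul' h1 h2) _
      _ = C2 * Cz A κ * (ENNReal.ofReal y ^ (d / R) * (ENNReal.ofReal (S.J r a) *
            ENNReal.ofReal (S.mid (d / R - 1 - a - a') (D - a) (D - a') + S.la (d / R - 1 - a - a')))) := by
          ring
      _ ≤ ENNReal.ofReal Z * (ENNReal.ofReal y ^ (d / R) * (ENNReal.ofReal (S.J r a) *
            ENNReal.ofReal (S.mid (d / R - 1 - a - a') (D - a) (D - a') + S.la (d / R - 1 - a - a')))) :=
          mul_le_mul_left hCZ _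
      _ = ENNReal.ofReal (Z * (y ^ (d / R) * (S.J r a *
            (S.mid (d / R - 1 - a - a') (D - a) (D - a') + S.la (d / R - 1 - a - a'))))) := by
          rw [ENNReal.ofReal_mul hZ.le, ENNReal.ofReal_mul hx, ENNReal.ofReal_mul (AScale_J_nonneg S _ _),
            ENNReal.ofReal_pow hy]
      _ ≤ _ := by
          refine ENNReal.ofReal_le_ofReal ?_
          have h3 : 0 ≤ Z * (y ^ (d / R) * (S.J r a *
              (S.mid (d / R - 1 - a - a') (D - a) (D - a') + S.la (d / R - 1 - a - a')))) :=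
            mul_nonneg hZ.le (mul_nonneg hx (mul_nonneg (AScale_J_nonneg S _ _) (hml _ _ _)))
          have h4 : y ^ (d / R) * (2 * S.J r a * Pool.Agent.ZLF.Bm S Z D (d / R - 1) a a') =
              2 * (Z * (y ^ (d / R) * (S.J r a *
              (S.mid (d / R - 1 - a - a') (D - a) (D - a') + S.la (d / R - 1 - a - a'))))) := by
            unfold Pool.Agent.ZLF.Bm
            ring
          rw [h4]
          linarith
  have hterm : ∀ d ∈ Ico (R * (2 ^ k + 1)) (R * (2 ^ (k + 1) + 1)),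
      C2 * ENNReal.ofReal y ^ (d / R) *
        s1 A (Lr A (d / R)) (Wc A κ R C2 D (R * (2 ^ k + 1)) (ENNReal.ofReal y) K d) ≤
      ENNReal.ofReal (y ^ (d / R) * ∑ a ∈ range (D + 1), ∑ a' ∈ range (D + 1),
        S.b a * Pool.Agent.ZLF.Bm S Z D (d / R - 1) a a' *
          chQ D (R * (2 ^ k + 1)) (fun d => y ^ (d / R)) S.b (fun r s => 2 * S.J r s)
            (fun d => Pool.Agent.ZLF.Bm S Z D (d / R - 1)) K d a') := by
    intro d hd
    have hd' : R * (2 ^ k + 1) ≤ d := (Finset.mem_Ico.mp hd).1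
    rw [ENNReal.ofReal_mul (pow_nonneg hy _), ENNReal.ofReal_pow hy, mul_comm C2, mul_assoc]
    refine mul_le_mul_right ?_ _
    refine (mul_le_mul_right (chain_sm κ R C2 D (R * (2 ^ k + 1)) hlo (ENNReal.ofReal y) K d hd') _).trans ?_
    rw [Finset.mul_sum, ENNReal.ofReal_sum_of_nonneg (fun a _ => Finset.sum_nonneg fun a' _ =>
      mul_nonneg (mul_nonneg (S.bnn _) (hBm _ _ _)) (hQ _ _))]
    refine Finset.sum_le_sum fun a ha => ?_
    rw [Finset.mul_sum, ENNReal.ofReal_sum_of_nonneg (fun a' _ =>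
      mul_nonneg (mul_nonneg (S.bnn _) (hBm _ _ _)) (hQ _ _))]
    refine Finset.sum_le_sum fun a' ha' => ?_
    have ha1 : a ≤ D := Nat.lt_succ_iff.1 (Finset.mem_range.1 ha)
    have ha2 : a' ≤ D := Nat.lt_succ_iff.1 (Finset.mem_range.1 ha')
    rw [ENNReal.ofReal_mul (mul_nonneg (S.bnn _) (hBm _ _ _)), ENNReal.ofReal_mul (S.bnn _)]
    have h5 : C2 * (bb A a * Wm A D (d / R) a a' *
        chE D (R * (2 ^ k + 1)) (fun d => C2 * ENNReal.ofReal y ^ (d / R)) (bb A) (g2 A κ D)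
          (fun d => Wm A D (d / R)) K d a') =
        bb A a * (C2 * Wm A D (d / R) a a') *
        chE D (R * (2 ^ k + 1)) (fun d => C2 * ENNReal.ofReal y ^ (d / R)) (bb A) (g2 A κ D)
          (fun d => Wm A D (d / R)) K d a' := by ring
    rw [h5]
    refine mul_le_mul' (mul_le_mul' (le_of_eq (hb a)) ?_) ?_
    · unfold Pool.Agent.ZLF.Bm
      rw [ENNReal.ofReal_mul hZ.le]
      exact mul_le_mul' hC2Z (AScale_Wm hb hl (hlo d hd') ha1 ha2)
    · exact chE_le (w := fun d => y ^ (d / R)) (G := fun r s => 2 * S.J r s)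
        (B := fun d => Pool.Agent.ZLF.Bm S Z D (d / R - 1)) hw S.bnn hJ2 (fun d a a' => hBm _ a a')
        (fun r => le_of_eq (hb r)) hfac K d a' ha2
  refine (Finset.sum_le_sum hterm).trans ?_
  rw [← ENNReal.ofReal_sum_of_nonneg]
  · exact ENNReal.ofReal_le_ofReal (hs y hy hy1 K)
  · intro d _
    exact mul_nonneg (pow_nonneg hy _) (Finset.sum_nonneg fun a _ => Finset.sum_nonneg fun a' _ =>
      mul_nonneg (mul_nonneg (S.bnn _) (hBm _ _ _)) (hQ _ _))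

end Pool.Agent.RPL
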