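import Pool.Agent.RPL.AOwn

/-!
Project RPL, part A, module ATwo: a list, decomposed at its last levels `≤ D` seen from its two ends.

PAPER PROOF. `two_dec`: the map `(a, a', x, M, x') ↦ x ++ (M ++ x'.reverse)` from the disjoint union over `a, a' ≤ D` of `Lr A a × MW A (m - a - a') (D - a) (D - a') × Lr A a'` to `Lr A m` is a bijection
(`2 * D < m`, so `m - a - a' ≥ 1`). One can first prove the one-sided version `own_dec (D m) (D ≤ m)`: `s1 A (Lr A m) F = ∑ a ≤ D, s1 A (Lr A a) (fun x => s1 A {B | wd A B = m - a ∧ NL A (D - a) B} (fun B => F (x ++ B)))` (`a` = the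
greatest level `≤ D`, `Nat.findGreatest`, `Lv_zero`; `Lv_append`, `pre_unique`), then apply it to the reversed rest (`s1_reverse`): `(x' ++ w).reverse = w.reverse ++ x'.reverse`, and `NL A (D - a) (w.reverse ++ x'.reverse) ↔
NL A (D - a) w.reverse` because `D - a ≤ m - a - a' = wd A w` (`Lv_append_le`). Compare `two_dec` in `Pool/Agent/ZLF/TwoDec.lean`, `own_dec` in ZLF/OwnDec.
-/

set_option autoImplicit false

namespace Pool.Agent.RPL

open Finset
open scoped ENNReal NNReal

variable {A : Alph}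

private def ATwo_NB (A : Alph) (k n : ℕ) : Set (List A.ι) := {B | wd A B = k ∧ NL A n B}

private theorem ATwo_lt {n h r r' : ℕ} (hr' : r' ≤ n) {a b a' b' : List A.ι} (ha : a ∈ Lr A r)
    (hb : b ∈ ATwo_NB A (h - r) (n - r)) (ha' : a' ∈ Lr A r')
    (h1 : a ++ b = a' ++ b') : ¬ r < r' := by
  intro hlt
  have e : r' = wd A a + (r' - r) := by
    have h3 : wd A a = r := ha
    omega
  have g1 : Lv A (a ++ b) (wd A a + (r' - r)) := by
    rw [← e, h1]
    exact ⟨a', b', rfl, ha'⟩
  exact hb.2 (r' - r) (by omega) (by omega) ((Lv_append a b _).1 g1)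

private theorem ATwo_own {n h : ℕ} (hn : n ≤ h) (F : List A.ι → ℝ≥0∞) : s1 A (Lr A h) F =
    ∑ r ∈ range (n + 1), s1 A (Lr A r) (fun x => s1 A (ATwo_NB A (h - r) (n - r)) (fun B => F (x ++ B))) := by
  classical
  let S : Type := Σ r : Fin (n + 1), (Lr A (r : ℕ) × ATwo_NB A (h - r) (n - r))
  have hmem : ∀ x : S, (x.2.1 : List A.ι) ++ (x.2.2 : List A.ι) ∈ Lr A h := by
    rintro ⟨r, a, b⟩
    have hr : (r : ℕ) ≤ n := by have := r.2; omega
    have h1 : wd A (a : List A.ι) = r := a.2
    have h2 : wd A (b : List A.ι) = h - r := b.2.1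
    show wd A ((a : List A.ι) ++ (b : List A.ι)) = h
    rw [wd_append, h1, h2]
    omega
  let f : S → Lr A h := fun x => ⟨_, hmem x⟩
  have hf : Function.Bijective f := by
    constructor
    · rintro ⟨r, a, b⟩ ⟨r', a', b'⟩ he
      have h1 : (a : List A.ι) ++ (b : List A.ι) = (a' : List A.ι) ++ (b' : List A.ι) :=
        congrArg (fun x : Lr A h => (x : List A.ι)) he
      have hr : (r : ℕ) ≤ n := by have := r.2; omega
      have hr' : (r' : ℕ) ≤ n := by have := r'.2; omega
      have k1 := ATwo_lt hr' a.2 b.2 a'.2 h1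
      have k2 := ATwo_lt hr a'.2 b'.2 a.2 h1.symm
      have hrr : r = r' := Fin.ext (by omega)
      subst hrr
      have h3 : wd A (a : List A.ι) = r := a.2
      have h4 : wd A (a' : List A.ι) = r := a'.2
      obtain ⟨x1, y1⟩ := pre_unique h1 (h3.trans h4.symm)
      have ea : a = a' := Subtype.ext x1
      have eb : b = b' := Subtype.ext y1
      rw [ea, eb]
    · rintro ⟨P, hP⟩
      let p : ℕ → Prop := fun i => Lv A P i
      have h0 : p 0 := Lv_zero P
      have hsp : p (Nat.findGreatest p n) := Nat.findGreatest_spec (Nat.zero_le n) h0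
      have hle : Nat.findGreatest p n ≤ n := Nat.findGreatest_le n
      have hgr : ∀ k, Nat.findGreatest p n < k → k ≤ n → ¬ p k := fun k hk hk' =>
        Nat.findGreatest_is_greatest hk hk'
      generalize Nat.findGreatest p n = r at hsp hle hgr
      obtain ⟨u, v, e1, hu⟩ := hsp
      have hPw : wd A P = h := hP
      have w1 : wd A v = h - r := by
        rw [e1, wd_append] at hPw
        omega
      have hnc : NL A (n - r) v := by
        intro i hi hin hc
        refine hgr (r + i) (by omega) (by omega) ?_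
        show Lv A P (r + i)
        rw [e1, ← hu]
        exact (Lv_append u v i).2 hc
      refine ⟨⟨⟨r, by omega⟩, ⟨u, hu⟩, ⟨v, w1, hnc⟩⟩, ?_⟩
      exact Subtype.ext e1.symm
  have h2 : (∑ r ∈ range (n + 1), s1 A (Lr A r) (fun x => s1 A (ATwo_NB A (h - r) (n - r))
        (fun B => F (x ++ B)))) =
      ∑' x : S, mm A (f x : List A.ι) * F (f x) := by
    rw [ENNReal.tsum_sigma', tsum_fintype, Finset.sum_range]
    refine Finset.sum_congr rfl fun r _ => ?_
    unfold s1
    rw [ENNReal.tsum_prod']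
    refine tsum_congr fun a => ?_
    rw [← ENNReal.tsum_mul_left]
    refine tsum_congr fun b => ?_
    have e : mm A ((f ⟨r, a, b⟩ : List A.ι)) = mm A (a : List A.ι) * mm A (b : List A.ι) := by
      simp only [f, mm_append]
    rw [e, ← mul_assoc]
  rw [h2]
  unfold s1
  exact ((Equiv.ofBijective f hf).tsum_eq
    (fun p : Lr A h => mm A (p : List A.ι) * F p)).symm

open Classical in
private theorem ATwo_sub (k : ℕ) (P : List A.ι → Prop) (F : List A.ι → ℝ≥0∞) :
    s1 A {l | l ∈ Lr A k ∧ P l} F = s1 A (Lr A k) (fun l => if P l then F l else 0) := by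
  unfold s1
  have e1 : (∑' l : Lr A k, mm A (l : List A.ι) * (if P l then F l else 0)) =
      ∑' l : List A.ι, (Lr A k).indicator (fun l => mm A l * (if P l then F l else 0)) l :=
    tsum_subtype (Lr A k) (fun l => mm A l * (if P l then F l else 0))
  have e2 : (∑' l : {l | l ∈ Lr A k ∧ P l}, mm A (l : List A.ι) * F l) =
      ∑' l : List A.ι, {l | l ∈ Lr A k ∧ P l}.indicator (fun l => mm A l * F l) l :=
    tsum_subtype {l | l ∈ Lr A k ∧ P l} (fun l => mm A l * F l)
  rw [e1, e2]
  refine tsum_congr fun l => ?_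
  by_cases hA : l ∈ Lr A k
  · by_cases hP : P l
    · have h1 : l ∈ {l | l ∈ Lr A k ∧ P l} := ⟨hA, hP⟩
      rw [Set.indicator_of_mem h1, Set.indicator_of_mem hA, if_pos hP]
    · have h1 : l ∉ {l | l ∈ Lr A k ∧ P l} := fun h => hP h.2
      rw [Set.indicator_of_notMem h1, Set.indicator_of_mem hA, if_neg hP, mul_zero]
  · have h1 : l ∉ {l | l ∈ Lr A k ∧ P l} := fun h => hA h.1
    rw [Set.indicator_of_notMem h1, Set.indicator_of_notMem hA]

open Classical in
private theorem ATwo_rev (k m b : ℕ) (H : List A.ι → ℝ≥0∞) :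
    s1 A (ATwo_NB A k b) (fun w => if NL A m w.reverse then H w.reverse else 0) = s1 A (MW A k m b) H := by
  have e1 : ATwo_NB A k b = {l | l ∈ Lr A k ∧ NL A b l} := rfl
  have e2 : MW A k m b = {l | l ∈ Lr A k ∧ (NL A m l ∧ NL A b l.reverse)} := rfl
  rw [e1, e2, ATwo_sub, ATwo_sub]
  refine Eq.trans ?_ (s1_reverse (A := A) k _)
  refine s1_congr fun l _ => ?_
  rw [List.reverse_reverse]
  by_cases h1 : NL A b l
  · by_cases h2 : NL A m l.reverse
    · rw [if_pos h1, if_pos h2, if_pos ⟨h2, h1⟩]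
    · rw [if_pos h1, if_neg h2, if_neg (fun h => h2 h.1)]
  · rw [if_neg h1, if_neg (fun h => h1 h.2)]

private theorem ATwo_in {k m β : ℕ} (h : m + β ≤ k) (G : List A.ι → ℝ≥0∞) : s1 A (ATwo_NB A k m) G =
    ∑ a' ∈ range (β + 1), s1 A (MW A (k - a') m (β - a')) (fun M => s1 A (Lr A a') (fun x' => G (M ++ x'.reverse))) := by
  classical
  have e1 : ATwo_NB A k m = {l | l ∈ Lr A k ∧ NL A m l} := rfl
  rw [e1, ATwo_sub]
  refine (s1_reverse (A := A) k (fun l => if NL A m l then G l else 0)).symm.trans ?_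
  rw [ATwo_own (show β ≤ k by omega)]
  refine Finset.sum_congr rfl fun a' ha' => ?_
  have ha : a' ≤ β := by
    have := Finset.mem_range.1 ha'
    omega
  rw [s1_comm (MW A (k - a') m (β - a'))]
  refine s1_congr fun x' hx' => ?_
  rw [← ATwo_rev]
  refine s1_congr fun w hw => ?_
  rw [List.reverse_append]
  have hww : wd A w.reverse = k - a' := by
    rw [wd_reverse]
    exact hw.1
  have h1 : NL A m (w.reverse ++ x'.reverse) ↔ NL A m w.reverse := by
    have key : ∀ i, i ≤ m → (Lv A (w.reverse ++ x'.reverse) i ↔ Lv A w.reverse i) := fun i hi =>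
      Lv_append_le _ _ (by omega)
    unfold NL
    constructor
    · intro hN i h1 h2 hc
      exact hN i h1 h2 ((key i h2).2 hc)
    · intro hN i h1 h2 hc
      exact hN i h1 h2 ((key i h2).1 hc)
  by_cases h2 : NL A m w.reverse
  · rw [if_pos (h1.2 h2), if_pos h2]
  · rw [if_neg (fun hc => h2 (h1.1 hc)), if_neg h2]

theorem two_dec (D m : ℕ) (h : 2 * D < m) (F : List A.ι → ℝ≥0∞) :
    s1 A (Lr A m) F = ∑ a ∈ range (D + 1), ∑ a' ∈ range (D + 1), s1 A (Lr A a) (fun x =>
      s1 A (MW A (m - a - a') (D - a) (D - a')) (fun M => s1 A (Lr A a') (fun x' => F (x ++ (M ++ x'.reverse))))) := by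
  rw [ATwo_own (show D ≤ m by omega)]
  refine Finset.sum_congr rfl fun a ha => ?_
  have ha' : a ≤ D := by
    have := Finset.mem_range.1 ha
    omega
  rw [← s1_sum]
  refine s1_congr fun x _ => ?_
  exact ATwo_in (β := D) (by omega) (fun B => F (x ++ B))

end Pool.Agent.RPL
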