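import Pool.Agent.RPL.Cert

/-!
Project RPL: the eleven Archimedean lattices as doubly periodic subgraphs of the triangular lattice.
-/

set_option autoImplicit false

namespace Pool.Agent.RPL.Arch

open Pool.Agent.RPL.Fin

/-- The clockwise rotation by one sixth of a turn (in the coordinates where the steps of the triangular lattice are `(1, 0)`, `(0, 1)`, `(-1, 1)`, `(-1, 0)`,
`(0, -1)`, `(1, -1)` in counterclockwise order). -/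
def cw (s : ℤ × ℤ) : ℤ × ℤ := (s.1 + s.2, -s.1)

/-- The six steps in counterclockwise order. -/
def dirs : List (ℤ × ℤ) := [(1, 0), (0, 1), (-1, 1), (-1, 0), (0, -1), (1, -1)]

namespace Per

variable (c : Per)

/-- The directed edge after `d = (point, step)` on the boundary of the face to the left of `d`: at the end of `d`, the first edge clockwise after the
reverse of `d`. -/
def next (d : (ℤ × ℤ) × (ℤ × ℤ)) : (ℤ × ℤ) × (ℤ × ℤ) :=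
  (d.1 + d.2, (((List.range 6).map fun i => cw^[i + 1] (-d.2)).find? fun s => decide (s ∈ c.tab (d.1 + d.2))).getD (0, 0))

/-- The size of the face to the left of `d` (`0` if it is more than `12`). -/
def size (d : (ℤ × ℤ) × (ℤ × ℤ)) : ℕ := (((List.range 12).map fun i => i + 1).find? fun i => decide (c.next^[i] d = d)).getD 0

/-- The sizes of the faces around `u` in counterclockwise order. -/
def faces (u : ℤ × ℤ) : List ℕ := (dirs.filter fun s => decide (s ∈ c.tab u)).map fun s => c.size (u, s)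

variable {c}

theorem next_add (hm : 0 < c.m) (i j : ℤ) (d : (ℤ × ℤ) × (ℤ × ℤ)) :
    c.next (d.1 + c.lam i j, d.2) = ((c.next d).1 + c.lam i j, (c.next d).2) := by
  unfold next
  simp only [show d.1 + c.lam i j + d.2 = d.1 + d.2 + c.lam i j by abel, tab_add hm]

theorem iter_add (hm : 0 < c.m) (i j : ℤ) (k : ℕ) : ∀ d : (ℤ × ℤ) × (ℤ × ℤ),
    c.next^[k] (d.1 + c.lam i j, d.2) = ((c.next^[k] d).1 + c.lam i j, (c.next^[k] d).2) := by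
  induction k with
  | zero => intro d; rfl
  | succ k ih =>
    intro d
    rw [Function.iterate_succ_apply, next_add hm, ih (c.next d), ← Function.iterate_succ_apply]

theorem size_add (hm : 0 < c.m) (i j : ℤ) (u s : ℤ × ℤ) : c.size (u + c.lam i j, s) = c.size (u, s) := by
  unfold size
  congr 2
  funext k
  have e := iter_add hm i j k (u, s)
  rw [Bool.eq_iff_iff, decide_eq_true_iff, decide_eq_true_iff]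
  generalize c.next^[k] (u, s) = w at e
  obtain ⟨w1, w2⟩ := w
  rw [e]
  simp only [Prod.mk.injEq, add_left_inj]

theorem faces_add (hm : 0 < c.m) (i j : ℤ) (u : ℤ × ℤ) : c.faces (u + c.lam i j) = c.faces u := by
  unfold faces
  simp only [tab_add hm, size_add hm]

theorem faces_rp (hm : 0 < c.m) (u : ℤ × ℤ) : c.faces (c.rp u) = c.faces u := by
  conv_rhs => rw [← rp_lam (c := c) u]
  rw [faces_add hm]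

end Per

/-- `l` is `l'` up to rotation and reversal. -/
def Cyc (l l' : List ℕ) : Prop := ∃ i ∈ List.range 6, l = l'.rotate i ∨ l = (l'.rotate i).reverse

instance (l l' : List ℕ) : Decidable (Cyc l l') := by unfold Cyc; infer_instance

/-- 3^6 -/
def c666 : Cert where
  m := 1
  k := 0
  n := 1
  o := (0, 0)
  E := [[(1, 0), (0, 1), (-1, 1), (-1, 0), (0, -1), (1, -1)]]
  W := [[]]
  W1 := [(1, 0)]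
  W2 := [(0, 1)]
  A := [(⟨[(0, 0)], 1, 0, 0, 1⟩, ⟨[(0, 0)], 1, 0, 0, 1⟩)]

/-- 4^4 -/
def c44 : Cert where
  m := 1
  k := 0
  n := 1
  o := (0, 0)
  E := [[(0, 1), (-1, 1), (0, -1), (1, -1)]]
  W := [[]]
  W1 := [(0, 1), (1, -1)]
  W2 := [(0, 1)]
  A := [(⟨[(0, 0)], 1, 0, 0, 1⟩, ⟨[(0, 0)], 1, 0, 0, 1⟩)]

/-- 6^3 -/
def c63 : Cert where
  m := 1
  k := 0
  n := 2
  o := (0, 0)
  E := [[(-1, 1), (0, -1), (1, -1)], [(0, 1), (-1, 1), (1, -1)]]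
  W := [[], [(-1, 1), (0, 1), (1, -1)]]
  W1 := [(1, -1), (0, 1)]
  W2 := [(-1, 1), (0, 1), (1, -1), (0, 1)]
  A := [(⟨[(0, 0), (0, 1)], 1, 0, 0, 1⟩, ⟨[(0, 0), (0, 1)], 1, 0, 0, 1⟩), (⟨[(0, 1), (2, 0)], 2, -1, 3, -1⟩, ⟨[(2, -3), (0, 0)], -1, 1, -3, 2⟩)]

/-- 3.6.3.6 -/
def ckag : Cert where
  m := 2
  k := 0
  n := 2
  o := (0, 0)
  E := [[(1, 0), (0, 1), (-1, 0), (0, -1)], [(0, 1), (-1, 1), (0, -1), (1, -1)], [(1, 0), (-1, 1), (-1, 0), (1, -1)], []]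
  W := [[], [(0, 1)], [(1, 0)], []]
  W1 := [(1, 0), (1, 0)]
  W2 := [(0, 1), (0, 1)]
  A := [(⟨[(0, 0), (0, 1), (1, 0), (0, 0)], 1, 0, 0, 1⟩, ⟨[(0, 0), (0, 1), (1, 0), (0, 0)], 1, 0, 0, 1⟩), (⟨[(0, 1), (-1, 2), (0, 2), (0, 0)], 0, 1, -1, 1⟩, ⟨[(-1, 0), (0, 0), (0, -1), (0, 0)], 1, -1, 1, 0⟩), (⟨[(1, 0), (0, 0), (0, 1), (0, 0)], -1, 1, -1, 0⟩, ⟨[(0, 1), (1, 0), (0, 0), (0, 0)], 0, -1, 1, -1⟩), (⟨[], 0, 0, 0, 0⟩, ⟨[], 0, 0, 0, 0⟩)]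

/-- 3.12^2 -/
def c312 : Cert where
  m := 4
  k := 0
  n := 2
  o := (0, 0)
  E := [[(1, 0), (-1, 1), (-1, 0)], [], [(1, 0), (-1, 0), (1, -1)], [], [(1, 0), (-1, 0), (0, -1)], [(1, 0), (0, 1), (-1, 1)], [(1, 0), (0, 1), (-1, 0)], [(-1, 0), (0, -1), (1, -1)]]
  W := [[], [], [(1, 0)], [], [(1, 0), (1, 0)], [(1, 0), (1, 0), (1, 0), (0, 1), (-1, 0)], [(1, 0), (1, 0), (1, 0)], [(1, 0), (1, 0), (1, 0), (0, 1)]]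
  W1 := [(1, 0), (1, 0), (1, 0), (1, 0)]
  W2 := [(-1, 1), (-1, 0), (0, 1), (1, 0), (1, 0)]
  A := [(⟨[(0, 0), (0, 0), (1, 0), (0, 0), (2, 0), (2, 1), (3, 0), (3, 1)], 1, 0, 0, 1⟩, ⟨[(0, 0), (0, 0), (1, 0), (0, 0), (2, 0), (2, 1), (3, 0), (3, 1)], 1, 0, 0, 1⟩), (⟨[], 0, 0, 0, 0⟩, ⟨[], 0, 0, 0, 0⟩), (⟨[(1, 0), (0, 0), (0, 0), (0, 0), (-1, 0), (-1, -1), (-2, 0), (-2, -1)], -1, 0, 0, -1⟩, ⟨[(1, 0), (0, 0), (0, 0), (0, 0), (-1, 0), (-1, -1), (-2, 0), (-2, -1)], -1, 0, 0, -1⟩), (⟨[], 0, 0, 0, 0⟩, ⟨[], 0, 0, 0, 0⟩), (⟨[(2, 0), (0, 0), (3, 0), (0, 0), (3, 1), (0, 2), (2, 1), (1, 2)], 0, 1, -1, 1⟩, ⟨[(-2, 1), (0, 0), (-1, 1), (0, 0), (0, 0), (3, 0), (1, 0), (2, 0)], 1, -1, 1, 0⟩), (⟨[(2, 1), (0, 0), (3, 1), (0, 0), (4, 0), (7, 0), (5, 0), (6, 0)], 1, -1, 1, 0⟩, ⟨[(2, -2), (0, 0), (3, -2), (0, 0),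 (3, -1), (0, 0), (2, -1), (1, 0)], 0, 1, -1, 1⟩), (⟨[(3, 0), (0, 0), (2, 0), (0, 0), (2, -1), (5, -2), (3, -1), (4, -2)], 0, -1, 1, -1⟩, ⟨[(3, -1), (0, 0), (2, -1), (0, 0), (1, 0), (-2, 0), (0, 0), (-1, 0)], -1, 1, -1, 0⟩), (⟨[(3, 1), (0, 0), (2, 1), (0, 0), (1, 2), (-2, 2), (0, 2), (-1, 2)], -1, 1, -1, 0⟩, ⟨[(-1, 2), (0, 0), (-2, 2), (0, 0), (-2, 1), (1, 0), (-1, 1), (0, 0)], 0, -1, 1, -1⟩)]

/-- 4.8^2 -/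
def c48 : Cert where
  m := 1
  k := 1
  n := 4
  o := (0, 0)
  E := [[(1, 0), (-1, 1), (-1, 0)], [(1, 0), (-1, 0), (1, -1)], [(1, 0), (-1, 0), (1, -1)], [(1, 0), (-1, 1), (-1, 0)]]
  W := [[], [(1, 0), (-1, 1)], [(1, 0), (-1, 1), (1, 0), (-1, 1)], [(1, 0), (-1, 1), (1, 0), (1, 0), (-1, 1), (1, 0), (-1, 1), (-1, 0)]]
  W1 := [(1, 0), (-1, 1), (1, 0)]
  W2 := [(1, 0), (-1, 1), (1, 0), (1, 0), (-1, 1), (1, 0), (-1, 1), (-1, 0), (-1, 1), (1, 0)]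
  A := [(⟨[(0, 0), (0, 1), (0, 2), (0, 3)], 1, 0, 0, 1⟩, ⟨[(0, 0), (0, 1), (0, 2), (0, 3)], 1, 0, 0, 1⟩), (⟨[(0, 1), (0, 0), (0, -1), (0, -2)], -1, 0, 0, -1⟩, ⟨[(0, 1), (0, 0), (0, -1), (0, -2)], -1, 0, 0, -1⟩), (⟨[(0, 2), (2, 1), (4, 1), (8, 0)], 3, -1, 10, -3⟩, ⟨[(4, -1), (2, 0), (0, 0), (-4, 1)], -3, 1, -10, 3⟩), (⟨[(0, 3), (-2, 4), (-4, 4), (-8, 5)], -3, 1, -10, 3⟩, ⟨[(-8, 2), (-6, 1), (-4, 1), (0, 0)], 3, -1, 10, -3⟩)]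

/-- 4.6.12 -/
def c4612 : Cert where
  m := 2
  k := 2
  n := 8
  o := (0, 0)
  E := [[(1, 0), (-1, 1), (-1, 0)], [], [], [(1, 0), (-1, 0), (1, -1)], [(-1, 1), (-1, 0), (1, -1)], [(1, 0), (-1, 1), (-1, 0)], [(1, 0), (-1, 0), (1, -1)], [(1, 0), (-1, 1), (1, -1)], [(1, 0), (-1, 0), (1, -1)], [], [(1, 0), (-1, 1), (1, -1)], [(-1, 1), (-1, 0), (1, -1)], [], [(1, 0), (-1, 1), (-1, 0)], [(1, 0), (-1, 1), (-1, 0)], [(1, 0), (-1, 0), (1, -1)]]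
  W := [[], [], [], [(1, 0), (1, 0), (1, 0), (-1, 1), (-1, 1), (-1, 1)], [(1, 0), (1, 0), (1, 0), (-1, 1), (-1, 1), (1, 0), (-1, 1), (-1, 1)], [(1, 0), (1, 0), (1, 0), (-1, 1), (-1, 1), (1, 0), (-1, 1), (-1, 1), (-1, 1), (1, 0)], [(1, 0), (1, 0), (1, 0), (-1, 1), (-1, 1), (1, 0), (-1, 1), (-1, 1), (-1, 1), (1, 0), (1, 0), (-1, 1)], [(1, 0), (1, 0), (1, 0), (-1, 1), (-1, 1), (1, 0), (-1, 1), (-1, 1), (-1, 1), (1, 0), (1, 0), (-1, 1), (1, 0), (-1, 1)], [(1, 0)], [], [(1, 0), (1, 0), (1, 0), (-1, 1), (-1, 1)], [(1, 0), (1, 0), (1, 0), (-1, 1), (-1, 1), (1, 0), (-1, 1)], [], [(1, 0), (1, 0), (1, 0), (-1, 1), (-1, 1), (1, 0), (-1, 1), (-1, 1), (-1, 1), (1, 0), (1, 0)], [(1, 0), (1, 0), (1, 0), (-1, 1), (-1, 1), (1, 0), (-1, 1), (-1, 1), (-1, 1), (1, 0), (1, 0), (-1, 1), (1, 0)], [(1, 0), (1,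 0), (1, 0), (1, 0), (-1, 1), (1, 0), (1, 0), (-1, 1), (1, 0), (-1, 1), (-1, 1), (1, 0), (-1, 1), (-1, 1), (-1, 1)]]
  W1 := [(1, 0), (1, 0), (1, 0), (-1, 1), (-1, 1), (1, 0)]
  W2 := [(1, 0), (1, 0), (1, 0), (-1, 1), (-1, 1), (1, 0), (-1, 1), (-1, 1), (-1, 1), (1, 0), (1, 0), (-1, 1), (1, 0), (-1, 1), (-1, 1), (1, 0)]
  A := [(⟨[(0, 0), (0, 0), (0, 0), (0, 3), (0, 4), (0, 5), (0, 6), (0, 7), (1, 0), (0, 0), (1, 2), (1, 3), (0, 0), (1, 5), (1, 6), (1, 7)], 1, 0, 0, 1⟩, ⟨[(0, 0), (0, 0), (0, 0), (0, 3), (0, 4), (0, 5), (0, 6), (0, 7), (1, 0), (0, 0), (1, 2), (1, 3), (0, 0), (1, 5), (1, 6), (1, 7)], 1, 0, 0, 1⟩), (⟨[], 0, 0, 0, 0⟩, ⟨[], 0, 0, 0, 0⟩), (⟨[], 0, 0, 0, 0⟩, ⟨[], 0, 0, 0, 0⟩), (⟨[(0, 3), (0, 0), (0, 0), (0, 0), (0, -1), (0, -2), (0, -3), (0, -4), (-1, 3), (0, 0), (-1, 1), (-1, 0),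 (0, 0), (-1, -2), (-1, -3), (-1, -4)], -1, 0, 0, -1⟩, ⟨[(0, 3), (0, 0), (0, 0), (0, 0), (0, -1), (0, -2), (0, -3), (0, -4), (-1, 3), (0, 0), (-1, 1), (-1, 0), (0, 0), (-1, -2), (-1, -3), (-1, -4)], -1, 0, 0, -1⟩), (⟨[(0, 4), (0, 0), (0, 0), (4, 3), (6, 3), (8, 3), (10, 2), (12, 2), (1, 3), (0, 0), (5, 2), (5, 3), (0, 0), (9, 2), (11, 2), (13, 1)], 3, -1, 7, -2⟩, ⟨[(6, -4), (0, 0), (0, 0), (2, -1), (0, 0), (-2, 2), (-4, 3), (-6, 5), (7, -4), (0, 0), (3, -1), (1, 0), (0, 0), (-3, 3), (-5, 4), (-5, 5)], -2, 1, -7, 3⟩), (⟨[(0, 5), (0, 0), (0, 0), (4, 2), (6, 1), (8, -1), (10, -2), (12, -4), (-1, 5), (0, 0), (3, 2), (5, 1), (0, 0), (9, -2), (11, -3), (11, -4)], 2, -1, 7, -3⟩, ⟨[(8, -1), (0, 0), (0, 0), (4, 0), (2, 0), (0, 0), (-2, 1), (-4, 1), (7, 0), (0, 0), (3, 1), (3, 0), (0, 0), (-1, 1),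 (-3, 1), (-5, 2)], -3, 1, -7, 2⟩), (⟨[(0, 6), (0, 0), (0, 0), (-4, 9), (-6, 10), (-8, 12), (-10, 13), (-12, 15), (1, 6), (0, 0), (-3, 9), (-5, 10), (0, 0), (-9, 13), (-11, 14), (-11, 15)], -2, 1, -7, 3⟩, ⟨[(-10, 2), (0, 0), (0, 0), (-6, 1), (-4, 1), (-2, 1), (0, 0), (2, 0), (-9, 1), (0, 0), (-5, 0), (-5, 1), (0, 0), (-1, 0), (1, 0), (3, -1)], 3, -1, 7, -2⟩), (⟨[(0, 7), (0, 0), (0, 0), (-4, 8), (-6, 8), (-8, 8), (-10, 9), (-12, 9), (-1, 8), (0, 0), (-5, 9), (-5, 8), (0, 0), (-9, 9), (-11, 9), (-13, 10)], -3, 1, -7, 2⟩, ⟨[(-12, 9), (0, 0), (0, 0), (-8, 6), (-6, 5), (-4, 3), (-2, 2), (0, 0), (-13, 9), (0, 0), (-9, 6), (-7, 5), (0, 0), (-3, 2), (-1, 1), (-1, 0)], 2, -1, 7, -3⟩), (⟨[(1, 0), (0, 0), (0, 0), (-1, 3), (-1, 4), (-3, 6), (-3, 7), (-5, 9), (0, 0), (0, 0), (-2, 3), (-2, 4), (0, 0),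 (-4, 7), (-4, 8), (-6, 9)], -2, 1, -3, 2⟩, ⟨[(1, 0), (0, 0), (0, 0), (-1, 3), (-1, 4), (-3, 6), (-3, 7), (-5, 9), (0, 0), (0, 0), (-2, 3), (-2, 4), (0, 0), (-4, 7), (-4, 8), (-6, 9)], -2, 1, -3, 2⟩), (⟨[], 0, 0, 0, 0⟩, ⟨[], 0, 0, 0, 0⟩), (⟨[(1, 2), (0, 0), (0, 0), (-1, 1), (-3, 1), (-5, 1), (-5, 0), (-7, 0), (2, 1), (0, 0), (0, 0), (-2, 1), (0, 0), (-4, 0), (-6, 0), (-6, -1)], -1, 0, -5, 1⟩, ⟨[(1, 2), (0, 0), (0, 0), (-1, 1), (-3, 1), (-5, 1), (-5, 0), (-7, 0), (2, 1), (0, 0), (0, 0), (-2, 1), (0, 0), (-4, 0), (-6, 0), (-6, -1)], -1, 0, -5, 1⟩), (⟨[(1, 3), (0, 0), (0, 0), (3, 4), (5, 4), (7, 4), (7, 5), (9, 5), (0, 4), (0, 0), (2, 5), (4, 4), (0, 0), (6, 5), (8, 5), (8, 6)], 1, 0, 5, -1⟩, ⟨[(-3, -1), (0, 0), (0, 0), (-1, 0), (1, 0), (3, 0), (3, 1), (5, 1), (-4, 0), (0, 0), (-2, 1), (0, 0),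 (0, 0), (2, 1), (4, 1), (4, 2)], 1, 0, 5, -1⟩), (⟨[], 0, 0, 0, 0⟩, ⟨[], 0, 0, 0, 0⟩), (⟨[(1, 5), (0, 0), (0, 0), (3, 2), (3, 1), (5, -1), (5, -2), (7, -4), (2, 5), (0, 0), (4, 2), (4, 1), (0, 0), (6, -2), (6, -3), (8, -4)], 2, -1, 3, -2⟩, ⟨[(-5, 7), (0, 0), (0, 0), (-3, 4), (-3, 3), (-1, 1), (-1, 0), (1, -2), (-4, 7), (0, 0), (-2, 4), (-2, 3), (0, 0), (0, 0), (0, -1), (2, -2)], 2, -1, 3, -2⟩), (⟨[(1, 6), (0, 0), (0, 0), (-5, 9), (-7, 10), (-9, 11), (-11, 12), (-13, 13), (0, 6), (0, 0), (-4, 8), (-6, 9), (0, 0), (-10, 11), (-12, 12), (-14, 13)], -3, 1, -8, 3⟩, ⟨[(13, -6), (0, 0), (0, 0), (7, -3), (5, -2), (3, -1), (1, 0), (-1, 1), (12, -6), (0, 0), (8, -4), (6, -3), (0, 0), (2, -1), (0, 0), (-2, 1)], -3, 1, -8, 3⟩), (⟨[(1, 7), (0, 0), (0, 0), (7, 4), (9, 3), (11, 2), (13, 1), (15, 0), (2,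 7), (0, 0), (6, 5), (8, 4), (0, 0), (12, 2), (14, 1), (16, 0)], 3, -1, 8, -3⟩, ⟨[(-15, 7), (0, 0), (0, 0), (-9, 4), (-7, 3), (-5, 2), (-3, 1), (-1, 0), (-14, 7), (0, 0), (-10, 5), (-8, 4), (0, 0), (-4, 2), (-2, 1), (0, 0)], 3, -1, 8, -3⟩)]

/-- 3.4.6.4 -/
def c3464 : Cert where
  m := 1
  k := 2
  n := 6
  o := (0, 0)
  E := [[(1, 0), (0, 1), (-1, 0), (0, -1)], [(1, 0), (-1, 1), (-1, 0), (0, -1)], [(1, 0), (0, 1), (-1, 0), (1, -1)], [(1, 0), (0, 1), (-1, 0), (0, -1)], [(1, 0), (-1, 0), (0, -1), (1, -1)], [(1, 0), (0, 1), (-1, 1), (-1, 0)]]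
  W := [[], [(0, 1)], [(0, 1), (1, 0), (-1, 1)], [(0, 1), (1, 0), (-1, 1), (0, 1)], [(0, 1), (1, 0), (0, 1), (0, 1), (-1, 1)], [(0, 1), (1, 0), (0, 1), (0, 1), (1, 0), (-1, 1), (0, 1), (-1, 0)]]
  W1 := [(0, 1), (1, 0), (0, 1)]
  W2 := [(0, 1), (1, 0), (0, 1), (0, 1), (1, 0), (0, 1), (0, 1), (-1, 1), (-1, 0)]
  A := [(⟨[(0, 0), (0, 1), (0, 2), (0, 3), (0, 4), (0, 5)], 1, 0, 0, 1⟩, ⟨[(0, 0), (0, 1), (0, 2), (0, 3), (0, 4), (0, 5)], 1, 0, 0, 1⟩), (⟨[(0, 1), (1, 1), (2, 2), (3, 2), (4, 2), (6, 3)], 3, -1, 7, -2⟩, ⟨[(1, 0), (0, 0), (-1, 1), (-2, 1), (-3, 2), (-5, 3)], -2, 1, -7, 3⟩), (⟨[(0, 2), (-1, 2), (-2, 1), (-3, 1), (-4, 1), (-6, 0)], -3, 1, -7, 2⟩, ⟨[(-2, 1), (-1, 1), (0, 0), (1, 0), (2, -1), (4, -2)], 2, -1, 7, -3⟩), (⟨[(0, 3), (0, 2), (0, 1), (0, 0), (0, -1), (0, -2)], -1, 0, 0, -1⟩,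 ⟨[(0, 3), (0, 2), (0, 1), (0, 0), (0, -1), (0, -2)], -1, 0, 0, -1⟩), (⟨[(0, 4), (-1, 4), (-2, 5), (-3, 5), (-4, 6), (-6, 7)], -2, 1, -7, 3⟩, ⟨[(-4, -1), (-3, -1), (-2, 0), (-1, 0), (0, 0), (2, 1)], 3, -1, 7, -2⟩), (⟨[(0, 5), (1, 5), (2, 4), (3, 4), (4, 3), (6, 2)], 2, -1, 7, -3⟩, ⟨[(6, 2), (5, 2), (4, 1), (3, 1), (2, 1), (0, 0)], -3, 1, -7, 2⟩)]

/-- 3^3.4^2 -/
def c3342 : Cert where
  m := 1
  k := 0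
  n := 2
  o := (0, 0)
  E := [[(1, 0), (0, 1), (-1, 0), (0, -1), (1, -1)], [(1, 0), (0, 1), (-1, 1), (-1, 0), (0, -1)]]
  W := [[], [(0, 1)]]
  W1 := [(1, 0)]
  W2 := [(0, 1), (0, 1)]
  A := [(⟨[(0, 0), (0, 1)], 1, 0, 0, 1⟩, ⟨[(0, 0), (0, 1)], 1, 0, 0, 1⟩), (⟨[(0, 1), (0, 0)], -1, 0, 0, -1⟩, ⟨[(0, 1), (0, 0)], -1, 0, 0, -1⟩)]

/-- 3^2.4.3.4 -/
def c32434 : Cert where
  m := 1
  k := 1
  n := 4
  o := (0, 0)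
  E := [[(1, 0), (-1, 1), (-1, 0), (0, -1), (1, -1)], [(1, 0), (0, 1), (-1, 1), (-1, 0), (1, -1)], [(1, 0), (0, 1), (-1, 1), (0, -1), (1, -1)], [(0, 1), (-1, 1), (-1, 0), (0, -1), (1, -1)]]
  W := [[], [(1, 0), (-1, 1)], [(1, 0), (0, 1), (-1, 1)], [(1, 0), (0, 1), (-1, 1), (0, 1)]]
  W1 := [(1, 0), (0, 1)]
  W2 := [(1, 0), (0, 1), (-1, 1), (0, 1), (0, 1)]
  A := [(⟨[(0, 0), (0, 1), (0, 2), (0, 3)], 1, 0, 0, 1⟩, ⟨[(0, 0), (0, 1), (0, 2), (0, 3)], 1, 0, 0, 1⟩), (⟨[(0, 1), (0, 0), (0, -1), (0, -2)], -1, 0, 0, -1⟩, ⟨[(0, 1), (0, 0), (0, -1), (0, -2)], -1, 0, 0, -1⟩), (⟨[(0, 2), (2, 1), (3, 0), (4, 0)], 2, -1, 5, -2⟩, ⟨[(3, -2), (1, -1), (0, 0), (-1, 0)], -2, 1, -5, 2⟩), (⟨[(0, 3), (-2, 4), (-3, 5), (-4, 5)], -2, 1, -5, 2⟩, ⟨[(-4, 2), (-2, 1), (-1, 0), (0, 0)], 2, -1, 5, -2⟩)]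

/-- 3^4.6 -/
def c346 : Cert where
  m := 1
  k := 2
  n := 7
  o := (0, 0)
  E := [[(1, 0), (0, 1), (-1, 1), (-1, 0), (0, -1)], [(1, 0), (0, 1), (-1, 0), (0, -1), (1, -1)], [(1, 0), (0, 1), (-1, 1), (0, -1), (1, -1)], [(1, 0), (-1, 1), (-1, 0), (0, -1), (1, -1)], [], [(1, 0), (0, 1), (-1, 1), (-1, 0), (1, -1)], [(0, 1), (-1, 1), (-1, 0), (0, -1), (1, -1)]]
  W := [[], [(0, 1)], [(0, 1), (0, 1)], [(0, 1), (0, 1), (0, 1)], [], [(1, 0), (0, 1), (0, 1), (0, 1), (0, 1), (-1, 1)], [(1, 0), (0, 1), (0, 1), (0, 1), (0, 1), (0, 1), (-1, 1)]]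
  W1 := [(1, 0), (0, 1), (0, 1)]
  W2 := [(1, 0), (0, 1), (0, 1), (0, 1), (0, 1), (0, 1), (-1, 1), (0, 1)]
  A := [(⟨[(0, 0), (0, 1), (0, 2), (0, 3), (0, 0), (0, 5), (0, 6)], 1, 0, 0, 1⟩, ⟨[(0, 0), (0, 1), (0, 2), (0, 3), (0, 0), (0, 5), (0, 6)], 1, 0, 0, 1⟩), (⟨[(0, 1), (0, 0), (0, -1), (0, -2), (0, 0), (0, -4), (0, -5)], -1, 0, 0, -1⟩, ⟨[(0, 1), (0, 0), (0, -1), (0, -2), (0, 0), (0, -4), (0, -5)], -1, 0, 0, -1⟩), (⟨[(0, 2), (1, 1), (2, 0), (3, -1), (0, 0), (5, -3), (6, -4)], 2, -1, 7, -3⟩, ⟨[(2, 0), (1, 0), (0, 0), (-1, 0), (0, 0), (-3, 0), (-4, 0)], -3, 1, -7, 2⟩), (⟨[(0, 3), (-1, 3), (-2, 3), (-3, 3), (0, 0), (-5, 3), (-6, 3)], -3, 1, -7, 2⟩, ⟨[(-3, 3), (-2, 2), (-1, 1), (0, 0), (0, 0), (2, -2), (3, -3)], 2, -1, 7, -3⟩), (⟨[], 0, 0, 0, 0⟩, ⟨[], 0, 0, 0, 0⟩), (⟨[(0, 5), (1, 5), (2, 5),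 (3, 5), (0, 0), (5, 5), (6, 5)], 3, -1, 7, -2⟩, ⟨[(5, -5), (4, -4), (3, -3), (2, -2), (0, 0), (0, 0), (-1, 1)], -2, 1, -7, 3⟩), (⟨[(0, 6), (-1, 7), (-2, 8), (-3, 9), (0, 0), (-5, 11), (-6, 12)], -2, 1, -7, 3⟩, ⟨[(-6, 0), (-5, 0), (-4, 0), (-3, 0), (0, 0), (-1, 0), (0, 0)], 3, -1, 7, -2⟩)]


/-- The eleven lattices: the sizes of the faces around a vertex, and the table. -/
def arch : List (List ℕ × Cert) :=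
  [([3, 3, 3, 3, 3, 3], c666), ([4, 4, 4, 4], c44), ([6, 6, 6], c63), ([3, 6, 3, 6], ckag), ([3, 12, 12], c312), ([4, 8, 8], c48),
    ([4, 6, 12], c4612), ([3, 4, 6, 4], c3464), ([3, 3, 3, 4, 4], c3342), ([3, 3, 4, 3, 4], c32434), ([3, 3, 3, 3, 6], c346)]

theorem arch_ok : ∀ q ∈ arch, q.2.Ok := by decide +kernel

theorem arch_faces : ∀ q ∈ arch, ∀ r ∈ q.2.reps, q.2.tab r ≠ [] → Cyc (q.2.faces r) q.1 := by decide +kernel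

/-- Each of the eleven lattices is connected, vertex-transitive and drawn in the triangular lattice with a period, and the faces around every vertex have
the sizes of its name. -/
theorem arch_lattice : ∀ q ∈ arch, q.2.gr.Connected ∧ (∀ x y, ∃ φ : q.2.gr ≃g q.2.gr, φ x = y) ∧
    1 ≤ q.2.m * q.2.n ∧ Drawing q.2.gr Subtype.val (q.2.m * q.2.n) ∧ ∀ u : q.2.Vx, Cyc (q.2.faces u.1) q.1 := by
  intro q hq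
  have h := arch_ok q hq
  refine ⟨Cert.connected h, Cert.transitive h, Nat.mul_pos h.1 h.2.1, Cert.drawing h, fun u => ?_⟩
  rw [← Per.faces_rp h.1]
  exact arch_faces q hq _ (Per.rp_mem h.1 h.2.1 _) (by rw [Per.tab_rp h.1]; exact u.2)

end Pool.Agent.RPL.Arch
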