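import Pool.Agent.RPL.A0
import Pool.Agent.ZCS.SgD

/-!
Project RPL, geometric part (B), captain helper95: definitions.

`G` is a subgraph of the triangular lattice (steps `SHP.steps true`, columns = the lines `x = const`). A word is a list of steps
(`Wd`); the library SHP, ZHW, ZCS for the triangular lattice (`t = true`) applies to the words of `G`. `Sup G u`: `u` is a vertex (has a
neighbour). `Wk G q l`: the word `l` is a walk of `G` from `q`. `Sw G q`: the self-avoiding ones. `Lat`: the structure used in the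
proof (one base vertex `o`, period `p`, any two vertices at column distance `≥ p` are joined by a path inside the open strip between
them; see `BLat.lean` for its existence). Renewal vertices are the translates `o + p ℤ²` of the base vertex.
`CBo L d`: cobridges from the base class to itself of width `p d`. `Irr L`: irreducible ones, `LT L`: the letters.
-/

set_option autoImplicit false

namespace Pool.Agent.RPL

open Pool.Agent.SHP Pool.Agent.ZHW
open scoped ENNReal NNReal

/-- Vertices (points with a neighbour). -/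
def Sup (G : SimpleGraph (ℤ × ℤ)) (u : ℤ × ℤ) : Prop := ∃ v, G.Adj u v

/-- The word `l` is a walk of `G` from `q`. -/
def Wk (G : SimpleGraph (ℤ × ℤ)) (q : ℤ × ℤ) (l : Wd) : Prop :=
  ∀ (u : Wd) (s : ℤ × ℤ) (v : Wd), l = u ++ s :: v → G.Adj (q + u.sum) (q + u.sum + s)

/-- Self-avoiding words of `G` from `q`. -/
def Sw (G : SimpleGraph (ℤ × ℤ)) (q : ℤ × ℤ) : Set Wd := {l | l ∈ saws true ∧ Wk G q l}

/-- The data used in the proof. -/
structure Lat where
  G : SimpleGraph (ℤ × ℤ)
  p : ℕ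
  o : ℤ × ℤ
  p1 : 1 ≤ p
  ho : Sup G o
  sub : ∀ u v, G.Adj u v → v - u ∈ steps true
  per : ∀ (a b : ℤ) (u v : ℤ × ℤ), G.Adj u v → G.Adj (u + ((p : ℤ) * a, (p : ℤ) * b)) (v + ((p : ℤ) * a, (p : ℤ) * b))
  far : ∀ u w : ℤ × ℤ, Sup G u → Sup G w → u.1 + p ≤ w.1 → ∃ l : Wd, l ∈ Sw G u ∧ u + l.sum = w ∧
    (∀ a b : Wd, l = a ++ b → a ≠ [] → 0 < a.sum.1) ∧ (∀ a b : Wd, l = a ++ b → b ≠ [] → 0 < b.sum.1)
  tr : ∀ u v : ℤ × ℤ, Sup G u → Sup G v → ∃ φ : G ≃g G, φ u = v

/-- The connective constant. -/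
noncomputable def muo (L : Lat) : ℝ := ⨅ n : ℕ, ((cnt (Sw L.G L.o) (n + 1) : ℝ)) ^ (1 / ((n : ℝ) + 1))

/-- The critical point. -/
noncomputable def zo (L : Lat) : ℝ≥0 := Real.toNNReal (1 / muo L)

/-- Cobridges of width `p d` from the base class to itself. -/
def CBo (L : Lat) (d : ℕ) : Set Wd := {l | l ∈ CB true (L.p * d) ∧ Wk L.G L.o l ∧ ∃ b : ℤ, l.sum.2 = L.p * b}

/-- Irreducible cobridges. -/
def Irr (L : Lat) : Set Wd := {l | (∃ d, l ∈ CBo L (d + 1)) ∧
  ∀ (u v : Wd) (i j : ℕ), l = u ++ v → u ∈ CBo L i → v ∈ CBo L j → u = [] ∨ v = []}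

/-- Letters. -/
def LT (L : Lat) : Type := {l : Wd // l ∈ Irr L}

/-- The word of a list of letters. -/
def flat (L : Lat) (Y : List (LT L)) : Wd := (Y.map Subtype.val).flatten

/-- The residue of a vertex. -/
def ty (L : Lat) (q : ℤ × ℤ) : ℤ × ℤ := ((q.1 - L.o.1) % (L.p : ℤ), (q.2 - L.o.2) % (L.p : ℤ))

/-- The number of the block of columns of a vertex. -/
def lv (L : Lat) (q : ℤ × ℤ) : ℤ := (q.1 - L.o.1) / (L.p : ℤ)

open Classical in
/-- The word from the base class to `q`, from the left (it depends on the residue of `q` only). -/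
noncomputable def al (L : Lat) (q : ℤ × ℤ) : Wd :=
  if h : Sup L.G (L.o + (-(L.p : ℤ), 0)) ∧ Sup L.G (L.o + ty L q) ∧ (L.o + (-(L.p : ℤ), 0)).1 + L.p ≤ (L.o + ty L q).1 then
    Classical.choose (L.far _ _ h.1 h.2.1 h.2.2) else []

open Classical in
/-- The word from `q` to the base class, to the right (it depends on the residue of `q` only). -/
noncomputable def br (L : Lat) (q : ℤ × ℤ) : Wd :=
  if h : Sup L.G (L.o + ty L q) ∧ Sup L.G (L.o + (2 * (L.p : ℤ), 0)) ∧ (L.o + ty L q).1 + L.p ≤ (L.o + (2 * (L.p : ℤ), 0)).1 then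
    Classical.choose (L.far _ _ h.1 h.2.1 h.2.2) else []

/-- A weak bridge `w` from `q`, extended to a cobridge between vertices of the base class. -/
noncomputable def hat (L : Lat) (q : ℤ × ℤ) (w : Wd) : Wd := al L q ++ (w ++ br L (q + w.sum))

/-- The width (in units of `p`) of `hat L q w`. -/
def wm (L : Lat) (q : ℤ × ℤ) (w : Wd) : ℕ := (lv L (q + w.sum) - lv L q + 3).toNat

/-- The index of the strand `w`: `ix / (2 p) = wm`, and it increases with the width of `w`. -/
def ix (L : Lat) (q : ℤ × ℤ) (w : Wd) : ℕ := (L.p * (wm L q w : ℤ) + w.sum.1 + 4 * L.p).toNat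

/-- Strict half-plane walks to the right of width at most `m`. -/
def HU (L : Lat) (q : ℤ × ℤ) (m : ℕ) : Set Wd := {r | r ∈ Sw L.G q ∧ r ∈ HT true m}

/-- Strict half-plane walks to the left of width at most `m`. -/
def HD (L : Lat) (q : ℤ × ℤ) (m : ℕ) : Set Wd := {r | r ∈ Sw L.G q ∧ r.map (refl true) ∈ HT true m}

/-- Closed half-plane walks to the right. -/
def CU (L : Lat) (q : ℤ × ℤ) : Set Wd := {l | l ∈ Sw L.G q ∧ Ri l}

end Pool.Agent.RPL
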