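import Pool.Agent.RPL.B0

/-!
Module B1: walks of `G` as words.

PAPER PROOF. All of it is bookkeeping with `List.append_eq_append_iff`, `List.sum_append`, `rev_append`, `rev_sum` (SHP/Cut; `rev l` is the
word of the reversed walk: negated steps in the reversed order), `rev_mem_saws`, `saws_infix` (SHP). `Wk_append`: a splitting
`u ++ v = a ++ s :: b` has `a ++ [s]` a prefix of `u` or `u` a prefix of `a`. `Wk_rev`: for `rev l = a ++ s :: b`, `l = rev b ++ (-s) :: rev a`, and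
the edge of `l` there is `G.Adj (q + (rev b).sum) (q + (rev b).sum - s)`; with `q + l.sum + a.sum = q + (rev b).sum - s` (`l.sum = (rev b).sum - s + (rev a).sum`)
it is the reversed edge. `Wk_shift`, `Sup_shift`: `L.per` with `(a, b)` and `(-a, -b)`. `_ty` forms: `L.o + ty L q = q - (p lv, p lv')` (`Int.emod_add_mul_ediv` or
`Int.emod_def`), so they are shifts. `Sup_end`: the last edge (or `q` itself for the empty word); also every vertex of a walk from a `Sup` vertex is `Sup`.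
-/

set_option autoImplicit false

namespace Pool.Agent.RPL

open Pool.Agent.SHP Pool.Agent.ZHW
open scoped ENNReal NNReal

theorem Wk_nil (G : SimpleGraph (ℤ × ℤ)) (q : ℤ × ℤ) : Wk G q [] := by
  intro u s v h
  have := congrArg List.length h
  simp at this

theorem Wk_cons {G : SimpleGraph (ℤ × ℤ)} {q s : ℤ × ℤ} {v : Wd} : Wk G q (s :: v) ↔ G.Adj q (q + s) ∧ Wk G (q + s) v := by
  constructor
  · intro h
    refine ⟨?_, ?_⟩
    · have h1 := h [] s v rfl
      rwa [List.sum_nil, add_zero] at h1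
    · intro a r b hab
      have h1 := h (s :: a) r b (by rw [hab]; rfl)
      rwa [List.sum_cons, ← add_assoc] at h1
  · rintro ⟨h1, h2⟩ a r b hab
    cases a with
    | nil =>
      rw [List.nil_append, List.cons.injEq] at hab
      rw [List.sum_nil, add_zero, ← hab.1]
      exact h1
    | cons c a =>
      rw [List.cons_append, List.cons.injEq] at hab
      rw [List.sum_cons, ← add_assoc, ← hab.1]
      exact h2 a r b hab.2

theorem Wk_append {G : SimpleGraph (ℤ × ℤ)} {q : ℤ × ℤ} {u v : Wd} : Wk G q (u ++ v) ↔ Wk G q u ∧ Wk G (q + u.sum) v := by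
  induction u generalizing q with
  | nil =>
    rw [List.nil_append, List.sum_nil, add_zero]
    exact ⟨fun h => ⟨Wk_nil G q, h⟩, fun h => h.2⟩
  | cons s u ih =>
    rw [List.cons_append, Wk_cons, Wk_cons, ih, List.sum_cons, add_assoc, and_assoc]

theorem Wk_rev {G : SimpleGraph (ℤ × ℤ)} {q : ℤ × ℤ} {l : Wd} (h : Wk G q l) : Wk G (q + l.sum) (rev l) := by
  induction l generalizing q with
  | nil => exact Wk_nil G _
  | cons s l ih =>
    obtain ⟨h1, h2⟩ := Wk_cons.1 h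
    have h3 : rev (s :: l) = rev l ++ [-s] := by
      have := rev_append [s] l
      exact this
    rw [h3, Wk_append, List.sum_cons, ← add_assoc]
    refine ⟨ih h2, ?_⟩
    rw [rev_sum, add_neg_cancel_right, Wk_cons]
    refine ⟨?_, Wk_nil G _⟩
    rw [add_neg_cancel_right]
    exact h1.symm

/-- Every vertex of a walk is a vertex of `G` in the sense of `Sup`. -/
theorem Sup_mid {G : SimpleGraph (ℤ × ℤ)} {q : ℤ × ℤ} {u v : Wd} (hq : Sup G q) (h : Wk G q (u ++ v)) : Sup G (q + u.sum) := by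
  induction u generalizing q with
  | nil =>
    rw [List.sum_nil, add_zero]
    exact hq
  | cons s u ih =>
    rw [List.cons_append, Wk_cons] at h
    rw [List.sum_cons, ← add_assoc]
    exact ih ⟨q, h.1.symm⟩ h.2

theorem Sup_end {G : SimpleGraph (ℤ × ℤ)} {q : ℤ × ℤ} {l : Wd} (hq : Sup G q) (h : Wk G q l) : Sup G (q + l.sum) := by
  refine Sup_mid (v := []) hq ?_
  rwa [List.append_nil]

private theorem B1_adj (L : Lat) (a b : ℤ) {u v : ℤ × ℤ} :
    L.G.Adj (u + ((L.p : ℤ) * a, (L.p : ℤ) * b)) (v + ((L.p : ℤ) * a, (L.p : ℤ) * b)) ↔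
      L.G.Adj u v := by
  refine ⟨fun h => ?_, L.per a b u v⟩
  have h1 := L.per (-a) (-b) _ _ h
  have h2 : ∀ w : ℤ × ℤ, w + ((L.p : ℤ) * a, (L.p : ℤ) * b) + ((L.p : ℤ) * -a, (L.p : ℤ) * -b) =
      w := by
    intro w
    ext
    · simp only [Prod.fst_add]
      ring
    · simp only [Prod.snd_add]
      ring
  rwa [h2, h2] at h1

private theorem B1_swap (q c u : ℤ × ℤ) : q + c + u = q + u + c := add_right_comm q c u

theorem Sup_shift (L : Lat) (a b : ℤ) {q : ℤ × ℤ} : Sup L.G (q + ((L.p : ℤ) * a, (L.p : ℤ) * b)) ↔ Sup L.G q := by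
  constructor
  · rintro ⟨v, hv⟩
    refine ⟨v - ((L.p : ℤ) * a, (L.p : ℤ) * b), ?_⟩
    rw [← B1_adj L a b, sub_add_cancel]
    exact hv
  · rintro ⟨v, hv⟩
    exact ⟨_, L.per a b q v hv⟩

theorem Wk_shift (L : Lat) (a b : ℤ) {q : ℤ × ℤ} {l : Wd} : Wk L.G (q + ((L.p : ℤ) * a, (L.p : ℤ) * b)) l ↔ Wk L.G q l := by
  constructor
  · intro h u s v huv
    have h1 := h u s v huv
    rw [B1_swap q _ u.sum, B1_swap (q + u.sum) _ s, B1_adj] at h1
    exact h1
  · intro h u s v huv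
    rw [B1_swap q _ u.sum, B1_swap (q + u.sum) _ s, B1_adj]
    exact h u s v huv

private theorem B1_dvd {p x y : ℤ} (h : x % p = y % p) : ∃ a : ℤ, y = x + p * a := by
  obtain ⟨a, ha⟩ := Int.ModEq.dvd (show x ≡ y [ZMOD p] from h)
  exact ⟨a, by linarith⟩

private theorem B1_ty (L : Lat) {q q' : ℤ × ℤ} (h : ty L q = ty L q') :
    ∃ a b : ℤ, q' = q + ((L.p : ℤ) * a, (L.p : ℤ) * b) := by
  have h' := Prod.ext_iff.1 h
  obtain ⟨a, ha⟩ := B1_dvd h'.1
  obtain ⟨b, hb⟩ := B1_dvd h'.2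
  refine ⟨a, b, ?_⟩
  ext
  · simp only [Prod.fst_add]
    linarith
  · simp only [Prod.snd_add]
    linarith

/-- Same residue: `q' - q` is a multiple of the period. -/
theorem Wk_congr (L : Lat) {q q' : ℤ × ℤ} {l : Wd} (h : ty L q = ty L q') : Wk L.G q l ↔ Wk L.G q' l := by
  obtain ⟨a, b, rfl⟩ := B1_ty L h
  exact (Wk_shift L a b).symm

theorem Sup_congr (L : Lat) {q q' : ℤ × ℤ} (h : ty L q = ty L q') : Sup L.G q ↔ Sup L.G q' := by
  obtain ⟨a, b, rfl⟩ := B1_ty L h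
  exact (Sup_shift L a b).symm

theorem Sw_congr (L : Lat) {q q' : ℤ × ℤ} (h : ty L q = ty L q') : Sw L.G q = Sw L.G q' := by
  ext l
  exact and_congr Iff.rfl (Wk_congr L h)

theorem ty_shift (L : Lat) (a b : ℤ) (q : ℤ × ℤ) : ty L (q + ((L.p : ℤ) * a, (L.p : ℤ) * b)) = ty L q := by
  unfold ty
  have h1 : (q + ((L.p : ℤ) * a, (L.p : ℤ) * b)).1 - L.o.1 = (q.1 - L.o.1) + (L.p : ℤ) * a := by
    simp only [Prod.fst_add]
    ring
  have h2 : (q + ((L.p : ℤ) * a, (L.p : ℤ) * b)).2 - L.o.2 = (q.2 - L.o.2) + (L.p : ℤ) * b := by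
    simp only [Prod.snd_add]
    ring
  rw [h1, h2, Int.add_mul_emod_self_left, Int.add_mul_emod_self_left]

/-- The representative `o + ty q` has the residue of `q`. -/
theorem ty_rep (L : Lat) (q : ℤ × ℤ) : ty L (L.o + ty L q) = ty L q := by
  unfold ty
  simp only [Prod.fst_add, Prod.snd_add, add_sub_cancel_left, Int.emod_emod]

private theorem B1_p (L : Lat) : (0 : ℤ) < L.p := by
  have := L.p1
  omega

theorem ty_range (L : Lat) (q : ℤ × ℤ) : 0 ≤ (ty L q).1 ∧ (ty L q).1 < L.p ∧ 0 ≤ (ty L q).2 ∧ (ty L q).2 < L.p :=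
  ⟨Int.emod_nonneg _ (B1_p L).ne', Int.emod_lt_of_pos _ (B1_p L),
    Int.emod_nonneg _ (B1_p L).ne', Int.emod_lt_of_pos _ (B1_p L)⟩

/-- `q.1 = o.1 + p * lv q + (ty q).1`. -/
theorem lv_ty (L : Lat) (q : ℤ × ℤ) : q.1 = L.o.1 + (L.p : ℤ) * lv L q + (ty L q).1 := by
  have h := Int.emod_add_mul_ediv (q.1 - L.o.1) (L.p : ℤ)
  unfold lv ty
  simp only
  linarith

/-- `q.2 = o.2 + p * (..) + (ty q).2`. -/
theorem snd_ty (L : Lat) (q : ℤ × ℤ) : ∃ b : ℤ, q.2 = L.o.2 + (L.p : ℤ) * b + (ty L q).2 := by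
  have h := Int.emod_add_mul_ediv (q.2 - L.o.2) (L.p : ℤ)
  refine ⟨(q.2 - L.o.2) / (L.p : ℤ), ?_⟩
  unfold ty
  simp only
  linarith

theorem Wk_steps (L : Lat) {q : ℤ × ℤ} {l : Wd} (h : Wk L.G q l) : ∀ s ∈ l, s ∈ steps true := by
  intro s hs
  obtain ⟨a, b, hab⟩ := List.append_of_mem hs
  have h1 := L.sub _ _ (h a s b hab)
  rwa [add_sub_cancel_left] at h1

theorem Sw_prefix {G : SimpleGraph (ℤ × ℤ)} {q : ℤ × ℤ} {u v : Wd} (h : u ++ v ∈ Sw G q) : u ∈ Sw G q :=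
  ⟨saws_infix (u := []) (v := u) (w := v) h.1, (Wk_append.1 h.2).1⟩

theorem Sw_suffix {G : SimpleGraph (ℤ × ℤ)} {q : ℤ × ℤ} {u v : Wd} (h : u ++ v ∈ Sw G q) : v ∈ Sw G (q + u.sum) :=
  ⟨saws_infix (u := u) (v := v) (w := []) (by rw [List.append_nil]; exact h.1),
    (Wk_append.1 h.2).2⟩

theorem Sw_rev {G : SimpleGraph (ℤ × ℤ)} {q : ℤ × ℤ} {l : Wd} (h : l ∈ Sw G q) : rev l ∈ Sw G (q + l.sum) :=
  ⟨rev_mem_saws h.1, Wk_rev h.2⟩

theorem Sw_nil {G : SimpleGraph (ℤ × ℤ)} (q : ℤ × ℤ) : ([] : Wd) ∈ Sw G q :=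
  ⟨nil_mem_bridges.1.1, Wk_nil G q⟩

end Pool.Agent.RPL
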