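import Pool.Agent.RPL.B1
import Pool.Agent.SHP.Crit

/-!
Module B2a: automorphisms; all vertices have the same number of self-avoiding walks.

PAPER PROOF. For `φ : G ≃g G` and a word `l` from `q` define the image word by recursion: `img φ q [] = []`,
`img φ q (s :: l) = (φ (q + s) - φ q) :: img φ (q + s) l`. Then `(img φ q l).sum = φ (q + l.sum) - φ q`, same length,
`img φ q (u ++ v) = img φ q u ++ img φ (q + u.sum) v` (induction on `u`), hence every splitting `img φ q l = a ++ b` comes from a splitting of `l`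
(take the lengths). If `l ∈ Sw G q` then `img φ q l ∈ Sw G (φ q)`: the steps are edges of `G` (`φ` preserves adjacency; by `sub` they are in
`steps true`, use `L.sub`), and a block of `img φ q l` with sum zero has `φ (q + u.sum + v.sum) = φ (q + u.sum)`, so `v.sum = 0`, `v = []`. `img` is
injective: `img φ.symm (φ q) (img φ q l) = l`. So `cnt (Sw G q) n ≤ cnt (Sw G (φ q)) n` (`Set.ncard_le_ncard_of_injOn`, finiteness of
`{l | l ∈ Sw L.G q ∧ l.length = n}` by `finite_words` (SHP/Crit) with `t = true`), and the same for `φ.symm`. Finally use `L.tr`.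
`pairs_eq`: pairs of walks from `q` and from `φ q`, the same map in both components (`Disj` is preserved: `u = p ++ r`, `v = p' ++ r'` and `p.sum = p'.sum` are
equivalent to the same for the images by the injectivity of `φ`).
-/

set_option autoImplicit false

namespace Pool.Agent.RPL

open Pool.Agent.SHP Pool.Agent.ZHW
open scoped ENNReal NNReal

/-- Pairs of self-avoiding walks of length `n` from `q` which meet only at `q`. -/
def Prs (G : SimpleGraph (ℤ × ℤ)) (q : ℤ × ℤ) (n : ℕ) : Set (Wd × Wd) :=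
  {p | p.1 ∈ Sw G q ∧ p.2 ∈ Sw G q ∧ p.1.length = n ∧ p.2.length = n ∧ Disj p.1 p.2}

/-- The image word of a word from `q` under a map of the vertices. -/
private def img (φ : ℤ × ℤ → ℤ × ℤ) : ℤ × ℤ → Wd → Wd
  | _, [] => []
  | q, s :: l => (φ (q + s) - φ q) :: img φ (q + s) l

private theorem img_length (φ : ℤ × ℤ → ℤ × ℤ) (l : Wd) : ∀ q : ℤ × ℤ, (img φ q l).length = l.length := by
  induction l with
  | nil => intro q; rfl
  | cons s l ih =>
    intro q
    show ((φ (q + s) - φ q) :: img φ (q + s) l).length = (s :: l).length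
    rw [List.length_cons, List.length_cons, ih]

private theorem img_sum (φ : ℤ × ℤ → ℤ × ℤ) (l : Wd) : ∀ q : ℤ × ℤ, (img φ q l).sum = φ (q + l.sum) - φ q := by
  induction l with
  | nil =>
    intro q
    show ([] : Wd).sum = _
    rw [List.sum_nil, add_zero, sub_self]
  | cons s l ih =>
    intro q
    show ((φ (q + s) - φ q) :: img φ (q + s) l).sum = _
    rw [List.sum_cons, List.sum_cons, ih, ← add_assoc]
    abel

private theorem img_append (φ : ℤ × ℤ → ℤ × ℤ) (u v : Wd) :
    ∀ q : ℤ × ℤ, img φ q (u ++ v) = img φ q u ++ img φ (q + u.sum) v := by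
  induction u with
  | nil =>
    intro q
    show img φ q v = [] ++ img φ (q + ([] : Wd).sum) v
    rw [List.nil_append, List.sum_nil, add_zero]
  | cons s u ih =>
    intro q
    show (φ (q + s) - φ q) :: img φ (q + s) (u ++ v) =
      ((φ (q + s) - φ q) :: img φ (q + s) u) ++ img φ (q + (s :: u).sum) v
    rw [ih, List.cons_append, List.sum_cons, ← add_assoc]

private theorem img_split (φ : ℤ × ℤ → ℤ × ℤ) {q : ℤ × ℤ} {l a b : Wd} (h : img φ q l = a ++ b) :
    ∃ u v : Wd, l = u ++ v ∧ a = img φ q u ∧ b = img φ (q + u.sum) v := by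
  have hlen : a.length ≤ l.length := by
    have h1 := congrArg List.length h
    rw [img_length, List.length_append] at h1
    omega
  have h2 : l = l.take a.length ++ l.drop a.length := (List.take_append_drop _ _).symm
  have h3 : img φ q l = img φ q (l.take a.length) ++ img φ (q + (l.take a.length).sum) (l.drop a.length) := by
    conv_lhs => rw [h2]
    exact img_append φ _ _ q
  rw [h] at h3
  have h4 : a.length = (img φ q (l.take a.length)).length := by
    rw [img_length, List.length_take]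
    omega
  obtain ⟨h5, h6⟩ := List.append_inj h3 h4
  exact ⟨_, _, h2, h5, h6⟩

private theorem img_inv {φ ψ : ℤ × ℤ → ℤ × ℤ} (hψ : ∀ x, ψ (φ x) = x) (l : Wd) :
    ∀ q : ℤ × ℤ, img ψ (φ q) (img φ q l) = l := by
  induction l with
  | nil => intro q; rfl
  | cons s l ih =>
    intro q
    show (ψ (φ q + (φ (q + s) - φ q)) - ψ (φ q)) ::
      img ψ (φ q + (φ (q + s) - φ q)) (img φ (q + s) l) = s :: l
    rw [add_sub_cancel, ih, hψ, hψ, add_sub_cancel_left]

private theorem img_Sw (L : Lat) (φ : L.G ≃g L.G) {q : ℤ × ℤ} {l : Wd} (hl : l ∈ Sw L.G q) :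
    img φ q l ∈ Sw L.G (φ q) := by
  obtain ⟨hs, hw⟩ := hl
  have hW : Wk L.G (φ q) (img φ q l) := by
    intro a s b hab
    obtain ⟨u, v, h1, h2, h3⟩ := img_split φ hab
    rcases v with _ | ⟨s', v'⟩
    · exact absurd h3 (by intro h; cases h)
    · have h4 : s = φ (q + u.sum + s') - φ (q + u.sum) := (List.cons.inj h3).1
      have h5 : φ q + a.sum = φ (q + u.sum) := by
        rw [h2, img_sum]
        abel
      have h6 : φ q + a.sum + s = φ (q + u.sum + s') := by
        rw [h5, h4]
        abel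
      rw [h6, h5]
      exact φ.map_rel_iff.2 (hw u s' v' h1)
  refine ⟨⟨Wk_steps L hW, ?_⟩, hW⟩
  intro a b c habc hb
  obtain ⟨u, v, h1, h2, h3⟩ := img_split φ habc
  obtain ⟨v1, w1, h4, h5, h6⟩ := img_split φ h3.symm
  have h7 : φ (q + u.sum + v1.sum) = φ (q + u.sum) := by
    have h8 : b.sum = φ (q + u.sum + v1.sum) - φ (q + u.sum) := by rw [h5, img_sum]
    rw [hb] at h8
    exact (sub_eq_zero.1 h8.symm)
  have h9 : v1.sum = 0 := by
    have h10 := φ.injective h7
    exact add_eq_left.1 h10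
  have h11 : v1 = [] := hs.2 u v1 w1 (by rw [h1, h4]) h9
  rw [h5, h11]
  rfl

private theorem img_inj (L : Lat) (φ : L.G ≃g L.G) {q : ℤ × ℤ} {l l' : Wd} (h : img φ q l = img φ q l') : l = l' := by
  rw [← img_inv (φ := φ) (ψ := φ.symm) (fun x => φ.symm_apply_apply x) l q, h,
    img_inv (φ := φ) (ψ := φ.symm) (fun x => φ.symm_apply_apply x) l' q]

theorem fin_Sw (L : Lat) (q : ℤ × ℤ) (n : ℕ) : {l | l ∈ Sw L.G q ∧ l.length = n}.Finite :=
  finite_words (t := true) (Sw L.G q) (fun _ hl => hl.1.1) n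

private theorem cnt_le (L : Lat) (φ : L.G ≃g L.G) (q : ℤ × ℤ) (n : ℕ) :
    cnt (Sw L.G q) n ≤ cnt (Sw L.G (φ q)) n := by
  unfold cnt
  refine Set.ncard_le_ncard_of_injOn (img φ q) ?_ ?_ (fin_Sw L (φ q) n)
  · rintro l ⟨h1, h2⟩
    exact ⟨img_Sw L φ h1, by rw [img_length, h2]⟩
  · intro l _ l' _ h
    exact img_inj L φ h

theorem cnt_eq (L : Lat) {q : ℤ × ℤ} (hq : Sup L.G q) (n : ℕ) : cnt (Sw L.G q) n = cnt (Sw L.G L.o) n := by
  obtain ⟨φ, hφ⟩ := L.tr q L.o hq L.ho
  apply le_antisymm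
  · have h := cnt_le L φ q n
    rwa [hφ] at h
  · have h := cnt_le L φ.symm L.o n
    have h2 : φ.symm L.o = q := by rw [← hφ]; exact φ.symm_apply_apply q
    rwa [h2] at h

private theorem fin_Prs (L : Lat) (q : ℤ × ℤ) (n : ℕ) : (Prs L.G q n).Finite :=
  ((fin_Sw L q n).prod (fin_Sw L q n)).subset fun _ hp => ⟨⟨hp.1, hp.2.2.1⟩, ⟨hp.2.1, hp.2.2.2.1⟩⟩

private theorem prs_le (L : Lat) (φ : L.G ≃g L.G) (q : ℤ × ℤ) (n : ℕ) :
    (Prs L.G q n).ncard ≤ (Prs L.G (φ q) n).ncard := by
  refine Set.ncard_le_ncard_of_injOn (fun p => (img φ q p.1, img φ q p.2)) ?_ ?_ (fin_Prs L (φ q) n)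
  · rintro ⟨l, l'⟩ ⟨h1, h2, h3, h4, h5⟩
    refine ⟨img_Sw L φ h1, img_Sw L φ h2, ?_, ?_, ?_⟩
    · show (img φ q l).length = n
      rw [img_length]
      exact h3
    · show (img φ q l').length = n
      rw [img_length]
      exact h4
    · intro a b c d hac hbd hab
      obtain ⟨u, v, e1, e2, e3⟩ := img_split φ hac
      obtain ⟨u', v', e1', e2', e3'⟩ := img_split φ hbd
      rw [e2, e2', img_sum, img_sum] at hab
      have h6 : u.sum = u'.sum := add_left_cancel (φ.injective (sub_left_injective hab))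
      obtain ⟨h7, h8⟩ := h5 u u' v v' e1 e1' h6
      rw [e2, e2', h7, h8]
      exact ⟨rfl, rfl⟩
  · rintro ⟨l, l'⟩ _ ⟨m, m'⟩ _ h
    have h1 : img φ q l = img φ q m := congrArg Prod.fst h
    have h2 : img φ q l' = img φ q m' := congrArg Prod.snd h
    rw [img_inj L φ h1, img_inj L φ h2]

theorem pairs_eq (L : Lat) {q : ℤ × ℤ} (hq : Sup L.G q) (n : ℕ) : (Prs L.G q n).ncard = (Prs L.G L.o n).ncard := by
  obtain ⟨φ, hφ⟩ := L.tr q L.o hq L.ho
  apply le_antisymm
  · have h := prs_le L φ q n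
    rwa [hφ] at h
  · have h := prs_le L φ.symm L.o n
    have h2 : φ.symm L.o = q := by rw [← hφ]; exact φ.symm_apply_apply q
    rwa [h2] at h

end Pool.Agent.RPL
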