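import Pool.Agent.RPL.B2a
import Pool.Agent.SHP.Crit

/-!
Module B2b: the connective constant (copy of SHP/Crit for `Sw L.G L.o`).

PAPER PROOF. Copy Pool/Agent/SHP/Crit.lean. `one_le_cntS`: `L.far` with `u = L.o`, `w = L.o + (p (n + 1), 0)` (`Sup` by `Sup_shift`) gives a word in
`Sw L.G L.o` of width `p (n + 1) ≥ n`, so of length `≥ n` (`fst_sum_le_length`); its prefix of length `n` (`List.take n`, `Sw_prefix`). `cnt_submulS`: as
there, `l ↦ (l.take m, l.drop m)`; for each prefix `u` of length `m` the suffix is in `Sw L.G (o + u.sum)`, whose number is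
`cnt (Sw L.G L.o) n` by `cnt_eq` (`Sup_end`); so use the sum over the finite set of prefixes (`Finset.card_eq_sum_card_fiberwise` or
`Set.ncard` of a sigma / biUnion bound) instead of a product set. The rest is verbatim (`muo`, `zo` in place of `mu`, `zc`); finally
`gf (Sw L.G q) z = ∑' n, cnt * z ^ n` (`gf_eq_cnt`) only depends on the numbers `cnt`, so it is the same for every `q` with `Sup L.G q`.
-/

set_option autoImplicit false

namespace Pool.Agent.RPL

open Pool.Agent.SHP Pool.Agent.ZHW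
open scoped ENNReal NNReal

theorem one_le_cntS (L : Lat) (n : ℕ) : 1 ≤ cnt (Sw L.G L.o) n := by
  have hw : Sup L.G (L.o + ((L.p : ℤ) * ((n : ℤ) + 1), (L.p : ℤ) * 0)) := (Sup_shift L _ _).2 L.ho
  have hp : (1 : ℤ) ≤ L.p := by exact_mod_cast L.p1
  have hfar : L.o.1 + L.p ≤ (L.o + ((L.p : ℤ) * ((n : ℤ) + 1), (L.p : ℤ) * 0)).1 := by
    simp only [Prod.fst_add]
    have h0 : (0 : ℤ) ≤ (L.p : ℤ) * n := by positivity
    linarith [mul_add (L.p : ℤ) n 1]
  obtain ⟨l, hl, hsum, -, -⟩ := L.far _ _ L.ho hw hfar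
  have hsum1 : l.sum.1 = (L.p : ℤ) * (n + 1) := by
    have h1 := congrArg Prod.fst hsum
    simp only [Prod.fst_add] at h1
    linarith
  have hlen : n ≤ l.length := by
    have h1 := fst_sum_le_length (t := true) (fun s hs => hl.1.1 s hs)
    rw [hsum1] at h1
    have h2 : (0 : ℤ) ≤ n := by positivity
    have h3 : (n : ℤ) ≤ l.length := by nlinarith
    exact_mod_cast h3
  have htake : l.take n ∈ Sw L.G L.o := by
    rw [← List.take_append_drop n l] at hl
    exact Sw_prefix hl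
  unfold cnt
  exact (Set.ncard_pos (fin_Sw L L.o n)).2 ⟨l.take n, htake, by rw [List.length_take]; omega⟩

theorem cnt_submulS (L : Lat) (m n : ℕ) :
    cnt (Sw L.G L.o) (m + n) ≤ cnt (Sw L.G L.o) m * cnt (Sw L.G L.o) n := by
  classical
  have hA := fin_Sw L L.o m
  have hB := fin_Sw L L.o (m + n)
  have hcA : cnt (Sw L.G L.o) m = hA.toFinset.card := by
    unfold cnt
    exact Set.ncard_eq_toFinset_card _ hA
  have hcB : cnt (Sw L.G L.o) (m + n) = hB.toFinset.card := by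
    unfold cnt
    exact Set.ncard_eq_toFinset_card _ hB
  have hmap : ∀ l ∈ hB.toFinset, l.take m ∈ hA.toFinset := by
    intro l hl
    rw [Set.Finite.mem_toFinset] at hl ⊢
    obtain ⟨hl, hn⟩ := hl
    refine ⟨?_, ?_⟩
    · rw [← List.take_append_drop m l] at hl
      exact Sw_prefix hl
    · rw [List.length_take, hn]; omega
  rw [hcB, Finset.card_eq_sum_card_fiberwise hmap, hcA, ← smul_eq_mul, ← Finset.sum_const]
  refine Finset.sum_le_sum fun u hu => ?_
  rw [Set.Finite.mem_toFinset] at hu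
  have hs : Sup L.G (L.o + u.sum) := Sup_end L.ho hu.1.2
  rw [← cnt_eq L hs n]
  unfold cnt
  rw [← Set.ncard_coe_finset]
  refine Set.ncard_le_ncard_of_injOn (fun l => l.drop m) ?_ ?_ (fin_Sw L _ n)
  · intro l hl
    rw [Finset.mem_coe, Finset.mem_filter, Set.Finite.mem_toFinset] at hl
    obtain ⟨⟨hl, hn⟩, hu'⟩ := hl
    refine ⟨?_, ?_⟩
    · rw [← List.take_append_drop m l] at hl
      have h1 := Sw_suffix hl
      rw [hu'] at h1
      exact h1
    · rw [List.length_drop, hn]; omega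
  · intro l hl l' hl' h
    rw [Finset.mem_coe, Finset.mem_filter] at hl hl'
    simp only at h
    rw [← List.take_append_drop m l, ← List.take_append_drop m l', hl.2, hl'.2, h]

theorem one_le_muo (L : Lat) : 1 ≤ muo L := by
  unfold muo
  refine le_ciInf fun n => ?_
  refine Real.one_le_rpow ?_ (by positivity)
  exact_mod_cast one_le_cntS L (n + 1)

private theorem b2b_bdd (L : Lat) :
    BddBelow (Set.range fun n : ℕ => ((cnt (Sw L.G L.o) (n + 1) : ℝ)) ^ (1 / ((n : ℝ) + 1))) :=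
  ⟨0, by rintro _ ⟨n, rfl⟩; positivity⟩

private theorem b2b_root (L : Lat) (n : ℕ) :
    (((cnt (Sw L.G L.o) (n + 1) : ℝ)) ^ (1 / ((n : ℝ) + 1))) ^ (n + 1) = (cnt (Sw L.G L.o) (n + 1) : ℝ) := by
  have h := Real.rpow_inv_natCast_pow (x := (cnt (Sw L.G L.o) (n + 1) : ℝ)) (by positivity)
    (Nat.succ_ne_zero n)
  rw [one_div]
  rw [Nat.succ_eq_add_one, Nat.cast_add, Nat.cast_one] at h
  exact h

theorem muo_pow_le (L : Lat) (n : ℕ) : muo L ^ n ≤ (cnt (Sw L.G L.o) n : ℝ) := by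
  rcases n with _ | n
  · rw [pow_zero]
    exact_mod_cast one_le_cntS L 0
  · have h1 : muo L ≤ ((cnt (Sw L.G L.o) (n + 1) : ℝ)) ^ (1 / ((n : ℝ) + 1)) := ciInf_le (b2b_bdd L) n
    calc (muo L) ^ (n + 1) ≤ (((cnt (Sw L.G L.o) (n + 1) : ℝ)) ^ (1 / ((n : ℝ) + 1))) ^ (n + 1) :=
          pow_le_pow_left₀ (le_trans zero_le_one (one_le_muo L)) h1 _
      _ = _ := b2b_root L n

private theorem b2b_cnt_le (L : Lat) {δ : ℝ} (hδ : 0 < δ) :
    ∃ C : ℝ, 0 < C ∧ ∀ n : ℕ, (cnt (Sw L.G L.o) n : ℝ) ≤ C * (muo L + δ) ^ n := by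
  have h1 : muo L < muo L + δ := by linarith
  have hmu := one_le_muo L
  obtain ⟨k, hk⟩ := exists_lt_of_ciInf_lt h1
  have h2 : (cnt (Sw L.G L.o) (k + 1) : ℝ) ≤ (muo L + δ) ^ (k + 1) := by
    rw [← b2b_root L k]
    exact pow_le_pow_left₀ (by positivity) hk.le _
  have h3 : ∀ q r : ℕ, (cnt (Sw L.G L.o) (q * (k + 1) + r) : ℝ) ≤
      (muo L + δ) ^ (q * (k + 1)) * (cnt (Sw L.G L.o) r : ℝ) := by
    intro q r
    induction q with
    | zero => simp
    | succ q ih =>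
      have h4 := cnt_submulS L (k + 1) (q * (k + 1) + r)
      have h5 : (q + 1) * (k + 1) + r = (k + 1) + (q * (k + 1) + r) := by ring
      rw [h5]
      calc (cnt (Sw L.G L.o) ((k + 1) + (q * (k + 1) + r)) : ℝ)
          ≤ (cnt (Sw L.G L.o) (k + 1) : ℝ) * (cnt (Sw L.G L.o) (q * (k + 1) + r) : ℝ) := by
            exact_mod_cast h4
        _ ≤ (muo L + δ) ^ (k + 1) * ((muo L + δ) ^ (q * (k + 1)) * (cnt (Sw L.G L.o) r : ℝ)) := by
            apply mul_le_mul h2 ih (by positivity) (by positivity)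
        _ = _ := by ring
  refine ⟨∑ r ∈ Finset.range (k + 1), (cnt (Sw L.G L.o) r : ℝ), ?_, ?_⟩
  · refine Finset.sum_pos (fun r _ => ?_) ⟨0, by simp⟩
    exact_mod_cast one_le_cntS L r
  · intro n
    have h4 := h3 (n / (k + 1)) (n % (k + 1))
    rw [Nat.div_add_mod'] at h4
    have h5 : (cnt (Sw L.G L.o) (n % (k + 1)) : ℝ) ≤ ∑ r ∈ Finset.range (k + 1), (cnt (Sw L.G L.o) r : ℝ) :=
      Finset.single_le_sum (f := fun r => (cnt (Sw L.G L.o) r : ℝ)) (fun r _ => by positivity)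
        (Finset.mem_range.2 (Nat.mod_lt _ (Nat.succ_pos k)))
    have h6 : (muo L + δ) ^ (n / (k + 1) * (k + 1)) ≤ (muo L + δ) ^ n :=
      pow_le_pow_right₀ (by linarith) (Nat.div_mul_le_self _ _)
    calc (cnt (Sw L.G L.o) n : ℝ) ≤ _ := h4
      _ ≤ (muo L + δ) ^ n * ∑ r ∈ Finset.range (k + 1), (cnt (Sw L.G L.o) r : ℝ) := by
          apply mul_le_mul h6 h5 (by positivity) (by positivity)
      _ = _ := by ring

private theorem b2b_zo (L : Lat) : (zo L : ℝ) = 1 / muo L := by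
  unfold zo
  exact Real.coe_toNNReal _ (by have := one_le_muo L; positivity)

theorem zo_pos (L : Lat) : 0 < zo L := by
  have h : (0 : ℝ) < zo L := by
    rw [b2b_zo]
    have := one_le_muo L
    positivity
  exact_mod_cast h

theorem zo_le_one (L : Lat) : zo L ≤ 1 := by
  have h : (zo L : ℝ) ≤ 1 := by
    rw [b2b_zo]
    have := one_le_muo L
    rw [div_le_one (by linarith)]
    exact this
  exact_mod_cast h

theorem zo_mul_muo (L : Lat) : (zo L : ℝ) * muo L = 1 := by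
  rw [b2b_zo]
  have := one_le_muo L
  field_simp

theorem gf_Sw_ne_top (L : Lat) {q : ℤ × ℤ} (hq : Sup L.G q) {z : ℝ≥0} (hz : z < zo L) : gf (Sw L.G q) z ≠ ⊤ := by
  have hmu := one_le_muo L
  have hz' : (z : ℝ) < 1 / muo L := by
    rw [← b2b_zo]
    exact_mod_cast hz
  rw [lt_div_iff₀ (by linarith)] at hz'
  obtain ⟨δ, hδ, hδz⟩ : ∃ δ : ℝ, 0 < δ ∧ (z : ℝ) * (muo L + δ) < 1 := by
    refine ⟨(1 - z * muo L) / (z + 1) , by apply div_pos <;> [linarith; positivity], ?_⟩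
    have h1 : (z : ℝ) / (z + 1) < 1 := by
      rw [div_lt_one (by positivity)]
      linarith
    have h2 : (z : ℝ) * (muo L + (1 - z * muo L) / (z + 1)) =
        z * muo L + (z / (z + 1)) * (1 - z * muo L) := by ring
    rw [h2]
    nlinarith
  obtain ⟨C, hC, hcnt⟩ := b2b_cnt_le L hδ
  obtain ⟨c, hc⟩ : ∃ c : ℝ≥0, (c : ℝ) = C := ⟨⟨C, hC.le⟩, rfl⟩
  rw [gf_eq_cnt (t := true) (fun l hl => hl.1.1)]
  set r : ℝ≥0 := ⟨(z : ℝ) * (muo L + δ), by positivity⟩ with hr
  have hr1 : r < 1 := by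
    rw [← NNReal.coe_lt_coe]
    exact hδz
  have hle : ∀ n : ℕ, (cnt (Sw L.G q) n : ℝ≥0∞) * (z : ℝ≥0∞) ^ n ≤
      (c : ℝ≥0∞) * ((r : ℝ≥0) : ℝ≥0∞) ^ n := by
    intro n
    rw [cnt_eq L hq n]
    have h1 : ((cnt (Sw L.G L.o) n : ℝ≥0)) * z ^ n ≤ c * r ^ n := by
      rw [← NNReal.coe_le_coe]
      push_cast
      rw [hc]
      show (cnt (Sw L.G L.o) n : ℝ) * (z : ℝ) ^ n ≤ C * ((z : ℝ) * (muo L + δ)) ^ n
      rw [mul_pow]
      have h2 := mul_le_mul_of_nonneg_right (hcnt n) (show (0 : ℝ) ≤ (z : ℝ) ^ n by positivity)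
      calc _ ≤ _ := h2
        _ = _ := by ring
    exact_mod_cast h1
  have hsum : ∑' n : ℕ, (c : ℝ≥0∞) * ((r : ℝ≥0) : ℝ≥0∞) ^ n ≠ ⊤ := by
    rw [ENNReal.tsum_mul_left, ENNReal.tsum_geometric]
    refine ENNReal.mul_ne_top ENNReal.coe_ne_top ?_
    rw [ENNReal.inv_ne_top]
    rw [← ENNReal.coe_one, ← ENNReal.coe_sub]
    intro h
    rw [ENNReal.coe_eq_zero, tsub_eq_zero_iff_le] at h
    exact absurd hr1 (not_lt.2 h)
  exact ne_top_of_le_ne_top hsum (ENNReal.tsum_le_tsum hle)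

end Pool.Agent.RPL
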