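import Pool.Agent.RPL.B1
import Pool.Agent.ZHW.Basic

/-!
Module B3a: cobridges of the base class are products of letters in exactly one way.

PAPER PROOF. `CBo_zero`: `CB_zero` (ZHW/Basic: `CB t 0 = {[]}`), and `[]` satisfies all conditions. `CBo_append`: `CB_append` (`p i + p j = p (i + j)`), the walk
condition by `Wk_append` and `Wk_shift` (`u.sum = (p i, p b)`), the last condition by `fst/snd` of the sum. `CBo_split` (`u ∈ CBo i`, `u ++ v ∈ CBo d`, `Ri v`
gives `v ∈ CBo (d - i)`, `i ≤ d`): `CB_split`, `Wk_append`, `Wk_shift`. `exists_flat`: strong induction on `d`: if `d = 0` take `[]`. If `l` is irreducible take `[l]`. Otherwise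
`l = u ++ v` with `u ∈ CBo i`, `v ∈ CBo j`, both nonempty, so `i, j ≥ 1` (`CBo_zero`), `i + j = d` (widths; `p ≥ 1`), both `< d`, and use the induction
hypothesis. `flat_inj`: `flat` of a list of letters is in `CBo` (induction, `CBo_append`). Induction on `Y`: if `flat Y = flat Y'` with `Y = a :: Z`, `Y' = a' :: Z'` (an
empty list against a nonempty one is impossible, letters are nonempty because their width is `≥ p`), `a ++ flat Z = a' ++ flat Z'`, say
`a' = a ++ c` (or the reverse), `flat Z = c ++ flat Z'`. Then `a ∈ CBo (i + 1)`, `a' ∈ CBo (j + 1)`, `Ri c` (`c` is a prefix of the cobridge `flat Z`), so by `CBo_split`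
`c ∈ CBo (j - i)`, and the irreducibility of `a' = a ++ c` gives `c = []` (`a ≠ []`), so `a = a'`, `flat Z = flat Z'`.
-/

set_option autoImplicit false

namespace Pool.Agent.RPL

open Pool.Agent.SHP Pool.Agent.ZHW
open scoped ENNReal NNReal

theorem CBo_zero (L : Lat) : CBo L 0 = {[]} := by
  ext l
  constructor
  · rintro ⟨h, -, -⟩
    rwa [mul_zero, CB_zero] at h
  · intro h
    have hl : l = [] := h
    subst hl
    refine ⟨?_, Wk_nil _ _, 0, by simp⟩
    rw [mul_zero, CB_zero]
    rfl

private theorem B3a_sum {L : Lat} {i : ℕ} {u : Wd} (hu : u ∈ CBo L i) :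
    ∃ b : ℤ, u.sum = ((L.p : ℤ) * (i : ℤ), (L.p : ℤ) * b) := by
  obtain ⟨hu1, -, b, hb⟩ := hu
  refine ⟨b, ?_⟩
  ext
  · rw [hu1.2.2.2]
    push_cast
    rfl
  · exact hb

theorem CBo_append {L : Lat} {i j : ℕ} {u v : Wd} (hu : u ∈ CBo L i) (hv : v ∈ CBo L j) : u ++ v ∈ CBo L (i + j) := by
  obtain ⟨b, hb⟩ := B3a_sum hu
  obtain ⟨c, hc⟩ := B3a_sum hv
  refine ⟨?_, Wk_append.2 ⟨hu.2.1, ?_⟩, b + c, ?_⟩
  · rw [mul_add]
    exact CB_append hu.1 hv.1
  · rw [hb]
    exact (Wk_shift L (i : ℤ) b).2 hv.2.1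
  · rw [List.sum_append, hb, hc]
    simp only [Prod.snd_add]
    ring

theorem CBo_split {L : Lat} {d i : ℕ} {u v : Wd} (h : u ++ v ∈ CBo L d) (hu : u ∈ CBo L i) (hv : Ri v) :
    i ≤ d ∧ v ∈ CBo L (d - i) := by
  obtain ⟨h3, h4⟩ := CB_split h.1 rfl hu.1 hv
  obtain ⟨b, hb⟩ := B3a_sum hu
  obtain ⟨c, hc⟩ := h.2.2
  have hp := L.p1
  have hid : i ≤ d := Nat.le_of_mul_le_mul_left h3 (by omega)
  refine ⟨hid, ?_, ?_, c - b, ?_⟩
  · rw [Nat.mul_sub]
    exact h4
  · have h5 := (Wk_append.1 h.2.1).2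
    rw [hb, Wk_shift] at h5
    exact h5
  · rw [List.sum_append, hb] at hc
    simp only [Prod.snd_add] at hc
    linarith

/-- The width is determined by the word. -/
theorem CBo_width {L : Lat} {i j : ℕ} {l : Wd} (h : l ∈ CBo L i) (h' : l ∈ CBo L j) : i = j := by
  have h1 : ((L.p * i : ℕ) : ℤ) = ((L.p * j : ℕ) : ℤ) := by
    rw [← h.1.2.2.2, ← h'.1.2.2.2]
  have h2 : L.p * i = L.p * j := by exact_mod_cast h1
  have hp := L.p1
  exact Nat.eq_of_mul_eq_mul_left (by omega) h2

private theorem B3a_ne {L : Lat} {i : ℕ} {l : Wd} (h : l ∈ CBo L (i + 1)) : l ≠ [] := by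
  intro h0
  subst h0
  have h1 : ([] : Wd) ∈ CBo L 0 := by
    rw [CBo_zero]
    rfl
  have := CBo_width h h1
  omega

theorem Irr_ne {L : Lat} {l : Wd} (h : l ∈ Irr L) : l ≠ [] := by
  obtain ⟨d, hd⟩ := h.1
  exact B3a_ne hd

private theorem B3a_pos {L : Lat} {i : ℕ} {l : Wd} (h : l ∈ CBo L i) (hl : l ≠ []) : 1 ≤ i := by
  rcases Nat.eq_zero_or_pos i with h0 | h0
  · subst h0
    rw [CBo_zero] at h
    exact absurd h hl
  · exact h0

private theorem B3a_nil (L : Lat) : flat L [] = [] := rfl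

private theorem B3a_cons (L : Lat) (a : LT L) (Y : List (LT L)) : flat L (a :: Y) = a.val ++ flat L Y := rfl

theorem flat_append (L : Lat) (Y Z : List (LT L)) : flat L (Y ++ Z) = flat L Y ++ flat L Z := by
  induction Y with
  | nil => rfl
  | cons a Y ih => rw [List.cons_append, B3a_cons, B3a_cons, ih, List.append_assoc]

theorem exists_flat (L : Lat) {d : ℕ} {l : Wd} (h : l ∈ CBo L d) : ∃ Y : List (LT L), flat L Y = l := by
  induction d using Nat.strong_induction_on generalizing l with
  | _ d ih =>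
    rcases Nat.eq_zero_or_pos d with h0 | h0
    · subst h0
      rw [CBo_zero] at h
      have hl : l = [] := h
      exact ⟨[], by rw [hl]; rfl⟩
    · obtain ⟨e, rfl⟩ : ∃ e, d = e + 1 := ⟨d - 1, by omega⟩
      by_cases hI : l ∈ Irr L
      · refine ⟨[⟨l, hI⟩], ?_⟩
        rw [B3a_cons, B3a_nil, List.append_nil]
      · have h1 : ∃ (u v : Wd) (i j : ℕ), l = u ++ v ∧ u ∈ CBo L i ∧ v ∈ CBo L j ∧ u ≠ [] ∧ v ≠ [] := by
          by_contra hc
          apply hI
          refine ⟨⟨e, h⟩, fun u v i j hl hu hv => ?_⟩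
          by_contra hn
          rw [not_or] at hn
          exact hc ⟨u, v, i, j, hl, hu, hv, hn.1, hn.2⟩
        obtain ⟨u, v, i, j, hl, hu, hv, hun, hvn⟩ := h1
        have hi := B3a_pos hu hun
        have hj := B3a_pos hv hvn
        have hw : i + j = e + 1 := by
          refine CBo_width (CBo_append hu hv) ?_
          rw [← hl]
          exact h
        obtain ⟨Y, hY⟩ := ih i (by omega) hu
        obtain ⟨Z, hZ⟩ := ih j (by omega) hv
        exact ⟨Y ++ Z, by rw [flat_append, hY, hZ, hl]⟩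

/-- A letter has a positive width. -/
theorem Irr_width (L : Lat) {l : Wd} (h : l ∈ Irr L) : 1 ≤ (l.sum.1 / (L.p : ℤ)).toNat ∧
    l ∈ CBo L (l.sum.1 / (L.p : ℤ)).toNat := by
  obtain ⟨d, hd⟩ := h.1
  obtain ⟨b, hb⟩ := B3a_sum hd
  have hp : (L.p : ℤ) ≠ 0 := by
    have := L.p1
    omega
  have h1 : l.sum.1 / (L.p : ℤ) = ((d + 1 : ℕ) : ℤ) := by
    rw [hb]
    exact Int.mul_ediv_cancel_left _ hp
  rw [h1, Int.toNat_natCast]
  exact ⟨by omega, hd⟩

/-- The words of lists of letters are cobridges; the width is the sum of the widths of the letters. -/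
theorem flat_mem (L : Lat) (Y : List (LT L)) :
    flat L Y ∈ CBo L ((Y.map (fun a : LT L => (a.val.sum.1 / (L.p : ℤ)).toNat)).sum) := by
  induction Y with
  | nil =>
    rw [B3a_nil, List.map_nil, List.sum_nil, CBo_zero]
    rfl
  | cons a Y ih =>
    rw [B3a_cons, List.map_cons, List.sum_cons]
    exact CBo_append (Irr_width L a.property).2 ih

private theorem B3a_Ri (L : Lat) (Y : List (LT L)) : Ri (flat L Y) := (flat_mem L Y).1.2.1

private theorem B3a_Ri_pre {u v : Wd} (h : Ri (u ++ v)) : Ri u := by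
  intro a b hab
  exact h a (b ++ v) (by rw [hab, List.append_assoc])

private theorem B3a_key (L : Lat) {a a' c : Wd} (ha : a ∈ Irr L) (ha' : a' ∈ Irr L) (h : a' = a ++ c)
    (hc : Ri c) : c = [] := by
  obtain ⟨i, hi⟩ := ha.1
  obtain ⟨j, hj⟩ := ha'.1
  rw [h] at hj
  obtain ⟨-, h2⟩ := CBo_split hj hi hc
  rcases ha'.2 a c _ _ h hi h2 with h3 | h3
  · exact absurd h3 (Irr_ne ha)
  · exact h3

theorem flat_inj (L : Lat) : Function.Injective (flat L) := by
  intro Y
  induction Y with
  | nil =>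
    intro Y' h
    cases Y' with
    | nil => rfl
    | cons a' Z' =>
      exfalso
      rw [B3a_nil, B3a_cons] at h
      have h1 := h.symm
      rw [List.append_eq_nil_iff] at h1
      exact Irr_ne a'.property h1.1
  | cons a Z ih =>
    intro Y' h
    cases Y' with
    | nil =>
      exfalso
      rw [B3a_nil, B3a_cons, List.append_eq_nil_iff] at h
      exact Irr_ne a.property h.1
    | cons a' Z' =>
      rw [B3a_cons, B3a_cons] at h
      rcases List.append_eq_append_iff.1 h with ⟨c, hc, hc'⟩ | ⟨c, hc, hc'⟩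
      · have hR : Ri c := by
          have h1 := B3a_Ri L Z
          rw [hc'] at h1
          exact B3a_Ri_pre h1
        have hn := B3a_key L a.property a'.property hc hR
        subst hn
        rw [List.append_nil] at hc
        rw [List.nil_append] at hc'
        have h1 : a = a' := Subtype.ext hc.symm
        rw [h1, ih hc']
      · have hR : Ri c := by
          have h1 := B3a_Ri L Z'
          rw [hc'] at h1
          exact B3a_Ri_pre h1
        have hn := B3a_key L a'.property a.property hc hR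
        subst hn
        rw [List.append_nil] at hc
        rw [List.nil_append] at hc'
        have h1 : a = a' := Subtype.ext hc
        rw [h1, ih hc'.symm]

end Pool.Agent.RPL
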