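import Pool.Agent.RPL.B2b
import Pool.Agent.RPL.B3a

/-!
Module B3c: the letters have total mass at most one at the critical point.

PAPER PROOF. Write `m z = gf (Irr L) z`. For `z < zo L`: `m z ^ k ≤ gf (Sw L.G L.o) z < ∞` for every `k`: the map from `k`-tuples (lists of length `k`) of letters to
words, `Y ↦ flat L Y`, is injective (`flat_inj`) with values in `Sw L.G L.o` (`flat_mem`; a cobridge is self-avoiding, `CBo` contains the walk condition), and the weight is
multiplicative: `(∑' a, z ^ |a|) ^ k = ∑' Y : {Y : List (LT L) // Y.length = k}, z ^ |flat Y|`; compare ZHW/Beta (`Beta_pow`, `be_add`) or SHP/GfB (`gf_irrPow`), or by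
induction on `k` with sets `A k = {flat Y | |Y| = k}` : `m z * gf (A k) z ≤ gf (A (k + 1)) z` (`SHP.gf2_prod`, `SHP.gf2_le_gf_of_inj` with `(u, v) ↦ u ++ v`). So
`m z ≤ 1` (otherwise the powers are unbounded: `Beta_below`). Then `m (zo L) ≤ 1` by `gf_lsc` (SHP/GfB) as in `be_le_one`.
-/

set_option autoImplicit false

namespace Pool.Agent.RPL

open Pool.Agent.SHP Pool.Agent.ZHW
open scoped ENNReal NNReal

/-- The words of the lists of `k` letters. -/
private def B3cA (L : Lat) (k : ℕ) : Set Wd := {l | ∃ Y : List (LT L), Y.length = k ∧ flat L Y = l}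

private theorem B3c_cons (L : Lat) (a : LT L) (Y : List (LT L)) : flat L (a :: Y) = a.val ++ flat L Y := rfl

private theorem B3c_pow (L : Lat) (z : ℝ≥0) (k : ℕ) : gf (Irr L) z ^ k ≤ gf (B3cA L k) z := by
  induction k with
  | zero =>
    have h : B3cA L 0 = ({[]} : Set (List (ℤ × ℤ))) := by
      ext l
      constructor
      · rintro ⟨Y, hY, hl⟩
        have hY' : Y = [] := List.length_eq_zero_iff.1 hY
        subst hY'
        exact hl.symm
      · intro h
        have hl : l = [] := h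
        subst hl
        exact ⟨[], rfl, rfl⟩
    unfold gf
    rw [h, tsum_singleton (f := fun l : List (ℤ × ℤ) => (z : ℝ≥0∞) ^ l.length)]
    simp
  | succ k ih =>
    have h1 : gf (Irr L) z * gf (B3cA L k) z ≤ gf (B3cA L (k + 1)) z := by
      rw [← gf2_prod]
      refine gf2_le_gf_of_inj z (fun p => p.1 ++ p.2) ?_ ?_ ?_
      · rintro ⟨u, v⟩ ⟨hu, hv⟩
        have hu' : u ∈ Irr L := hu
        obtain ⟨Y, hY, hv'⟩ := hv
        have hv'' : flat L Y = v := hv'
        refine ⟨⟨u, hu'⟩ :: Y, by simp [hY], ?_⟩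
        rw [B3c_cons, hv'']
      · rintro ⟨u, v⟩ ⟨hu, hv⟩ ⟨u', v'⟩ ⟨hu', hv'⟩ h
        have hu1 : u ∈ Irr L := hu
        have hu2 : u' ∈ Irr L := hu'
        obtain ⟨Y, hY, hv1⟩ := hv
        obtain ⟨Y', hY', hv2⟩ := hv'
        have hv1' : flat L Y = v := hv1
        have hv2' : flat L Y' = v' := hv2
        have h1 : u ++ v = u' ++ v' := h
        have h2 : flat L (⟨u, hu1⟩ :: Y) = flat L (⟨u', hu2⟩ :: Y') := by
          rw [B3c_cons, B3c_cons, hv1', hv2']
          exact h1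
        have h3 := flat_inj L h2
        rw [List.cons.injEq] at h3
        have h4 : u = u' := congrArg Subtype.val h3.1
        rw [← hv1', ← hv2', h3.2, h4]
      · rintro ⟨u, v⟩ _
        show (u ++ v).length = _
        rw [List.length_append]
    calc gf (Irr L) z ^ (k + 1) = gf (Irr L) z * gf (Irr L) z ^ k := pow_succ' _ _
      _ ≤ gf (Irr L) z * gf (B3cA L k) z := by gcongr
      _ ≤ _ := h1

private theorem B3c_sub (L : Lat) (k : ℕ) : B3cA L k ⊆ Sw L.G L.o := by
  rintro l ⟨Y, -, rfl⟩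
  have h := flat_mem L Y
  exact ⟨h.1.1, h.2.1⟩

private theorem B3c_below (L : Lat) {z : ℝ≥0} (hz : z < zo L) : gf (Irr L) z ≤ 1 := by
  by_contra h
  have h1 : 1 < gf (Irr L) z := not_le.1 h
  have h2 : Filter.Tendsto (fun k : ℕ => gf (Irr L) z ^ k) Filter.atTop (nhds ⊤) :=
    ENNReal.tendsto_pow_atTop_nhds_top_iff.2 h1
  have h3 : gf (Sw L.G L.o) z < ⊤ := lt_top_iff_ne_top.2 (gf_Sw_ne_top L L.ho hz)
  obtain ⟨k, hk⟩ := (h2.eventually (lt_mem_nhds h3)).exists
  have h4 : gf (Irr L) z ^ k ≤ gf (Sw L.G L.o) z :=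
    (B3c_pow L z k).trans (gf_mono_set (B3c_sub L k) z)
  exact absurd hk (not_lt.2 h4)

theorem letters_le_one (L : Lat) : ∑' a : LT L, (zo L : ℝ≥0∞) ^ a.val.length ≤ 1 := by
  have e : ∑' a : LT L, (zo L : ℝ≥0∞) ^ a.val.length = gf (Irr L) (zo L) := rfl
  rw [e]
  by_contra h
  have h1 : 1 < gf (Irr L) (zo L) := not_le.1 h
  obtain ⟨z₀, h0, h2⟩ := gf_lsc (Irr L) (zo_pos L) h1
  obtain ⟨z, hz0, hz1⟩ := exists_between h0
  exact absurd (h2 z hz0 hz1) (not_lt.2 (B3c_below L hz1))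

end Pool.Agent.RPL
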