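import Pool.Agent.RPL.B3a

/-!
Module B3p: two letters of width one with different displacements.

PAPER PROOF. `L.far` from `o` to `o + (p, 0)` and to `o + (p, p)` (`Sup_shift`): words `l ∈ Sw L.G o`, `l.sum = (p, 0)` resp. `(p, p)`, all prefixes `≠ []` with positive width and all
suffixes `≠ []` with positive width. So `l ∈ CB true (p * 1)`, `l ∈ CBo L 1`. Irreducible: if `l = u ++ v`, `u ∈ CBo L i`, `v ∈ CBo L j` then `p i + p j = p`, so `i = 0` or
`j = 0`, and `CBo_zero`.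
-/

set_option autoImplicit false

namespace Pool.Agent.RPL

open Pool.Agent.SHP Pool.Agent.ZHW
open scoped ENNReal NNReal

private theorem b3p_letter (L : Lat) (b : ℤ) : ∃ a : LT L, a.val.sum = ((L.p : ℤ), (L.p : ℤ) * b) := by
  have hs : Sup L.G (L.o + ((L.p : ℤ) * 1, (L.p : ℤ) * b)) := (Sup_shift L 1 b).2 L.ho
  obtain ⟨l, hl, hsum, h1, h2⟩ := L.far L.o _ L.ho hs (by
    show L.o.1 + (L.p : ℤ) ≤ L.o.1 + (L.p : ℤ) * 1
    omega)
  have hls : l.sum = ((L.p : ℤ), (L.p : ℤ) * b) := by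
    have := add_left_cancel hsum
    rw [this, mul_one]
  have hp := L.p1
  have hCB : l ∈ CBo L (0 + 1) := by
    refine ⟨⟨hl.1, ?_, h2, ?_⟩, hl.2, b, ?_⟩
    · intro u v huv
      by_cases hu : u = []
      · rw [hu]
        simp
      · exact (h1 u v huv hu).le
    · rw [hls]
      simp
    · rw [hls]
  refine ⟨⟨l, ⟨0, hCB⟩, ?_⟩, hls⟩
  intro u v i j huv hu hv
  have e1 : u.sum.1 = ((L.p * i : ℕ) : ℤ) := hu.1.2.2.2
  have e2 : v.sum.1 = ((L.p * j : ℕ) : ℤ) := hv.1.2.2.2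
  have e3 : u.sum.1 + v.sum.1 = (L.p : ℤ) := by
    have h3 : l.sum = u.sum + v.sum := by rw [huv, List.sum_append]
    have h4 := congrArg Prod.fst h3
    rw [hls] at h4
    exact h4.symm
  rw [e1, e2] at e3
  have e4 : L.p * i + L.p * j = L.p := by exact_mod_cast e3
  have e5 : i + j = 1 := by
    have h5 : L.p * (i + j) = L.p * 1 := by rw [mul_add, mul_one]; exact e4
    exact Nat.eq_of_mul_eq_mul_left (by omega) h5
  have e6 : i = 0 ∨ j = 0 := by omega
  rcases e6 with h | h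
  · left
    rw [h, CBo_zero] at hu
    exact hu
  · right
    rw [h, CBo_zero] at hv
    exact hv

theorem two_letters (L : Lat) : ∃ a b : LT L, a.val.sum = ((L.p : ℤ), 0) ∧ b.val.sum = ((L.p : ℤ), (L.p : ℤ)) := by
  obtain ⟨a, ha⟩ := b3p_letter L 0
  obtain ⟨b, hb⟩ := b3p_letter L 1
  exact ⟨a, b, by rw [ha, mul_zero], by rw [hb, mul_one]⟩

end Pool.Agent.RPL
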