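import Pool.Agent.RPL.B3c
import Pool.Agent.RPL.B3p
import Pool.Agent.RPL.A0

/-!
Module B3d: the alphabet of the lattice and the code of a cobridge.
-/

set_option autoImplicit false

namespace Pool.Agent.RPL

open Pool.Agent.SHP Pool.Agent.ZHW
open scoped ENNReal NNReal

/-- The alphabet. -/
noncomputable abbrev alph (L : Lat) : Alph where
  ι := LT L
  w := fun a => (a.val.sum.1 / (L.p : ℤ)).toNat
  dl := fun a => a.val.sum.2
  ms := fun a => (zo L : ℝ≥0∞) ^ a.val.length
  w1 := fun a => (Irr_width L a.2).1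
  tot := letters_le_one L
  pos := by
    obtain ⟨a, b, ha, hb⟩ := two_letters L
    have hp : (0 : ℤ) < (L.p : ℤ) := by exact_mod_cast L.p1
    have hz : (zo L : ℝ≥0∞) ≠ 0 := by
      have := zo_pos L
      exact_mod_cast this.ne'
    refine ⟨a, b, ?_, ?_, ?_, pow_ne_zero _ hz, pow_ne_zero _ hz⟩
    · rw [ha]
      simp only [Int.ediv_self hp.ne']
      rfl
    · rw [hb]
      simp only [Int.ediv_self hp.ne']
      rfl
    · rw [ha, hb]
      exact hp.ne

open Classical in
/-- The list of letters of a cobridge of the base class. -/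
noncomputable def code (L : Lat) (l : Wd) : List (LT L) :=
  if h : ∃ Y : List (LT L), flat L Y = l then Classical.choose h else []

theorem flat_code (L : Lat) {d : ℕ} {l : Wd} (h : l ∈ CBo L d) : flat L (code L l) = l := by
  have h1 := exists_flat L h
  unfold code
  rw [dif_pos h1]
  exact Classical.choose_spec h1

theorem code_flat (L : Lat) (Y : List (LT L)) : code L (flat L Y) = Y :=
  flat_inj L (flat_code L (flat_mem L Y))

theorem flat_wd (L : Lat) (Y : List (LT L)) : flat L Y ∈ CBo L (wd (alph L) Y) := flat_mem L Y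

theorem wd_code (L : Lat) {d : ℕ} {l : Wd} (h : l ∈ CBo L d) : wd (alph L) (code L l) = d := by
  have h1 := flat_wd L (code L l)
  rw [flat_code L h] at h1
  exact CBo_width h1 h

theorem ds_flat (L : Lat) (Y : List (LT L)) : ds (alph L) Y = (flat L Y).sum.2 := by
  induction Y with
  | nil => rfl
  | cons a Y ih =>
    have h1 : ds (alph L) (a :: Y) = a.val.sum.2 + ds (alph L) Y := rfl
    have h2 : flat L (a :: Y) = a.val ++ flat L Y := rfl
    rw [h1, h2, ih, List.sum_append]
    rfl

theorem mm_flat (L : Lat) (Y : List (LT L)) : mm (alph L) Y = (zo L : ℝ≥0∞) ^ (flat L Y).length := by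
  induction Y with
  | nil =>
    show (1 : ℝ≥0∞) = (zo L : ℝ≥0∞) ^ ([] : Wd).length
    simp
  | cons a Y ih =>
    have h1 : mm (alph L) (a :: Y) = (zo L : ℝ≥0∞) ^ a.val.length * mm (alph L) Y := by
      show ((a :: Y).map (alph L).ms).prod = _
      rw [List.map_cons, List.prod_cons]
      rfl
    have h2 : flat L (a :: Y) = a.val ++ flat L Y := rfl
    rw [h1, h2, ih, List.length_append, pow_add]

theorem mm_code (L : Lat) {d : ℕ} {l : Wd} (h : l ∈ CBo L d) : mm (alph L) (code L l) = (zo L : ℝ≥0∞) ^ l.length := by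
  rw [mm_flat, flat_code L h]

/-- The code of the strand `w` from `q`. -/
noncomputable def cd (L : Lat) (q : ℤ × ℤ) (w : Wd) : List (LT L) := code L (hat L q w)

/-- A level of a code is a cut of the word. -/
theorem At_flat (L : Lat) {P : List (LT L)} {i : ℕ} {x : ℤ} (h : At (alph L) P i x) : ∃ u v : Wd, flat L P = u ++ v ∧
    u ∈ CBo L i ∧ (∃ j, v ∈ CBo L j ∧ i + j = wd (alph L) P) ∧ u.sum.2 = x := by
  obtain ⟨u, v, e, hi, hx⟩ := h
  refine ⟨flat L u, flat L v, by rw [e, flat_append], ?_, ⟨wd (alph L) v, flat_wd L v, ?_⟩, ?_⟩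
  · rw [← hi]; exact flat_wd L u
  · rw [← hi, e]
    unfold wd
    rw [List.map_append, List.sum_append]
  · rw [← ds_flat, hx]

/-- A level of the reversed code, seen from the other end. -/
theorem At_rev (L : Lat) {P : List (LT L)} {i : ℕ} {x : ℤ} (h : At (alph L) P.reverse i x) : ∃ u v : Wd, flat L P = u ++ v ∧
    v ∈ CBo L i ∧ (∃ j, u ∈ CBo L j ∧ i + j = wd (alph L) P) ∧ v.sum.2 = x := by
  obtain ⟨u, v, e, hi, hx⟩ := h
  have hw : ∀ Z : List (LT L), wd (alph L) Z.reverse = wd (alph L) Z := by
    intro Z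
    unfold wd
    rw [List.map_reverse, List.sum_reverse]
  have hd : ∀ Z : List (LT L), ds (alph L) Z.reverse = ds (alph L) Z := by
    intro Z
    unfold ds
    rw [List.map_reverse, List.sum_reverse]
  have e' : P = v.reverse ++ u.reverse := by
    rw [← List.reverse_append, ← e, List.reverse_reverse]
  refine ⟨flat L v.reverse, flat L u.reverse, by rw [← flat_append, ← e'], ?_, ⟨wd (alph L) v.reverse, flat_wd L _, ?_⟩, ?_⟩
  · have := flat_wd L u.reverse
    rwa [hw, hi] at this
  · rw [hw, ← hi, ← hw P, e]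
    unfold wd
    rw [List.map_append, List.sum_append]
  · rw [← ds_flat, hd, hx]

end Pool.Agent.RPL
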