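import Pool.Agent.RPL.B1

/-!
Module B4a: the end words `al`, `br`.

PAPER PROOF. Unfold `al`; the three conditions of the `dif_pos` hold: `o + (-p, 0)` is a vertex (`Sup_shift` with `(-1, 0)` from `L.ho`), `o + ty q` is a vertex
(`Sup_congr`, `ty_rep`), and `(o + (-p, 0)).1 + p = o.1 ≤ (o + ty q).1` (`ty_range`). Then `Classical.choose_spec` of `L.far`: `al L q ∈ Sw L.G (o + (-p, 0))` with end `o + ty q`,
so the sum is `ty q + (p, 0)`, and the two strictness conditions are those of `L.far`. `o + (-p, 0)` has the residue of `o` (`Sw_congr`, `ty_shift`). `br` the same: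
`(o + ty q).1 + p ≤ (o + (2 p, 0)).1` as `(ty q).1 < p`. `_ty`: both only depend on `ty L q` (unfold and rewrite). `Bo`: the residues are finitely many.
-/

set_option autoImplicit false

namespace Pool.Agent.RPL

open Pool.Agent.SHP Pool.Agent.ZHW
open scoped ENNReal NNReal

theorem al_spec (L : Lat) {q : ℤ × ℤ} (hq : Sup L.G q) : al L q ∈ Sw L.G L.o ∧
    (al L q).sum = ((ty L q).1 + L.p, (ty L q).2) ∧
    (∀ a b : Wd, al L q = a ++ b → a ≠ [] → 0 < a.sum.1) ∧ (∀ a b : Wd, al L q = a ++ b → b ≠ [] → 0 < b.sum.1) := by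
  have e0 : ((L.p : ℤ) * (-1), (L.p : ℤ) * 0) = (-(L.p : ℤ), (0 : ℤ)) := by simp
  have h1 : Sup L.G (L.o + (-(L.p : ℤ), 0)) := by
    have := (Sup_shift L (-1) 0 (q := L.o)).2 L.ho
    rwa [e0] at this
  have h2 : Sup L.G (L.o + ty L q) := (Sup_congr L (ty_rep L q)).2 hq
  have h3 : (L.o + (-(L.p : ℤ), 0)).1 + L.p ≤ (L.o + ty L q).1 := by
    have := (ty_range L q).1
    simp only [Prod.fst_add]
    linarith
  have e : al L q = Classical.choose (L.far _ _ h1 h2 h3) := dif_pos ⟨h1, h2, h3⟩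
  obtain ⟨k1, k2, k3, k4⟩ := Classical.choose_spec (L.far _ _ h1 h2 h3)
  rw [← e] at k1 k2 k3 k4
  refine ⟨?_, ?_, k3, k4⟩
  · have e2 : ty L (L.o + (-(L.p : ℤ), 0)) = ty L L.o := by
      have := ty_shift L (-1) 0 L.o
      rwa [e0] at this
    rw [Sw_congr L e2] at k1
    exact k1
  · have k5 := congrArg Prod.fst k2
    have k6 := congrArg Prod.snd k2
    simp only [Prod.fst_add, Prod.snd_add] at k5 k6
    refine Prod.ext ?_ ?_
    · show (al L q).sum.1 = (ty L q).1 + L.p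
      linarith
    · show (al L q).sum.2 = (ty L q).2
      linarith

theorem br_spec (L : Lat) {q : ℤ × ℤ} (hq : Sup L.G q) : br L q ∈ Sw L.G q ∧
    (br L q).sum = (2 * (L.p : ℤ) - (ty L q).1, - (ty L q).2) ∧
    (∀ a b : Wd, br L q = a ++ b → a ≠ [] → 0 < a.sum.1) ∧ (∀ a b : Wd, br L q = a ++ b → b ≠ [] → 0 < b.sum.1) := by
  have e0 : ((L.p : ℤ) * 2, (L.p : ℤ) * 0) = (2 * (L.p : ℤ), (0 : ℤ)) := by
    rw [mul_zero, mul_comm]
  have h1 : Sup L.G (L.o + (2 * (L.p : ℤ), 0)) := by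
    have := (Sup_shift L 2 0 (q := L.o)).2 L.ho
    rwa [e0] at this
  have h2 : Sup L.G (L.o + ty L q) := (Sup_congr L (ty_rep L q)).2 hq
  have h3 : (L.o + ty L q).1 + L.p ≤ (L.o + (2 * (L.p : ℤ), 0)).1 := by
    have := (ty_range L q).2.1
    simp only [Prod.fst_add]
    linarith
  have e : br L q = Classical.choose (L.far _ _ h2 h1 h3) := dif_pos ⟨h2, h1, h3⟩
  obtain ⟨k1, k2, k3, k4⟩ := Classical.choose_spec (L.far _ _ h2 h1 h3)
  rw [← e] at k1 k2 k3 k4
  refine ⟨?_, ?_, k3, k4⟩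
  · rw [Sw_congr L (ty_rep L q)] at k1
    exact k1
  · have k5 := congrArg Prod.fst k2
    have k6 := congrArg Prod.snd k2
    simp only [Prod.fst_add, Prod.snd_add] at k5 k6
    refine Prod.ext ?_ ?_
    · show (br L q).sum.1 = 2 * (L.p : ℤ) - (ty L q).1
      linarith
    · show (br L q).sum.2 = - (ty L q).2
      linarith

open Classical in
/-- `al` as a function of the residue. -/
noncomputable def b4aL (L : Lat) (t : ℤ × ℤ) : Wd :=
  if h : Sup L.G (L.o + (-(L.p : ℤ), 0)) ∧ Sup L.G (L.o + t) ∧ (L.o + (-(L.p : ℤ), 0)).1 + L.p ≤ (L.o + t).1 then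
    Classical.choose (L.far _ _ h.1 h.2.1 h.2.2) else []

open Classical in
/-- `br` as a function of the residue. -/
noncomputable def b4aR (L : Lat) (t : ℤ × ℤ) : Wd :=
  if h : Sup L.G (L.o + t) ∧ Sup L.G (L.o + (2 * (L.p : ℤ), 0)) ∧ (L.o + t).1 + L.p ≤ (L.o + (2 * (L.p : ℤ), 0)).1 then
    Classical.choose (L.far _ _ h.1 h.2.1 h.2.2) else []

theorem al_ty (L : Lat) {q q' : ℤ × ℤ} (h : ty L q = ty L q') : al L q = al L q' := by
  have e : ∀ q, al L q = b4aL L (ty L q) := fun _ => rfl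
  rw [e, e, h]

theorem br_ty (L : Lat) {q q' : ℤ × ℤ} (h : ty L q = ty L q') : br L q = br L q' := by
  have e : ∀ q, br L q = b4aR L (ty L q) := fun _ => rfl
  rw [e, e, h]

/-- A bound for the lengths of the end words. -/
noncomputable def Bo (L : Lat) : ℕ :=
  ∑ a ∈ Finset.range L.p, ∑ b ∈ Finset.range L.p,
    ((al L (L.o + ((a : ℤ), (b : ℤ)))).length + (br L (L.o + ((a : ℤ), (b : ℤ)))).length)

theorem b4a_le (L : Lat) (q : ℤ × ℤ) : (al L q).length + (br L q).length ≤ Bo L := by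
  obtain ⟨r1, r2, r3, r4⟩ := ty_range L q
  obtain ⟨a, ha⟩ := Int.eq_ofNat_of_zero_le r1
  obtain ⟨b, hb⟩ := Int.eq_ofNat_of_zero_le r3
  have ea : a < L.p := by
    rw [ha] at r2
    exact_mod_cast r2
  have eb : b < L.p := by
    rw [hb] at r4
    exact_mod_cast r4
  have e : ty L q = ((a : ℤ), (b : ℤ)) := Prod.ext ha hb
  have h1 := ty_rep L q
  rw [al_ty L h1.symm, br_ty L h1.symm, e]
  unfold Bo
  refine le_trans ?_ (Finset.single_le_sum (f := fun a : ℕ => ∑ b ∈ Finset.range L.p,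
    ((al L (L.o + ((a : ℤ), (b : ℤ)))).length + (br L (L.o + ((a : ℤ), (b : ℤ)))).length))
    (fun _ _ => Nat.zero_le _) (Finset.mem_range.2 ea))
  exact Finset.single_le_sum (f := fun b : ℕ =>
    ((al L (L.o + ((a : ℤ), (b : ℤ)))).length + (br L (L.o + ((a : ℤ), (b : ℤ)))).length))
    (fun _ _ => Nat.zero_le _) (Finset.mem_range.2 eb)

theorem al_le (L : Lat) (q : ℤ × ℤ) : (al L q).length ≤ Bo L :=
  le_trans (Nat.le_add_right _ _) (b4a_le L q)

theorem br_le (L : Lat) (q : ℤ × ℤ) : (br L q).length ≤ Bo L :=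
  le_trans (Nat.le_add_left _ _) (b4a_le L q)

end Pool.Agent.RPL
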