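import Pool.Agent.RPL.B3d
import Pool.Agent.RPL.B4a

/-!
Module B4b: widths and indices of the extended strands.

PAPER PROOF. Let `q' = q + w.sum`, `w.sum.1 ≥ 0`. `wm_eq`: `lv` is monotone in the first coordinate (`Int.ediv_le_ediv`), so the `toNat` is of a number `≥ 3`. `wm_le`:
`lv L (q + s) ≤ lv L q + s.1` for `s.1 ≥ 0` (`p ≥ 1`). `ix_div`: by `lv_ty` for `q` and `q'`, `w.sum.1 = p (lv q' - lv q) + δ`, `δ = (ty q').1 - (ty q).1`, `-p < δ < p` (`ty_range`), so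
`p * wm + w.sum.1 + 4 p = 2 p * wm + (p + δ)` with `0 < p + δ < 2 p`. `ix_lt_*`: `wm` is weakly increasing (`lv` monotone), `w.sum.1` strictly.
-/

set_option autoImplicit false

namespace Pool.Agent.RPL

open Pool.Agent.SHP Pool.Agent.ZHW
open scoped ENNReal NNReal

private theorem b4b_p (L : Lat) : (0 : ℤ) < L.p := by
  have := L.p1
  omega

private theorem b4b_lv (L : Lat) {q q' : ℤ × ℤ} (h : q.1 ≤ q'.1) : lv L q ≤ lv L q' := by
  unfold lv
  exact Int.ediv_le_ediv (b4b_p L) (by linarith)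

private theorem b4b_add (q s : ℤ × ℤ) : (q + s).1 = q.1 + s.1 := rfl

theorem wm_eq (L : Lat) {q : ℤ × ℤ} {w : Wd} (h : 0 ≤ w.sum.1) : ((wm L q w : ℕ) : ℤ) = lv L (q + w.sum) - lv L q + 3 := by
  have h1 := b4b_lv L (q := q) (q' := q + w.sum) (by rw [b4b_add]; linarith)
  unfold wm
  rw [Int.toNat_of_nonneg (by linarith)]

theorem wm_ge (L : Lat) {q : ℤ × ℤ} {w : Wd} (h : 0 ≤ w.sum.1) : 3 ≤ wm L q w := by
  have h1 := b4b_lv L (q := q) (q' := q + w.sum) (by rw [b4b_add]; linarith)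
  have h2 := wm_eq L (q := q) h
  omega

private theorem b4b_sum (L : Lat) {q : ℤ × ℤ} {w : Wd} (h : 0 ≤ w.sum.1) :
    w.sum.1 = (L.p : ℤ) * ((wm L q w : ℕ) : ℤ) - 3 * L.p + (ty L (q + w.sum)).1 - (ty L q).1 := by
  have h1 := lv_ty L q
  have h2 := lv_ty L (q + w.sum)
  rw [b4b_add] at h2
  rw [wm_eq L h]
  have h3 : (L.p : ℤ) * (lv L (q + w.sum) - lv L q + 3) =
      (L.p : ℤ) * lv L (q + w.sum) - (L.p : ℤ) * lv L q + 3 * L.p := by ring
  rw [h3]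
  linarith

theorem wm_le (L : Lat) {q : ℤ × ℤ} {w : Wd} (h : 0 ≤ w.sum.1) : ((wm L q w : ℕ) : ℤ) ≤ w.sum.1 + 3 := by
  have hp := b4b_p L
  rw [wm_eq L h]
  have h1 : lv L (q + w.sum) ≤ lv L q + w.sum.1 := by
    unfold lv
    rw [b4b_add]
    have h2 : q.1 + w.sum.1 - L.o.1 ≤ (q.1 - L.o.1) + w.sum.1 * (L.p : ℤ) := by
      have : w.sum.1 ≤ w.sum.1 * (L.p : ℤ) := le_mul_of_one_le_right h (by omega)
      linarith
    calc (q.1 + w.sum.1 - L.o.1) / (L.p : ℤ) ≤ ((q.1 - L.o.1) + w.sum.1 * (L.p : ℤ)) / (L.p : ℤ) :=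
          Int.ediv_le_ediv hp h2
      _ = (q.1 - L.o.1) / (L.p : ℤ) + w.sum.1 := Int.add_mul_ediv_right _ _ hp.ne'
  linarith

/-- The width of the extended strand. -/
theorem wm_width (L : Lat) {q : ℤ × ℤ} {w : Wd} (hq : Sup L.G q) (hw : Wk L.G q w) (h : 0 ≤ w.sum.1) :
    (L.p : ℤ) * (wm L q w : ℤ) = (al L q).sum.1 + w.sum.1 + (br L (q + w.sum)).sum.1 := by
  have h1 := congrArg Prod.fst (al_spec L hq).2.1
  have h2 := congrArg Prod.fst (br_spec L (Sup_end hq hw)).2.1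
  have h3 := b4b_sum L (q := q) h
  simp only at h1 h2
  rw [h1, h2]
  linarith

private theorem b4b_ix (L : Lat) {q : ℤ × ℤ} {w : Wd} (h : 0 ≤ w.sum.1) :
    ((ix L q w : ℕ) : ℤ) = (L.p : ℤ) * ((wm L q w : ℕ) : ℤ) + w.sum.1 + 4 * L.p := by
  have hp := b4b_p L
  unfold ix
  rw [Int.toNat_of_nonneg (by positivity)]

theorem ix_div (L : Lat) {q : ℤ × ℤ} {w : Wd} (h : 0 ≤ w.sum.1) : ix L q w / (2 * L.p) = wm L q w := by
  have hp := b4b_p L
  have h1 := b4b_ix L (q := q) h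
  have h2 := b4b_sum L (q := q) h
  obtain ⟨r1, r2, -, -⟩ := ty_range L q
  obtain ⟨s1, s2, -, -⟩ := ty_range L (q + w.sum)
  have h3 : ((ix L q w : ℕ) : ℤ) = (2 * (L.p : ℤ)) * ((wm L q w : ℕ) : ℤ) +
      (L.p + ((ty L (q + w.sum)).1 - (ty L q).1)) := by
    have e : (2 * (L.p : ℤ)) * ((wm L q w : ℕ) : ℤ) = (L.p : ℤ) * ((wm L q w : ℕ) : ℤ) +
      (L.p : ℤ) * ((wm L q w : ℕ) : ℤ) := by ring
    rw [e]
    linarith
  rw [Nat.div_eq_iff (by omega)]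
  have e1 : ((wm L q w * (2 * L.p) : ℕ) : ℤ) = (2 * (L.p : ℤ)) * ((wm L q w : ℕ) : ℤ) := by
    push_cast
    ring
  constructor
  · zify
    push_cast at e1
    rw [e1]
    linarith
  · have : ((ix L q w : ℕ) : ℤ) < ((wm L q w * (2 * L.p) : ℕ) : ℤ) + 2 * L.p := by
      rw [e1]
      linarith
    have h4 : ix L q w < wm L q w * (2 * L.p) + 2 * L.p := by exact_mod_cast this
    omega

theorem ix_lt_left (L : Lat) {q : ℤ × ℤ} {w w' : Wd} (h0 : 0 ≤ w.sum.1) (h : w.sum.1 < w'.sum.1) : ix L q w < ix L q w' := by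
  have hp := b4b_p L
  have h1 := b4b_lv L (q := q + w.sum) (q' := q + w'.sum) (by rw [b4b_add, b4b_add]; linarith)
  have h2 := wm_eq L (q := q) h0
  have h3 := wm_eq L (q := q) (w := w') (by linarith)
  have h4 := b4b_ix L (q := q) h0
  have h5 := b4b_ix L (q := q) (w := w') (by linarith)
  have h6 : ((wm L q w : ℕ) : ℤ) ≤ ((wm L q w' : ℕ) : ℤ) := by linarith
  have h7 := mul_le_mul_of_nonneg_left h6 hp.le
  have h8 : ((ix L q w : ℕ) : ℤ) < ((ix L q w' : ℕ) : ℤ) := by linarith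
  exact_mod_cast h8

theorem ix_lt_right (L : Lat) {q q' : ℤ × ℤ} {w w' : Wd} (h0 : 0 ≤ w.sum.1) (h : w.sum.1 < w'.sum.1)
    (he : q + w.sum = q' + w'.sum) : ix L q w < ix L q' w' := by
  have hp := b4b_p L
  have he1 := congrArg Prod.fst he
  rw [b4b_add, b4b_add] at he1
  have h1 := b4b_lv L (q := q') (q' := q) (by linarith)
  have h2 := wm_eq L (q := q) h0
  have h3 := wm_eq L (q := q') (w := w') (by linarith)
  have h4 := b4b_ix L (q := q) h0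
  have h5 := b4b_ix L (q := q') (w := w') (by linarith)
  rw [he] at h2
  have h6 : ((wm L q w : ℕ) : ℤ) ≤ ((wm L q' w' : ℕ) : ℤ) := by linarith
  have h7 := mul_le_mul_of_nonneg_left h6 hp.le
  have h8 : ((ix L q w : ℕ) : ℤ) < ((ix L q' w' : ℕ) : ℤ) := by linarith
  exact_mod_cast h8

end Pool.Agent.RPL
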