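import Pool.Agent.RPL.B4b
import Pool.Agent.ZHW.Basic

/-!
Module B4c: the extended strand `hat L q w` is a cobridge of the base class of width `p * wm`.

PAPER PROOF. `hat_mem`: with `A = al L q`, `B = br L q'` (`al_spec`, `br_spec`; `q'` is a vertex, `Sup_end`): the word `A ++ (w ++ B)` is a walk of `G` from `o + (-p, 0) + ...`: `A` is a walk from `o`
(residue) to `o + A.sum`, whose residue is that of `q` (`A.sum = ty q + (p, 0)`; `Wk_append`, `Wk_congr`), then `w` from `q`, then `B` from `q'`. Width
`(ty q).1 + p + w.sum.1 + 2 p - (ty q').1 = p * wm`; second coordinate `(ty q).2 + w.sum.2 - (ty q').2` is a multiple of `p` (`snd_ty` for `q` and `q'`). `Ri`: prefixes of `A` (weakly right of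
the start by the third item of `al_spec`), then `A ++ a`, `a` a prefix of `w` (`Ri w`, `A.sum.1 ≥ p > 0`), then `A ++ w ++ b`. Strictness at the end: nonempty suffixes of `B`: positive; `c ++ B`
with `c` a suffix of `w` (`c.sum.1 ≥ 0` by `WB`, `B.sum.1 > p`); `d ++ w ++ B`. Self-avoiding: the steps are fine; a nonempty block `v` with sum zero lies neither inside `A`, nor
inside `w`, nor inside `B`; if it starts strictly before the end of `A` and ends after it (in `A`: no) then its start is strictly to the left of the end of `A` (fourth item of `al_spec`: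
`0 < b.sum.1` for nonempty suffixes `b`) and its end weakly to the right: so `v.sum.1 > 0`; similarly if it ends strictly inside `B` (third item of `br_spec`) and starts before `B`. Library
lemmas for the append of such words: `Basic_saws_app` (private in ZHW/Basic, copy it), `CB_append`, `CB_WB_append` (`A ∈ CB true _`, so `A ++ w ∈ WB true _`), then
`(A ++ w) ++ B` from `A ++ w ∈ WB`, `B` a word with all prefixes strictly right.
-/

set_option autoImplicit false

namespace Pool.Agent.RPL

open Pool.Agent.SHP Pool.Agent.ZHW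
open scoped ENNReal NNReal

private theorem b4c_saws_app {u v : Wd} (hu : u ∈ saws true) (hv : v ∈ saws true)
    (h : ∀ a b c d : Wd, u = a ++ b → b ≠ [] → v = c ++ d → 0 < b.sum.1 + c.sum.1 ∨ c = []) :
    u ++ v ∈ saws true := by
  refine ⟨fun s hs => ?_, fun a b c he hb => ?_⟩
  · rcases List.mem_append.1 hs with hs | hs
    · exact hu.1 s hs
    · exact hv.1 s hs
  · rcases List.append_eq_append_iff.1 he with ⟨d, hd, hd'⟩ | ⟨d, hd, hd'⟩
    · exact hv.2 d b c hd' hb
    · rcases List.append_eq_append_iff.1 hd' with ⟨x, hx, hx'⟩ | ⟨x, hx, hx'⟩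
      · exact hu.2 a b x (by rw [hd, hx]) hb
      · by_cases hdn : d = []
        · subst hdn
          refine hv.2 [] b c ?_ hb
          rw [hx', hx]
          simp
        · rcases h a d x c hd hdn hx' with h1 | h1
          · exfalso
            have h3 : b.sum.1 = d.sum.1 + x.sum.1 := by rw [hx, fst_sum_append]
            rw [hb] at h3
            simp only [Prod.fst_zero] at h3
            omega
          · subst h1
            refine hu.2 a b [] ?_ hb
            rw [hd, hx]
            simp

/-- A weak bridge followed by a word whose nonempty initial and final parts go strictly to the right. -/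
private theorem b4c_app {u v : Wd} {m n : ℕ} (hu : u ∈ WB true m) (hv : v ∈ saws true) (hn : v.sum.1 = (n : ℤ))
    (h0 : 0 < n) (h1 : ∀ a b : Wd, v = a ++ b → a ≠ [] → 0 < a.sum.1)
    (h2 : ∀ a b : Wd, v = a ++ b → b ≠ [] → 0 < b.sum.1) : u ++ v ∈ CB true (m + n) := by
  refine ⟨b4c_saws_app hu.1 hv ?_, ?_, ?_, ?_⟩
  · intro a b c d hab _ hcd
    by_cases hc : c = []
    · right
      exact hc
    · left
      have e1 := hu.2.2.1 a b hab
      have e2 := h1 c d hcd hc
      omega
  · intro a b he
    rcases List.append_eq_append_iff.1 he with ⟨d, hd, hd'⟩ | ⟨d, hd, hd'⟩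
    · rw [hd, fst_sum_append, hu.2.2.2]
      by_cases hd0 : d = []
      · subst hd0
        simp
      · have := h1 d b hd' hd0
        omega
    · exact hu.2.1 a d hd
  · intro a b he hb
    rcases List.append_eq_append_iff.1 he with ⟨d, hd, hd'⟩ | ⟨d, hd, hd'⟩
    · exact h2 d b hd' hb
    · rw [hd', fst_sum_append, hn]
      have := hu.2.2.1 a d hd
      omega
  · rw [fst_sum_append, hu.2.2.2, hn]
    push_cast
    ring

theorem hat_mem (L : Lat) {q : ℤ × ℤ} {w : Wd} {k : ℕ} (hq : Sup L.G q) (hw : w ∈ Sw L.G q) (hk : w ∈ WB true k) :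
    hat L q w ∈ CBo L (wm L q w) := by
  have hw0 : 0 ≤ w.sum.1 := by
    rw [hk.2.2.2]
    positivity
  have hq' : Sup L.G (q + w.sum) := Sup_end hq hw.2
  obtain ⟨a1, a2, a3, a4⟩ := al_spec L hq
  obtain ⟨c1, c2, c3, c4⟩ := br_spec L hq'
  have hp := L.p1
  have r1 := ty_range L q
  have r2 := ty_range L (q + w.sum)
  obtain ⟨a, ha⟩ : ∃ a : ℕ, (al L q).sum.1 = (a : ℤ) := by
    refine ⟨((ty L q).1 + L.p).toNat, ?_⟩
    rw [a2]
    simp only
    omega
  obtain ⟨b, hb⟩ : ∃ b : ℕ, (br L (q + w.sum)).sum.1 = (b : ℤ) := by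
    refine ⟨(2 * (L.p : ℤ) - (ty L (q + w.sum)).1).toNat, ?_⟩
    rw [c2]
    simp only
    omega
  have hb0 : 0 < b := by
    have e1 := congrArg Prod.fst c2
    simp only [hb] at e1
    omega
  have hA : al L q ∈ CB true a := by
    refine ⟨a1.1, ?_, a4, ha⟩
    intro u v huv
    by_cases hu : u = []
    · subst hu
      simp
    · exact (a3 u v huv hu).le
  have h1 : (al L q ++ w) ++ br L (q + w.sum) ∈ CB true (a + k + b) :=
    b4c_app (CB_WB_append hA hk) c1.1 hb hb0 c3 c4
  rw [List.append_assoc] at h1
  have hwid : a + k + b = L.p * wm L q w := by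
    have e1 := wm_width L hq hw.2 hw0
    rw [ha, hb, hk.2.2.2] at e1
    have e2 : ((L.p * wm L q w : ℕ) : ℤ) = ((a + k + b : ℕ) : ℤ) := by
      push_cast
      exact e1
    exact_mod_cast e2.symm
  rw [hwid] at h1
  refine ⟨h1, ?_, ?_⟩
  · show Wk L.G L.o (al L q ++ (w ++ br L (q + w.sum)))
    rw [Wk_append]
    refine ⟨a1.2, ?_⟩
    have e1 : L.o + (al L q).sum = L.o + ty L q + ((L.p : ℤ) * 1, (L.p : ℤ) * 0) := by
      rw [a2]
      ext
      · simp only [Prod.fst_add]
        ring
      · simp only [Prod.snd_add]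
        ring
    have e2 : ty L (L.o + (al L q).sum) = ty L q := by
      rw [e1, ty_shift, ty_rep]
    rw [Wk_congr L e2, Wk_append]
    exact ⟨hw.2, c1.2⟩
  · obtain ⟨b1, hb1⟩ := snd_ty L q
    obtain ⟨b2, hb2⟩ := snd_ty L (q + w.sum)
    refine ⟨b2 - b1, ?_⟩
    show (al L q ++ (w ++ br L (q + w.sum))).sum.2 = _
    rw [List.sum_append, List.sum_append, a2, c2]
    simp only [Prod.snd_add] at hb2 ⊢
    linear_combination hb2 - hb1

end Pool.Agent.RPL
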