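import Pool.Agent.RPL.B4c
import Pool.Agent.ZHW.Flip

/-!
Module B5: the levels of the code of a strand (here `At_unique`, `lev_lo`, `lev_lo1`; the right end is B5h).

PAPER PROOF. Let `H = hat L q w = A ++ (w ++ B)`, `A = al L q`, `B = br L q'`, `q' = q + w.sum` (a vertex, `Sup_end`), `H ∈ CBo L (wm L q w)` (`hat_mem`), `flat L (cd L q w) = H` (`flat_code`),
`wd (cd L q w) = wm` (`wd_code`), `p ≤ A.sum.1 < 2 p`, `p < B.sum.1 ≤ 2 p` (`al_spec`, `br_spec`, `ty_range`), `p * wm = A.sum.1 + w.sum.1 + B.sum.1` (`wm_width`).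
`At_unique`: two prefixes `u`, `u'` of the list `P` of the same width are equal: one is a prefix of the other, and the rest has width `0`, so it is empty (`A.w1`).
LEFT END. `At (cd L q w) i x` gives (`At_flat`) `H = u ++ v`, `u ∈ CBo L i`, `v ∈ CBo L j`, `i + j = wm`, `x = u.sum.2`; so `u.sum.1 = p i`, all vertices of `u` before its end are strictly to the
left of its end, and `v` is weakly to the right (`Ri v`).
`lev_lo` (`2 ≤ i ≤ wm - 2`): the column `p i` is `> A.sum.1` and `p i = p wm - p j ≤ p wm - 2 p ≤ A.sum.1 + w.sum.1`. By `List.append_eq_append_iff` for `A ++ (w ++ B) = u ++ v`: `u` is not a prefix of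
`A` (`A = u ++ c` gives `A.sum.1 = p i + c.sum.1 ≥ p i` if `Ri c`, and `c` is a prefix of `v`), so `u = A ++ a'`, `w ++ B = a' ++ v`; `a'` is a prefix of `w`, otherwise `a' = w ++ b'`, `b' ≠ []`, a nonempty prefix of `B`,
with `a'.sum.1 = w.sum.1 + b'.sum.1 > w.sum.1`, against `p i ≤ A.sum.1 + w.sum.1`. So `w = a ++ b`, `a = a'`, `Ri b` (`b` is a prefix of `v`), `a.sum.1 = p i - A.sum.1 = c ≥ 1`, `Ri a` (prefix of `w`), nonempty suffixes of `a` are suffixes
of `u`, so they have positive width, and `a` is self-avoiding: `a ∈ CB true c`.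
`lev_lo1`: `i = 0`: `u = []` (`CBo_zero`), `x = 0`. `i = 1`: column `p ≤ A.sum.1`; both `u` and `u'` (for `w'`) are prefixes of `A`: otherwise `u = A ++ a`, `a ≠ []`, so `A.sum.1 < u.sum.1 = p` because the nonempty suffix `a` of
the cobridge `u` has positive width. `A = u ++ c = u' ++ c'` with `Ri c`, `Ri c'` (prefixes of `v`, `v'`), so `u = u'` by `Rn_unique` (ZHW/Basic).
RIGHT END. `At (cd L q w).reverse i x` gives (`At_rev`) `H = u ++ v`, `v ∈ CBo L i`, `u ∈ CBo L j`, `i + j = wm`, `x = v.sum.2`.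
`lev_hi` (`2 ≤ i ≤ wm - 2`): `v.sum.1 = p i ≥ 2 p ≥ B.sum.1`, `u.sum.1 = p j ≥ 2 p > A.sum.1`. So `u` is not a prefix of `A` (then the rest `c` of `A`, a prefix of `v`, has `c.sum.1 ≥ 0`), `u = A ++ a0`, `a0 ≠ []`, `w ++ B = a0 ++ v`. `a0` is a prefix of
`w` (otherwise `v` is a suffix of `B`, `B = b' ++ v`, `b' ≠ []`, `b'.sum.1 > 0` and `B.sum.1 > v.sum.1 ≥ 2 p`, contradiction). So `w = a0 ++ b`, `v = b ++ B`, `b.sum.1 = p i - B.sum.1 = c ≥ 0`, `Ri b`. `a0 = a ++ [s]`; `[s]` is a nonempty suffix of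
`u`, so `s.1 > 0`, `s ∈ steps true`: `s = (1, 0)` or `(1, -1)`. `fl true (s :: b) ∈ CB true (c + 1)`: `s :: b` has `s.1 = 1`, `Ri b`, so all its nonempty prefixes have positive width, all its suffixes have width `≥ 0` (suffixes of `w ∈ WB`; for `BT` see `fl_CB`:
`s :: b ∈ BT true (c + 1)`; `BT` is in SHP/HW: `halfs` + nonneg suffixes + width). `Ri (fl true a)`: the suffixes of `a ++ [s]` are suffixes of `u` followed by... : a suffix `d` of `a` nonempty: `d ++ [s]` has positive width, so `d.sum.1 ≥ 0` (integers,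
`s.1 = 1`); prefixes of `fl true a` are `fl` of suffixes of `a` (`fl_append`, `fl_fl`, `fl_sum_fst`). `x = v.sum.2 = b.sum.2 + B.sum.2`.
`lev_hi1`: `i = 0`: `v = []`. `i = 1`: `v.sum.1 = p < B.sum.1`, so `v` and `v'` are suffixes of `B` (the same `B`, as `q + w.sum = q' + w'.sum`): otherwise `v = b ++ B`, with `b` a suffix of `A ++ w`, `b.sum.1 ≥ 0` (`b` is a prefix of `v`, `Ri v`), so `v.sum.1 ≥ B.sum.1`.
`B = c ++ v = c' ++ v'`: if say `c' = c ++ d`, `v = d ++ v'`, then `d.sum.1 = 0`, and `d` is a suffix of the cobridge `u' = A ++ w ++ c'`, so `d = []`.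
-/

set_option autoImplicit false

namespace Pool.Agent.RPL

open Pool.Agent.SHP Pool.Agent.ZHW
open scoped ENNReal NNReal

private theorem B5_wd_zero (A : Alph) (c : List A.ι) (h : wd A c = 0) : c = [] := by
  cases c with
  | nil => rfl
  | cons a c =>
    exfalso
    have h1 : wd A (a :: c) = A.w a + wd A c := rfl
    have h2 := A.w1 a
    omega

private theorem B5_wd_append (A : Alph) (u v : List A.ι) : wd A (u ++ v) = wd A u + wd A v := by
  unfold wd
  rw [List.map_append, List.sum_append]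

private theorem At_unique (A : Alph) {P : List A.ι} {i : ℕ} {x y : ℤ} (h : At A P i x) (h' : At A P i y) : x = y := by
  obtain ⟨u, v, e, hi, hx⟩ := h
  obtain ⟨u', v', e', hi', hx'⟩ := h'
  rw [e] at e'
  rcases List.append_eq_append_iff.1 e' with ⟨c, hc, -⟩ | ⟨c, hc, -⟩
  · have h1 := B5_wd_append A u c
    rw [← hc, hi, hi'] at h1
    have h2 := B5_wd_zero A c (by omega)
    rw [h2, List.append_nil] at hc
    rw [← hx, ← hx', hc]
  · have h1 := B5_wd_append A u' c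
    rw [← hc, hi, hi'] at h1
    have h2 := B5_wd_zero A c (by omega)
    rw [h2, List.append_nil] at hc
    rw [← hx, ← hx', hc]

private theorem B5_cut (L : Lat) {q : ℤ × ℤ} {w : Wd} {k i : ℕ} {x : ℤ} (hq : Sup L.G q) (hw : w ∈ Sw L.G q)
    (hk : w ∈ WB true k) (h : At (alph L) (cd L q w) i x) :
    ∃ (u v : Wd) (j : ℕ), al L q ++ (w ++ br L (q + w.sum)) = u ++ v ∧ u ∈ CBo L i ∧ Ri v ∧
      v.sum.1 = (L.p : ℤ) * j ∧ i + j = wm L q w ∧ u.sum.2 = x := by
  have hH := hat_mem L hq hw hk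
  obtain ⟨u, v, e, hu, ⟨j, hv, hij⟩, hx⟩ := At_flat L h
  have e1 : flat L (cd L q w) = hat L q w := flat_code L hH
  have e2 : wd (alph L) (cd L q w) = wm L q w := wd_code L hH
  rw [e1] at e
  rw [e2] at hij
  refine ⟨u, v, j, e, hu, hv.1.2.1, ?_, hij, hx⟩
  rw [hv.1.2.2.2]
  push_cast
  ring

private theorem B5_fst (u v : Wd) : (u ++ v).sum.1 = u.sum.1 + v.sum.1 := by
  rw [List.sum_append, Prod.fst_add]

private theorem B5_snd (u v : Wd) : (u ++ v).sum.2 = u.sum.2 + v.sum.2 := by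
  rw [List.sum_append, Prod.snd_add]

private theorem B5_Ri_pre {u v : Wd} (h : Ri (u ++ v)) : Ri u := by
  intro a b hab
  exact h a (b ++ v) (by rw [hab, List.append_assoc])

theorem lev_lo (L : Lat) {q : ℤ × ℤ} {w : Wd} {k i : ℕ} {x : ℤ} (hq : Sup L.G q) (hw : w ∈ Sw L.G q) (hk : w ∈ WB true k)
    (hi : 2 ≤ i) (hi2 : i + 2 ≤ wm L q w) (h : At (alph L) (cd L q w) i x) :
    ∃ (a b : Wd) (c : ℕ), w = a ++ b ∧ 1 ≤ c ∧ (c : ℤ) = (L.p : ℤ) * i - (al L q).sum.1 ∧ a ∈ CB true c ∧ Ri b ∧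
      x = (al L q).sum.2 + a.sum.2 := by
  obtain ⟨u, v, j, e, hu, hv, hvj, hij, hx⟩ := B5_cut L hq hw hk h
  obtain ⟨-, hA2, -, -⟩ := al_spec L hq
  have hq' : Sup L.G (q + w.sum) := Sup_end hq hw.2
  obtain ⟨-, hB2, hB3, -⟩ := br_spec L hq'
  have hw0 : 0 ≤ w.sum.1 := by
    rw [hk.2.2.2]
    positivity
  have hwid := wm_width L hq hw.2 hw0
  obtain ⟨r1, r2, -, -⟩ := ty_range L q
  obtain ⟨r3, r4, -, -⟩ := ty_range L (q + w.sum)
  have hA1 : (al L q).sum.1 = (ty L q).1 + L.p := congrArg Prod.fst hA2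
  have hB1 : (br L (q + w.sum)).sum.1 = 2 * (L.p : ℤ) - (ty L (q + w.sum)).1 := congrArg Prod.fst hB2
  have hu1 : u.sum.1 = (L.p : ℤ) * i := by
    rw [hu.1.2.2.2]
    push_cast
    ring
  have hp : (0 : ℤ) < L.p := by
    have := L.p1
    omega
  have hi' : (2 : ℤ) ≤ (i : ℤ) := by exact_mod_cast hi
  have hpi : 2 * (L.p : ℤ) ≤ (L.p : ℤ) * i := by nlinarith
  have hj' : (2 : ℤ) ≤ (j : ℤ) := by
    have : 2 ≤ j := by omega
    exact_mod_cast this
  have hpj : 2 * (L.p : ℤ) ≤ (L.p : ℤ) * j := by nlinarith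
  have hwmi : (L.p : ℤ) * (wm L q w : ℤ) = (L.p : ℤ) * i + (L.p : ℤ) * j := by
    rw [← hij]
    push_cast
    ring
  have key : ∃ c b : Wd, u = al L q ++ c ∧ w = c ++ b ∧ v = b ++ br L (q + w.sum) := by
    rcases List.append_eq_append_iff.1 e with ⟨c, hc, hc2⟩ | ⟨c, hc, hc2⟩
    · rcases List.append_eq_append_iff.1 hc2 with ⟨b, hb, hb2⟩ | ⟨b, hb, hb2⟩
      · by_cases hbn : b = []
        · subst hbn
          rw [List.append_nil] at hb
          rw [List.nil_append] at hb2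
          exact ⟨c, [], hc, by rw [List.append_nil, hb], by rw [List.nil_append, hb2]⟩
        · exfalso
          have h1 := hB3 b v hb2 hbn
          have h2 := B5_fst w b
          rw [← hb] at h2
          have h3 := B5_fst (al L q) c
          rw [← hc, hu1] at h3
          linarith
      · exact ⟨c, b, hc, hb, hb2⟩
    · exfalso
      have h1 := hv c _ hc2
      have h2 := B5_fst u c
      rw [← hc, hu1] at h2
      linarith
  obtain ⟨c, b, hc, hwb, hvb⟩ := key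
  have h3 := B5_fst (al L q) c
  rw [← hc, hu1] at h3
  have h4 : 1 ≤ (L.p : ℤ) * i - (al L q).sum.1 := by linarith
  obtain ⟨cc, hcc⟩ := Int.eq_ofNat_of_zero_le (by linarith : 0 ≤ (L.p : ℤ) * i - (al L q).sum.1)
  refine ⟨c, b, cc, hwb, ?_, hcc.symm, ⟨?_, ?_, ?_, ?_⟩, ?_, ?_⟩
  · rw [hcc] at h4
    exact_mod_cast h4
  · exact saws_infix (u := []) (v := c) (w := b) (by rw [List.nil_append, ← hwb]; exact hw.1)
  · have h5 := hk.2.1
    rw [hwb] at h5
    exact B5_Ri_pre h5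
  · intro a d had hd
    exact hu.1.2.2.1 (al L q ++ a) d (by rw [hc, had, List.append_assoc]) hd
  · linarith
  · have h5 := hv
    rw [hvb] at h5
    exact B5_Ri_pre h5
  · rw [← hx, hc, B5_snd]

private theorem B5_lo1 (L : Lat) {q : ℤ × ℤ} {w : Wd} {k i : ℕ} {x : ℤ} (hq : Sup L.G q) (hw : w ∈ Sw L.G q)
    (hk : w ∈ WB true k) (hi : i ≤ 1) (h : At (alph L) (cd L q w) i x) :
    ∃ u c : Wd, al L q = u ++ c ∧ u ∈ CBo L i ∧ Ri c ∧ u.sum.2 = x := by
  obtain ⟨u, v, j, e, hu, hv, hvj, hij, hx⟩ := B5_cut L hq hw hk h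
  obtain ⟨-, hA2, -, -⟩ := al_spec L hq
  obtain ⟨r1, r2, -, -⟩ := ty_range L q
  have hA1 : (al L q).sum.1 = (ty L q).1 + L.p := congrArg Prod.fst hA2
  have hu1 : u.sum.1 = (L.p : ℤ) * i := by
    rw [hu.1.2.2.2]
    push_cast
    ring
  have hp : (0 : ℤ) < L.p := by
    have := L.p1
    omega
  have hi' : (i : ℤ) ≤ 1 := by exact_mod_cast hi
  have hpi : (L.p : ℤ) * i ≤ (L.p : ℤ) := by nlinarith
  rcases List.append_eq_append_iff.1 e with ⟨c, hc, hc2⟩ | ⟨c, hc, hc2⟩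
  · by_cases hcn : c = []
    · subst hcn
      rw [List.append_nil] at hc
      rw [List.nil_append] at hc2
      refine ⟨u, [], by rw [List.append_nil, hc], hu, Ri_nil, hx⟩
    · exfalso
      have h1 := hu.1.2.2.1 (al L q) c hc hcn
      have h2 := B5_fst (al L q) c
      rw [← hc, hu1] at h2
      linarith
  · refine ⟨u, c, hc, hu, ?_, hx⟩
    rw [hc2] at hv
    exact B5_Ri_pre hv

theorem lev_lo1 (L : Lat) {q : ℤ × ℤ} {w w' : Wd} {k k' i : ℕ} {x x' : ℤ} (hq : Sup L.G q) (hw : w ∈ Sw L.G q)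
    (hk : w ∈ WB true k) (hw' : w' ∈ Sw L.G q) (hk' : w' ∈ WB true k') (hi : i ≤ 1)
    (h : At (alph L) (cd L q w) i x) (h' : At (alph L) (cd L q w') i x') : x = x' := by
  obtain ⟨u, c, e, hu, hc, hx⟩ := B5_lo1 L hq hw hk hi h
  obtain ⟨u', c', e', hu', hc', hx'⟩ := B5_lo1 L hq hw' hk' hi h'
  have h1 := Rn_unique (e.symm.trans e') hu.1 hu'.1 hc hc'
  rw [← hx, ← hx', h1.1]

end Pool.Agent.RPL
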