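import Pool.Agent.RPL.B4c
import Pool.Agent.ZHW.Flip

/-!
Module B5h: the levels of the code of a strand, right end (here `lev_hi`, `lev_hi1`; `At_unique` and the left end are in B5).

PAPER PROOF. Let `H = hat L q w = A ++ (w ++ B)`, `A = al L q`, `B = br L q'`, `q' = q + w.sum` (a vertex, `Sup_end`), `H ∈ CBo L (wm L q w)` (`hat_mem`), `flat L (cd L q w) = H` (`flat_code`),
`wd (cd L q w) = wm` (`wd_code`), `p ≤ A.sum.1 < 2 p`, `p < B.sum.1 ≤ 2 p` (`al_spec`, `br_spec`, `ty_range`), `p * wm = A.sum.1 + w.sum.1 + B.sum.1` (`wm_width`).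
`At_unique`: two prefixes `u`, `u'` of the list `P` of the same width are equal: one is a prefix of the other, and the rest has width `0`, so it is empty (`A.w1`).
LEFT END. `At (cd L q w) i x` gives (`At_flat`) `H = u ++ v`, `u ∈ CBo L i`, `v ∈ CBo L j`, `i + j = wm`, `x = u.sum.2`; so `u.sum.1 = p i`, all vertices of `u` before its end are strictly to the
left of its end, and `v` is weakly to the right (`Ri v`).
`lev_lo` (`2 ≤ i ≤ wm - 2`): the column `p i` is `> A.sum.1` and `p i = p wm - p j ≤ p wm - 2 p ≤ A.sum.1 + w.sum.1`. By `List.append_eq_append_iff` for `A ++ (w ++ B) = u ++ v`: `u` is not a prefix of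
`A` (`A = u ++ c` gives `A.sum.1 = p i + c.sum.1 ≥ p i` if `Ri c`, and `c` is a prefix of `v`), so `u = A ++ a'`, `w ++ B = a' ++ v`; `a'` is a prefix of `w`, otherwise `a' = w ++ b'`, `b' ≠ []`, a nonempty prefix of `B`,
with `a'.sum.1 = w.sum.1 + b'.sum.1 > w.sum.1`, against `p i ≤ A.sum.1 + w.sum.1`. So `w = a ++ b`, `a = a'`, `Ri b` (`b` is a prefix of `v`), `a.sum.1 = p i - A.sum.1 = c ≥ 1`, `Ri a` (prefix of `w`), nonempty suffixes of `a` are suffixes
of `u`, so they have positive width, and `a` is self-avoiding: `a ∈ CB true c`.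
`lev_lo1`: `i = 0`: `u = []` (`CBo_zero`), `x = 0`. `i = 1`: column `p ≤ A.sum.1`; both `u` and `u'` (for `w'`) are prefixes of `A`: otherwise `u = A ++ a`, `a ≠ []`, so `A.sum.1 < u.sum.1 = p` because the nonempty suffix `a` of
the cobridge `u` has positive width. `A = u ++ c = u' ++ c'` with `Ri c`, `Ri c'` (prefixes of `v`, `v'`), so `u = u'` by `Rn_unique` (ZHW/Basic).
RIGHT END. `At (cd L q w).reverse i x` gives (`At_rev`) `H = u ++ v`, `v ∈ CBo L i`, `u ∈ CBo L j`, `i + j = wm`, `x = v.sum.2`.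
`lev_hi` (`2 ≤ i ≤ wm - 2`): `v.sum.1 = p i ≥ 2 p ≥ B.sum.1`, `u.sum.1 = p j ≥ 2 p > A.sum.1`. So `u` is not a prefix of `A` (then the rest `c` of `A`, a prefix of `v`, has `c.sum.1 ≥ 0`), `u = A ++ a0`, `a0 ≠ []`, `w ++ B = a0 ++ v`. `a0` is a prefix of
`w` (otherwise `v` is a suffix of `B`, `B = b' ++ v`, `b' ≠ []`, `b'.sum.1 > 0` and `B.sum.1 > v.sum.1 ≥ 2 p`, contradiction). So `w = a0 ++ b`, `v = b ++ B`, `b.sum.1 = p i - B.sum.1 = c ≥ 0`, `Ri b`. `a0 = a ++ [s]`; `[s]` is a nonempty suffix of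
`u`, so `s.1 > 0`, `s ∈ steps true`: `s = (1, 0)` or `(1, -1)`. `fl true (s :: b) ∈ CB true (c + 1)`: `s :: b` has `s.1 = 1`, `Ri b`, so all its nonempty prefixes have positive width, all its suffixes have width `≥ 0` (suffixes of `w ∈ WB`; for `BT` see `fl_CB`:
`s :: b ∈ BT true (c + 1)`; `BT` is in SHP/HW: `halfs` + nonneg suffixes + width). `Ri (fl true a)`: the suffixes of `a ++ [s]` are suffixes of `u` followed by... : a suffix `d` of `a` nonempty: `d ++ [s]` has positive width, so `d.sum.1 ≥ 0` (integers,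
`s.1 = 1`); prefixes of `fl true a` are `fl` of suffixes of `a` (`fl_append`, `fl_fl`, `fl_sum_fst`). `x = v.sum.2 = b.sum.2 + B.sum.2`.
`lev_hi1`: `i = 0`: `v = []`. `i = 1`: `v.sum.1 = p < B.sum.1`, so `v` and `v'` are suffixes of `B` (the same `B`, as `q + w.sum = q' + w'.sum`): otherwise `v = b ++ B`, with `b` a suffix of `A ++ w`, `b.sum.1 ≥ 0` (`b` is a prefix of `v`, `Ri v`), so `v.sum.1 ≥ B.sum.1`.
`B = c ++ v = c' ++ v'`: if say `c' = c ++ d`, `v = d ++ v'`, then `d.sum.1 = 0`, and `d` is a suffix of the cobridge `u' = A ++ w ++ c'`, so `d = []`.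
-/

set_option autoImplicit false

namespace Pool.Agent.RPL

open Pool.Agent.SHP Pool.Agent.ZHW
open scoped ENNReal NNReal

private theorem B5h_step {s : ℤ × ℤ} (h : s ∈ steps true) (h0 : 0 < s.1) : s.1 = 1 ∧ (s.2 = 0 ∨ s.2 = -1) := by
  simp only [steps, if_true, Finset.mem_insert, Finset.mem_singleton] at h
  rcases h with h | h | h | h | h | h <;> subst h <;> simp at h0 ⊢

private theorem B5h_word {A B w u v : Wd} {p i j : ℤ} (he : A ++ (w ++ B) = u ++ v) (hp : 0 < p)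
    (hA : A.sum.1 < 2 * p) (hB1 : ∀ a b : Wd, B = a ++ b → a ≠ [] → 0 < a.sum.1) (hB : B.sum.1 ≤ 2 * p)
    (hu2 : ∀ a b : Wd, u = a ++ b → b ≠ [] → 0 < b.sum.1) (hv : Ri v) (hvs : v.sum.1 = p * i) (hus : u.sum.1 = p * j)
    (hi : 2 ≤ i) (hj : 2 ≤ j) (hw : w ∈ saws true) (hw2 : ∀ u v : Wd, w = u ++ v → 0 ≤ v.sum.1) :
    ∃ (a b : Wd) (s : ℤ × ℤ) (c : ℕ), w = a ++ (s :: b) ∧ s.1 = 1 ∧ (s.2 = 0 ∨ s.2 = -1) ∧
      (c : ℤ) = p * i - B.sum.1 ∧ b.sum.1 = (c : ℤ) ∧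
      fl true (s :: b) ∈ CB true (c + 1) ∧ Ri (fl true a) ∧ v = b ++ B := by
  have h2i : 2 * p ≤ p * i := by nlinarith
  have h2j : 2 * p ≤ p * j := by nlinarith
  obtain ⟨a0, h1, h2⟩ : ∃ a0, u = A ++ a0 ∧ w ++ B = a0 ++ v := by
    rcases List.append_eq_append_iff.1 he with ⟨c, h1, h2⟩ | ⟨c, h1, h2⟩
    · exact ⟨c, h1, h2⟩
    · exfalso
      have h3 := hv c _ h2
      have h4 : A.sum.1 = u.sum.1 + c.sum.1 := by rw [h1, fst_sum_append]
      linarith
  have h3 : a0 ≠ [] := by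
    intro h0
    rw [h0, List.append_nil] at h1
    rw [h1] at hus
    linarith
  obtain ⟨b, h4, h5⟩ : ∃ b, w = a0 ++ b ∧ v = b ++ B := by
    rcases List.append_eq_append_iff.1 h2 with ⟨c, h4, h5⟩ | ⟨c, h4, h5⟩
    · by_cases hc : c = []
      · subst hc
        refine ⟨[], ?_, ?_⟩
        · rw [h4, List.append_nil, List.append_nil]
        · rw [h5]
          rfl
      · exfalso
        have h6 := hB1 c v h5 hc
        have h7 : B.sum.1 = c.sum.1 + v.sum.1 := by rw [h5, fst_sum_append]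
        linarith
    · exact ⟨c, h4, h5⟩
  obtain ⟨a, s, h6⟩ : ∃ a s, a0 = a ++ [s] := by
    rcases List.eq_nil_or_concat a0 with h | ⟨a, s, h⟩
    · exact absurd h h3
    · exact ⟨a, s, by rw [h, List.concat_eq_append]⟩
  have h7 : w = a ++ (s :: b) := by
    rw [h4, h6, List.append_assoc]
    rfl
  have h8 : 0 < s.1 := by
    have h9 := hu2 (A ++ a) [s] (by rw [h1, h6, List.append_assoc]) (by simp)
    simpa using h9
  have hs : s ∈ steps true := hw.1 s (by rw [h7]; simp)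
  obtain ⟨h9, h10⟩ := B5h_step hs h8
  have h11 : 0 ≤ b.sum.1 := hv b B h5
  have h12 : v.sum.1 = b.sum.1 + B.sum.1 := by rw [h5, fst_sum_append]
  refine ⟨a, b, s, b.sum.1.toNat, h7, h9, h10, ?_, ?_, ?_, ?_, h5⟩
  · rw [Int.toNat_of_nonneg h11]
    linarith
  · rw [Int.toNat_of_nonneg h11]
  · apply fl_CB
    refine ⟨⟨⟨?_, ?_⟩, ?_⟩, ?_⟩
    · exact saws_infix (u := a) (w := []) (by rw [List.append_nil, ← h7]; exact hw)
    · intro x y hxy hx
      rcases x with _ | ⟨r, x⟩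
      · exact absurd rfl hx
      · rw [List.cons_append, List.cons.injEq] at hxy
        have h13 : 0 ≤ x.sum.1 := hv x (y ++ B) (by rw [h5, hxy.2, List.append_assoc])
        rw [List.sum_cons, Prod.fst_add, ← hxy.1]
        linarith
    · intro x y hxy
      exact hw2 (a ++ x) y (by rw [h7, hxy, List.append_assoc])
    · rw [List.sum_cons, Prod.fst_add, h9]
      push_cast
      rw [Int.toNat_of_nonneg h11]
      ring
  · intro x y hxy
    have h13 : a = fl true y ++ fl true x := by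
      have h14 := congrArg (fl true) hxy
      rw [fl_fl, fl_append] at h14
      exact h14
    have h15 := hu2 (A ++ fl true y) (fl true x ++ [s]) (by
      rw [h1, h6, h13]
      simp only [List.append_assoc]) (by simp)
    rw [fst_sum_append, fl_sum_fst] at h15
    have h16 : [s].sum.1 = s.1 := by simp
    rw [h16, h9] at h15
    linarith

private theorem B5h_end (L : Lat) {q : ℤ × ℤ} {w : Wd} (hq : Sup L.G q) (hw : w ∈ Sw L.G q) : Sup L.G (q + w.sum) :=
  Sup_end hq hw.2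

private theorem B5h_rev (L : Lat) {q : ℤ × ℤ} {w : Wd} {k i : ℕ} {x : ℤ} (hq : Sup L.G q) (hw : w ∈ Sw L.G q) (hk : w ∈ WB true k)
    (h : At (alph L) (cd L q w).reverse i x) : ∃ (u v : Wd) (j : ℕ), al L q ++ (w ++ br L (q + w.sum)) = u ++ v ∧
      v ∈ CBo L i ∧ u ∈ CBo L j ∧ i + j = wm L q w ∧ v.sum.2 = x := by
  have hH := hat_mem L hq hw hk
  obtain ⟨u, v, h1, h2, ⟨j, h3, h4⟩, h5⟩ := At_rev L h
  have h6 : flat L (cd L q w) = hat L q w := flat_code L hH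
  have h7 : wd (alph L) (cd L q w) = wm L q w := wd_code L hH
  rw [h6] at h1
  rw [h7] at h4
  exact ⟨u, v, j, h1, h2, h3, h4, h5⟩

theorem lev_hi (L : Lat) {q : ℤ × ℤ} {w : Wd} {k i : ℕ} {x : ℤ} (hq : Sup L.G q) (hw : w ∈ Sw L.G q) (hk : w ∈ WB true k)
    (hi : 2 ≤ i) (hi2 : i + 2 ≤ wm L q w) (h : At (alph L) (cd L q w).reverse i x) :
    ∃ (a b : Wd) (s : ℤ × ℤ) (c : ℕ), w = a ++ (s :: b) ∧ s.1 = 1 ∧ (s.2 = 0 ∨ s.2 = -1) ∧
      (c : ℤ) = (L.p : ℤ) * i - (br L (q + w.sum)).sum.1 ∧ b.sum.1 = (c : ℤ) ∧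
      fl true (s :: b) ∈ CB true (c + 1) ∧ Ri (fl true a) ∧ x = (br L (q + w.sum)).sum.2 + b.sum.2 := by
  obtain ⟨u, v, j, h1, h2, h3, h4, h5⟩ := B5h_rev L hq hw hk h
  obtain ⟨_, a1, _, _⟩ := al_spec L hq
  obtain ⟨_, b1, b2, _⟩ := br_spec L (B5h_end L hq hw)
  have hp : (0 : ℤ) < L.p := by
    have := L.p1
    omega
  have r1 := ty_range L q
  have r2 := ty_range L (q + w.sum)
  have hA : (al L q).sum.1 < 2 * (L.p : ℤ) := by
    rw [a1]
    show (ty L q).1 + L.p < 2 * (L.p : ℤ)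
    linarith [r1.2.1]
  have hB : (br L (q + w.sum)).sum.1 ≤ 2 * (L.p : ℤ) := by
    rw [b1]
    show 2 * (L.p : ℤ) - (ty L (q + w.sum)).1 ≤ 2 * (L.p : ℤ)
    linarith [r2.1]
  have hvs : v.sum.1 = (L.p : ℤ) * (i : ℤ) := by
    have := h2.1.2.2.2
    push_cast at this
    exact this
  have hus : u.sum.1 = (L.p : ℤ) * (j : ℤ) := by
    have := h3.1.2.2.2
    push_cast at this
    exact this
  obtain ⟨a, b, s, c, e1, e2, e3, e4, e5, e6, e7, e8⟩ := B5h_word h1 hp hA b2 hB h3.1.2.2.1 h2.1.2.1 hvs hus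
    (by exact_mod_cast hi) (by exact_mod_cast (show 2 ≤ j by omega)) hk.1 hk.2.2.1
  refine ⟨a, b, s, c, e1, e2, e3, e4, e5, e6, e7, ?_⟩
  rw [← h5, e8, List.sum_append, Prod.snd_add, add_comm]

private theorem B5h_suf {C B u v : Wd} {p : ℤ} (he : C ++ B = u ++ v) (hv : Ri v) (hvs : v.sum.1 = p) (hB : p < B.sum.1) :
    ∃ c, u = C ++ c ∧ B = c ++ v := by
  rcases List.append_eq_append_iff.1 he with ⟨c, h1, h2⟩ | ⟨c, h1, h2⟩
  · exact ⟨c, h1, h2⟩
  · exfalso
    have h3 := hv c _ h2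
    have h4 : v.sum.1 = c.sum.1 + B.sum.1 := by rw [h2, fst_sum_append]
    linarith

private theorem B5h_eq {c v c' v' C' u' : Wd} {p : ℤ} (hu' : u' = C' ++ c') (d : Wd) (h1 : c' = c ++ d) (h2 : v = d ++ v')
    (hv : v.sum.1 = p) (hv' : v'.sum.1 = p) (hu2 : ∀ a b : Wd, u' = a ++ b → b ≠ [] → 0 < b.sum.1) : v = v' := by
  by_cases hd : d = []
  · rw [h2, hd]
    rfl
  · exfalso
    have h3 := hu2 (C' ++ c) d (by rw [hu', h1, List.append_assoc]) hd
    have h4 : v.sum.1 = d.sum.1 + v'.sum.1 := by rw [h2, fst_sum_append]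
    linarith

theorem lev_hi1 (L : Lat) {q q' : ℤ × ℤ} {w w' : Wd} {k k' i : ℕ} {x x' : ℤ} (hq : Sup L.G q) (hq' : Sup L.G q')
    (he : q + w.sum = q' + w'.sum) (hw : w ∈ Sw L.G q) (hk : w ∈ WB true k) (hw' : w' ∈ Sw L.G q') (hk' : w' ∈ WB true k')
    (hi : i ≤ 1) (h : At (alph L) (cd L q w).reverse i x) (h' : At (alph L) (cd L q' w').reverse i x') : x = x' := by
  obtain ⟨u, v, j, h1, h2, h3, h4, h5⟩ := B5h_rev L hq hw hk h
  obtain ⟨u', v', j', h1', h2', h3', h4', h5'⟩ := B5h_rev L hq' hw' hk' h'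
  rcases Nat.le_one_iff_eq_zero_or_eq_one.1 hi with h0 | h0
  · subst h0
    rw [CBo_zero] at h2 h2'
    have e1 : v = [] := h2
    have e2 : v' = [] := h2'
    rw [← h5, ← h5', e1, e2]
  · subst h0
    obtain ⟨_, b1, _, _⟩ := br_spec L (B5h_end L hq hw)
    have r2 := ty_range L (q + w.sum)
    have hB : (L.p : ℤ) < (br L (q + w.sum)).sum.1 := by
      rw [b1]
      show (L.p : ℤ) < 2 * (L.p : ℤ) - (ty L (q + w.sum)).1
      linarith [r2.2.1]
    have hvs : v.sum.1 = (L.p : ℤ) := by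
      have := h2.1.2.2.2
      rw [mul_one] at this
      exact this
    have hvs' : v'.sum.1 = (L.p : ℤ) := by
      have := h2'.1.2.2.2
      rw [mul_one] at this
      exact this
    rw [← he, ← List.append_assoc] at h1'
    rw [← List.append_assoc] at h1
    obtain ⟨c, c1, c2⟩ := B5h_suf h1 h2.1.2.1 hvs hB
    obtain ⟨c', c1', c2'⟩ := B5h_suf h1' h2'.1.2.1 hvs' hB
    have hc : c ++ v = c' ++ v' := c2.symm.trans c2'
    have hvv : v = v' := by
      rcases List.append_eq_append_iff.1 hc with ⟨d, d1, d2⟩ | ⟨d, d1, d2⟩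
      · exact B5h_eq c1' d d1 d2 hvs hvs' h3'.1.2.2.1
      · exact (B5h_eq c1 d d1 d2 hvs' hvs h3.1.2.2.1).symm
    rw [← h5, ← h5', hvv]

end Pool.Agent.RPL
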