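import Pool.Agent.RPL.B5
import Pool.Agent.ZCS.SgD

/-!
Module B6a: two disjoint strands from the same left vertex keep their order.

PAPER PROOF. `i0 = 1 ≤ 2`. Levels `i ≤ 1`: `lev_lo1`. For the sign take `N = k1 + k2 + p n` (any number `≥` all the `c` below) in `sg_of_disj N h1' h2' hd : Sg true N w1 w2` (`ZCS/SgD`). Say `PosN true N w1 w2` (the other
case is symmetric and gives the other alternative). For `1 < i ≤ n` (so `i ≤ n ≤ wm / 4`, and `i + 2 ≤ wm` for both strands because `4 n ≤ wm`, `wm ≥ 4 n ≥ 4 i ≥ i + 2`) and levels `x`, `y` of the two codes: `lev_lo` for both gives `w1 = a1 ++ b1`, `w2 = a2 ++ b2`,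
`a1, a2 ∈ CB true c` with the same `c = p i - (al L q).sum.1`, `1 ≤ c ≤ p n`, `Ri b1`, `Ri b2`; `PosN` at the level `c` gives `a2.sum.2 < a1.sum.2`, so `y < x`.
-/

set_option autoImplicit false

namespace Pool.Agent.RPL

open Pool.Agent.SHP Pool.Agent.ZHW Pool.Agent.ZCS
open scoped ENNReal NNReal

private theorem fold_key (L : Lat) {q : ℤ × ℤ} {w1 w2 : Wd} {k1 k2 n : ℕ} (hq : Sup L.G q) (h1 : w1 ∈ Sw L.G q)
    (h1' : w1 ∈ WB true k1) (h2 : w2 ∈ Sw L.G q) (h2' : w2 ∈ WB true k2)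
    (hn1 : 4 * n ≤ wm L q w1) (hn2 : 4 * n ≤ wm L q w2) (i : ℕ) (hi : 1 < i) (hin : i ≤ n) (x y : ℤ)
    (hx : At (alph L) (cd L q w1) i x) (hy : At (alph L) (cd L q w2) i y) :
    ∃ (c : ℕ) (a1 b1 a2 b2 : Wd), 1 ≤ c ∧ c ≤ L.p * n + ((al L q).sum.1).natAbs ∧ w1 = a1 ++ b1 ∧
      w2 = a2 ++ b2 ∧ a1 ∈ CB true c ∧ a2 ∈ CB true c ∧ Ri b1 ∧ Ri b2 ∧
      x = (al L q).sum.2 + a1.sum.2 ∧ y = (al L q).sum.2 + a2.sum.2 := by
  obtain ⟨a1, b1, c1, e1, f1, g1, m1, r1, x1⟩ := lev_lo L hq h1 h1' (by omega) (by omega) hx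
  obtain ⟨a2, b2, c2, e2, f2, g2, m2, r2, x2⟩ := lev_lo L hq h2 h2' (by omega) (by omega) hy
  have hc : c2 = c1 := by
    have h3 : (c2 : ℤ) = (c1 : ℤ) := g2.trans g1.symm
    exact_mod_cast h3
  subst hc
  refine ⟨c2, a1, b1, a2, b2, f1, ?_, e1, e2, m1, m2, r1, r2, x1, x2⟩
  have h4 : (L.p : ℤ) * i ≤ (L.p : ℤ) * n := by
    have : (i : ℤ) ≤ n := by exact_mod_cast hin
    exact mul_le_mul_of_nonneg_left this (Nat.cast_nonneg _)
  have h5 : ((L.p * n + ((al L q).sum.1).natAbs : ℕ) : ℤ) =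
      (L.p : ℤ) * n + |(al L q).sum.1| := by
    push_cast
    rfl
  have h6 := neg_abs_le (al L q).sum.1
  have h7 : (c2 : ℤ) ≤ ((L.p * n + ((al L q).sum.1).natAbs : ℕ) : ℤ) := by
    rw [h5, g1]
    linarith
  exact_mod_cast h7

theorem fold_lo (L : Lat) {q : ℤ × ℤ} {w1 w2 : Wd} {k1 k2 n : ℕ} (hq : Sup L.G q) (h1 : w1 ∈ Sw L.G q)
    (h1' : w1 ∈ WB true k1) (h2 : w2 ∈ Sw L.G q) (h2' : w2 ∈ WB true k2) (hd : Disj w1 w2)
    (hn1 : 4 * n ≤ wm L q w1) (hn2 : 4 * n ≤ wm L q w2) : Sgz (alph L) 2 n (cd L q w1) (cd L q w2) := by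
  refine ⟨1, by norm_num, fun i x y hi _ hx hy => lev_lo1 L hq h1 h1' h2 h2' hi hx hy, ?_⟩
  rcases sg_of_disj (L.p * n + ((al L q).sum.1).natAbs) h1' h2' hd with h | h
  · left
    intro i x y hi hin hx hy
    obtain ⟨c, a1, b1, a2, b2, hc, hcN, e1, e2, m1, m2, r1, r2, x1, x2⟩ :=
      fold_key L hq h1 h1' h2 h2' hn1 hn2 i hi hin x y hx hy
    have h3 := h c hc hcN a1 b1 a2 b2 e1 e2 m1 m2 r1 r2
    omega
  · right
    intro i x y hi hin hx hy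
    obtain ⟨c, a1, b1, a2, b2, hc, hcN, e1, e2, m1, m2, r1, r2, x1, x2⟩ :=
      fold_key L hq h1 h1' h2 h2' hn1 hn2 i hi hin x y hx hy
    have h3 := h c hc hcN a2 b2 a1 b1 e2 e1 m2 m1 r2 r1
    omega

end Pool.Agent.RPL
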