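import Pool.Agent.RPL.B5
import Pool.Agent.RPL.B5h
import Pool.Agent.ZCS.SgD

/-!
Module B6b: two disjoint strands with the same right end keep their order, seen from the right.

PAPER PROOF. `P = fl true w1`, `Q = fl true w2` are weak bridges (`WB true k1`, `WB true k2`: `fl` preserves `WB`; `fl_append`, `fl_fl`, `fl_sum_fst`, `fl_saws` (ZHW/Flip; private ones to be copied)), `Disj P Q`, so `Sg true N P Q` for
`N = k1 + k2 + p n + 1` (`sg_of_disj`). Say `PosN true N P Q` (the other case is symmetric). For `2 ≤ i ≤ n` and levels `x`, `y` of the two reversed codes, `lev_hi` for both strands (`i + 2 ≤ wm` as `4 n ≤ wm`; the same right end, so the same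
`br` and the same `c = p i - br.sum.1 ≥ 0`): `w1 = a1 ++ (s1 :: b1)`, `w2 = a2 ++ (s2 :: b2)`. `P = fl (s1 :: b1) ++ fl a1`, `Q = fl (s2 :: b2) ++ fl a2` (`fl_append`), `fl (s :: b) ∈ CB true (c + 1)`, `Ri (fl a)`, so `PosN` at the level `c + 1 ≥ 1` gives
`(fl (s2 :: b2)).sum.2 < (fl (s1 :: b1)).sum.2`. By `fl_sum`: `(fl (s :: b)).sum = refl true (- (s + b.sum))`, second coordinate `-(1 + c) - s.2 - b.sum.2` (as `s.1 = 1`, `b.sum.1 = c`); so `s1.2 + b1.sum.2 < s2.2 + b2.sum.2`, and with `s1.2, s2.2 ∈ {0, -1}`: `b1.sum.2 ≤ b2.sum.2`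
(`b1.sum.2 < b2.sum.2 + s2.2 - s1.2 ≤ b2.sum.2 + 1`), i.e. `x ≤ y`. If `x = y` then `b1.sum = b2.sum`, so `(fl b1).sum = (fl b2).sum`, `fl b1`, `fl b2` are prefixes of `P`, `Q` (`w1 = (a1 ++ [s1]) ++ b1`), so by `Disj` `fl b1 = fl b2 = []`, `c = b1.sum.1 = 0`, and then
`p i = br.sum.1 ≤ 2 p`, so `i = 2`. Hence `x < y` for all `3 ≤ i ≤ n`. Choice of `i0`: if all common levels `i = 2` have `x = y` take `i0 = 2` (levels `≤ 1`: `lev_hi1`); otherwise there are levels `x0 ≠ y0` with `i = 2`, and by `At_unique`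
every common level with `i = 2` has these `x0, y0`, so `x ≠ y`, `x < y`: take `i0 = 1`.
-/

set_option autoImplicit false

namespace Pool.Agent.RPL

open Pool.Agent.SHP Pool.Agent.ZHW Pool.Agent.ZCS
open scoped ENNReal NNReal

private theorem b6b_nil (A : Alph) {c : List A.ι} (h : wd A c = 0) : c = [] := by
  cases c with
  | nil => rfl
  | cons a v =>
    exfalso
    unfold wd at h
    rw [List.map_cons, List.sum_cons] at h
    have := A.w1 a
    omega

private theorem b6b_wd (A : Alph) (u v : List A.ι) : wd A (u ++ v) = wd A u + wd A v := by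
  unfold wd
  rw [List.map_append, List.sum_append]

private theorem b6b_unique (A : Alph) {P : List A.ι} {i : ℕ} {x y : ℤ} (h : At A P i x) (h' : At A P i y) : x = y := by
  obtain ⟨u, v, h1, h2, h3⟩ := h
  obtain ⟨u', v', h1', h2', h3'⟩ := h'
  have huu : u = u' := by
    rcases List.append_eq_append_iff.1 (h1.symm.trans h1') with ⟨c, hc, -⟩ | ⟨c, hc, -⟩
    · have h4 : wd A c = 0 := by
        have := congrArg (wd A) hc
        rw [b6b_wd] at this
        omega
      rw [b6b_nil A h4, List.append_nil] at hc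
      exact hc.symm
    · have h4 : wd A c = 0 := by
        have := congrArg (wd A) hc
        rw [b6b_wd] at this
        omega
      rw [b6b_nil A h4, List.append_nil] at hc
      exact hc
  rw [← h3, ← h3', huu]

private theorem b6b_split {l u v : Wd} (h : fl true l = u ++ v) : l = fl true v ++ fl true u := by
  have h1 := congrArg (fl true) h
  rw [fl_fl, fl_append] at h1
  exact h1

private theorem b6b_flnil {l : Wd} (h : fl true l = []) : l = [] := by
  have h1 := fl_length (t := true) l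
  rw [h] at h1
  exact List.length_eq_zero_iff.mp h1.symm

private theorem b6b_WB {k : ℕ} {l : Wd} (h : l ∈ WB true k) : fl true l ∈ WB true k := by
  obtain ⟨hs, hr, hq, hd⟩ := h
  refine ⟨map_refl_saws (rev_mem_saws hs), ?_, ?_, ?_⟩
  · intro u v huv
    have h1 := hq _ _ (b6b_split huv)
    rwa [fl_sum_fst] at h1
  · intro u v huv
    have h1 := hr _ _ (b6b_split huv)
    rwa [fl_sum_fst] at h1
  · rw [fl_sum_fst, hd]

private theorem b6b_fl2 (l : Wd) : (fl true l).sum.2 = -l.sum.1 - l.sum.2 := by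
  rw [fl_sum]
  simp only [SHP.refl, if_true, Prod.fst_neg, Prod.snd_neg]
  ring

private theorem b6b_disj {P Q : Wd} (h : Disj P Q) : Disj Q P := by
  intro p q r s h1 h2 h3
  exact (h q p s r h2 h1 h3.symm).symm

private theorem b6b_key (L : Lat) {q1 q2 : ℤ × ℤ} {w1 w2 : Wd} {k1 k2 n : ℕ} (hq1 : Sup L.G q1) (hq2 : Sup L.G q2)
    (he : q1 + w1.sum = q2 + w2.sum) (h1 : w1 ∈ Sw L.G q1) (h1' : w1 ∈ WB true k1) (h2 : w2 ∈ Sw L.G q2)
    (h2' : w2 ∈ WB true k2) (hd : Disj (fl true w1) (fl true w2)) (hn1 : 4 * n ≤ wm L q1 w1) (hn2 : 4 * n ≤ wm L q2 w2)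
    (hpos : PosN true (L.p * n + 1) (fl true w1) (fl true w2)) {i : ℕ} {x y : ℤ} (hi : 2 ≤ i) (hin : i ≤ n)
    (hx : At (alph L) (cd L q1 w1).reverse i x) (hy : At (alph L) (cd L q2 w2).reverse i y) :
    x ≤ y ∧ (x = y → i = 2) := by
  obtain ⟨a1, b1, s1, c1, e1, f1, g1, hc1, hb1, hC1, hR1, hx1⟩ := lev_hi L hq1 h1 h1' hi (by omega) hx
  obtain ⟨a2, b2, s2, c2, e2, f2, g2, hc2, hb2, hC2, hR2, hy2⟩ := lev_hi L hq2 h2 h2' hi (by omega) hy
  rw [← he] at hc2 hy2
  have hcc : c2 = c1 := by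
    have : (c2 : ℤ) = c1 := by rw [hc1, hc2]
    exact_mod_cast this
  subst hcc
  have hend : Sup L.G (q1 + w1.sum) := Sup_end hq1 h1.2
  have hbr := (br_spec L hend).2.1
  have hbr1 : (br L (q1 + w1.sum)).sum.1 = 2 * (L.p : ℤ) - (ty L (q1 + w1.sum)).1 := by rw [hbr]
  obtain ⟨t1, t2, -, -⟩ := ty_range L (q1 + w1.sum)
  have hp : 1 ≤ L.p := L.p1
  have hP : fl true w1 = fl true (s1 :: b1) ++ fl true a1 := by rw [e1, fl_append]
  have hQ : fl true w2 = fl true (s2 :: b2) ++ fl true a2 := by rw [e2, fl_append]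
  have hpi : L.p * i ≤ L.p * n := Nat.mul_le_mul_left _ hin
  have hcN : c2 + 1 ≤ L.p * n + 1 := by
    have h3 : (c2 : ℤ) ≤ (L.p : ℤ) * i := by
      rw [hc1, hbr1]
      linarith
    have h4 : c2 ≤ L.p * i := by exact_mod_cast h3
    omega
  have hlt := hpos (c2 + 1) (by omega) hcN _ _ _ _ hP hQ hC1 hC2 hR1 hR2
  rw [b6b_fl2, b6b_fl2, List.sum_cons, List.sum_cons, Prod.fst_add, Prod.fst_add, Prod.snd_add, Prod.snd_add,
    f1, f2, hb1, hb2] at hlt
  have hle : b1.sum.2 ≤ b2.sum.2 := by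
    rcases g1 with g1 | g1 <;> rcases g2 with g2 | g2 <;> rw [g1, g2] at hlt <;> linarith
  refine ⟨by rw [hx1, hy2]; linarith, fun hxy => ?_⟩
  rw [hx1, hy2] at hxy
  have hs2 : b1.sum.2 = b2.sum.2 := by linarith
  have hs : b1.sum = b2.sum := Prod.ext (by rw [hb1, hb2]) hs2
  have hP' : fl true w1 = fl true b1 ++ fl true (a1 ++ [s1]) := by
    rw [e1, ← fl_append, List.append_assoc, List.singleton_append]
  have hQ' : fl true w2 = fl true b2 ++ fl true (a2 ++ [s2]) := by
    rw [e2, ← fl_append, List.append_assoc, List.singleton_append]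
  have h5 := (hd (fl true b1) (fl true b2) _ _ hP' hQ' (by rw [fl_sum, fl_sum, hs])).1
  have h6 := b6b_flnil h5
  rw [h6] at hb1
  have h7 : (c2 : ℤ) = 0 := by
    rw [← hb1]
    rfl
  rw [h7] at hc1
  have h8 : (L.p : ℤ) * i ≤ (L.p : ℤ) * 2 := by
    rw [hbr1] at hc1
    linarith
  have h9 : (i : ℤ) ≤ 2 := le_of_mul_le_mul_left h8 (by exact_mod_cast hp)
  have h10 : i ≤ 2 := by exact_mod_cast h9
  omega

theorem fold_hi (L : Lat) {q1 q2 : ℤ × ℤ} {w1 w2 : Wd} {k1 k2 n : ℕ} (hq1 : Sup L.G q1) (hq2 : Sup L.G q2)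
    (he : q1 + w1.sum = q2 + w2.sum) (h1 : w1 ∈ Sw L.G q1) (h1' : w1 ∈ WB true k1) (h2 : w2 ∈ Sw L.G q2)
    (h2' : w2 ∈ WB true k2) (hd : Disj (fl true w1) (fl true w2)) (hn1 : 4 * n ≤ wm L q1 w1) (hn2 : 4 * n ≤ wm L q2 w2) :
    Sgz (alph L) 2 n (cd L q1 w1).reverse (cd L q2 w2).reverse := by
  have hlow : ∀ (i : ℕ) (x y : ℤ), i ≤ 1 → At (alph L) (cd L q1 w1).reverse i x →
      At (alph L) (cd L q2 w2).reverse i y → x = y := fun i x y hi hx hy =>
    lev_hi1 L hq1 hq2 he h1 h1' h2 h2' hi hx hy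
  have hkey : (∀ (i : ℕ) (x y : ℤ), 2 ≤ i → i ≤ n → At (alph L) (cd L q1 w1).reverse i x →
      At (alph L) (cd L q2 w2).reverse i y → x ≤ y ∧ (x = y → i = 2)) ∨
      (∀ (i : ℕ) (x y : ℤ), 2 ≤ i → i ≤ n → At (alph L) (cd L q1 w1).reverse i x →
      At (alph L) (cd L q2 w2).reverse i y → y ≤ x ∧ (y = x → i = 2)) := by
    rcases sg_of_disj (L.p * n + 1) (b6b_WB h1') (b6b_WB h2') hd with hpos | hpos
    · exact Or.inl fun i x y hi hin hx hy => b6b_key L hq1 hq2 he h1 h1' h2 h2' hd hn1 hn2 hpos hi hin hx hy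
    · exact Or.inr fun i x y hi hin hx hy =>
        b6b_key L hq2 hq1 he.symm h2 h2' h1 h1' (b6b_disj hd) hn2 hn1 hpos hi hin hy hx
  by_cases hall : ∀ x y : ℤ, At (alph L) (cd L q1 w1).reverse 2 x → At (alph L) (cd L q2 w2).reverse 2 y → x = y
  · refine ⟨2, le_refl 2, ?_, ?_⟩
    · intro i x y hi _ hx hy
      rcases Nat.lt_or_ge i 2 with h | h
      · exact hlow i x y (by omega) hx hy
      · have h3 : i = 2 := le_antisymm hi h
        subst h3
        exact hall x y hx hy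
    · rcases hkey with hk | hk
      · right
        intro i x y hi hin hx hy
        obtain ⟨k1, k2⟩ := hk i x y (by omega) hin hx hy
        exact lt_of_le_of_ne k1 fun h => by have := k2 h; omega
      · left
        intro i x y hi hin hx hy
        obtain ⟨k1, k2⟩ := hk i x y (by omega) hin hx hy
        exact lt_of_le_of_ne k1 fun h => by have := k2 h; omega
  · push Not at hall
    obtain ⟨x0, y0, hx0, hy0, hne⟩ := hall
    have hne2 : ∀ (i : ℕ) (x y : ℤ), i = 2 → At (alph L) (cd L q1 w1).reverse i x →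
        At (alph L) (cd L q2 w2).reverse i y → x ≠ y := by
      intro i x y hi hx hy
      subst hi
      rw [b6b_unique (alph L) hx hx0, b6b_unique (alph L) hy hy0]
      exact hne
    refine ⟨1, by norm_num, ?_, ?_⟩
    · intro i x y hi _ hx hy
      exact hlow i x y hi hx hy
    · rcases hkey with hk | hk
      · right
        intro i x y hi hin hx hy
        obtain ⟨k1, k2⟩ := hk i x y (by omega) hin hx hy
        exact lt_of_le_of_ne k1 fun h => hne2 i x y (k2 h) hx hy h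
      · left
        intro i x y hi hin hx hy
        obtain ⟨k1, k2⟩ := hk i x y (by omega) hin hx hy
        exact lt_of_le_of_ne k1 fun h => hne2 i x y (k2 h) hx hy h.symm

end Pool.Agent.RPL
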