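import Pool.Agent.RPL.B1
import Pool.Agent.ZHW.Flip

/-!
Module B7a: the first strand of a half-plane walk.

PAPER PROOF. `HU_first`: copy `HWs_first` of ZCS/HWs: `r ∈ HT true j`, `r ≠ []`; the smallest `m` with `r ∈ HT true m` is `m = d + 1 ≤ j`, and `HT_succ_decomp` (SHP/HW) gives `r = b ++ r0`, `b ∈ BT true (d + 1)`, `r0.map (refl true) ∈ HT true d` (look at its statement; `map_map_refl`). The walk conditions: `Sw_prefix`,
`Sw_suffix`. `HD_first`: apply this to `r.map (refl true)` (only the word part), and map back: `r = (r.map (refl true)).map (refl true)`; `List.map_append`.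
`gf_dec`: copy `HWs_decomp` (insert `[]`, choose `b`, `r'` for every `r ∈ A`, `r ≠ []`; the map `r ↦ (b, r')` is injective as `r = b ++ r'`; `gf_mono_set`, `gf_insert_nil_le`, `ENNReal.tsum_sigma'`, `ENNReal.tsum_comp_le_tsum_of_injective`).
`HU_zero`, `HD_zero`: `HT true 0 ⊆ {[]}` (`gf_HT_zero`; for `HD` the words `r` with `r.map (refl true) = []`).
-/

set_option autoImplicit false

namespace Pool.Agent.RPL

open Pool.Agent.SHP Pool.Agent.ZHW
open scoped ENNReal NNReal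

private theorem B7a_zero {w : Wd} (h : w ∈ HT true 0) : w = [] := by
  by_contra hne
  have h1 := h.2 w [] (List.append_nil w).symm
  have h2 := h.1.2 w [] (List.append_nil w).symm hne
  push_cast at h1
  omega

private theorem B7a_first {m : ℕ} {w : Wd} (hw : w ∈ HT true m) (hne : w ≠ []) :
    ∃ d < m, ∃ b r : Wd, w = b ++ r ∧ b ∈ BT true (d + 1) ∧ r.map (refl true) ∈ HT true d := by
  classical
  have hex : ∃ n, w ∈ HT true n := ⟨m, hw⟩
  have h0 : w ∉ HT true 0 := fun h => hne (B7a_zero h)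
  have h1 : Nat.find hex ≤ m := Nat.find_min' hex hw
  have h2 : w ∈ HT true (Nat.find hex) := Nat.find_spec hex
  have h3 : Nat.find hex ≠ 0 := by
    intro h
    rw [h] at h2
    exact h0 h2
  obtain ⟨d, hd⟩ : ∃ d, Nat.find hex = d + 1 := ⟨Nat.find hex - 1, by omega⟩
  have h4 : w ∉ HT true d := Nat.find_min hex (by omega)
  rw [hd] at h2
  obtain ⟨b, r, e, hb, hr⟩ := HT_succ_decomp h2 h4
  exact ⟨d, by omega, b, r, e, hb, hr⟩

theorem gf_dec {A : Set Wd} (S : Set Wd) (T : Wd → Set Wd) (z : ℝ≥0)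
    (h : ∀ r ∈ A, r ≠ [] → ∃ b ∈ S, ∃ r' ∈ T b, r = b ++ r') :
    gf A z ≤ 1 + ∑' b : S, (z : ℝ≥0∞) ^ (b : Wd).length * gf (T (b : Wd)) z := by
  classical
  set A' : Set Wd := {w | w ∈ A ∧ w ≠ []} with hA'
  have h1 : A ⊆ insert [] A' := by
    intro w hw
    by_cases h : w = []
    · exact Or.inl h
    · exact Or.inr ⟨hw, h⟩
  refine (gf_mono_set h1 z).trans ((gf_insert_nil_le A' z).trans ?_)
  gcongr
  have h2 : ∀ w : A', ∃ x : (Σ b : S, T (b : Wd)), (w : Wd) = (x.1 : Wd) ++ (x.2 : Wd) := by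
    rintro ⟨w, hw, hne⟩
    obtain ⟨b, hb, r, hr, e⟩ := h w hw hne
    exact ⟨⟨⟨b, hb⟩, ⟨r, hr⟩⟩, e⟩
  choose φ hφ using h2
  have hinj : Function.Injective φ := by
    intro w w' h
    apply Subtype.ext
    rw [hφ w, hφ w', h]
  have h3 : ∑' b : S, (z : ℝ≥0∞) ^ (b : Wd).length * gf (T (b : Wd)) z =
      ∑' x : (Σ b : S, T (b : Wd)),
        (z : ℝ≥0∞) ^ (x.1 : Wd).length * (z : ℝ≥0∞) ^ (x.2 : Wd).length := by
    rw [ENNReal.tsum_sigma']
    refine tsum_congr fun b => ?_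
    exact ENNReal.tsum_mul_left.symm
  rw [h3]
  unfold gf
  refine le_trans (le_of_eq ?_) (ENNReal.tsum_comp_le_tsum_of_injective hinj _)
  refine tsum_congr fun w => ?_
  rw [← pow_add]
  congr 1
  conv_lhs => rw [hφ w]
  rw [List.length_append]

theorem HU_first (L : Lat) {q : ℤ × ℤ} {j : ℕ} {r : Wd} (hr : r ∈ HU L q j) (hne : r ≠ []) :
    ∃ d < j, ∃ b r' : Wd, r = b ++ r' ∧ b ∈ BT true (d + 1) ∧ b ∈ Sw L.G q ∧ r' ∈ HD L (q + b.sum) d := by
  obtain ⟨d, hd, b, r', e, hb, hr'⟩ := B7a_first hr.2 hne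
  have h1 := hr.1
  rw [e] at h1
  exact ⟨d, hd, b, r', e, hb, Sw_prefix h1, Sw_suffix h1, hr'⟩

theorem HD_first (L : Lat) {q : ℤ × ℤ} {j : ℕ} {r : Wd} (hr : r ∈ HD L q j) (hne : r ≠ []) :
    ∃ d < j, ∃ b r' : Wd, r = b ++ r' ∧ b.map (refl true) ∈ BT true (d + 1) ∧ b ∈ Sw L.G q ∧ r' ∈ HU L (q + b.sum) d := by
  have hne' : r.map (refl true) ≠ [] := by
    intro h
    exact hne (List.map_eq_nil_iff.1 h)
  obtain ⟨d, hd, b, r', e, hb, hr'⟩ := B7a_first hr.2 hne'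
  have e' : r = b.map (refl true) ++ r'.map (refl true) := by
    rw [← List.map_append, ← e, map_map_refl]
  have h1 := hr.1
  rw [e'] at h1
  exact ⟨d, hd, b.map (refl true), r'.map (refl true), e', by rw [map_map_refl]; exact hb,
    Sw_prefix h1, Sw_suffix h1, hr'⟩

theorem HU_zero (L : Lat) {q : ℤ × ℤ} {r : Wd} (hr : r ∈ HU L q 0) : r = [] :=
  B7a_zero hr.2

theorem HD_zero (L : Lat) {q : ℤ × ℤ} {r : Wd} (hr : r ∈ HD L q 0) : r = [] :=
  List.map_eq_nil_iff.1 (B7a_zero hr.2)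

end Pool.Agent.RPL
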