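import Pool.Agent.RPL.B7s
import Pool.Agent.RPL.B7a

/-!
Module B7b: definitions for the chains (no sorry).

`ctD`: continuations to the left of a strand which goes to the right; `ctU`: continuations to the right of a strand which goes to the left.
`StD K`, `StU K`: the two statements of the induction.
-/

set_option autoImplicit false

namespace Pool.Agent.RPL

open Pool.Agent.SHP Pool.Agent.ZHW
open scoped ENNReal NNReal

/-- Continuations to the left, of width at most `j`, of the strand `w` from `q` to `q + w.sum`. -/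
def ctD (L : Lat) (q : ℤ × ℤ) (w : Wd) (j : ℕ) : Set Wd := {r | r ∈ HD L (q + w.sum) j ∧ w ++ r ∈ saws true}

/-- Continuations to the right, of width at most `j`, of the strand `rev w` from `q + w.sum` to `q`. -/
def ctU (L : Lat) (q : ℤ × ℤ) (w : Wd) (j : ℕ) : Set Wd := {r | r ∈ HU L q j ∧ rev w ++ r ∈ saws true}

/-- The statement for the strands which go to the right. -/
def StD (L : Lat) (n : ℕ → ℕ) (y : ℝ≥0) (K : ℕ) : Prop :=
  ∀ (q : ℤ × ℤ) (w : Wd) (k j : ℕ), Sup L.G q → w ∈ Sw L.G q → w ∈ BT true k → j < k → j ≤ K →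
      gf (ctD L q w j) (y * zo L) ≤ V (alph L) 2 (2 * L.p) (Cc L) n y K (ix L q w) (cd L q w)

/-- The statement for the strands which go to the left. -/
def StU (L : Lat) (n : ℕ → ℕ) (y : ℝ≥0) (K : ℕ) : Prop :=
  ∀ (q : ℤ × ℤ) (w : Wd) (k j : ℕ), Sup L.G q → w ∈ Sw L.G q → fl true w ∈ BT true k → j < k → j ≤ K →
      gf (ctU L q w j) (y * zo L) ≤ V (alph L) 2 (2 * L.p) (Cc L) n y K (ix L q w) (cd L q w).reverse

end Pool.Agent.RPL
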