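import Pool.Agent.RPL.B6a
import Pool.Agent.RPL.B7b

/-!
Module B7u: the induction step for the strands which go to the left.

PAPER PROOF. Write `z = zo L`, `R = 2 p`, `A = alph L`. The strand `rev w` goes from `q + w.sum` (right) to `q` (left), `fl true w ∈ BT true k`, so `w = fl true (fl true w) ∈ CB true k` (`fl_fl`, `fl_CB`), `w ∈ WB true k` (`CB_WB`), `w.sum.1 = k`. `j < k`, `j ≤ K + 1`, `X = (cd L q w).reverse`, `X.reverse = cd L q w`, `h = ix L q w`.
`gf_dec` with `S = {b | b ∈ Sw L.G q ∧ (∃ d < j, b ∈ BT true (d + 1)) ∧ rev w ++ b ∈ saws true}` and `T b = ctD L q b (b.sum.1.toNat - 1)`: for `r ∈ ctU L q w j`, `r ≠ []`, `HU_first` gives `r = b ++ r'`, `b.sum.1 = d + 1`, `rev w ++ b` is a prefix of `rev w ++ r` and `b ++ r'` a suffix (`saws_infix`), so `r' ∈ T b`.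
Then unfold `V .. (K + 1) h X` (it is `1 + ∑ ..` by definition) and apply `strand_sum` with `ι = S`, `sq b = q`, `sw b = b`, `cls b = ty L (q + b.sum)`, `Y b = cd L q b`, `Gf b = gf (T b) (y * z)`, `F d Y = if Sgz A 2 (n (d / R)) X.reverse Y then V A 2 R (Cc L) n y K d Y else 0`. The hypotheses: `hs`: `BT_WB`. `hh`: `ix_lt_left`
(`b.sum.1 = d + 1 ≤ j < k = w.sum.1`). `hinj`: equal codes give equal words `hat` (`flat_code` with `hat_mem`): `al L q ++ (b ++ br L (q + b.sum)) = al L q ++ (b' ++ br L (q + b'.sum))`, and the last parts are equal by `br_ty`, so `b = b'`. `hc`: `ty_range`. `hGF`: the condition `Sgz` holds by `fold_lo` (`w1 = w`, `w2 = b`; `Disj w b` is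
`JP_disj` for `(fl true w, b) ∈ JP true k (d + 1)`: `fl true w ++ b.map (refl true) = (rev w ++ b).map (refl true) ∈ saws true` by `map_refl_saws`, and `fl true (fl true w) = w`; cutoff `n (ix L q b / R)` with `ix / R = wm` (`ix_div`), `4 * n m ≤ m` and `wm L q b ≤ wm L q w` from `ix_div` and `hh`), and then
`Gf b ≤ V A 2 R (Cc L) n y K (ix ..) (cd ..)` is `StD` for `K` (the word `b`, `k = d + 1`, `j = d ≤ K`).
-/

set_option autoImplicit false

namespace Pool.Agent.RPL

open Pool.Agent.SHP Pool.Agent.ZHW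
open scoped ENNReal NNReal

theorem step_U (L : Lat) (n : ℕ → ℕ) (hn : ∀ m, 4 * n m ≤ m) {y : ℝ≥0} (hy : 1 / 2 ≤ y) (hy1 : y ≤ 1) (K : ℕ)
    (h : StD L n y K) : StU L n y (K + 1) := by
  classical
  intro q w k j hq hw hwB hjk hjK
  have hwC : w ∈ CB true k := by
    have h1 := fl_CB hwB
    rwa [fl_fl] at h1
  have hwW : w ∈ WB true k := CB_WB hwC
  have hws : w.sum.1 = (k : ℤ) := hwC.2.2.2
  set S : Set Wd := {b | b ∈ Sw L.G q ∧ (∃ d < j, b ∈ BT true (d + 1)) ∧ rev w ++ b ∈ saws true}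
    with hS
  have hsum : ∀ {b : Wd} {d : ℕ}, b ∈ BT true (d + 1) → b.sum.1 = (d : ℤ) + 1 := by
    intro b d hb
    have h1 := (BT_WB hb).2.2.2
    rw [h1]
    push_cast
    rfl
  have hdec := gf_dec (A := ctU L q w j) S (fun b => ctD L q b (b.sum.1.toNat - 1)) (y * zo L) (by
    intro r hr hne
    obtain ⟨d, hd, b, r', e, hb, hbS, hr'⟩ := HU_first L hr.1 hne
    have h1 : b.sum.1.toNat - 1 = d := by
      rw [hsum hb]
      omega
    refine ⟨b, ⟨hbS, ⟨d, hd, hb⟩, ?_⟩, r', ⟨?_, ?_⟩, e⟩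
    · apply saws_infix (u := []) (w := r')
      have h3 := hr.2
      rw [e] at h3
      simpa using h3
    · rw [h1]
      exact hr'
    · rw [← e]
      exact hr.1.1.1)
  refine hdec.trans ?_
  rw [V, List.reverse_reverse]
  gcongr
  refine strand_sum L (ι := S) (fun _ => q) (fun b => b.1) (fun b => ty L (q + b.1.sum))
    (fun b => cd L q b.1) (h := ix L q w) hy hy1 ?_ ?_ (fun _ => Or.inl rfl)
    (fun _ => ty_range L _) ?_ _
    (fun d Y => if Sgz (alph L) 2 (n (d / (2 * L.p))) (cd L q w) Y then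
      V (alph L) 2 (2 * L.p) (Cc L) n y K d Y else 0) ?_
  · rintro ⟨b, hbS, ⟨d, hd, hb⟩, hbs⟩
    exact ⟨hq, hbS, d + 1, BT_WB hb⟩
  · rintro ⟨b, hbS, ⟨d, hd, hb⟩, hbs⟩
    apply ix_lt_left L
    · show 0 ≤ b.sum.1
      rw [hsum hb]
      positivity
    · show b.sum.1 < w.sum.1
      rw [hsum hb, hws]
      omega
  · rintro ⟨b, hbS, ⟨d, hd, hb⟩, hbs⟩ ⟨b', hbS', ⟨d', hd', hb'⟩, hbs'⟩ hcls hY
    apply Subtype.ext
    show b = b'
    have h1 : code L (hat L q b) = code L (hat L q b') := hY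
    have h2 := congrArg (flat L) h1
    rw [flat_code L (hat_mem L hq hbS (BT_WB hb)), flat_code L (hat_mem L hq hbS' (BT_WB hb'))] at h2
    unfold hat at h2
    have h3 : ty L (q + b.sum) = ty L (q + b'.sum) := hcls
    rw [br_ty L h3] at h2
    exact List.append_cancel_right (List.append_cancel_left h2)
  · rintro ⟨b, hbS, ⟨d, hd, hb⟩, hbs⟩
    have hbsum := hsum hb
    have hb0 : 0 ≤ b.sum.1 := by
      rw [hbsum]
      positivity
    have hw0 : 0 ≤ w.sum.1 := by
      rw [hws]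
      positivity
    have h1 : b.sum.1.toNat - 1 = d := by
      rw [hbsum]
      omega
    have hlt : ix L q b < ix L q w := ix_lt_left L hb0 (by rw [hbsum, hws]; omega)
    have hwm : wm L q b ≤ wm L q w := by
      rw [← ix_div L hb0, ← ix_div L hw0]
      exact Nat.div_le_div_right hlt.le
    have hdis : Disj w b := by
      have h2 : ((fl true w, b) : Wd × Wd) ∈ JP true k (d + 1) := by
        refine ⟨hwB, hb, ?_⟩
        have h3 := map_refl_saws hbs
        rw [List.map_append] at h3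
        exact h3
      have h3 := JP_disj h2
      rwa [fl_fl] at h3
    have hsg : Sgz (alph L) 2 (n (ix L q b / (2 * L.p))) (cd L q w) (cd L q b) := by
      rw [ix_div L hb0]
      exact fold_lo L hq hw hwW hbS (BT_WB hb) hdis ((hn _).trans hwm) (hn _)
    show gf (ctD L q b (b.sum.1.toNat - 1)) (y * zo L) ≤ if Sgz (alph L) 2 (n (ix L q b / (2 * L.p))) (cd L q w) (cd L q b) then
      V (alph L) 2 (2 * L.p) (Cc L) n y K (ix L q b) (cd L q b) else 0
    rw [if_pos hsg, h1]
    exact h q b (d + 1) d hq hbS hb (by omega) (by omega)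

end Pool.Agent.RPL
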