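import Pool.Agent.RPL.B7d
import Pool.Agent.RPL.B7u

/-!
Module B7c: continuations of a strand against the chains `V`.

PAPER PROOF. Induction with `step_D`, `step_U`; for `K = 0`: `j = 0`, the set is contained in `{[]}` (`HD_zero`, `HU_zero`), mass `≤ 1`.
-/

set_option autoImplicit false

namespace Pool.Agent.RPL

open Pool.Agent.SHP Pool.Agent.ZHW
open scoped ENNReal NNReal

private theorem B7c_nil {A : Set Wd} (h : ∀ r ∈ A, r = []) (z : ℝ≥0) : gf A z ≤ 1 := by
  have h1 : gf A z ≤ 1 + ∑' b : (∅ : Set Wd), (z : ℝ≥0∞) ^ (b : Wd).length * gf (∅ : Set Wd) z :=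
    gf_dec ∅ (fun _ => ∅) z (fun r hr hne => absurd (h r hr) hne)
  refine h1.trans ?_
  simp

theorem chain_UD (L : Lat) (n : ℕ → ℕ) (hn : ∀ m, 4 * n m ≤ m) {y : ℝ≥0} (hy : 1 / 2 ≤ y) (hy1 : y ≤ 1) (K : ℕ) :
    StD L n y K ∧ StU L n y K := by
  induction K with
  | zero =>
    constructor
    · intro q w k j _ _ _ _ hj
      obtain rfl : j = 0 := by omega
      exact B7c_nil (fun r hr => HD_zero L hr.1) _
    · intro q w k j _ _ _ _ hj
      obtain rfl : j = 0 := by omega
      exact B7c_nil (fun r hr => HU_zero L hr.1) _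
  | succ K ih => exact ⟨step_D L n hn hy hy1 K ih.2, step_U L n hn hy hy1 K ih.1⟩

end Pool.Agent.RPL
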