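import Pool.Agent.RPL.B6b
import Pool.Agent.RPL.B7b

/-!
Module B7d: the induction step for the strands which go to the right.

PAPER PROOF. Write `z = zo L`, `R = 2 p`, `A = alph L`. Let `w` go from `q` to `q' = q + w.sum`, `w ∈ BT true k`, `j < k`, `j ≤ K + 1`, `X = cd L q w`, `h = ix L q w`. `gf_dec` with `S = {b | b ∈ Sw L.G q' ∧ (∃ d < j, b.map (refl true) ∈ BT true (d + 1)) ∧ w ++ b ∈ saws true}` and
`T b = ctU L (q' + b.sum) (rev b) ((-b.sum.1).toNat - 1)`: for `r ∈ ctD L q w j`, `r ≠ []`, `HD_first` gives `r = b ++ r'`, `b.sum.1 = -(d + 1)` (`(b.map (refl true)).sum.1 = -b.sum.1`: `sum_map_refl`), `w ++ b` is a prefix of `w ++ r` (`saws_infix`), and `rev (rev b) ++ r' = b ++ r'` is a factor of `w ++ r`, so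
`r' ∈ T b` (`(d + 1) - 1 = d`). Then unfold `V .. (K + 1) h X` (it is `1 + ∑ ..` by definition: `rw [V]` or `show`) and apply `strand_sum` with `ι = S`, `sq b = q' + b.sum`, `sw b = rev b`, `cls b = ty L (q' + b.sum)`, `Y b = (cd L (q' + b.sum) (rev b)).reverse`, `Gf b = gf (T b) (y * z)`,
`F d Y = if Sgz A 2 (n (d / R)) X.reverse Y then V A 2 R (Cc L) n y K d Y else 0` (`(rev b).length = b.length`: `rev_length`). The hypotheses: `hs`: `Sup_end`; `Sw_rev` (`b` from `q'` to `q' + b.sum`); `fl true (rev b) = b.map (refl true) ∈ BT true (d + 1)` (`fl true l = (rev l).map (refl true)`, `rev_rev`), so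
`rev b = fl true (fl true (rev b)) ∈ CB true (d + 1)` (`fl_fl`, `fl_CB`) and `CB_WB`. `hh`: `ix_lt_right` (`(q' + b.sum) + (rev b).sum = q' = q + w.sum` by `rev_sum`, `(rev b).sum.1 = d + 1 ≤ j < k = w.sum.1`). `hinj`: if `ty (q' + b.sum) = ty (q' + b'.sum)` and the codes are equal then the words `hat` are equal
(`flat_code` with `hat_mem`), they have the same first part `al` (`al_ty`) and the same last part `br L q'` (`(q' + b.sum) + (rev b).sum = q'`), so `rev b = rev b'`, `b = b'` (`rev_rev`). `hc`: `ty_range`. `hGF`: the condition `Sgz` holds by `fold_hi` (`w1 = w`, `w2 = rev b`; `Disj (fl true w) (fl true (rev b))` is `JP_disj` for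
`(w, b.map (refl true)) ∈ JP true k (d + 1)`: `w ++ (b.map (refl true)).map (refl true) = w ++ b ∈ saws true`; cutoff `n (ix L (q' + b.sum) (rev b) / R)` with `ix / R = wm` (`ix_div`), `4 * n m ≤ m`, and `wm L (q' + b.sum) (rev b) ≤ wm L q w` from `ix_div` and `hh` (`Nat.div_le_div_right`); `BT_WB` for `w`), and then
`Gf b ≤ V A 2 R (Cc L) n y K (ix ..) (cd ..).reverse` is `StU` for `K` (for the vertex `q' + b.sum`, the word `rev b`, `k = d + 1`, `j = d ≤ K`).
-/

set_option autoImplicit false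

namespace Pool.Agent.RPL

open Pool.Agent.SHP Pool.Agent.ZHW
open scoped ENNReal NNReal

private def b7dS (L : Lat) (q : ℤ × ℤ) (w : Wd) (j : ℕ) : Set Wd :=
  {b | b ∈ Sw L.G (q + w.sum) ∧ (∃ d < j, b.map (refl true) ∈ BT true (d + 1)) ∧ w ++ b ∈ saws true}

private def b7dT (L : Lat) (q : ℤ × ℤ) (w : Wd) (b : Wd) : Set Wd :=
  ctU L (q + w.sum + b.sum) (rev b) ((-b.sum.1).toNat - 1)

private theorem b7d_pre {u v : Wd} (h : u ++ v ∈ saws true) : u ∈ saws true := by
  refine ⟨fun s hs => h.1 s (List.mem_append_left _ hs), fun a b c e h0 => ?_⟩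
  exact h.2 a b (c ++ v) (by rw [e]; simp only [List.append_assoc]) h0

private theorem b7d_suf {u v : Wd} (h : u ++ v ∈ saws true) : v ∈ saws true := by
  refine ⟨fun s hs => h.1 s (List.mem_append_right _ hs), fun a b c e h0 => ?_⟩
  exact h.2 (u ++ a) b c (by rw [e]; simp only [List.append_assoc]) h0

private theorem b7d_sum {b : Wd} {d : ℕ} (h : b.map (refl true) ∈ BT true (d + 1)) : b.sum.1 = -((d : ℤ) + 1) := by
  have h1 := h.2
  rw [sum_map_refl] at h1
  have h2 : (refl true b.sum).1 = -b.sum.1 := rfl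
  rw [h2] at h1
  push_cast at h1
  linarith

private theorem b7d_toNat {b : Wd} {d : ℕ} (h : b.map (refl true) ∈ BT true (d + 1)) : (-b.sum.1).toNat - 1 = d := by
  rw [b7d_sum h]
  omega

private theorem b7d_fl (b : Wd) : fl true (rev b) = b.map (refl true) := by
  unfold fl
  rw [rev_rev]

private theorem b7d_WB {b : Wd} {d : ℕ} (h : b.map (refl true) ∈ BT true (d + 1)) : rev b ∈ WB true (d + 1) := by
  rw [← b7d_fl] at h
  have h1 := fl_CB h
  rw [fl_fl] at h1
  exact CB_WB h1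

private theorem b7d_rsum {b : Wd} {d : ℕ} (h : b.map (refl true) ∈ BT true (d + 1)) : (rev b).sum.1 = (d : ℤ) + 1 := by
  rw [rev_sum, Prod.fst_neg, b7d_sum h, neg_neg]

private theorem b7d_end (q : ℤ × ℤ) (b : Wd) : q + b.sum + (rev b).sum = q := by
  rw [rev_sum, add_neg_cancel_right]

private theorem b7d_dec (L : Lat) {q : ℤ × ℤ} {w : Wd} {j : ℕ} : ∀ r ∈ ctD L q w j, r ≠ [] →
    ∃ b ∈ b7dS L q w j, ∃ r' ∈ b7dT L q w b, r = b ++ r' := by
  rintro r ⟨hr, hrs⟩ hne
  obtain ⟨d, hd, b, r', rfl, hb, hbS, hr'⟩ := HD_first L hr hne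
  refine ⟨b, ⟨hbS, ⟨d, hd, hb⟩, ?_⟩, r', ⟨?_, ?_⟩, rfl⟩
  · rw [← List.append_assoc] at hrs
    exact b7d_pre hrs
  · rw [b7d_toNat hb]
    exact hr'
  · rw [rev_rev]
    exact b7d_suf hrs

private theorem b7d_hat (L : Lat) {q : ℤ × ℤ} {b b' : Wd} {d d' : ℕ} (h1 : Sup L.G (q + b.sum)) (h1' : Sup L.G (q + b'.sum))
    (h2 : rev b ∈ Sw L.G (q + b.sum)) (h2' : rev b' ∈ Sw L.G (q + b'.sum)) (h3 : rev b ∈ WB true d)
    (h3' : rev b' ∈ WB true d') (ht : ty L (q + b.sum) = ty L (q + b'.sum))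
    (he : cd L (q + b.sum) (rev b) = cd L (q + b'.sum) (rev b')) : b = b' := by
  have e1 : flat L (cd L (q + b.sum) (rev b)) = hat L (q + b.sum) (rev b) := flat_code L (hat_mem L h1 h2 h3)
  have e2 : flat L (cd L (q + b'.sum) (rev b')) = hat L (q + b'.sum) (rev b') := flat_code L (hat_mem L h1' h2' h3')
  rw [he, e2] at e1
  unfold hat at e1
  rw [b7d_end, b7d_end, al_ty L ht] at e1
  have e3 := List.append_cancel_right (List.append_cancel_left e1)
  rw [← rev_rev b, ← rev_rev b', e3]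

theorem step_D (L : Lat) (n : ℕ → ℕ) (hn : ∀ m, 4 * n m ≤ m) {y : ℝ≥0} (hy : 1 / 2 ≤ y) (hy1 : y ≤ 1) (K : ℕ)
    (h : StU L n y K) : StD L n y (K + 1) := by
  classical
  intro q w k j hq hw hwk hjk hjK
  have hq' : Sup L.G (q + w.sum) := Sup_end hq hw.2
  refine (gf_dec (b7dS L q w j) (b7dT L q w) (y * zo L) (b7d_dec L)).trans ?_
  have hwW := BT_WB hwk
  have hws : w.sum.1 = (k : ℤ) := hwW.2.2.2
  have hs : ∀ b : b7dS L q w j, Sup L.G (q + w.sum + (b : Wd).sum) ∧
      rev (b : Wd) ∈ Sw L.G (q + w.sum + (b : Wd).sum) ∧ ∃ k, rev (b : Wd) ∈ WB true k := by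
    rintro ⟨b, hb1, ⟨d, hd, hb2⟩, hb3⟩
    exact ⟨Sup_end hq' hb1.2, Sw_rev hb1, d + 1, b7d_WB hb2⟩
  have hh : ∀ b : b7dS L q w j, ix L (q + w.sum + (b : Wd).sum) (rev (b : Wd)) < ix L q w := by
    rintro ⟨b, hb1, ⟨d, hd, hb2⟩, hb3⟩
    have h1 := b7d_rsum hb2
    refine ix_lt_right L ?_ ?_ (b7d_end _ _)
    · show 0 ≤ (rev b).sum.1
      rw [h1]
      positivity
    · show (rev b).sum.1 < w.sum.1
      rw [h1, hws]
      have : d + 1 < k := by omega
      exact_mod_cast this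
  have hGF : ∀ b : b7dS L q w j, gf (b7dT L q w (b : Wd)) (y * zo L) ≤
      (fun (d : ℕ) (Y : List (LT L)) => if Sgz (alph L) 2 (n (d / (2 * L.p))) (cd L q w).reverse Y then
        V (alph L) 2 (2 * L.p) (Cc L) n y K d Y else 0)
      (ix L (q + w.sum + (b : Wd).sum) (rev (b : Wd))) ((cd L (q + w.sum + (b : Wd).sum) (rev (b : Wd))).reverse) := by
    intro b
    have hhb := hh b
    obtain ⟨b, hb1, ⟨d, hd, hb2⟩, hb3⟩ := b
    have h1 : (rev b).sum.1 = (d : ℤ) + 1 := b7d_rsum hb2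
    have hq1 : Sup L.G (q + w.sum + b.sum) := Sup_end hq' hb1.2
    have hdv : ix L (q + w.sum + b.sum) (rev b) / (2 * L.p) = wm L (q + w.sum + b.sum) (rev b) :=
      ix_div L (by rw [h1]; positivity)
    have hdw : ix L q w / (2 * L.p) = wm L q w := ix_div L (by rw [hws]; positivity)
    have hle : wm L (q + w.sum + b.sum) (rev b) ≤ wm L q w := by
      rw [← hdv, ← hdw]
      exact Nat.div_le_div_right hhb.le
    have hS : Sgz (alph L) 2 (n (ix L (q + w.sum + b.sum) (rev b) / (2 * L.p))) (cd L q w).reverse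
        (cd L (q + w.sum + b.sum) (rev b)).reverse := by
      rw [hdv]
      refine fold_hi L hq hq1 (b7d_end _ _).symm hw hwW (Sw_rev hb1) (b7d_WB hb2) ?_ ((hn _).trans hle) (hn _)
      have hJ : (w, b.map (refl true)) ∈ JP true k (d + 1) := by
        refine ⟨hwk, hb2, ?_⟩
        show w ++ (b.map (refl true)).map (refl true) ∈ saws true
        rw [map_map_refl]
        exact hb3
      have h2 := JP_disj hJ
      rw [b7d_fl]
      exact h2
    show gf (b7dT L q w b) (y * zo L) ≤ if Sgz (alph L) 2 (n (ix L (q + w.sum + b.sum) (rev b) / (2 * L.p)))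
      (cd L q w).reverse (cd L (q + w.sum + b.sum) (rev b)).reverse then
        V (alph L) 2 (2 * L.p) (Cc L) n y K (ix L (q + w.sum + b.sum) (rev b))
          (cd L (q + w.sum + b.sum) (rev b)).reverse else 0
    rw [if_pos hS]
    have h3 := h (q + w.sum + b.sum) (rev b) (d + 1) d hq1 (Sw_rev hb1) (by rw [b7d_fl]; exact hb2)
      (Nat.lt_succ_self d) (by omega)
    have h4 : b7dT L q w b = ctU L (q + w.sum + b.sum) (rev b) d := by
      unfold b7dT
      rw [b7d_toNat hb2]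
    rw [h4]
    exact h3
  have hmain := strand_sum L (ι := b7dS L q w j) (fun b => q + w.sum + (b : Wd).sum) (fun b => rev (b : Wd))
    (fun b => ty L (q + w.sum + (b : Wd).sum)) (fun b => (cd L (q + w.sum + (b : Wd).sum) (rev (b : Wd))).reverse)
    (h := ix L q w) hy hy1 hs hh (fun b => Or.inr rfl) (fun b => ty_range L _)
    (by
      rintro ⟨b, hb1, ⟨d, hd, hb2⟩, hb3⟩ ⟨b', hb1', ⟨d', hd', hb2'⟩, hb3'⟩ ht hY
      exact Subtype.ext (b7d_hat L (Sup_end hq' hb1.2) (Sup_end hq' hb1'.2) (Sw_rev hb1) (Sw_rev hb1') (b7d_WB hb2)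
        (b7d_WB hb2') ht (List.reverse_injective hY)))
    (fun b => gf (b7dT L q w (b : Wd)) (y * zo L))
    (fun (d : ℕ) (Y : List (LT L)) => if Sgz (alph L) 2 (n (d / (2 * L.p))) (cd L q w).reverse Y then
        V (alph L) 2 (2 * L.p) (Cc L) n y K d Y else 0) hGF
  have hlen : ∀ b : b7dS L q w j, (rev (b : Wd)).length = (b : Wd).length := fun b => rev_length _
  simp only [hlen] at hmain
  exact add_le_add le_rfl hmain

end Pool.Agent.RPL
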