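import Pool.Agent.RPL.B4c

/-!
Module B7s: a sum over strands against the sum over lists of letters.

PAPER PROOF. Write `z = zo L`, `B = Bo L`, `R = 2 p`. Every strand `(q, w) = (sq i, sw i)` has `w.sum.1 ≥ 0` (`WB`), `H = hat L q w ∈ CBo L (wm L q w)` (`hat_mem`), so `cd L q w ∈ Lr (alph L) (wm L q w)` (`wd_code`), `wm = ix / R` (`ix_div`), `mm (cd L q w) = z ^ H.length` (`mm_code`),
`H.length = (al L q).length + w.length + (br L (q + w.sum)).length ≤ w.length + 2 B` (`al_le`, `br_le`); the same for the reversed list (`wd`, `mm` of a reversed list: `List.map_reverse`, `List.sum_reverse`, `List.prod_reverse`). Also `wm ≤ w.sum.1 + 3 ≤ w.length + 3` (`wm_le`, `fst_sum_le_length`).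
So, as `y ≥ 1 / 2` and `y ≤ 1`: `y ^ w.length ≤ 8 * y ^ (w.length + 3) ≤ 8 * y ^ wm` and `z ^ w.length ≤ (z⁻¹) ^ (2 B) * z ^ (w.length + 2 B) ≤ (z⁻¹) ^ (2 B) * mm (Y i)` (`0 < z ≤ 1`), i.e. `(y z) ^ w.length ≤ c * y ^ (ix / R) * mm (Y i)` with `c = 8 * (z⁻¹) ^ (2 B)`.
The map `i ↦ (cls i, ix, Y i)` into `(Fin p × Fin p) × (Σ d : Ico R h, Lr (alph L) (d / R))` is injective (`hinj`; `ix ≥ R` because `wm ≥ 3`, `wm_ge`, and `ix < h`: `hh`). So the left side is at most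
`∑ (classes) ∑ d ∈ Ico R h, ∑' Y', c * y ^ (d / R) * mm Y' * F d Y' = p ^ 2 * (...)` (`ENNReal.tsum_comp_le_tsum_of_injective`, `ENNReal.tsum_sigma'`, `tsum_fintype`; compare `HWs_decomp` in ZCS/HWs).
-/

set_option autoImplicit false

namespace Pool.Agent.RPL

open Pool.Agent.SHP Pool.Agent.ZHW
open scoped ENNReal NNReal

/-- The factor of a strand. -/
noncomputable def Cc (L : Lat) : ℝ≥0∞ := (L.p : ℝ≥0∞) ^ 2 * 8 * ((zo L : ℝ≥0∞)⁻¹) ^ (2 * Bo L)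

theorem Cc_ne_top (L : Lat) : Cc L ≠ ⊤ := by
  have hz : (zo L : ℝ≥0∞) ≠ 0 := by
    have := zo_pos L
    exact_mod_cast this.ne'
  unfold Cc
  exact ENNReal.mul_ne_top (ENNReal.mul_ne_top (ENNReal.pow_ne_top (ENNReal.natCast_ne_top _)) (by norm_num))
    (ENNReal.pow_ne_top (ENNReal.inv_ne_top.2 hz))

private theorem b7s_y {y : ℝ≥0} (hy : 1 / 2 ≤ y) (hy1 : y ≤ 1) {l m : ℕ} (h : m ≤ l + 3) :
    (y : ℝ≥0∞) ^ l ≤ 8 * (y : ℝ≥0∞) ^ m := by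
  have h1 : (1 : ℝ≥0) ≤ 8 * y ^ 3 := by
    have h2 : (1 / 2 : ℝ≥0) ^ 3 ≤ y ^ 3 := pow_le_pow_left₀ (by positivity) hy 3
    calc (1 : ℝ≥0) = 8 * (1 / 2) ^ 3 := by norm_num
      _ ≤ 8 * y ^ 3 := mul_le_mul_right h2 _
  have h3 : y ^ l ≤ 8 * y ^ m := by
    calc y ^ l = 1 * y ^ l := (one_mul _).symm
      _ ≤ (8 * y ^ 3) * y ^ l := mul_le_mul_left h1 _
      _ = 8 * y ^ (l + 3) := by rw [pow_add]; ring
      _ ≤ 8 * y ^ m := mul_le_mul_right (pow_le_pow_of_le_one (by positivity) hy1 h) _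
  exact_mod_cast h3

private theorem b7s_z (L : Lat) {l m : ℕ} (h : m ≤ l + 2 * Bo L) :
    (zo L : ℝ≥0∞) ^ l ≤ ((zo L : ℝ≥0∞)⁻¹) ^ (2 * Bo L) * (zo L : ℝ≥0∞) ^ m := by
  have hz : (zo L : ℝ≥0∞) ≠ 0 := by
    have := zo_pos L
    exact_mod_cast this.ne'
  have hz1 : (zo L : ℝ≥0∞) ≤ 1 := by exact_mod_cast zo_le_one L
  have h1 : ((zo L : ℝ≥0∞)⁻¹) ^ (2 * Bo L) * (zo L : ℝ≥0∞) ^ (l + 2 * Bo L) = (zo L : ℝ≥0∞) ^ l := by
    rw [pow_add, mul_comm ((zo L : ℝ≥0∞) ^ l), ← mul_assoc, ← mul_pow, ENNReal.inv_mul_cancel hz ENNReal.coe_ne_top,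
      one_pow, one_mul]
  rw [← h1]
  exact mul_le_mul_right (pow_le_pow_of_le_one zero_le hz1 h) _

private theorem b7s_wd (L : Lat) (Z : List (LT L)) : wd (alph L) Z.reverse = wd (alph L) Z := by
  unfold wd
  rw [List.map_reverse, List.sum_reverse]

private theorem b7s_mm (L : Lat) (Z : List (LT L)) : mm (alph L) Z.reverse = mm (alph L) Z := by
  unfold mm
  rw [List.map_reverse]
  exact (List.reverse_perm _).prod_eq

/-- The data of one strand. -/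
private theorem b7s_one (L : Lat) {q : ℤ × ℤ} {w : Wd} {Y : List (LT L)} {y : ℝ≥0} (hy : 1 / 2 ≤ y) (hy1 : y ≤ 1)
    (hq : Sup L.G q) (hw : w ∈ Sw L.G q) (hk : ∃ k, w ∈ WB true k) (hY : Y = cd L q w ∨ Y = (cd L q w).reverse) :
    2 * L.p ≤ ix L q w ∧ wd (alph L) Y = ix L q w / (2 * L.p) ∧
      ((y * zo L : ℝ≥0) : ℝ≥0∞) ^ w.length ≤
        8 * ((zo L : ℝ≥0∞)⁻¹) ^ (2 * Bo L) * (y : ℝ≥0∞) ^ (ix L q w / (2 * L.p)) * mm (alph L) Y := by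
  obtain ⟨k, hk⟩ := hk
  have h0 : 0 ≤ w.sum.1 := by
    rw [hk.2.2.2]
    positivity
  have hm := hat_mem L hq hw hk
  have h1 : wd (alph L) Y = wm L q w := by
    rcases hY with h | h
    · rw [h]; exact wd_code L hm
    · rw [h, b7s_wd]; exact wd_code L hm
  have h2 : mm (alph L) Y = (zo L : ℝ≥0∞) ^ (hat L q w).length := by
    rcases hY with h | h
    · rw [h]; exact mm_code L hm
    · rw [h, b7s_mm]; exact mm_code L hm
  have h3 : (hat L q w).length ≤ w.length + 2 * Bo L := by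
    have e1 := al_le L q
    have e2 := br_le L (q + w.sum)
    unfold hat
    rw [List.length_append, List.length_append]
    omega
  have h4 : wm L q w ≤ w.length + 3 := by
    have e1 := wm_le L (q := q) h0
    have e2 := fst_sum_le_length (t := true) (fun s hs => hw.1.1 s hs)
    omega
  refine ⟨?_, ?_, ?_⟩
  · unfold ix
    have e3 : (0 : ℤ) ≤ (L.p : ℤ) * (wm L q w : ℤ) := by positivity
    have e4 : (0 : ℤ) ≤ (L.p : ℤ) := by positivity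
    have e5 := Int.self_le_toNat ((L.p : ℤ) * (wm L q w : ℤ) + w.sum.1 + 4 * (L.p : ℤ))
    have e6 : ((2 * L.p : ℕ) : ℤ) ≤ (((L.p : ℤ) * (wm L q w : ℤ) + w.sum.1 + 4 * (L.p : ℤ)).toNat : ℤ) := by
      push_cast
      linarith
    exact_mod_cast e6
  · rw [h1, ix_div L h0]
  · rw [ix_div L h0, h2, ENNReal.coe_mul, mul_pow]
    calc (y : ℝ≥0∞) ^ w.length * (zo L : ℝ≥0∞) ^ w.length
        ≤ (8 * (y : ℝ≥0∞) ^ wm L q w) *
          (((zo L : ℝ≥0∞)⁻¹) ^ (2 * Bo L) * (zo L : ℝ≥0∞) ^ (hat L q w).length) :=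
          mul_le_mul' (b7s_y hy hy1 h4) (b7s_z L h3)
      _ = _ := by ring

theorem strand_sum (L : Lat) {ι : Type} (sq : ι → ℤ × ℤ) (sw : ι → Wd) (cls : ι → ℤ × ℤ) (Y : ι → List (LT L))
    {h : ℕ} {y : ℝ≥0} (hy : 1 / 2 ≤ y) (hy1 : y ≤ 1)
    (hs : ∀ i, Sup L.G (sq i) ∧ sw i ∈ Sw L.G (sq i) ∧ ∃ k, sw i ∈ WB true k)
    (hh : ∀ i, ix L (sq i) (sw i) < h)
    (hY : ∀ i, Y i = cd L (sq i) (sw i) ∨ Y i = (cd L (sq i) (sw i)).reverse)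
    (hc : ∀ i, 0 ≤ (cls i).1 ∧ (cls i).1 < L.p ∧ 0 ≤ (cls i).2 ∧ (cls i).2 < L.p)
    (hinj : ∀ i j, cls i = cls j → Y i = Y j → i = j)
    (Gf : ι → ℝ≥0∞) (F : ℕ → List (LT L) → ℝ≥0∞) (hGF : ∀ i, Gf i ≤ F (ix L (sq i) (sw i)) (Y i)) :
    ∑' i, ((y * zo L : ℝ≥0) : ℝ≥0∞) ^ (sw i).length * Gf i ≤
      ∑ d ∈ Finset.Ico (2 * L.p) h, Cc L * (y : ℝ≥0∞) ^ (d / (2 * L.p)) *
        ∑' Y' : Lr (alph L) (d / (2 * L.p)), mm (alph L) (Y' : List (LT L)) * F d (Y' : List (LT L)) := by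
  classical
  have h1 : ∀ i, _ := fun i => b7s_one L hy hy1 (hs i).1 (hs i).2.1 (hs i).2.2 (hY i)
  have hmem : ∀ i, ix L (sq i) (sw i) ∈ Finset.Ico (2 * L.p) h := fun i => Finset.mem_Ico.2 ⟨(h1 i).1, hh i⟩
  have hlr : ∀ i, Y i ∈ Lr (alph L) (ix L (sq i) (sw i) / (2 * L.p)) := fun i => (h1 i).2.1
  have hp1 : ∀ i, (cls i).1.toNat < L.p := fun i => by
    have := hc i
    omega
  have hp2 : ∀ i, (cls i).2.toNat < L.p := fun i => by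
    have := hc i
    omega
  set φ : ι → (Σ _ : Fin L.p × Fin L.p, Σ d : {d : ℕ // d ∈ Finset.Ico (2 * L.p) h}, Lr (alph L) ((d : ℕ) / (2 * L.p))) :=
    fun i => ⟨(⟨_, hp1 i⟩, ⟨_, hp2 i⟩), ⟨⟨_, hmem i⟩, ⟨Y i, hlr i⟩⟩⟩ with hφ
  have hφi : Function.Injective φ := by
    intro i j hij
    have e1 : (φ i).1 = (φ j).1 := by rw [hij]
    have e2 : ((φ i).2.2 : List (LT L)) = ((φ j).2.2 : List (LT L)) := by rw [hij]
    have e3 : (cls i).1.toNat = (cls j).1.toNat := congrArg (fun x : Fin L.p × Fin L.p => (x.1 : ℕ)) e1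
    have e4 : (cls i).2.toNat = (cls j).2.toNat := congrArg (fun x : Fin L.p × Fin L.p => (x.2 : ℕ)) e1
    refine hinj i j (Prod.ext ?_ ?_) e2
    · have := hc i
      have := hc j
      omega
    · have := hc i
      have := hc j
      omega
  set g : (Σ _ : Fin L.p × Fin L.p, Σ d : {d : ℕ // d ∈ Finset.Ico (2 * L.p) h}, Lr (alph L) ((d : ℕ) / (2 * L.p))) → ℝ≥0∞ :=
    fun x => 8 * ((zo L : ℝ≥0∞)⁻¹) ^ (2 * Bo L) * (y : ℝ≥0∞) ^ ((x.2.1 : ℕ) / (2 * L.p)) *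
      (mm (alph L) (x.2.2 : List (LT L)) * F (x.2.1 : ℕ) (x.2.2 : List (LT L))) with hg
  have h2 : ∀ i, ((y * zo L : ℝ≥0) : ℝ≥0∞) ^ (sw i).length * Gf i ≤ g (φ i) := fun i => by
    show _ ≤ 8 * ((zo L : ℝ≥0∞)⁻¹) ^ (2 * Bo L) * (y : ℝ≥0∞) ^ (ix L (sq i) (sw i) / (2 * L.p)) *
      (mm (alph L) (Y i) * F (ix L (sq i) (sw i)) (Y i))
    rw [← mul_assoc]
    exact mul_le_mul' (h1 i).2.2 (hGF i)
  refine (ENNReal.tsum_le_tsum h2).trans ((ENNReal.tsum_comp_le_tsum_of_injective hφi g).trans (le_of_eq ?_))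
  rw [ENNReal.tsum_sigma', tsum_fintype]
  have h3 : ∀ x : Fin L.p × Fin L.p, ∑' z : (Σ d : {d : ℕ // d ∈ Finset.Ico (2 * L.p) h},
      Lr (alph L) ((d : ℕ) / (2 * L.p))), g ⟨x, z⟩ =
      ∑ d ∈ Finset.Ico (2 * L.p) h, 8 * ((zo L : ℝ≥0∞)⁻¹) ^ (2 * Bo L) * (y : ℝ≥0∞) ^ (d / (2 * L.p)) *
        ∑' Y' : Lr (alph L) (d / (2 * L.p)), mm (alph L) (Y' : List (LT L)) * F d (Y' : List (LT L)) := by
    intro x
    rw [ENNReal.tsum_sigma', tsum_fintype]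
    rw [← Finset.sum_coe_sort (Finset.Ico (2 * L.p) h)]
    refine Finset.sum_congr rfl fun d _ => ?_
    show ∑' b : Lr (alph L) ((d : ℕ) / (2 * L.p)), 8 * ((zo L : ℝ≥0∞)⁻¹) ^ (2 * Bo L) *
      (y : ℝ≥0∞) ^ ((d : ℕ) / (2 * L.p)) * (mm (alph L) (b : List (LT L)) * F (d : ℕ) (b : List (LT L))) = _
    exact ENNReal.tsum_mul_left
  rw [Finset.sum_congr rfl fun x _ => h3 x, Finset.sum_const, Finset.card_univ, Fintype.card_prod, Fintype.card_fin,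
    nsmul_eq_mul, Finset.mul_sum]
  refine Finset.sum_congr rfl fun d _ => ?_
  unfold Cc
  push_cast
  ring

end Pool.Agent.RPL
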