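import Pool.Agent.RPL.B7c
import Pool.Agent.RPL.AFin

/-!
Module B8: the generating function of the half-plane walks near the critical point.

PAPER PROOF. `chain_exp (alph L) 2 (2 * L.p) (by L.p1) (Cc L) (Cc_ne_top L) 0` gives `n` with `4 * n m ≤ m` and `C > 0`. Given `ε`, let `y = Real.toNNReal (1 - ε)`, so `1 / 2 ≤ y ≤ 1` and `(y : ℝ≥0∞) = ENNReal.ofReal (1 - ε)` (`rfl`). Let `q` be a vertex and `m : ℕ`, `K = m`, `H = 2 p (m + 4)`. As in step `step_U` (B7u), but without a previous strand: `gf_dec` for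
`A = HU L q m` with `S = {b | b ∈ Sw L.G q ∧ ∃ d < m, b ∈ BT true (d + 1)}`, `T b = ctD L q b (b.sum.1.toNat - 1)` (`HU_first`; `b ++ r' = r ∈ saws true`), then `strand_sum` with `h = H`, `F d Y = V (alph L) 2 (2 p) (Cc L) n y K d Y`, `sq b = q`, `sw b = b`, `cls b = ty L (q + b.sum)`, `Y b = cd L q b`:
`ix L q b < H` because `ix / (2 p) = wm ≤ b.sum.1 + 3 ≤ m + 3` (`ix_div`, `wm_le`, `Nat.div_lt_iff_lt_mul`); the other hypotheses as in B7u; `Gf b ≤ F (ix) (cd)` is the first part of `chain_UD` (`StD L n y m`, with `k = d + 1`, `j = d`). So `gf (HU L q m) (y z) ≤ 1 + ∑ d ∈ Ico (2 p) H, .. ≤ ofReal (exp (C √(1 / ε)))`.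
-/

set_option autoImplicit false

namespace Pool.Agent.RPL

open Pool.Agent.SHP Pool.Agent.ZHW
open scoped ENNReal NNReal

private theorem B8_toNat {b : Wd} {d : ℕ} (h : b ∈ BT true (d + 1)) : b.sum.1.toNat - 1 = d := by
  rw [h.2]
  simp

private theorem B8_ix (L : Lat) {q : ℤ × ℤ} {b : Wd} {d m : ℕ} (h : b ∈ BT true (d + 1)) (hd : d < m) :
    ix L q b < 2 * L.p * (m + 4) := by
  have h0 : 0 ≤ b.sum.1 := by
    rw [h.2]
    positivity
  have hp := L.p1
  have h1 := ix_div L (q := q) h0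
  have h2 := wm_le L (q := q) h0
  have h3 : wm L q b < m + 4 := by
    have e := h.2
    have e2 : ((wm L q b : ℕ) : ℤ) < ((m + 4 : ℕ) : ℤ) := by
      rw [e] at h2
      push_cast at h2 ⊢
      have e3 : (d : ℤ) < (m : ℤ) := by exact_mod_cast hd
      linarith
    exact_mod_cast e2
  rw [mul_comm, ← Nat.div_lt_iff_lt_mul (by omega), h1]
  exact h3

private theorem B8_inj (L : Lat) {q : ℤ × ℤ} (hq : Sup L.G q) {b b' : Wd} {k k' : ℕ} (hb : b ∈ Sw L.G q) (hb' : b' ∈ Sw L.G q)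
    (hk : b ∈ WB true k) (hk' : b' ∈ WB true k') (hc : ty L (q + b.sum) = ty L (q + b'.sum)) (hY : cd L q b = cd L q b') :
    b = b' := by
  have h1 : hat L q b = hat L q b' := by
    rw [← flat_code L (hat_mem L hq hb hk), ← flat_code L (hat_mem L hq hb' hk')]
    exact congrArg (flat L) hY
  unfold hat at h1
  rw [br_ty L hc] at h1
  exact List.append_cancel_right (List.append_cancel_left h1)

theorem main_HU (L : Lat) : ∃ C : ℝ, 0 < C ∧ ∀ ε : ℝ, 0 < ε → ε ≤ 1 / 2 → ∀ (q : ℤ × ℤ) (m : ℕ), Sup L.G q →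
    gf (HU L q m) (Real.toNNReal (1 - ε) * zo L) ≤ ENNReal.ofReal (Real.exp (C * Real.sqrt (1 / ε))) := by
  have hR : 1 ≤ 2 * L.p := by
    have := L.p1
    omega
  obtain ⟨n, hn, -, C, hC, hmain⟩ := chain_exp (alph L) 2 (2 * L.p) hR (Cc L) (Cc_ne_top L) 0
  refine ⟨C, hC, fun ε hε hε2 q m hq => ?_⟩
  have hy : 1 / 2 ≤ Real.toNNReal (1 - ε) := by
    rw [← NNReal.coe_le_coe, Real.coe_toNNReal _ (by linarith)]
    push_cast
    linarith
  have hy1 : Real.toNNReal (1 - ε) ≤ 1 := by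
    rw [Real.toNNReal_le_one]
    linarith
  have hF := (chain_UD L n hn hy hy1 m).1
  refine (gf_dec {b | b ∈ Sw L.G q ∧ ∃ d < m, b ∈ BT true (d + 1)} (fun b => ctD L q b (b.sum.1.toNat - 1)) _ ?_).trans ?_
  · intro r hr hne
    obtain ⟨d, hd, b, r', rfl, hb, hbs, hr'⟩ := HU_first L hr hne
    refine ⟨b, ⟨hbs, d, hd, hb⟩, r', ⟨?_, hr.1.1⟩, rfl⟩
    rw [B8_toNat hb]
    exact hr'
  · refine le_trans (add_le_add le_rfl ?_) (hmain ε hε hε2 (2 * L.p * (m + 4)) m)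
    exact strand_sum L (ι := {b : Wd | b ∈ Sw L.G q ∧ ∃ d < m, b ∈ BT true (d + 1)}) (fun _ => q) (fun b => (b : Wd))
      (fun b => ty L (q + (b : Wd).sum)) (fun b => cd L q (b : Wd)) hy hy1
      (fun b => by
        obtain ⟨b, hbs, d, hd, hb⟩ := b
        exact ⟨hq, hbs, d + 1, BT_WB hb⟩)
      (fun b => by
        obtain ⟨b, hbs, d, hd, hb⟩ := b
        exact B8_ix L hb hd)
      (fun b => Or.inl rfl)
      (fun b => ty_range L _)
      (fun b b' hc hY => by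
        obtain ⟨b, hbs, d, hd, hb⟩ := b
        obtain ⟨b', hbs', d', hd', hb'⟩ := b'
        exact Subtype.ext (B8_inj L hq hbs hbs' (BT_WB hb) (BT_WB hb') hc hY))
      (fun b => gf (ctD L q (b : Wd) ((b : Wd).sum.1.toNat - 1)) (Real.toNNReal (1 - ε) * zo L))
      (fun d Y => V (alph L) 2 (2 * L.p) (Cc L) n (Real.toNNReal (1 - ε)) m d Y)
      (fun b => by
        obtain ⟨b, hbs, d, hd, hb⟩ := b
        show gf (ctD L q b (b.sum.1.toNat - 1)) _ ≤ _
        rw [B8_toNat hb]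
        exact hF q b (d + 1) d hq hbs hb (Nat.lt_succ_self d) hd.le)

end Pool.Agent.RPL
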