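import Pool.Agent.RPL.B4a
import Pool.Agent.SHP.Cut
import Pool.Agent.ZHW.Flip

/-!
Module B9a: closed half-plane walks against strict half-plane walks.

PAPER PROOF. Let `HA q = {l | l ∈ Sw L.G q ∧ l ∈ halfs true}`. (1) `gf (HA q) z ≤ M` for every vertex `q`: copy `FinF_halfs` of ZLF/FinF (the finite sums are over words of bounded length, `halfs_mem_HT`). (2) `z ^ Bo L * gf (CU L q) z ≤ M` for every vertex `q`: `l ↦ al L q ++ l` maps `CU L q` injectively into `HA L.o`: `al L q ∈ Sw L.G L.o` and its end has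
the residue of `q` (`al_spec`: the sum is `ty q + (p, 0)`; `Wk_append`, `Wk_congr`), it is strictly to the right of its start and strictly to the left of its end before the end (`al_spec`), the rest is weakly to the right of the end, and `(al L q).sum.1 ≥ p > 0`; self-avoiding: a block with sum zero is not inside `al`, not inside `l`, and a block which
starts strictly before the end of `al` and ends after it has positive width; `z ^ |al| ≥ z ^ Bo` (`al_le`, `z ≤ 1`). (The cut of a walk at its leftmost vertex is in B9c.)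
-/

set_option autoImplicit false

namespace Pool.Agent.RPL

open Pool.Agent.SHP Pool.Agent.ZHW
open scoped ENNReal NNReal

/-- Strict half-plane walks of `G` from `q`. -/
private def HA (L : Lat) (q : ℤ × ℤ) : Set Wd := {l | l ∈ Sw L.G q ∧ l ∈ halfs true}

private theorem HA_le (L : Lat) {z : ℝ≥0} {M : ℝ≥0∞} {q : ℤ × ℤ} (h : ∀ m : ℕ, gf (HU L q m) z ≤ M) :
    gf (HA L q) z ≤ M := by
  classical
  have h1 : ∀ A : Set (List (ℤ × ℤ)), gf A z =
      ∑' l : List (ℤ × ℤ), A.indicator (fun l : List (ℤ × ℤ) => (z : ℝ≥0∞) ^ l.length) l := by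
    intro A
    unfold gf
    rw [tsum_subtype A (fun l : List (ℤ × ℤ) => (z : ℝ≥0∞) ^ l.length)]
  rw [h1, ENNReal.tsum_eq_iSup_sum]
  apply iSup_le
  intro F
  let T := F.sup List.length
  refine le_trans ?_ (h T)
  rw [h1]
  refine le_trans ?_ (ENNReal.sum_le_tsum F)
  apply Finset.sum_le_sum
  intro l hl
  by_cases hh : l ∈ HA L q
  · have h2 : l ∈ HU L q T := ⟨hh.1, halfs_mem_HT hh.2 (Finset.le_sup (f := List.length) hl)⟩
    rw [Set.indicator_of_mem hh, Set.indicator_of_mem h2]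
  · rw [Set.indicator_of_notMem hh]
    exact zero_le

private theorem self {A l : Wd} (hA : A ∈ saws true) (hl : l ∈ saws true) (hRi : Ri l)
    (hsuf : ∀ a b : Wd, A = a ++ b → b ≠ [] → 0 < b.sum.1) :
    ∀ u v w : List (ℤ × ℤ), A ++ l = u ++ (v ++ w) → v.sum = 0 → v = [] := by
  intro u v w h h0
  rcases List.append_eq_append_iff.1 h with ⟨a, h1, h2⟩ | ⟨c, h1, h2⟩
  · exact hl.2 a v w h2 h0
  · rcases List.append_eq_append_iff.1 h2.symm with ⟨d, h3, h4⟩ | ⟨d, h3, h4⟩
    · -- `v = c ++ d`, `l = d ++ w`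
      by_cases hc : c = []
      · subst hc
        rw [List.nil_append] at h3
        exact hl.2 [] v w (by rw [h4, ← h3]; rfl) h0
      · exfalso
        have h5 := hsuf u c h1 hc
        have h6 := hRi d w h4
        have h7 := congrArg Prod.fst h0
        rw [h3, fst_sum_append] at h7
        simp at h7
        linarith
    · -- `c = v ++ d`, `w = d ++ l`
      exact hA.2 u v d (by rw [h1, h3]) h0

private theorem al_app_mem (L : Lat) {q : ℤ × ℤ} (hq : Sup L.G q) {l : Wd} (hl : l ∈ CU L q) :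
    al L q ++ l ∈ HA L L.o := by
  obtain ⟨⟨ha1, ha2⟩, hsum, hpre, hsuf⟩ := al_spec L hq
  obtain ⟨⟨hl1, hl2⟩, hRi⟩ := hl
  have hp : (1 : ℤ) ≤ L.p := by exact_mod_cast L.p1
  have hpos : 0 < (al L q).sum.1 := by
    rw [hsum]
    have := (ty_range L q).1
    show 0 < (ty L q).1 + (L.p : ℤ)
    linarith
  refine ⟨⟨⟨?_, ?_⟩, ?_⟩, ⟨?_, ?_⟩, ?_⟩
  · intro s hs
    rcases List.mem_append.1 hs with h | h
    · exact ha1.1 s h
    · exact hl1.1 s h
  · exact self ha1 hl1 hRi hsuf
  · rw [Wk_append]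
    refine ⟨ha2, ?_⟩
    refine (Wk_congr L ?_).2 hl2
    have e : L.o + (al L q).sum = (L.o + ty L q) + ((L.p : ℤ) * 1, (L.p : ℤ) * 0) := by
      rw [hsum]
      ext
      · simp only [Prod.fst_add]
        ring
      · simp only [Prod.snd_add]
        ring
    rw [e, ty_shift, ty_rep]
  · intro s hs
    rcases List.mem_append.1 hs with h | h
    · exact ha1.1 s h
    · exact hl1.1 s h
  · exact self ha1 hl1 hRi hsuf
  · intro u v huv hu
    rcases List.append_eq_append_iff.1 huv with ⟨a, h1, h2⟩ | ⟨c, h1, h2⟩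
    · rw [h1, fst_sum_append]
      have := hRi a v h2
      linarith
    · exact hpre u c h1 hu

theorem CU_le (L : Lat) {z : ℝ≥0} (hz1 : z ≤ 1) {M : ℝ≥0∞} (h : ∀ (q : ℤ × ℤ) (m : ℕ), Sup L.G q → gf (HU L q m) z ≤ M)
    {q : ℤ × ℤ} (hq : Sup L.G q) : (z : ℝ≥0∞) ^ Bo L * gf (CU L q) z ≤ M := by
  refine le_trans ?_ (HA_le L (q := L.o) fun m => h L.o m L.ho)
  unfold gf
  rw [← ENNReal.tsum_mul_left]
  let f : CU L q → HA L L.o := fun l => ⟨al L q ++ (l : Wd), al_app_mem L hq l.2⟩
  have hf : Function.Injective f := by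
    intro a b hab
    have h1 : al L q ++ (a : Wd) = al L q ++ (b : Wd) := congrArg Subtype.val hab
    exact Subtype.ext (List.append_cancel_left h1)
  calc ∑' l : CU L q, (z : ℝ≥0∞) ^ Bo L * (z : ℝ≥0∞) ^ (l : Wd).length
      ≤ ∑' l : CU L q, (fun m : HA L L.o => (z : ℝ≥0∞) ^ (m : Wd).length) (f l) := by
        refine ENNReal.tsum_le_tsum fun l => ?_
        show (z : ℝ≥0∞) ^ Bo L * (z : ℝ≥0∞) ^ (l : Wd).length ≤ (z : ℝ≥0∞) ^ (al L q ++ (l : Wd)).length
        rw [List.length_append, pow_add]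
        have h2 : (z : ℝ≥0∞) ^ Bo L ≤ (z : ℝ≥0∞) ^ (al L q).length := by
          have h3 : z ^ Bo L ≤ z ^ (al L q).length := pow_le_pow_of_le_one zero_le hz1 (al_le L q)
          exact_mod_cast h3
        gcongr
    _ ≤ ∑' m : HA L L.o, (z : ℝ≥0∞) ^ (m : Wd).length := ENNReal.tsum_comp_le_tsum_of_injective hf _

end Pool.Agent.RPL
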