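import Pool.Agent.RPL.B1
import Pool.Agent.SHP.Cut

/-!
Module BSplit: a self-avoiding walk, cut at a vertex of its leftmost column.

PAPER PROOF. `l ∈ Sw L.G L.o`. Take the initial part `u` of `l` with the smallest first coordinate of `u.sum` (`l = u ++ v`; any choice, e.g. the first one): then `v ∈ CU L (o + u.sum)` (`Sw_suffix`; `Ri v`), and `rev u ∈ CU L (o + u.sum)` (`Sw_rev`, `Sw_prefix`: `(rev u)` has the initial parts `rev b`, `u = a ++ b`, with
`(rev b).sum.1 = - b.sum.1 = a.sum.1 - u.sum.1 ≥ 0`). Let `(a, b) = ty L (o + u.sum)` (`ty_range`: in `[0, p) × [0, p)`); `CU L (o + u.sum) = CU L (o + ty L (o + u.sum))` (`Sw_congr`, `ty_rep`), which has `Sup` (`Sup_mid`, `Sup_congr`). The map `l ↦ (residue, rev u, v)` is injective (`l = rev (rev u) ++ v`), with values in the disjoint union over the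
residues with `Sup` of `CU × CU`, and the lengths add (`rev` keeps the length). So `gf (Sw L.G L.o) z ≤ ∑ gf (CU ..) z * gf (CU ..) z` (`gf2_prod`, `gf_le_..` of SHP; or write both sides as sums over all words). The second form: every term is `≤ X ^ 2`, `p ^ 2` terms.
-/

set_option autoImplicit false

namespace Pool.Agent.RPL

open Pool.Agent.SHP Pool.Agent.ZHW
open scoped ENNReal NNReal

/-- Existence of a leftmost cut. -/
private theorem split_exists (l : Wd) :
    ∃ u v : Wd, l = u ++ v ∧ ∀ a b : Wd, l = a ++ b → u.sum.1 ≤ a.sum.1 := by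
  obtain ⟨n, hn, hmin⟩ := Finset.exists_min_image (Finset.range (l.length + 1))
    (fun n => (l.take n).sum.1) ⟨0, by simp⟩
  refine ⟨l.take n, l.drop n, (List.take_append_drop n l).symm, ?_⟩
  intro a b hab
  have h1 : a = l.take a.length := by rw [hab]; simp
  have h2 : a.length ∈ Finset.range (l.length + 1) := by
    rw [Finset.mem_range, hab, List.length_append]
    omega
  have h3 := hmin _ h2
  rwa [← h1] at h3

private theorem split_pair {L : Lat} {l u v : Wd} (hl : l ∈ Sw L.G L.o) (h : l = u ++ v)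
    (hmin : ∀ a b : Wd, l = a ++ b → u.sum.1 ≤ a.sum.1) :
    Sup L.G (L.o + u.sum) ∧ rev u ∈ CU L (L.o + u.sum) ∧ v ∈ CU L (L.o + u.sum) := by
  have hl' : u ++ v ∈ Sw L.G L.o := by
    rw [← h]
    exact hl
  refine ⟨Sup_mid L.ho hl'.2, ⟨Sw_rev (Sw_prefix hl'), ?_⟩, Sw_suffix hl', ?_⟩
  · intro a b hab
    have h1 : u = rev b ++ rev a := by
      have h5 := congrArg rev hab
      rwa [rev_rev, rev_append] at h5
    have h2 := hmin (rev b) (rev a ++ v) (by rw [h, h1, List.append_assoc])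
    have h3 : u.sum.1 = (rev b).sum.1 + (rev a).sum.1 := by
      rw [h1, List.sum_append]
      rfl
    have h4 : (rev a).sum.1 = - a.sum.1 := by
      rw [rev_sum]
      rfl
    omega
  · intro a b hab
    have h2 := hmin (u ++ a) b (by rw [h, hab, List.append_assoc])
    have h3 : (u ++ a).sum.1 = u.sum.1 + a.sum.1 := by
      rw [List.sum_append]
      rfl
    omega

theorem sw_le (L : Lat) (z : ℝ≥0) (X : ℝ≥0∞) (hX : ∀ q, Sup L.G q → gf (CU L q) z ≤ X) :
    gf (Sw L.G L.o) z ≤ (L.p : ℝ≥0∞) ^ 2 * X ^ 2 := by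
  classical
  choose U V hUV hmin using split_exists
  let T : Finset (ℤ × ℤ) := Finset.Ico (0 : ℤ) L.p ×ˢ Finset.Ico (0 : ℤ) L.p
  let Bs : ℤ × ℤ → Set (Wd × Wd) := fun r => {x | Sup L.G (L.o + r) ∧ x ∈ CU L (L.o + r) ×ˢ CU L (L.o + r)}
  have h1 : gf (Sw L.G L.o) z ≤ gf2 (⋃ r ∈ T, Bs r) z := by
    refine gf_le_gf2_of_inj z (fun l => (rev (U l), V l)) ?_ ?_ ?_
    · intro l hl
      obtain ⟨h2, h3, h4⟩ := split_pair hl (hUV l) (hmin l)
      have hty := ty_rep L (L.o + (U l).sum)
      have hCU : CU L (L.o + (U l).sum) = CU L (L.o + ty L (L.o + (U l).sum)) := by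
        unfold CU
        rw [Sw_congr L hty]
      obtain ⟨r1, r2, r3, r4⟩ := ty_range L (L.o + (U l).sum)
      refine Set.mem_iUnion₂.2 ⟨ty L (L.o + (U l).sum), ?_, ?_, ?_, ?_⟩
      · rw [Finset.mem_product, Finset.mem_Ico, Finset.mem_Ico]
        exact ⟨⟨r1, r2⟩, r3, r4⟩
      · exact (Sup_congr L hty).2 h2
      · rw [← hCU]
        exact h3
      · rw [← hCU]
        exact h4
    · intro l _ l' _ h
      simp only [Prod.mk.injEq] at h
      have h5 : U l = U l' := by
        have h6 := congrArg rev h.1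
        rwa [rev_rev, rev_rev] at h6
      rw [hUV l, hUV l', h5, h.2]
    · intro l _
      have h5 := congrArg List.length (hUV l)
      rw [List.length_append] at h5
      simp only [rev_length]
      omega
  have h2 : gf2 (⋃ r ∈ T, Bs r) z ≤ ∑ r ∈ T, gf2 (Bs r) z := by
    unfold gf2
    exact ENNReal.tsum_biUnion_le (fun l : Wd × Wd => (z : ℝ≥0∞) ^ (l.1.length + l.2.length)) T Bs
  have h3 : ∀ r ∈ T, gf2 (Bs r) z ≤ X ^ 2 := by
    intro r _
    by_cases hr : Sup L.G (L.o + r)
    · calc gf2 (Bs r) z ≤ gf2 (CU L (L.o + r) ×ˢ CU L (L.o + r)) z := gf2_mono_set (fun x hx => hx.2) z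
        _ = gf (CU L (L.o + r)) z * gf (CU L (L.o + r)) z := gf2_prod _ _ z
        _ ≤ X * X := mul_le_mul' (hX _ hr) (hX _ hr)
        _ = X ^ 2 := (sq X).symm
    · have h5 : Bs r = ∅ := by
        ext x
        constructor
        · intro hx
          exact absurd hx.1 hr
        · intro hx
          exact absurd hx (Set.notMem_empty x)
      rw [h5]
      unfold gf2
      simp
  have h4 : T.card = L.p ^ 2 := by
    rw [Finset.card_product, Int.card_Ico, sub_zero, Int.toNat_natCast, sq]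
  calc gf (Sw L.G L.o) z ≤ gf2 (⋃ r ∈ T, Bs r) z := h1
    _ ≤ ∑ r ∈ T, gf2 (Bs r) z := h2
    _ ≤ ∑ r ∈ T, X ^ 2 := Finset.sum_le_sum h3
    _ = (L.p : ℝ≥0∞) ^ 2 * X ^ 2 := by
      rw [Finset.sum_const, h4, nsmul_eq_mul, Nat.cast_pow]

end Pool.Agent.RPL
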