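import Pool.Agent.RPL.B9a
import Pool.Agent.RPL.BSplit

/-!
Module B9c: cut of a self-avoiding walk at its leftmost vertex.

PAPER PROOF. `gf (Sw L.G L.o) z ≤ ∑ a ∈ range p, ∑ b ∈ range p, gf2 (CU q ×ˢ CU q) z` where `q = o + (a, b)` runs over those with `Sup L.G q` (the others contribute nothing): let `l ∈ Sw L.G L.o`; choose a splitting `l = u ++ v` such that `u.sum.1` is the smallest (`cut_exists`, private in SHP/Cut), `q0 = o + u.sum` (a vertex, `Sup_mid` from `L.ho`),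
`rev u ∈ CU L q0`, `v ∈ CU L q0` (`Sw_rev`, `Sw_prefix`, `Sw_suffix`; `Ri (rev u)`: a prefix of `rev u` is `rev` of a suffix `c` of `u`, `u = d ++ c`, `(rev c).sum.1 = -c.sum.1 = d.sum.1 - u.sum.1 ≥ 0`; `Ri v` in the same way), `CU L q0 = CU L (o + ty q0)` (`Sw_congr`, `ty_rep`). The map `l ↦ (ty q0, rev u, v)` is injective (`l = rev (rev u) ++ v`),
lengths add (`rev_length`). By `CU_le` and `gf2_prod`: `z ^ (2 Bo) * gf (Sw L.G L.o) z ≤ p ^ 2 * M ^ 2`. Compare `saws_le_disj` in SHP/Cut. Here this cut is `sw_le` of `BSplit`. (An injection into a sigma type over `Fin p × Fin p`, or `gf_mono`-type bounds: write the left side as a sum over the residue classes of `q0`.)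
-/

set_option autoImplicit false

namespace Pool.Agent.RPL

open Pool.Agent.SHP Pool.Agent.ZHW
open scoped ENNReal NNReal

theorem Sw_le (L : Lat) {z : ℝ≥0} (hz1 : z ≤ 1) {M : ℝ≥0∞} (h : ∀ (q : ℤ × ℤ) (m : ℕ), Sup L.G q → gf (HU L q m) z ≤ M) :
    (z : ℝ≥0∞) ^ (2 * Bo L) * gf (Sw L.G L.o) z ≤ (L.p : ℝ≥0∞) ^ 2 * M ^ 2 := by
  have e2 : (z : ℝ≥0∞) ^ (2 * Bo L) = ((z : ℝ≥0∞) ^ Bo L) ^ 2 := by
    rw [mul_comm, pow_mul]
  rcases eq_or_ne ((z : ℝ≥0∞) ^ Bo L) 0 with h0 | h0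
  · rw [e2, h0, zero_pow two_ne_zero, zero_mul]
    exact zero_le
  · have ht : (z : ℝ≥0∞) ^ Bo L ≠ ⊤ := ENNReal.pow_ne_top ENNReal.coe_ne_top
    have h1 := sw_le L z (M / (z : ℝ≥0∞) ^ Bo L) (fun q hq => by
      rw [ENNReal.le_div_iff_mul_le (Or.inl h0) (Or.inl ht), mul_comm]
      exact CU_le L hz1 h hq)
    calc (z : ℝ≥0∞) ^ (2 * Bo L) * gf (Sw L.G L.o) z
        ≤ (z : ℝ≥0∞) ^ (2 * Bo L) * ((L.p : ℝ≥0∞) ^ 2 * (M / (z : ℝ≥0∞) ^ Bo L) ^ 2) :=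
          mul_le_mul' le_rfl h1
      _ = (L.p : ℝ≥0∞) ^ 2 * ((z : ℝ≥0∞) ^ Bo L * (M / (z : ℝ≥0∞) ^ Bo L)) ^ 2 := by
          rw [e2, mul_pow]
          ring
      _ = (L.p : ℝ≥0∞) ^ 2 * M ^ 2 := by
          rw [ENNReal.mul_div_cancel h0 ht]

end Pool.Agent.RPL
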