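import Pool.Agent.RPL.B8
import Pool.Agent.RPL.B9c

/-!
Module B9b: the bound for the numbers of self-avoiding walks.

PAPER PROOF. Copy the end of ZLF/FinF (`FinF_cnt`, `FinF_inv`, `FinF_eps`, `cnt_le`), with `ε = X / (2 k)`, `X = k ^ (1/3)`, for `k ≥ 1`. Let `C0` from `main_HU`, `z = toNNReal (1 - ε) * zo L ≤ 1`, `B = Bo L`, `M = ofReal (exp (C0 √(1 / ε)))`. `Sw_le` and `gf_eq_cnt` give `z ^ (k + 2 B) * cnt (Sw L.G L.o) k ≤ p ^ 2 * exp (2 C0 √(1 / ε))` in the reals. With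
`zo * muo = 1` (`zo_mul_muo`), `(1 - ε)^m * exp (2 ε m) ≥ 1` for `m = k + 2 B` (`FinF_inv`), `2 ε (k + 2 B) = X + 2 B X / k ≤ (1 + 2 B) X`, `√(1 / ε) ≤ 2 X`, `1 ≤ X`, `1 ≤ muo`:
`cnt k ≤ muo ^ (k + 2 B) * exp ((1 + 2 B) X) * p ^ 2 * exp (4 C0 X) ≤ muo ^ k * exp (C X)` with `C = 1 + 2 B + 4 C0 + 2 B * muo + 2 * p` (`muo ≤ exp muo`, `p ≤ exp p`, `X ≥ 1`). `k = 0`: `cnt .. 0 ≤ 1` (`FinF_zero`).
-/

set_option autoImplicit false

namespace Pool.Agent.RPL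

open Pool.Agent.SHP Pool.Agent.ZHW
open scoped ENNReal NNReal

private theorem B9b_cnt (L : Lat) (z : ℝ≥0) (hz1 : z ≤ 1) (n : ℕ) (b : ℝ) (hb : 0 ≤ b)
    (h : ∀ (q : ℤ × ℤ) (m : ℕ), Sup L.G q → gf (HU L q m) z ≤ ENNReal.ofReal b) :
    (z : ℝ) ^ (n + 2 * Bo L) * (cnt (Sw L.G L.o) n : ℝ) ≤ (L.p : ℝ) ^ 2 * b ^ 2 := by
  have h1 : (cnt (Sw L.G L.o) n : ℝ≥0∞) * (z : ℝ≥0∞) ^ n ≤ gf (Sw L.G L.o) z := by
    rw [gf_eq_cnt (t := true) (fun l hl => hl.1.1) z]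
    exact ENNReal.le_tsum (f := fun n : ℕ => (cnt (Sw L.G L.o) n : ℝ≥0∞) * (z : ℝ≥0∞) ^ n) n
  have h2 : (z : ℝ≥0∞) ^ (n + 2 * Bo L) * (cnt (Sw L.G L.o) n : ℝ≥0∞) ≤ ENNReal.ofReal ((L.p : ℝ) ^ 2 * b ^ 2) := by
    calc (z : ℝ≥0∞) ^ (n + 2 * Bo L) * (cnt (Sw L.G L.o) n : ℝ≥0∞)
        = (z : ℝ≥0∞) ^ (2 * Bo L) * ((cnt (Sw L.G L.o) n : ℝ≥0∞) * (z : ℝ≥0∞) ^ n) := by ring
      _ ≤ (z : ℝ≥0∞) ^ (2 * Bo L) * gf (Sw L.G L.o) z := by gcongr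
      _ ≤ (L.p : ℝ≥0∞) ^ 2 * (ENNReal.ofReal b) ^ 2 := Sw_le L hz1 h
      _ = ENNReal.ofReal ((L.p : ℝ) ^ 2 * b ^ 2) := by
          rw [ENNReal.ofReal_mul (by positivity), ENNReal.ofReal_pow hb, ENNReal.ofReal_pow (by positivity),
            ENNReal.ofReal_natCast]
  have h3 : (z : ℝ≥0∞) ^ (n + 2 * Bo L) * (cnt (Sw L.G L.o) n : ℝ≥0∞) =
      ENNReal.ofReal ((z : ℝ) ^ (n + 2 * Bo L) * (cnt (Sw L.G L.o) n : ℝ)) := by
    rw [ENNReal.ofReal_mul (by positivity), ENNReal.ofReal_pow (by positivity),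
      ENNReal.ofReal_coe_nnreal, ENNReal.ofReal_natCast]
  rw [h3] at h2
  exact (ENNReal.ofReal_le_ofReal_iff (by positivity)).1 h2

private theorem B9b_zero (L : Lat) : (cnt (Sw L.G L.o) 0 : ℝ) ≤ 1 := by
  have h : cnt (Sw L.G L.o) 0 ≤ 1 := by
    unfold cnt
    refine (Set.ncard_le_ncard (t := {([] : List (ℤ × ℤ))}) ?_ (Set.finite_singleton _)).trans ?_
    · rintro l ⟨_, hl⟩
      exact List.eq_nil_of_length_eq_zero hl
    · rw [Set.ncard_singleton]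
  exact_mod_cast h

private theorem B9b_inv (ε : ℝ) (h0 : 0 < ε) (h1 : ε ≤ 1 / 2) (m : ℕ) :
    1 ≤ (1 - ε) ^ m * Real.exp (2 * ε * m) := by
  have h2 : (1 : ℝ) ≤ (1 - ε) * Real.exp (2 * ε) := by
    have h3 : (0 : ℝ) < 1 - ε := by linarith
    have h4 : 1 + 2 * ε ≤ Real.exp (2 * ε) := by
      have := Real.add_one_le_exp (2 * ε)
      linarith
    have h5 : (1 : ℝ) ≤ (1 - ε) * (1 + 2 * ε) := by nlinarith
    calc (1 : ℝ) ≤ (1 - ε) * (1 + 2 * ε) := h5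
      _ ≤ (1 - ε) * Real.exp (2 * ε) := by gcongr
  calc (1 : ℝ) ≤ ((1 - ε) * Real.exp (2 * ε)) ^ m := one_le_pow₀ h2
    _ = (1 - ε) ^ m * Real.exp (2 * ε * m) := by
        rw [mul_pow, ← Real.exp_nat_mul]
        congr 2
        ring

/-- The numbers: `ε = X / (2 k)` with `X ^ 3 = k`. -/
private theorem B9b_eps (k B : ℕ) (hk : 0 < k) : ∃ ε X : ℝ, 0 < ε ∧ ε ≤ 1 / 2 ∧ 1 ≤ X ∧
    X = (k : ℝ) ^ (1 / 3 : ℝ) ∧ 2 * ε * ((k + 2 * B : ℕ) : ℝ) ≤ (1 + 2 * B) * X ∧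
    Real.sqrt (1 / ε) ≤ 2 * X := by
  have hk1 : (1 : ℝ) ≤ (k : ℝ) := by exact_mod_cast hk
  set x : ℝ := (k : ℝ) with hx
  set X : ℝ := x ^ (1 / 3 : ℝ) with hX
  have hX1 : 1 ≤ X := Real.one_le_rpow hk1 (by norm_num)
  have hX3 : X ^ 3 = x := by
    rw [hX, ← Real.rpow_natCast, ← Real.rpow_mul (by linarith)]
    norm_num
  have hx0 : 0 < x := by linarith
  have hX0 : 0 < X := by linarith
  have hX2 : X ≤ x := by
    rw [← hX3]
    exact le_self_pow₀ hX1 (by norm_num)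
  have hB : (0 : ℝ) ≤ B := Nat.cast_nonneg _
  refine ⟨X / (2 * x), X, by positivity, ?_, hX1, rfl, ?_, ?_⟩
  · rw [div_le_iff₀ (by positivity)]
    linarith
  · have h1 : 2 * (X / (2 * x)) * ((k + 2 * B : ℕ) : ℝ) = X * ((x + 2 * B) / x) := by
      push_cast
      rw [← hx]
      field_simp
    rw [h1]
    have h2 : (x + 2 * B) / x ≤ 1 + 2 * B := by
      rw [div_le_iff₀ (by positivity)]
      nlinarith
    have h3 := mul_le_mul_of_nonneg_left h2 hX0.le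
    linarith
  · have h4 : 1 / (X / (2 * x)) ≤ (2 * X) ^ 2 := by
      rw [one_div, inv_div, div_le_iff₀ hX0]
      have h5 : (2 * X) ^ 2 * X = 4 * X ^ 3 := by ring
      rw [h5, hX3]
      linarith
    exact (Real.sqrt_le_sqrt h4).trans (le_of_eq (Real.sqrt_sq (by positivity)))

/-- `c ^ j ≤ exp (j c X)`. -/
private theorem B9b_pow {c X : ℝ} (hc : 0 ≤ c) (hX : 1 ≤ X) (j : ℕ) : c ^ j ≤ Real.exp (j * c * X) := by
  have h6 : c ≤ Real.exp c := by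
    have := Real.add_one_le_exp c
    linarith
  calc c ^ j ≤ (Real.exp c) ^ j := by gcongr
    _ = Real.exp (j * c) := by rw [← Real.exp_nat_mul]
    _ ≤ Real.exp (j * c * X) := by
        apply Real.exp_le_exp.mpr
        have : 0 ≤ (j : ℝ) * c := by positivity
        nlinarith

theorem cnt_bound (L : Lat) : ∃ C : ℝ, 0 < C ∧ ∀ k : ℕ, (cnt (Sw L.G L.o) k : ℝ) ≤
    muo L ^ k * Real.exp (C * (k : ℝ) ^ (1 / 3 : ℝ)) := by
  obtain ⟨C, hC, hS⟩ := main_HU L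
  have hmu := one_le_muo L
  have hmu0 : 0 < muo L := by linarith
  set B : ℕ := Bo L with hBdef
  refine ⟨1 + 2 * B + 4 * C + (2 * B : ℕ) * muo L + (2 : ℕ) * L.p, by positivity, ?_⟩
  intro n
  rcases Nat.eq_zero_or_pos n with hn | hn
  · subst hn
    have h := B9b_zero L
    rw [Nat.cast_zero, Real.zero_rpow (by norm_num), mul_zero, Real.exp_zero, pow_zero, mul_one]
    exact h
  · obtain ⟨ε, X, hε0, hε1, hX1, hXd, hεn, hε2⟩ := B9b_eps n B hn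
    rw [← hXd]
    set b : ℝ := Real.exp (C * Real.sqrt (1 / ε)) with hb
    have hb0 : 0 ≤ b := (Real.exp_pos _).le
    have hy1 : Real.toNNReal (1 - ε) ≤ 1 := by
      rw [Real.toNNReal_le_one]
      linarith
    have h1 := B9b_cnt L (Real.toNNReal (1 - ε) * zo L) (mul_le_one₀ hy1 zero_le (zo_le_one L)) n b hb0
      (hS ε hε0 hε1)
    have hz : ((Real.toNNReal (1 - ε) * zo L : ℝ≥0) : ℝ) = (1 - ε) * (zo L : ℝ) := by
      rw [NNReal.coe_mul, Real.coe_toNNReal _ (by linarith)]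
    rw [hz, ← hBdef] at h1
    have hzm := zo_mul_muo L
    have h2 : b ^ 2 ≤ Real.exp (4 * C * X) := by
      rw [hb, ← Real.exp_nat_mul]
      apply Real.exp_le_exp.mpr
      have := mul_le_mul_of_nonneg_left hε2 hC.le
      push_cast
      nlinarith
    have h3 := B9b_inv ε hε0 hε1 (n + 2 * B)
    have h4 : Real.exp (2 * ε * ((n + 2 * B : ℕ) : ℝ)) ≤ Real.exp ((1 + 2 * B) * X) :=
      Real.exp_le_exp.mpr hεn
    have h5 : muo L ^ (2 * B) ≤ Real.exp ((2 * B : ℕ) * muo L * X) := B9b_pow hmu0.le hX1 (2 * B)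
    have h6 : (L.p : ℝ) ^ 2 ≤ Real.exp ((2 : ℕ) * (L.p : ℝ) * X) := B9b_pow (Nat.cast_nonneg _) hX1 2
    set a : ℝ := (cnt (Sw L.G L.o) n : ℝ) with ha
    have ha0 : 0 ≤ a := Nat.cast_nonneg _
    calc a = (((zo L : ℝ) * muo L) ^ (n + 2 * B)) * a := by rw [hzm, one_pow, one_mul]
      _ ≤ (((zo L : ℝ) * muo L) ^ (n + 2 * B)) * a *
          ((1 - ε) ^ (n + 2 * B) * Real.exp (2 * ε * ((n + 2 * B : ℕ) : ℝ))) := by
            rw [hzm, one_pow, one_mul]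
            nlinarith
      _ = (((1 - ε) * (zo L : ℝ)) ^ (n + 2 * B) * a) * muo L ^ (n + 2 * B) *
          Real.exp (2 * ε * ((n + 2 * B : ℕ) : ℝ)) := by
            rw [mul_pow, mul_pow]
            ring
      _ ≤ ((L.p : ℝ) ^ 2 * b ^ 2) * muo L ^ (n + 2 * B) * Real.exp (2 * ε * ((n + 2 * B : ℕ) : ℝ)) := by
            gcongr
      _ ≤ (Real.exp ((2 : ℕ) * (L.p : ℝ) * X) * Real.exp (4 * C * X)) * muo L ^ (n + 2 * B) *
          Real.exp ((1 + 2 * B) * X) := by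
            gcongr
      _ = muo L ^ n * (Real.exp ((2 : ℕ) * (L.p : ℝ) * X) * Real.exp (4 * C * X) * Real.exp ((1 + 2 * B) * X) *
          muo L ^ (2 * B)) := by rw [pow_add]; ring
      _ ≤ muo L ^ n * (Real.exp ((2 : ℕ) * (L.p : ℝ) * X) * Real.exp (4 * C * X) * Real.exp ((1 + 2 * B) * X) *
          Real.exp ((2 * B : ℕ) * muo L * X)) := by
            gcongr
      _ = muo L ^ n * Real.exp ((1 + 2 * B + 4 * C + (2 * B : ℕ) * muo L + (2 : ℕ) * L.p) * X) := by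
            rw [← Real.exp_add, ← Real.exp_add, ← Real.exp_add]
            congr 2
            ring

end Pool.Agent.RPL
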