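import Pool.Agent.RPL.B4a
import Pool.Agent.SHP.HW
import Pool.Agent.ZHW.Basic

/-!
Module BHalf: closed half-plane walks against strict ones.

PAPER PROOF. Let `A = al L q` (`al_spec`: `A ∈ Sw L.G L.o`, width `> 0`, nonempty initial and final parts have positive width, `|A| ≤ Bo L` by `al_le`) and `q0 = q - A.sum`; `ty L q0 = ty L L.o` (`A.sum = ty L q + (p, 0)`, `lv_ty`, `snd_ty`, `ty_shift`), so `A ∈ Sw L.G q0` (`Sw_congr`) and `Sup L.G q0` (`Sup_congr`, `L.ho`). For `l ∈ CU L q`:
`A ++ l ∈ Sw L.G q0` (self-avoiding: a block with sum zero is neither inside `A` nor inside `l`; if it starts strictly before the end of `A` its start is strictly to the left of `q` and its end weakly to the right; compare the proof of `hat_mem` / `Basic_saws_app` in ZHW/Basic), and it is a strict half-plane walk: nonempty initial parts have positive width.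
So `A ++ l ∈ halfs true`, and `l ↦ A ++ l` is injective. For a finite set of words `l` take `m` = the maximal length of `A ++ l`: `A ++ l ∈ HT true m` (`halfs_mem_HT` as used in ZLF/FinF). So every finite partial sum of `z ^ |A| * gf (CU L q) z` is at most `gf (HU L q0 m) z ≤ B` (compare `FinF_halfs` in ZLF/FinF), and `z ^ Bo ≤ z ^ |A|`.
-/

set_option autoImplicit false

namespace Pool.Agent.RPL

open Pool.Agent.SHP Pool.Agent.ZHW
open scoped ENNReal NNReal

private theorem BHalf_saws_app {u v : Wd} (hu : u ∈ saws true) (hv : v ∈ saws true)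
    (h : ∀ a b c d : Wd, u = a ++ b → b ≠ [] → v = c ++ d → 0 < b.sum.1 + c.sum.1) :
    u ++ v ∈ saws true := by
  refine ⟨fun s hs => ?_, fun a b c he hb => ?_⟩
  · rcases List.mem_append.1 hs with hs | hs
    · exact hu.1 s hs
    · exact hv.1 s hs
  · rcases List.append_eq_append_iff.1 he with ⟨d, hd, hd'⟩ | ⟨d, hd, hd'⟩
    · exact hv.2 d b c hd' hb
    · rcases List.append_eq_append_iff.1 hd' with ⟨x, hx, hx'⟩ | ⟨x, hx, hx'⟩
      · exact hu.2 a b x (by rw [hd, hx]) hb
      · by_cases hdn : d = []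
        · subst hdn
          refine hv.2 [] b c ?_ hb
          rw [hx', hx]
          simp
        · exfalso
          have h1 := h a d x c hd hdn hx'
          have h3 : b.sum.1 = d.sum.1 + x.sum.1 := by rw [hx, fst_sum_append]
          rw [hb] at h3
          simp only [Prod.fst_zero] at h3
          omega

private theorem BHalf_fin (L : Lat) (q0 : ℤ × ℤ) (z : ℝ≥0) (B : ℝ≥0∞)
    (hHT : ∀ m : ℕ, gf (HU L q0 m) z ≤ B) :
    gf {r | r ∈ Sw L.G q0 ∧ r ∈ halfs true} z ≤ B := by
  classical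
  have h1 : ∀ A : Set (List (ℤ × ℤ)), gf A z =
      ∑' l : List (ℤ × ℤ), A.indicator (fun l : List (ℤ × ℤ) => (z : ℝ≥0∞) ^ l.length) l := by
    intro A
    unfold gf
    rw [tsum_subtype A (fun l : List (ℤ × ℤ) => (z : ℝ≥0∞) ^ l.length)]
  rw [h1, ENNReal.tsum_eq_iSup_sum]
  apply iSup_le
  intro F
  let T := F.sup List.length
  refine le_trans ?_ (hHT T)
  rw [h1]
  refine le_trans ?_ (ENNReal.sum_le_tsum F)
  apply Finset.sum_le_sum
  intro l hl
  by_cases hh : l ∈ {r : List (ℤ × ℤ) | r ∈ Sw L.G q0 ∧ r ∈ halfs true}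
  · have h2 : l ∈ HU L q0 T := ⟨hh.1, halfs_mem_HT hh.2 (Finset.le_sup (f := List.length) hl)⟩
    rw [Set.indicator_of_mem hh, Set.indicator_of_mem h2]
  · rw [Set.indicator_of_notMem hh]
    exact zero_le

theorem cu_le (L : Lat) {z : ℝ≥0} (hz : z ≤ 1) {B : ℝ≥0∞} (hB : ∀ q, Sup L.G q → ∀ m, gf (HU L q m) z ≤ B)
    {q : ℤ × ℤ} (hq : Sup L.G q) : (z : ℝ≥0∞) ^ (Bo L) * gf (CU L q) z ≤ B := by
  obtain ⟨hA1, hA2, hA3, hA4⟩ := al_spec L hq
  obtain ⟨q0, hq0⟩ : ∃ q0 : ℤ × ℤ, q0 + (al L q).sum = q := ⟨q - (al L q).sum, sub_add_cancel _ _⟩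
  have hp : (0 : ℤ) < L.p := by
    have := L.p1
    omega
  have hAs : (al L q).sum.1 = (ty L q).1 + L.p := congrArg Prod.fst hA2
  have hAs2 : (al L q).sum.2 = (ty L q).2 := by rw [hA2]
  have hApos : 0 < (al L q).sum.1 := by
    have := (ty_range L q).1
    linarith
  have hty : ty L q0 = ty L L.o := by
    obtain ⟨b, hb⟩ := snd_ty L q
    have ha := lv_ty L q
    have h1 : q0.1 + (al L q).sum.1 = q.1 := congrArg Prod.fst hq0
    have h2 : q0.2 + (al L q).sum.2 = q.2 := congrArg Prod.snd hq0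
    have h3 : q0 = L.o + ((L.p : ℤ) * (lv L q - 1), (L.p : ℤ) * b) := by
      ext
      · simp only [Prod.fst_add]
        linarith
      · simp only [Prod.snd_add]
        linarith
    rw [h3, ty_shift]
  have hS0 : Sup L.G q0 := (Sup_congr L hty).2 L.ho
  have hA1' : al L q ∈ Sw L.G q0 := by
    rw [Sw_congr L hty]
    exact hA1
  have hinj : (z : ℝ≥0∞) ^ (al L q).length * gf (CU L q) z ≤
      gf {r | r ∈ Sw L.G q0 ∧ r ∈ halfs true} z := by
    refine gf_le_of_inj (A := CU L q) (B := {r | r ∈ Sw L.G q0 ∧ r ∈ halfs true}) z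
      (al L q).length (fun l => al L q ++ l) ?_ ?_ ?_
    · rintro l ⟨hl, hR⟩
      have h1 : al L q ++ l ∈ saws true := by
        refine BHalf_saws_app hA1.1 hl.1 ?_
        intro a b c d hab hb hcd
        have h2 := hA4 a b hab hb
        have h3 := hR c d hcd
        omega
      refine ⟨⟨h1, ?_⟩, h1, ?_⟩
      · rw [Wk_append, hq0]
        exact ⟨hA1'.2, hl.2⟩
      · intro u v huv hu
        rcases List.append_eq_append_iff.1 huv with ⟨c, hc, hc2⟩ | ⟨c, hc, hc2⟩
        · have h2 := hR c v hc2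
          rw [hc, fst_sum_append]
          omega
        · exact hA3 u c hc hu
    · intro a _ b _ h
      exact List.append_cancel_left h
    · intro a _
      show (al L q ++ a).length = _
      rw [List.length_append]
      omega
  have h1 := BHalf_fin L q0 z B (hB q0 hS0)
  refine le_trans ?_ (hinj.trans h1)
  have hz' : (z : ℝ≥0∞) ≤ 1 := by exact_mod_cast hz
  exact mul_le_mul' (pow_le_pow_right_of_le_one' hz' (al_le L q)) le_rfl

end Pool.Agent.RPL
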