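import Pool.Agent.RPL.B2b
import Pool.Agent.RPL.BHalf
import Pool.Agent.RPL.BSplit

/-!
Module BCnt: the bound for the numbers.

PAPER PROOF. Compare `cnt_le` in `Pool/Agent/ZLF/FinF.lean` (copy the numbers `FinF_eps`, `FinF_inv`, `FinF_zero`). For `n ≥ 1`: `ε = X / (2 n)`, `X = n ^ (1 / 3)`, `z = toNNReal (1 - ε) * zo L ≤ 1` (`zo_le_one`). `cu_le` with `B = ofReal (exp (C √(1 / ε)))`: `gf (CU L q) z ≤ z⁻¹ ^ Bo * B` (`z > 0`: `zo_pos`), `sw_le`: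
`z ^ (2 Bo) * gf (Sw L.G L.o) z ≤ p ^ 2 * B ^ 2`, and `cnt (Sw L.G L.o) n * z ^ n ≤ gf (Sw L.G L.o) z` (`gf_eq_cnt` of SHP, words in `saws true`). So `cnt n ≤ z⁻¹ ^ (n + 2 Bo) * p ^ 2 * exp (2 C √(1 / ε))`, `z⁻¹ = muo L / (1 - ε)` (`zo_mul_muo`), `(1 - ε)⁻¹ ^ m ≤ exp (2 ε m)` (`FinF_inv`),
`2 ε (n + 2 Bo) ≤ X + 2 Bo` (`ε ≤ 1 / 2`), `√(1 / ε) ≤ 2 X`; `p ^ 2`, `muo ^ (2 Bo)`, `exp (2 Bo)` are `≤ exp (c X)` as `X ≥ 1`. `n = 0`: `cnt (Sw L.G L.o) 0 ≤ 1`, `0 ^ (1 / 3) = 0`.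
-/

set_option autoImplicit false

namespace Pool.Agent.RPL

open Pool.Agent.SHP Pool.Agent.ZHW
open scoped ENNReal NNReal

/-- At most one word of length zero. -/
private theorem BCnt_zero (L : Lat) : (cnt (Sw L.G L.o) 0 : ℝ) ≤ 1 := by
  have h : cnt (Sw L.G L.o) 0 ≤ 1 := by
    unfold cnt
    refine (Set.ncard_le_ncard (t := {([] : List (ℤ × ℤ))}) ?_ (Set.finite_singleton _)).trans ?_
    · rintro l ⟨_, hl⟩
      exact List.eq_nil_of_length_eq_zero hl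
    · rw [Set.ncard_singleton]
  exact_mod_cast h

private theorem BCnt_inv (ε : ℝ) (h0 : 0 < ε) (h1 : ε ≤ 1 / 2) (m : ℕ) :
    1 ≤ (1 - ε) ^ m * Real.exp (2 * ε * m) := by
  have h2 : (1 : ℝ) ≤ (1 - ε) * Real.exp (2 * ε) := by
    have h3 : (0 : ℝ) < 1 - ε := by linarith
    have h4 : 1 + 2 * ε ≤ Real.exp (2 * ε) := by
      have := Real.add_one_le_exp (2 * ε)
      linarith
    have h5 : (1 : ℝ) ≤ (1 - ε) * (1 + 2 * ε) := by nlinarith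
    calc (1 : ℝ) ≤ (1 - ε) * (1 + 2 * ε) := h5
      _ ≤ (1 - ε) * Real.exp (2 * ε) := by gcongr
  calc (1 : ℝ) ≤ ((1 - ε) * Real.exp (2 * ε)) ^ m := one_le_pow₀ h2
    _ = (1 - ε) ^ m * Real.exp (2 * ε * m) := by
        rw [mul_pow, ← Real.exp_nat_mul]
        congr 2
        ring

/-- The numbers: `ε = X / (2 k)` with `X ^ 3 = k`. -/
private theorem BCnt_eps (k : ℕ) (hk : 0 < k) : ∃ ε X : ℝ, 0 < ε ∧ ε ≤ 1 / 2 ∧ 1 ≤ X ∧
    X = (k : ℝ) ^ (1 / 3 : ℝ) ∧ 2 * ε * (k : ℝ) ≤ X ∧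
    Real.sqrt (1 / ε) ≤ 2 * X := by
  have hk1 : (1 : ℝ) ≤ (k : ℝ) := by exact_mod_cast hk
  set x : ℝ := (k : ℝ) with hx
  set X : ℝ := x ^ (1 / 3 : ℝ) with hX
  have hX1 : 1 ≤ X := Real.one_le_rpow hk1 (by norm_num)
  have hX3 : X ^ 3 = x := by
    rw [hX, ← Real.rpow_natCast, ← Real.rpow_mul (by linarith)]
    norm_num
  have hx0 : 0 < x := by linarith
  have hX0 : 0 < X := by linarith
  have hX2 : X ≤ x := by
    rw [← hX3]
    exact le_self_pow₀ hX1 (by norm_num)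
  refine ⟨X / (2 * x), X, by positivity, ?_, hX1, rfl, ?_, ?_⟩
  · rw [div_le_iff₀ (by positivity)]
    linarith
  · have h1 : 2 * (X / (2 * x)) * x = X := by
      field_simp
    rw [h1]
  · have h4 : 1 / (X / (2 * x)) ≤ (2 * X) ^ 2 := by
      rw [one_div, inv_div, div_le_iff₀ hX0]
      have h5 : (2 * X) ^ 2 * X = 4 * X ^ 3 := by ring
      rw [h5, hX3]
      linarith
    exact (Real.sqrt_le_sqrt h4).trans (le_of_eq (Real.sqrt_sq (by positivity)))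

/-- A power is at most an exponential. -/
private theorem BCnt_pow (a X : ℝ) (ha : 0 ≤ a) (hX : 1 ≤ X) (m : ℕ) :
    a ^ m ≤ Real.exp ((m : ℝ) * a * X) := by
  have h6 : a ≤ Real.exp a := by
    have := Real.add_one_le_exp a
    linarith
  calc a ^ m ≤ (Real.exp a) ^ m := by gcongr
    _ = Real.exp ((m : ℝ) * a) := by rw [← Real.exp_nat_mul]
    _ ≤ Real.exp ((m : ℝ) * a * X) := by
        apply Real.exp_le_exp.mpr
        have : 0 ≤ (m : ℝ) * a := by positivity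
        nlinarith

/-- The counting bound at one point. -/
private theorem BCnt_cnt (L : Lat) (z : ℝ≥0) (hz0 : 0 < z) (hz1 : z ≤ 1) (n : ℕ) (b : ℝ) (hb : 0 ≤ b)
    (h : ∀ q, Sup L.G q → ∀ m, gf (HU L q m) z ≤ ENNReal.ofReal b) :
    (z : ℝ) ^ (n + 2 * Bo L) * (cnt (Sw L.G L.o) n : ℝ) ≤ (L.p : ℝ) ^ 2 * b ^ 2 := by
  have h1 : (cnt (Sw L.G L.o) n : ℝ≥0∞) * (z : ℝ≥0∞) ^ n ≤ gf (Sw L.G L.o) z := by
    rw [gf_eq_cnt (t := true) (fun l hl => hl.1.1) z]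
    exact ENNReal.le_tsum (f := fun n : ℕ => (cnt (Sw L.G L.o) n : ℝ≥0∞) * (z : ℝ≥0∞) ^ n) n
  have hzb0 : (z : ℝ≥0∞) ^ (Bo L) ≠ 0 := by
    apply pow_ne_zero
    exact_mod_cast hz0.ne'
  have hzbt : (z : ℝ≥0∞) ^ (Bo L) ≠ ⊤ := ENNReal.pow_ne_top ENNReal.coe_ne_top
  have h2 : ∀ q, Sup L.G q → gf (CU L q) z ≤ ((z : ℝ≥0∞) ^ (Bo L))⁻¹ * ENNReal.ofReal b := by
    intro q hq
    calc gf (CU L q) z = ((z : ℝ≥0∞) ^ (Bo L))⁻¹ * ((z : ℝ≥0∞) ^ (Bo L) * gf (CU L q) z) := by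
          rw [← mul_assoc, ENNReal.inv_mul_cancel hzb0 hzbt, one_mul]
      _ ≤ ((z : ℝ≥0∞) ^ (Bo L))⁻¹ * ENNReal.ofReal b := by
          gcongr
          exact cu_le L hz1 h hq
  have h3 := sw_le L z _ h2
  have h4 : (z : ℝ≥0∞) ^ (n + 2 * Bo L) * (cnt (Sw L.G L.o) n : ℝ≥0∞) ≤
      ENNReal.ofReal ((L.p : ℝ) ^ 2 * b ^ 2) := by
    calc (z : ℝ≥0∞) ^ (n + 2 * Bo L) * (cnt (Sw L.G L.o) n : ℝ≥0∞)
        = ((z : ℝ≥0∞) ^ (Bo L)) ^ 2 * ((cnt (Sw L.G L.o) n : ℝ≥0∞) * (z : ℝ≥0∞) ^ n) := by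
          rw [pow_add, ← pow_mul, mul_comm 2 (Bo L)]
          ring
      _ ≤ ((z : ℝ≥0∞) ^ (Bo L)) ^ 2 * gf (Sw L.G L.o) z := by gcongr
      _ ≤ ((z : ℝ≥0∞) ^ (Bo L)) ^ 2 *
            ((L.p : ℝ≥0∞) ^ 2 * (((z : ℝ≥0∞) ^ (Bo L))⁻¹ * ENNReal.ofReal b) ^ 2) := by gcongr
      _ = (L.p : ℝ≥0∞) ^ 2 * ((z : ℝ≥0∞) ^ (Bo L) * ((z : ℝ≥0∞) ^ (Bo L))⁻¹ * ENNReal.ofReal b) ^ 2 := by
          ring
      _ = (L.p : ℝ≥0∞) ^ 2 * (ENNReal.ofReal b) ^ 2 := by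
          rw [ENNReal.mul_inv_cancel hzb0 hzbt, one_mul]
      _ = ENNReal.ofReal ((L.p : ℝ) ^ 2 * b ^ 2) := by
          rw [ENNReal.ofReal_mul (by positivity), ENNReal.ofReal_pow hb, ENNReal.ofReal_pow (by positivity),
            ENNReal.ofReal_natCast]
  have h5 : (z : ℝ≥0∞) ^ (n + 2 * Bo L) * (cnt (Sw L.G L.o) n : ℝ≥0∞) =
      ENNReal.ofReal ((z : ℝ) ^ (n + 2 * Bo L) * (cnt (Sw L.G L.o) n : ℝ)) := by
    rw [ENNReal.ofReal_mul (by positivity), ENNReal.ofReal_pow (by positivity),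
      ENNReal.ofReal_coe_nnreal, ENNReal.ofReal_natCast]
  rw [h5] at h4
  exact (ENNReal.ofReal_le_ofReal_iff (by positivity)).1 h4

theorem cntL_le (L : Lat) (C : ℝ) (hC : 0 < C)
    (hS : ∀ ε : ℝ, 0 < ε → ε ≤ 1 / 2 → ∀ q, Sup L.G q → ∀ m,
      gf (HU L q m) (Real.toNNReal (1 - ε) * zo L) ≤ ENNReal.ofReal (Real.exp (C * Real.sqrt (1 / ε)))) :
    ∃ C' : ℝ, 0 < C' ∧ ∀ n : ℕ, (cnt (Sw L.G L.o) n : ℝ) ≤ muo L ^ n * Real.exp (C' * (n : ℝ) ^ (1 / 3 : ℝ)) := by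
  have hmu := one_le_muo L
  have hmu0 : 0 < muo L := by linarith
  refine ⟨1 + 2 * (Bo L : ℝ) + 4 * C + ((2 * Bo L : ℕ) : ℝ) * muo L + 2 * (L.p : ℝ), by positivity, ?_⟩
  intro n
  rcases Nat.eq_zero_or_pos n with hn | hn
  · subst hn
    have h := BCnt_zero L
    rw [Nat.cast_zero, Real.zero_rpow (by norm_num), mul_zero, Real.exp_zero, pow_zero, mul_one]
    exact h
  · obtain ⟨ε, X, hε0, hε1, hX1, hXd, hεn, hε2⟩ := BCnt_eps n hn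
    rw [← hXd]
    set b : ℝ := Real.exp (C * Real.sqrt (1 / ε)) with hb
    have hb0 : 0 ≤ b := (Real.exp_pos _).le
    have hz : ((Real.toNNReal (1 - ε) * zo L : ℝ≥0) : ℝ) = (1 - ε) * (zo L : ℝ) := by
      rw [NNReal.coe_mul, Real.coe_toNNReal _ (by linarith)]
    have hz1 : Real.toNNReal (1 - ε) * zo L ≤ 1 := by
      refine mul_le_one' ?_ (zo_le_one L)
      rw [Real.toNNReal_le_one]
      linarith
    have hz0 : 0 < Real.toNNReal (1 - ε) * zo L :=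
      mul_pos (Real.toNNReal_pos.2 (by linarith)) (zo_pos L)
    have h1 := BCnt_cnt L (Real.toNNReal (1 - ε) * zo L) hz0 hz1 n b hb0 (hS ε hε0 hε1)
    rw [hz] at h1
    have hzm := zo_mul_muo L
    have h2 : b ^ 2 ≤ Real.exp (4 * C * X) := by
      rw [hb, ← Real.exp_nat_mul]
      apply Real.exp_le_exp.mpr
      have := mul_le_mul_of_nonneg_left hε2 hC.le
      push_cast
      nlinarith
    set m : ℕ := n + 2 * Bo L with hm
    have h3 := BCnt_inv ε hε0 hε1 m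
    have h4 : Real.exp (2 * ε * (m : ℝ)) ≤ Real.exp ((1 + 2 * (Bo L : ℝ)) * X) := by
      apply Real.exp_le_exp.mpr
      rw [hm]
      push_cast
      have hB0 : (0 : ℝ) ≤ (Bo L : ℝ) := Nat.cast_nonneg _
      have h6 : 2 * ε * (2 * (Bo L : ℝ)) ≤ 2 * (Bo L : ℝ) := by nlinarith
      have h7 : 2 * (Bo L : ℝ) ≤ 2 * (Bo L : ℝ) * X := by nlinarith
      nlinarith
    have h5 : muo L ^ (2 * Bo L) ≤ Real.exp (((2 * Bo L : ℕ) : ℝ) * muo L * X) :=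
      BCnt_pow (muo L) X hmu0.le hX1 (2 * Bo L)
    have h6 : (L.p : ℝ) ^ 2 ≤ Real.exp (2 * (L.p : ℝ) * X) := by
      have := BCnt_pow (L.p : ℝ) X (Nat.cast_nonneg _) hX1 2
      exact_mod_cast this
    set a : ℝ := (cnt (Sw L.G L.o) n : ℝ) with ha
    have ha0 : 0 ≤ a := Nat.cast_nonneg _
    have hX0 : 0 < X := by linarith
    calc a = (((zo L : ℝ) * muo L) ^ m) * a := by rw [hzm, one_pow, one_mul]
      _ ≤ (((zo L : ℝ) * muo L) ^ m) * a *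
          ((1 - ε) ^ m * Real.exp (2 * ε * (m : ℝ))) := by
            rw [hzm, one_pow, one_mul]
            nlinarith
      _ = (((1 - ε) * (zo L : ℝ)) ^ m * a) * muo L ^ m *
          Real.exp (2 * ε * (m : ℝ)) := by
            rw [mul_pow, mul_pow]
            ring
      _ ≤ ((L.p : ℝ) ^ 2 * b ^ 2) * muo L ^ m * Real.exp (2 * ε * (m : ℝ)) := by
            gcongr
      _ ≤ (Real.exp (2 * (L.p : ℝ) * X) * Real.exp (4 * C * X)) * muo L ^ m *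
          Real.exp ((1 + 2 * (Bo L : ℝ)) * X) := by
            gcongr
      _ = muo L ^ n * (Real.exp (2 * (L.p : ℝ) * X) * Real.exp (4 * C * X) *
          Real.exp ((1 + 2 * (Bo L : ℝ)) * X) * muo L ^ (2 * Bo L)) := by
            rw [hm, pow_add]
            ring
      _ ≤ muo L ^ n * (Real.exp (2 * (L.p : ℝ) * X) * Real.exp (4 * C * X) *
          Real.exp ((1 + 2 * (Bo L : ℝ)) * X) * Real.exp (((2 * Bo L : ℕ) : ℝ) * muo L * X)) := by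
            gcongr
      _ = muo L ^ n * Real.exp ((1 + 2 * (Bo L : ℝ) + 4 * C + ((2 * Bo L : ℕ) : ℝ) * muo L + 2 * (L.p : ℝ)) * X) := by
            rw [← Real.exp_add, ← Real.exp_add, ← Real.exp_add]
            congr 2
            ring

end Pool.Agent.RPL
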