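import Pool.Agent.RPL.B1

/-!
Module BLa: a path of the graph as a word.

PAPER PROOF. Induction on the walk `P` (or on its length): `nil`: `l = []`. `cons h Q` with `h : G.Adj u v`, `Q : G.Walk v w` a path, `u ∉ Q.support`: `l = (v - u) :: l'`, `l'` from `Q`.
`Wk G u l` by `Wk_cons` (`u + (v - u) = v`). The steps are in `steps true` by `sub`. Self-avoiding: `saws true` asks that no nonempty block `v0` of `l = u0 ++ (v0 ++ w0)` has sum zero: if `u0 ≠ []` it is a block of `l'`; if `u0 = []`
then `u + v0.sum = u` would be a vertex of `Q` (`v0 = (v - u) :: v1`, `u + v0.sum = v + v1.sum`, a vertex of `Q` by the statement for `l'`), against `u ∉ Q.support`. The last statement: `u + a.sum ∈ P.support` by the same case distinction; `a ≠ [] → u + a.sum ≠ u` and `b ≠ [] → u + a.sum ≠ w`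
follow from `l ∈ saws true` (`a.sum ≠ 0`, `b.sum ≠ 0`, as `a`, `b` are blocks of `l`).
-/

set_option autoImplicit false

namespace Pool.Agent.RPL

open Pool.Agent.SHP Pool.Agent.ZHW
open scoped ENNReal NNReal

private theorem path_word_aux {G : SimpleGraph (ℤ × ℤ)} (sub : ∀ u v, G.Adj u v → v - u ∈ steps true) {u w : ℤ × ℤ}
    (P : G.Walk u w) : P.IsPath → ∃ l : Wd, l ∈ saws true ∧ Wk G u l ∧ u + l.sum = w ∧
      ∀ a b : Wd, l = a ++ b → u + a.sum ∈ P.support := by
  induction P with
  | nil =>
    intro _
    refine ⟨[], nil_mem_bridges.1.1, Wk_nil G _, by rw [List.sum_nil, add_zero], ?_⟩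
    intro a b hab
    have h1 : a = [] := (List.append_eq_nil_iff.1 hab.symm).1
    rw [h1, List.sum_nil, add_zero]
    exact SimpleGraph.Walk.start_mem_support _
  | @cons u v w h Q ih =>
    intro hP
    rw [SimpleGraph.Walk.cons_isPath_iff] at hP
    obtain ⟨hQ, hu⟩ := hP
    obtain ⟨l', h1, h2, h3, h4⟩ := ih hQ
    have huv : u + (v - u) = v := by abel
    refine ⟨(v - u) :: l', ⟨?_, ?_⟩, ?_, ?_, ?_⟩
    · intro s hs
      rcases List.mem_cons.1 hs with rfl | hs
      · exact sub _ _ h
      · exact h1.1 s hs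
    · intro u0 v0 w0 hl hsum
      cases u0 with
      | nil =>
        rw [List.nil_append] at hl
        cases v0 with
        | nil => rfl
        | cons s v1 =>
          rw [List.cons_append, List.cons.injEq] at hl
          have h5 := h4 v1 w0 hl.2
          have h6 : v + v1.sum = u := by
            rw [List.sum_cons, ← hl.1] at hsum
            have h7 : v + v1.sum = u + (v - u + v1.sum) := by abel
            rw [h7, hsum, add_zero]
          rw [h6] at h5
          exact absurd h5 hu
      | cons s u1 =>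
        rw [List.cons_append, List.cons.injEq] at hl
        exact h1.2 u1 v0 w0 hl.2 hsum
    · rw [Wk_cons, huv]
      exact ⟨h, h2⟩
    · rw [List.sum_cons, ← add_assoc, huv, h3]
    · intro a b hab
      cases a with
      | nil =>
        rw [List.sum_nil, add_zero]
        exact SimpleGraph.Walk.start_mem_support _
      | cons s a =>
        rw [List.cons_append, List.cons.injEq] at hab
        rw [List.sum_cons, ← hab.1, ← add_assoc, huv, SimpleGraph.Walk.support_cons]
        exact List.mem_cons_of_mem _ (h4 a b hab.2)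

theorem path_word {G : SimpleGraph (ℤ × ℤ)} (sub : ∀ u v, G.Adj u v → v - u ∈ steps true) {u w : ℤ × ℤ} (P : G.Walk u w)
    (hP : P.IsPath) : ∃ l : Wd, l ∈ Sw G u ∧ u + l.sum = w ∧
      ∀ a b : Wd, l = a ++ b → u + a.sum ∈ P.support ∧ (a ≠ [] → u + a.sum ≠ u) ∧ (b ≠ [] → u + a.sum ≠ w) := by
  obtain ⟨l, h1, h2, h3, h4⟩ := path_word_aux sub P hP
  refine ⟨l, ⟨h1, h2⟩, h3, fun a b hab => ⟨h4 a b hab, fun ha h5 => ?_, fun hb h5 => ?_⟩⟩
  · have h6 : a.sum = 0 := by
      have := congrArg (fun x => x - u) h5
      simpa using this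
    exact ha (h1.2 [] a b (by rw [List.nil_append]; exact hab) h6)
  · have h6 : b.sum = 0 := by
      have h7 : l.sum = a.sum + b.sum := by rw [hab, List.sum_append]
      rw [← h3, h7, ← add_assoc] at h5
      exact (left_eq_add.1 h5)
    exact hb (h1.2 a b [] (by rw [List.append_nil]; exact hab) h6)

end Pool.Agent.RPL
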