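import Pool.Agent.RPL.B1

/-!
Module BLb: monotone paths and paths of bounded deviation.

`Nice G`: the hypotheses of the theorem.

PAPER PROOF. `mono_right`: induction on `m`, `nxt` (append one edge at the end of the walk: `Walk.concat` / `Walk.append`; the new vertex has the column `u.1 + m + 1`). `mono_left`: the same with `prv` and `Walk.cons` (edges reversed:
`G.symm`). `dev`: let `p` be the period. (1) For every vertex `u` there is a walk from `u` to `u + (0, p)` (`conn`, `Sup` by `per`); its support is finite, so there is a bound `c u` for `|x.1 - u.1|`, and by translation (`per`, map the walk by the translation, `SimpleGraph.Walk.map` with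
the homomorphism `x ↦ x + (p a, p b)`) one may take a bound `C1` which only depends on the residue of `u` mod `p`: take the maximum over the representatives in `[0, p) × [0, p)`. Reverse the walks for `u - (0, p)`. So by induction on `|k|` for every `k : ℤ` a walk from `u` to `u + (0, p k)` with deviation `≤ C1`
(all these points have the column `u.1`). (2) In the same way for `u`, `w` vertices in one box `[p a, p a + p) × [p b, p b + p)` there is a walk with deviation `≤ C2` (finitely many pairs of representatives; translate). (3) `u.1 = w.1`: let `w' = w + (0, p k)` be in the box of `u` (`k = u.2 / p - w.2 / p`, floor division); the columns have the same quotient because `u.1 = w.1`.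
Walk from `u` to `w'` by (2), from `w'` to `w` by (1). `C = C1 + C2` (`w'.1 = u.1`).
-/

set_option autoImplicit false

namespace Pool.Agent.RPL

open Pool.Agent.SHP Pool.Agent.ZHW
open scoped ENNReal NNReal

/-- The hypotheses on the graph `G` on `ℤ × ℤ`: the edges are edges of the triangular lattice; doubly periodic; connected (on the set of the points which have a neighbour);
every vertex has a neighbour in the next and one in the previous column; vertex-transitive. -/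
structure Nice (G : SimpleGraph (ℤ × ℤ)) : Prop where
  sub : ∀ u v, G.Adj u v → v - u ∈ steps true
  per : ∃ p : ℕ, 1 ≤ p ∧ ∀ (a b : ℤ) (u v : ℤ × ℤ), G.Adj u v → G.Adj (u + ((p : ℤ) * a, (p : ℤ) * b)) (v + ((p : ℤ) * a, (p : ℤ) * b))
  conn : ∀ u v, Sup G u → Sup G v → G.Reachable u v
  nxt : ∀ u, Sup G u → ∃ v, G.Adj u v ∧ v.1 = u.1 + 1
  prv : ∀ u, Sup G u → ∃ v, G.Adj u v ∧ v.1 = u.1 - 1
  tr : ∀ u v, Sup G u → Sup G v → ∃ φ : G ≃g G, φ u = v

theorem mono_right {G : SimpleGraph (ℤ × ℤ)} (h : Nice G) {u : ℤ × ℤ} (hu : Sup G u) (m : ℕ) :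
    ∃ v, Sup G v ∧ v.1 = u.1 + m ∧ ∃ P : G.Walk u v, ∀ x ∈ P.support, x = u ∨ (u.1 < x.1 ∧ x.1 ≤ v.1) := by
  induction m with
  | zero =>
    refine ⟨u, hu, by simp, SimpleGraph.Walk.nil, ?_⟩
    intro x hx
    rw [SimpleGraph.Walk.support_nil, List.mem_singleton] at hx
    exact Or.inl hx
  | succ m ih =>
    obtain ⟨v, hv, hv1, P, hP⟩ := ih
    obtain ⟨w, hvw, hw1⟩ := h.nxt v hv
    refine ⟨w, ⟨v, hvw.symm⟩, by push_cast; omega, P.concat hvw, ?_⟩
    intro x hx
    rw [SimpleGraph.Walk.support_concat, List.mem_append, List.mem_singleton] at hx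
    rcases hx with hx | hx
    · rcases hP x hx with h1 | ⟨h1, h2⟩
      · exact Or.inl h1
      · exact Or.inr ⟨h1, by omega⟩
    · subst hx
      exact Or.inr ⟨by omega, le_rfl⟩

theorem mono_left {G : SimpleGraph (ℤ × ℤ)} (h : Nice G) {w : ℤ × ℤ} (hw : Sup G w) (m : ℕ) :
    ∃ v, Sup G v ∧ v.1 = w.1 - m ∧ ∃ P : G.Walk v w, ∀ x ∈ P.support, x = w ∨ (v.1 ≤ x.1 ∧ x.1 < w.1) := by
  induction m with
  | zero =>
    refine ⟨w, hw, by simp, SimpleGraph.Walk.nil, ?_⟩
    intro x hx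
    rw [SimpleGraph.Walk.support_nil, List.mem_singleton] at hx
    exact Or.inl hx
  | succ m ih =>
    obtain ⟨v, hv, hv1, P, hP⟩ := ih
    obtain ⟨y, hvy, hy1⟩ := h.prv v hv
    refine ⟨y, ⟨v, hvy.symm⟩, by push_cast; omega, SimpleGraph.Walk.cons hvy.symm P, ?_⟩
    intro x hx
    rw [SimpleGraph.Walk.support_cons, List.mem_cons] at hx
    rcases hx with hx | hx
    · subst hx
      exact Or.inr ⟨le_rfl, by omega⟩
    · rcases hP x hx with h1 | ⟨h1, h2⟩
      · exact Or.inl h1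
      · exact Or.inr ⟨by omega, h2⟩

/-- `w` is joined with `u` by a walk of deviation at most `C`. -/
private def Dv (G : SimpleGraph (ℤ × ℤ)) (C : ℕ) (u w : ℤ × ℤ) : Prop :=
  ∃ P : G.Walk u w, ∀ x ∈ P.support, |x.1 - u.1| ≤ (C : ℤ)

private theorem Dv_mono {G : SimpleGraph (ℤ × ℤ)} {C C' : ℕ} {u w : ℤ × ℤ} (h : C ≤ C') (hd : Dv G C u w) :
    Dv G C' u w := by
  obtain ⟨P, hP⟩ := hd
  exact ⟨P, fun x hx => (hP x hx).trans (by exact_mod_cast h)⟩

private theorem Dv_trans {G : SimpleGraph (ℤ × ℤ)} {C : ℕ} {u v w : ℤ × ℤ} (huv : u.1 = v.1)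
    (h1 : Dv G C u v) (h2 : Dv G C v w) : Dv G C u w := by
  obtain ⟨P, hP⟩ := h1
  obtain ⟨Q, hQ⟩ := h2
  refine ⟨P.append Q, ?_⟩
  intro x hx
  rw [SimpleGraph.Walk.mem_support_append_iff] at hx
  rcases hx with hx | hx
  · exact hP x hx
  · rw [huv]
    exact hQ x hx

private theorem Dv_shift {G : SimpleGraph (ℤ × ℤ)} {C : ℕ} {u w τ : ℤ × ℤ}
    (h : ∀ a b, G.Adj a b → G.Adj (a + τ) (b + τ)) (hd : Dv G C u w) : Dv G C (u + τ) (w + τ) := by
  obtain ⟨P, hP⟩ := hd
  let f : G →g G := ⟨fun x => x + τ, fun {a b} hab => h a b hab⟩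
  refine ⟨P.map f, ?_⟩
  intro x hx
  rw [SimpleGraph.Walk.support_map, List.mem_map] at hx
  obtain ⟨y, hy, rfl⟩ := hx
  have h1 := hP y hy
  have h2 : (f y).1 - (u + τ).1 = y.1 - u.1 := by
    change (y + τ).1 - (u + τ).1 = y.1 - u.1
    simp only [Prod.fst_add]
    ring
  rw [h2]
  exact h1

private theorem Dv_ex {G : SimpleGraph (ℤ × ℤ)} {u w : ℤ × ℤ} (h : G.Reachable u w) : ∃ C, Dv G C u w := by
  obtain ⟨P⟩ := h
  refine ⟨P.support.toFinset.sup (fun x => (x.1 - u.1).natAbs), P, ?_⟩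
  intro x hx
  have h1 : (x.1 - u.1).natAbs ≤ P.support.toFinset.sup (fun x => (x.1 - u.1).natAbs) :=
    Finset.le_sup (f := fun x : ℤ × ℤ => (x.1 - u.1).natAbs) (List.mem_toFinset.2 hx)
  rw [Int.abs_eq_natAbs]
  exact_mod_cast h1

/-- One bound for a finite set of pairs. -/
private theorem Dv_fin {G : SimpleGraph (ℤ × ℤ)} (h : Nice G) (F : Finset ((ℤ × ℤ) × (ℤ × ℤ))) :
    ∃ C, ∀ q ∈ F, Sup G q.1 → Sup G q.2 → Dv G C q.1 q.2 := by
  induction F using Finset.induction_on with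
  | empty => exact ⟨0, fun q hq => absurd hq (Finset.notMem_empty q)⟩
  | insert a F _ ih =>
    obtain ⟨C, hC⟩ := ih
    by_cases ha : Sup G a.1 ∧ Sup G a.2
    · obtain ⟨C', hC'⟩ := Dv_ex (h.conn a.1 a.2 ha.1 ha.2)
      refine ⟨max C C', ?_⟩
      intro q hq h1 h2
      rcases Finset.mem_insert.1 hq with hq | hq
      · subst hq
        exact Dv_mono (le_max_right _ _) hC'
      · exact Dv_mono (le_max_left _ _) (hC q hq h1 h2)
    · refine ⟨C, ?_⟩
      intro q hq h1 h2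
      rcases Finset.mem_insert.1 hq with hq | hq
      · subst hq
        exact absurd ⟨h1, h2⟩ ha
      · exact hC q hq h1 h2

theorem dev {G : SimpleGraph (ℤ × ℤ)} (h : Nice G) : ∃ C : ℕ, ∀ u w : ℤ × ℤ, Sup G u → Sup G w → u.1 = w.1 →
    ∃ P : G.Walk u w, ∀ x ∈ P.support, |x.1 - u.1| ≤ (C : ℤ) := by
  obtain ⟨p, hp1, hper⟩ := h.per
  have hp0 : (0 : ℤ) < p := by exact_mod_cast hp1
  have hsup : ∀ (a b : ℤ) (q : ℤ × ℤ), Sup G q → Sup G (q + ((p : ℤ) * a, (p : ℤ) * b)) := by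
    rintro a b q ⟨v, hv⟩
    exact ⟨_, hper a b q v hv⟩
  -- the box and the pairs
  let B : Finset (ℤ × ℤ) := Finset.Ico (0 : ℤ) p ×ˢ Finset.Ico (0 : ℤ) p
  obtain ⟨C2, hC2⟩ := Dv_fin h (B ×ˢ B)
  obtain ⟨C1, hC1⟩ := Dv_fin h (B.image (fun q => (q, q + (0, (p : ℤ)))))
  obtain ⟨C0, hC0⟩ := Dv_fin h (B.image (fun q => (q, q + (0, -(p : ℤ)))))
  -- every point is a translate of a point of the box
  have hbox : ∀ q : ℤ × ℤ, ∃ q0 ∈ B, ∃ a b : ℤ, q = q0 + ((p : ℤ) * a, (p : ℤ) * b) := by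
    intro q
    refine ⟨(q.1 % p, q.2 % p), ?_, q.1 / p, q.2 / p, ?_⟩
    · refine Finset.mem_product.2 ⟨Finset.mem_Ico.2 ⟨?_, ?_⟩, Finset.mem_Ico.2 ⟨?_, ?_⟩⟩
      · exact Int.emod_nonneg _ hp0.ne'
      · exact Int.emod_lt_of_pos _ hp0
      · exact Int.emod_nonneg _ hp0.ne'
      · exact Int.emod_lt_of_pos _ hp0
    · ext
      · have := Int.emod_add_mul_ediv q.1 (p : ℤ)
        simp only [Prod.fst_add]
        linarith
      · have := Int.emod_add_mul_ediv q.2 (p : ℤ)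
        simp only [Prod.snd_add]
        linarith
  have hback : ∀ (a b : ℤ) (q0 : ℤ × ℤ), Sup G (q0 + ((p : ℤ) * a, (p : ℤ) * b)) → Sup G q0 := by
    intro a b q0 hq
    have h1 := hsup (-a) (-b) _ hq
    have h2 : q0 + ((p : ℤ) * a, (p : ℤ) * b) + ((p : ℤ) * -a, (p : ℤ) * -b) = q0 := by
      ext
      · simp only [Prod.fst_add]
        ring
      · simp only [Prod.snd_add]
        ring
    rwa [h2] at h1
  have hup : ∀ q, Sup G q → Dv G C1 q (q + (0, (p : ℤ))) := by
    intro q hq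
    obtain ⟨q0, hq0, a, b, rfl⟩ := hbox q
    have hs := hback a b q0 hq
    have hs' : Sup G (q0 + (0, (p : ℤ))) := by
      have := hsup 0 1 q0 hs
      simpa using this
    have h1 := hC1 (q0, q0 + (0, (p : ℤ))) (Finset.mem_image.2 ⟨q0, hq0, rfl⟩) hs hs'
    have h2 := Dv_shift (τ := ((p : ℤ) * a, (p : ℤ) * b)) (hper a b) h1
    rwa [add_right_comm] at h2
  have hdn : ∀ q, Sup G q → Dv G C0 q (q + (0, -(p : ℤ))) := by
    intro q hq
    obtain ⟨q0, hq0, a, b, rfl⟩ := hbox q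
    have hs := hback a b q0 hq
    have hs' : Sup G (q0 + (0, -(p : ℤ))) := by
      have := hsup 0 (-1) q0 hs
      simpa using this
    have h1 := hC0 (q0, q0 + (0, -(p : ℤ))) (Finset.mem_image.2 ⟨q0, hq0, rfl⟩) hs hs'
    have h2 := Dv_shift (τ := ((p : ℤ) * a, (p : ℤ) * b)) (hper a b) h1
    rwa [add_right_comm] at h2
  have hupk : ∀ (k : ℕ) (q : ℤ × ℤ), Sup G q → Dv G (C0 + C1 + C2) q (q + ((p : ℤ) * 0, (p : ℤ) * (k : ℤ))) := by
    intro k q hq
    induction k with
    | zero =>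
      refine ⟨SimpleGraph.Walk.nil.copy rfl (by ext <;> simp), ?_⟩
      intro x hx
      rw [SimpleGraph.Walk.support_copy, SimpleGraph.Walk.support_nil, List.mem_singleton] at hx
      subst hx
      rw [sub_self, abs_zero]
      positivity
    | succ k ih =>
      have h1 := Dv_mono (C' := C0 + C1 + C2) (by omega) (hup _ (hsup 0 (k : ℤ) q hq))
      have h2 := Dv_trans (by simp) ih h1
      have h3 : q + ((p : ℤ) * 0, (p : ℤ) * (k : ℤ)) + (0, (p : ℤ)) = q + ((p : ℤ) * 0, (p : ℤ) * ((k + 1 : ℕ) : ℤ)) := by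
        ext
        · simp
        · simp only [Prod.snd_add]
          push_cast
          ring
      rwa [h3] at h2
  have hdnk : ∀ (k : ℕ) (q : ℤ × ℤ), Sup G q → Dv G (C0 + C1 + C2) q (q + ((p : ℤ) * 0, (p : ℤ) * (-(k : ℤ)))) := by
    intro k q hq
    induction k with
    | zero =>
      refine ⟨SimpleGraph.Walk.nil.copy rfl (by ext <;> simp), ?_⟩
      intro x hx
      rw [SimpleGraph.Walk.support_copy, SimpleGraph.Walk.support_nil, List.mem_singleton] at hx
      subst hx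
      rw [sub_self, abs_zero]
      positivity
    | succ k ih =>
      have h1 := Dv_mono (C' := C0 + C1 + C2) (by omega) (hdn _ (hsup 0 (-(k : ℤ)) q hq))
      have h2 := Dv_trans (by simp) ih h1
      have h3 : q + ((p : ℤ) * 0, (p : ℤ) * (-(k : ℤ))) + (0, -(p : ℤ)) = q + ((p : ℤ) * 0, (p : ℤ) * (-((k + 1 : ℕ) : ℤ))) := by
        ext
        · simp
        · simp only [Prod.snd_add]
          push_cast
          ring
      rwa [h3] at h2
  have hz : ∀ (k : ℤ) (q : ℤ × ℤ), Sup G q → Dv G (C0 + C1 + C2) q (q + ((p : ℤ) * 0, (p : ℤ) * k)) := by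
    intro k q hq
    rcases Int.eq_nat_or_neg k with ⟨n, rfl | rfl⟩
    · exact hupk n q hq
    · exact hdnk n q hq
  refine ⟨C0 + C1 + C2, ?_⟩
  intro u w hu hw huw
  obtain ⟨u0, hu0, a, b, hua⟩ := hbox u
  obtain ⟨w0, hw0, a', b', hwa⟩ := hbox w
  have hu0' := Finset.mem_product.1 hu0
  have hw0' := Finset.mem_product.1 hw0
  have e1 : u0.1 = w0.1 ∧ a = a' := by
    have h1 : u.1 = u0.1 + p * a := by rw [hua]; simp
    have h2 : w.1 = w0.1 + p * a' := by rw [hwa]; simp
    have h3 := Finset.mem_Ico.1 hu0'.1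
    have h4 := Finset.mem_Ico.1 hw0'.1
    have h5 : u.1 / p = a := by
      rw [h1, Int.add_mul_ediv_left _ _ hp0.ne', Int.ediv_eq_zero_of_lt h3.1 h3.2, zero_add]
    have h6 : w.1 / p = a' := by
      rw [h2, Int.add_mul_ediv_left _ _ hp0.ne', Int.ediv_eq_zero_of_lt h4.1 h4.2, zero_add]
    have h7 : a = a' := by rw [← h5, ← h6, huw]
    refine ⟨?_, h7⟩
    have h8 : (p : ℤ) * a = p * a' := by rw [h7]
    linarith
  have hsu0 : Sup G u0 := hback a b u0 (by rw [← hua]; exact hu)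
  have hsw0 : Sup G w0 := hback a' b' w0 (by rw [← hwa]; exact hw)
  have d1 : Dv G (C0 + C1 + C2) u0 w0 :=
    Dv_mono (by omega) (hC2 (u0, w0) (Finset.mem_product.2 ⟨hu0, hw0⟩) hsu0 hsw0)
  have d2 := Dv_shift (τ := ((p : ℤ) * a, (p : ℤ) * b)) (hper a b) d1
  have d3 := hz (b' - b) _ (hsup a b w0 hsw0)
  have d4 := Dv_trans (by simp [e1.1]) d2 d3
  have e2 : w0 + ((p : ℤ) * a, (p : ℤ) * b) + ((p : ℤ) * 0, (p : ℤ) * (b' - b)) = w := by
    rw [hwa, ← e1.2]
    ext
    · simp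
    · simp only [Prod.snd_add]
      ring
  rw [e2, ← hua] at d4
  exact d4

end Pool.Agent.RPL
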