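import Pool.Agent.RPL.BLa
import Pool.Agent.RPL.BLb

/-!
Module BLat: the structure `Lat` of a graph with the hypotheses `Nice`.

PAPER PROOF. `p0` the period, `C` from `dev`; `p = p0 * (2 * C + 2)`. `per` for `p`: `p a = p0 * ((2 C + 2) a)`. `far`: let `u.1 + p ≤ w.1`, so `w.1 - u.1 ≥ 2 C + 2`. `mono_right` with `m = C + 1` from `u` to `v1`, `mono_left` with `m = (w.1 - u.1 - C - 1).toNat ≥ C + 1` from `v2` to `w`; both `v1` and `v2` have the column
`u.1 + C + 1`; `dev` joins them by a walk with columns in `[u.1 + 1, u.1 + 2 C + 1]`, which are `> u.1` and `< w.1`. Let `P` be the composed walk from `u` to `w`: every vertex of it is `u`, or `w`, or has its column strictly between `u.1` and `w.1`. `P.bypass` is a path with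
`support ⊆ P.support` (`Walk.support_bypass_subset`), `path_word`. For `l = a ++ b`, `a ≠ []`: the vertex `u + a.sum` is not `u`, so its column is `> u.1`, i.e. `0 < a.sum.1`; for `b ≠ []`: it is not `w`, so its column is `< w.1 = (u + a.sum + b.sum).1`, `0 < b.sum.1`.
-/

set_option autoImplicit false

namespace Pool.Agent.RPL

open Pool.Agent.SHP Pool.Agent.ZHW
open scoped ENNReal NNReal

private theorem lat_walk {G : SimpleGraph (ℤ × ℤ)} (h : Nice G) {C : ℕ}
    (hC : ∀ u w : ℤ × ℤ, Sup G u → Sup G w → u.1 = w.1 →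
      ∃ P : G.Walk u w, ∀ x ∈ P.support, |x.1 - u.1| ≤ (C : ℤ))
    {u w : ℤ × ℤ} (hu : Sup G u) (hw : Sup G w) (huw : u.1 + (2 * C + 2) ≤ w.1) :
    ∃ P : G.Walk u w, P.IsPath ∧ ∀ x ∈ P.support, x = u ∨ x = w ∨ (u.1 < x.1 ∧ x.1 < w.1) := by
  classical
  obtain ⟨v1, hv1, hc1, P1, hP1⟩ := mono_right h hu (C + 1)
  obtain ⟨m, hm⟩ : ∃ m : ℕ, (m : ℤ) = w.1 - u.1 - C - 1 := ⟨(w.1 - u.1 - C - 1).toNat,
    Int.toNat_of_nonneg (by omega)⟩
  obtain ⟨v2, hv2, hc2, P2, hP2⟩ := mono_left h hw m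
  push_cast at hc1
  obtain ⟨P3, hP3⟩ := hC v1 v2 hv1 hv2 (by omega)
  refine ⟨(P1.append (P3.append P2)).bypass, SimpleGraph.Walk.bypass_isPath _, fun x hx => ?_⟩
  have hx' := SimpleGraph.Walk.support_bypass_subset _ hx
  rw [SimpleGraph.Walk.mem_support_append_iff, SimpleGraph.Walk.mem_support_append_iff] at hx'
  rcases hx' with hx' | hx' | hx'
  · rcases hP1 x hx' with h1 | ⟨h1, h2⟩
    · exact Or.inl h1
    · right
      right
      constructor <;> omega
  · have h1 := abs_le.1 (hP3 x hx')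
    right
    right
    constructor <;> omega
  · rcases hP2 x hx' with h1 | ⟨h1, h2⟩
    · exact Or.inr (Or.inl h1)
    · right
      right
      constructor <;> omega

theorem lat_exists {G : SimpleGraph (ℤ × ℤ)} (h : Nice G) (o : ℤ × ℤ) (ho : Sup G o) : ∃ L : Lat, L.G = G ∧ L.o = o := by
  obtain ⟨p0, hp0, hper⟩ := h.per
  obtain ⟨C, hC⟩ := dev h
  have hp : 2 * C + 2 ≤ p0 * (2 * C + 2) := Nat.le_mul_of_pos_left _ (by omega)
  refine ⟨{
    G := G
    p := p0 * (2 * C + 2)
    o := o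
    p1 := by omega
    ho := ho
    sub := h.sub
    per := fun a b u v huv => ?_
    far := fun u w hu hw huw => ?_
    tr := h.tr }, rfl, rfl⟩
  · have h1 := hper ((2 * C + 2) * a) ((2 * C + 2) * b) u v huv
    have e : ∀ t : ℤ, ((p0 * (2 * C + 2) : ℕ) : ℤ) * t = (p0 : ℤ) * ((2 * C + 2) * t) := fun t => by
      push_cast
      ring
    rw [e, e]
    exact h1
  · have hp' : ((2 * C + 2 : ℕ) : ℤ) ≤ ((p0 * (2 * C + 2) : ℕ) : ℤ) := by exact_mod_cast hp
    have hlt : u.1 + (2 * C + 2) ≤ w.1 := by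
      push_cast at hp' huw
      linarith
    obtain ⟨P, hP, hsup⟩ := lat_walk h hC hu hw hlt
    obtain ⟨l, hl, hs, hab⟩ := path_word h.sub P hP
    refine ⟨l, hl, hs, fun a b e ha => ?_, fun a b e hb => ?_⟩
    · obtain ⟨h1, h2, -⟩ := hab a b e
      rcases hsup _ h1 with h3 | h3 | ⟨h3, -⟩
      · exact absurd h3 (h2 ha)
      · have h4 : (u + a.sum).1 = w.1 := by rw [h3]
        rw [Prod.fst_add] at h4
        omega
      · rw [Prod.fst_add] at h3
        omega
    · obtain ⟨h1, -, h2⟩ := hab a b e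
      have h5 : u.1 + (a.sum.1 + b.sum.1) = w.1 := by
        rw [← hs, e, List.sum_append, Prod.fst_add, Prod.fst_add]
      rcases hsup _ h1 with h3 | h3 | ⟨-, h3⟩
      · have h4 : (u + a.sum).1 = u.1 := by rw [h3]
        rw [Prod.fst_add] at h4
        omega
      · exact absurd h3 (h2 hb)
      · rw [Prod.fst_add] at h3
        omega

end Pool.Agent.RPL
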