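import Pool.Agent.RPL.B2a

/-!
Module BMid: self-avoiding walks of length `2 n` and pairs of walks of length `n` which meet only at the start.

PAPER PROOF. Count modulo translations. Let `F` be the finite set of the representatives `q = o + (a, b)`, `0 ≤ a, b < p`, with `Sup L.G q`. The map `(q, l) ↦ (q', (rev u, v))`, `l = u ++ v`, `u = l.take n`, `v = l.drop n`, `q' = o + ty (q + u.sum)`, from
`{(q, l) | q ∈ F, l ∈ Sw G q, |l| = 2 n}` to `{(q', r) | q' ∈ F, r ∈ Prs G q' n}` is injective: `rev u ∈ Sw G (q + u.sum)` (`Sw_rev`, `Sw_prefix`), `v ∈ Sw G (q + u.sum)` (`Sw_suffix`), `Sw G (q + u.sum) = Sw G q'` (`Sw_congr`, `ty_rep`); `Disj (rev u) v` as in `pairs_ge` of SHP (Pool/Agent/SHP/Prob or Plane: a common vertex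
of `rev u` and `v` gives a block of `l` around the middle with sum zero); `u = rev (rev u)` and `v` are determined, and `q` is the representative of `q' + (rev u).sum` (as `q' - q - u.sum` is a multiple of the period and `q ∈ F`: `ty_shift`, `q = o + ty q`). So `∑ q ∈ F, cnt (Sw G q) (2 n) ≤ ∑ q ∈ F, (Prs G q n).ncard`, i.e.
`|F| * cnt (Sw G o) (2 n) ≤ |F| * (Prs G o n).ncard` (`cnt_eq`, `pairs_eq`), and `F` contains `o`. All sets are finite (`fin_Sw`; `Prs G q n` is a subset of a product).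
-/

set_option autoImplicit false

namespace Pool.Agent.RPL

open Pool.Agent.SHP Pool.Agent.ZHW
open scoped ENNReal NNReal

private theorem bm_fin (L : Lat) (q : ℤ × ℤ) (n : ℕ) : (Prs L.G q n).Finite :=
  ((fin_Sw L q n).prod (fin_Sw L q n)).subset fun _ hp => ⟨⟨hp.1, hp.2.2.1⟩, ⟨hp.2.1, hp.2.2.2.1⟩⟩

/-- The two halves of a self-avoiding walk, seen from the middle. -/
private theorem bm_pair {G : SimpleGraph (ℤ × ℤ)} {q : ℤ × ℤ} {u v : Wd} (h : u ++ v ∈ Sw G q) {n : ℕ}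
    (hu : u.length = n) (hv : v.length = n) : (rev u, v) ∈ Prs G (q + u.sum) n := by
  refine ⟨Sw_rev (Sw_prefix h), Sw_suffix h, ?_, hv, ?_⟩
  · show (rev u).length = n
    rw [rev_length]
    exact hu
  · intro a b c d hac hbd hab
    have e1 : u = rev c ++ rev a := by
      have h1 : rev (rev u) = rev (a ++ c) := congrArg rev hac
      rwa [rev_rev, rev_append] at h1
    have e2 : v = b ++ d := hbd
    have e3 : u ++ v = rev c ++ ((rev a ++ b) ++ d) := by
      rw [e1, e2]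
      simp only [List.append_assoc]
    have e4 : rev a ++ b = [] := by
      refine h.1.2 (rev c) (rev a ++ b) d e3 ?_
      rw [List.sum_append, rev_sum, hab, neg_add_cancel]
    obtain ⟨e5, e6⟩ := List.append_eq_nil_iff.1 e4
    refine ⟨?_, e6⟩
    rw [← rev_rev a, e5]
    rfl

private theorem bm_inj (L : Lat) {c c' s : ℤ × ℤ} (hc : (0 ≤ c.1 ∧ c.1 < L.p) ∧ 0 ≤ c.2 ∧ c.2 < L.p)
    (hc' : (0 ≤ c'.1 ∧ c'.1 < L.p) ∧ 0 ≤ c'.2 ∧ c'.2 < L.p)
    (h : ty L (L.o + c + s) = ty L (L.o + c' + s)) : c = c' := by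
  have key : ∀ x x' y : ℤ, 0 ≤ x → x < L.p → 0 ≤ x' → x' < L.p → (x + y) % (L.p : ℤ) = (x' + y) % (L.p : ℤ) →
      x = x' := by
    intro x x' y h1 h2 h3 h4 h5
    have h6 : x ≡ x' [ZMOD (L.p : ℤ)] :=
      Int.ModEq.add_right_cancel' y (show x + y ≡ x' + y [ZMOD (L.p : ℤ)] from h5)
    have h7 : x % (L.p : ℤ) = x' % (L.p : ℤ) := h6
    rwa [Int.emod_eq_of_lt h1 h2, Int.emod_eq_of_lt h3 h4] at h7
  have h' := Prod.ext_iff.1 h
  have e1 : ∀ w : ℤ × ℤ, (L.o + w + s).1 - L.o.1 = w.1 + s.1 := by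
    intro w
    simp only [Prod.fst_add]
    ring
  have e2 : ∀ w : ℤ × ℤ, (L.o + w + s).2 - L.o.2 = w.2 + s.2 := by
    intro w
    simp only [Prod.snd_add]
    ring
  have a1 : (c.1 + s.1) % (L.p : ℤ) = (c'.1 + s.1) % (L.p : ℤ) := by
    have h1 := h'.1
    unfold ty at h1
    simp only at h1
    rwa [e1, e1] at h1
  have a2 : (c.2 + s.2) % (L.p : ℤ) = (c'.2 + s.2) % (L.p : ℤ) := by
    have h1 := h'.2
    unfold ty at h1
    simp only at h1
    rwa [e2, e2] at h1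
  exact Prod.ext (key _ _ _ hc.1.1 hc.1.2 hc'.1.1 hc'.1.2 a1) (key _ _ _ hc.2.1 hc.2.2 hc'.2.1 hc'.2.2 a2)

theorem prs_ge (L : Lat) (n : ℕ) : cnt (Sw L.G L.o) (2 * n) ≤ (Prs L.G L.o n).ncard := by
  classical
  obtain ⟨F, hF⟩ : ∃ F : Finset (ℤ × ℤ), F = ((Finset.Ico (0 : ℤ) L.p) ×ˢ (Finset.Ico (0 : ℤ) L.p)).filter
      fun c => Sup L.G (L.o + c) := ⟨_, rfl⟩
  have hFm : ∀ c, c ∈ F ↔ ((0 ≤ c.1 ∧ c.1 < L.p) ∧ 0 ≤ c.2 ∧ c.2 < L.p) ∧ Sup L.G (L.o + c) := by
    intro c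
    rw [hF, Finset.mem_filter, Finset.mem_product, Finset.mem_Ico, Finset.mem_Ico]
  have hp : (0 : ℤ) < L.p := by
    have := L.p1
    omega
  have hF0 : 0 < F.card := by
    refine Finset.card_pos.2 ⟨0, (hFm 0).2 ⟨⟨⟨le_rfl, hp⟩, le_rfl, hp⟩, ?_⟩⟩
    rw [add_zero]
    exact L.ho
  obtain ⟨A, hA⟩ : ∃ A : Finset (Σ _ : ℤ × ℤ, Wd),
      A = F.sigma fun c => (fin_Sw L (L.o + c) (2 * n)).toFinset := ⟨_, rfl⟩
  obtain ⟨B, hB⟩ : ∃ B : Finset (Σ _ : ℤ × ℤ, Wd × Wd),
      B = F.sigma fun c => (bm_fin L (L.o + c) n).toFinset := ⟨_, rfl⟩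
  have hAc : A.card = F.card * cnt (Sw L.G L.o) (2 * n) := by
    rw [hA, Finset.card_sigma, Finset.sum_const_nat (m := cnt (Sw L.G L.o) (2 * n))]
    intro c hc
    rw [← Set.ncard_eq_toFinset_card _ (fin_Sw L (L.o + c) (2 * n)), ← cnt_eq L ((hFm c).1 hc).2]
    rfl
  have hBc : B.card = F.card * (Prs L.G L.o n).ncard := by
    rw [hB, Finset.card_sigma, Finset.sum_const_nat (m := (Prs L.G L.o n).ncard)]
    intro c hc
    rw [← Set.ncard_eq_toFinset_card _ (bm_fin L (L.o + c) n), ← pairs_eq L ((hFm c).1 hc).2]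
  have hAm : ∀ x ∈ A, x.1 ∈ F ∧ x.2 ∈ Sw L.G (L.o + x.1) ∧ x.2.length = 2 * n := by
    intro x hx
    rw [hA, Finset.mem_sigma, Set.Finite.mem_toFinset] at hx
    exact hx
  have hAB : A.card ≤ B.card := by
    refine Finset.card_le_card_of_injOn
      (fun x => ⟨ty L (L.o + x.1 + (x.2.take n).sum), (rev (x.2.take n), x.2.drop n)⟩) ?_ ?_
    · intro x hx
      obtain ⟨h1, h2, h3⟩ := hAm x hx
      have h4 : x.2.take n ++ x.2.drop n ∈ Sw L.G (L.o + x.1) := by
        rw [List.take_append_drop]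
        exact h2
      have h5 := ty_rep L (L.o + x.1 + (x.2.take n).sum)
      rw [hB, Finset.mem_coe, Finset.mem_sigma, Set.Finite.mem_toFinset]
      refine ⟨(hFm _).2 ⟨?_, ?_⟩, ?_⟩
      · obtain ⟨r1, r2, r3, r4⟩ := ty_range L (L.o + x.1 + (x.2.take n).sum)
        exact ⟨⟨r1, r2⟩, r3, r4⟩
      · exact (Sup_congr L h5).2 (Sup_mid ((hFm _).1 h1).2 h4.2)
      · have h6 := bm_pair h4 (n := n) (by rw [List.length_take, h3]; omega)
          (by rw [List.length_drop, h3]; omega)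
        have h7 : Prs L.G (L.o + ty L (L.o + x.1 + (x.2.take n).sum)) n =
            Prs L.G (L.o + x.1 + (x.2.take n).sum) n := by
          unfold Prs
          rw [Sw_congr L h5]
        show (rev (x.2.take n), x.2.drop n) ∈ Prs L.G (L.o + ty L (L.o + x.1 + (x.2.take n).sum)) n
        rw [h7]
        exact h6
    · rintro ⟨c, l⟩ hx ⟨c', l'⟩ hx' h
      obtain ⟨h1, -, -⟩ := hAm _ hx
      obtain ⟨h1', -, -⟩ := hAm _ hx'
      have h0 := Sigma.mk.inj_iff.1 h
      have h2 : ty L (L.o + c + (l.take n).sum) = ty L (L.o + c' + (l'.take n).sum) := h0.1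
      have h3 : (rev (l.take n), l.drop n) = (rev (l'.take n), l'.drop n) := eq_of_heq h0.2
      have h4 : rev (l.take n) = rev (l'.take n) := congrArg Prod.fst h3
      have h5 : l.drop n = l'.drop n := congrArg Prod.snd h3
      have h6 : l.take n = l'.take n := by rw [← rev_rev (l.take n), h4, rev_rev]
      have h7 : l = l' := by
        rw [← List.take_append_drop n l, h6, h5, List.take_append_drop]
      subst h7
      have h8 : c = c' := bm_inj L ((hFm c).1 h1).1 ((hFm c').1 h1').1 h2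
      rw [h8]
  rw [hAc, hBc] at hAB
  exact Nat.le_of_mul_le_mul_left hAB hF0

end Pool.Agent.RPL
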