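import Mathlib

/-!
Project RPL (MP_8c6f77_pr): definitions of the final statement.

`H` is any graph (the lattice) on any type of vertices, `f` a drawing of `H` with vertices in `ℤ × ℤ` and edges which are edges of the triangular lattice.
-/

set_option autoImplicit false

namespace Pool.Agent.RPL.Fin

variable {V : Type}

/-- The edges of the triangular lattice on `ℤ × ℤ`; the lines `x = const` are lattice lines (columns). -/
def tri : Set (ℤ × ℤ) := {(1, 0), (-1, 0), (0, 1), (0, -1), (1, -1), (-1, 1)}

/-- `f` is a drawing of `H` in the triangular lattice with period `p`: different vertices at different points, edges are edges of the triangular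
lattice, the translations by `(p, 0)` and by `(0, p)` are automorphisms of `H`, and every vertex has a neighbour in the next and one in the previous column. -/
structure Drawing (H : SimpleGraph V) (f : V → ℤ × ℤ) (p : ℕ) : Prop where
  inj : Function.Injective f
  edge : ∀ x y, H.Adj x y → f y - f x ∈ tri
  perx : ∃ τ : H ≃g H, ∀ x, f (τ x) = f x + ((p : ℤ), 0)
  pery : ∃ τ : H ≃g H, ∀ x, f (τ x) = f x + (0, (p : ℤ))
  next : ∀ x, ∃ y, H.Adj x y ∧ (f y).1 = (f x).1 + 1
  prev : ∀ x, ∃ y, H.Adj x y ∧ (f y).1 = (f x).1 - 1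

/-- Self-avoiding paths `w_0, ..., w_n` of `H` from `x`. -/
def Omega (H : SimpleGraph V) (x : V) (n : ℕ) : Set (Fin (n + 1) → V) :=
  {w | w 0 = x ∧ (∀ i : Fin n, H.Adj (w i.castSucc) (w i.succ)) ∧ Function.Injective w}

/-- The number `a_n` of self-avoiding paths of length `n` from `x`. -/
noncomputable def a (H : SimpleGraph V) (x : V) (n : ℕ) : ℝ := (Omega H x n).ncard

/-- The connective constant `inf_{n ≥ 1} a_n ^ (1/n)`. -/
noncomputable def mu (H : SimpleGraph V) (x : V) : ℝ := ⨅ n : ℕ, a H x (n + 1) ^ (1 / ((n : ℝ) + 1))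

/-- Pairs `(w, w')` of self-avoiding paths of length `n` from `x` with `w {1, ..., n} ∩ w' {0, ..., n} = ∅`. -/
def Pairs (H : SimpleGraph V) (x : V) (n : ℕ) : Set ((Fin (n + 1) → V) × (Fin (n + 1) → V)) :=
  {p | p.1 ∈ Omega H x n ∧ p.2 ∈ Omega H x n ∧ ∀ i j : Fin (n + 1), i ≠ 0 → p.1 i ≠ p.2 j}

/-- The probability `P_n` that two independent uniform paths `w, w'` of length `n` have `w {1, ..., n} ∩ w' {0, ..., n} = ∅`. -/
noncomputable def P (H : SimpleGraph V) (x : V) (n : ℕ) : ℝ := ((Pairs H x n).ncard : ℝ) / a H x n ^ 2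

end Pool.Agent.RPL.Fin
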