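import Pool.Agent.RPL.C0
import Pool.Agent.RPL.BLb

/-!
Module C1: the image graph of a drawing satisfies the hypotheses `Nice`.

PAPER PROOF. `imG H f` is the image graph: `u ~ v` iff `u = f x`, `v = f y` with `H.Adj x y`. `Sup (imG H f) u` iff `u = f x` for some `x` (`next` gives a neighbour; one direction uses only the definition). `sub`: `edge`, and `tri` is the coercion of `steps true` (`steps true = {(1,0), (-1,0), (0,1), (0,-1), (1,-1), (-1,1)}`). `per`: with `τ`, `τ'` of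
`perx`, `pery`: the powers `τ ^ k` (or an induction on `a` and on `b`, forwards and backwards; `τ.symm x` is drawn at `f x - (p, 0)`) give `G.Adj (u + (p a, p b)) (v + (p a, p b))`. `conn`: from `H.Connected` (a walk of `H` maps to a walk of the image: `Reachable.map` for the homomorphism `f : H →g imG H f`). `nxt`, `prv`: `next`, `prev`. `tr`: let
`φ : H ≃g H` with `φ x = y`; the automorphism of `imG H f` is `f z ↦ f (φ z)` and the identity outside the range of `f` (an `Equiv` on `ℤ × ℤ`: `Equiv.Perm.extendDomain`-type construction, or define it with `Function.Embedding` and `Classical`; adjacency only involves points in the range).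
-/

set_option autoImplicit false

namespace Pool.Agent.RPL.Fin

open Pool.Agent.SHP Pool.Agent.ZHW Pool.Agent.RPL

variable {V : Type}

/-- The image graph. -/
def imG (H : SimpleGraph V) (f : V → ℤ × ℤ) (hf : Function.Injective f) : SimpleGraph (ℤ × ℤ) where
  Adj u v := ∃ x y, H.Adj x y ∧ f x = u ∧ f y = v
  symm := ⟨by rintro u v ⟨x, y, h, hx, hy⟩; exact ⟨y, x, h.symm, hy, hx⟩⟩
  loopless := ⟨by rintro u ⟨x, y, h, hx, hy⟩; exact h.ne (hf (hx.trans hy.symm))⟩

theorem adj_im (H : SimpleGraph V) (f : V → ℤ × ℤ) (hf : Function.Injective f) {x y : V} :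
    (imG H f hf).Adj (f x) (f y) ↔ H.Adj x y := by
  constructor
  · rintro ⟨x', y', h, hx, hy⟩
    rwa [hf hx, hf hy] at h
  · intro h
    exact ⟨x, y, h, rfl, rfl⟩

theorem sup_im {H : SimpleGraph V} {f : V → ℤ × ℤ} {p : ℕ} (hd : Drawing H f p) (u : ℤ × ℤ) :
    Sup (imG H f hd.inj) u ↔ ∃ x, f x = u := by
  constructor
  · rintro ⟨v, x, y, -, hx, -⟩
    exact ⟨x, hx⟩
  · rintro ⟨x, hx⟩
    obtain ⟨y, hy, -⟩ := hd.next x
    exact ⟨f y, x, y, hy, hx, rfl⟩

private theorem c1_shift {H : SimpleGraph V} {f : V → ℤ × ℤ} (d : ℤ × ℤ) (τ : H ≃g H)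
    (hτ : ∀ x, f (τ x) = f x + d) (n : ℤ) : ∃ σ : H ≃g H, ∀ x, f (σ x) = f x + n • d := by
  induction n using Int.induction_on with
  | zero => exact ⟨SimpleGraph.Iso.refl, fun x => by simp⟩
  | succ i ih =>
    obtain ⟨σ, hσ⟩ := ih
    refine ⟨σ.trans τ, fun x => ?_⟩
    have h1 : f ((σ.trans τ) x) = f (τ (σ x)) := rfl
    rw [h1, hτ, hσ, add_zsmul, one_zsmul, add_assoc]
  | pred i ih =>
    obtain ⟨σ, hσ⟩ := ih
    refine ⟨σ.trans τ.symm, fun x => ?_⟩
    have h1 : f ((σ.trans τ.symm) x) = f (τ.symm (σ x)) := rfl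
    have h2 := hτ (τ.symm (σ x))
    rw [RelIso.apply_symm_apply, hσ] at h2
    rw [h1, sub_zsmul, one_zsmul, ← add_assoc, h2, add_neg_cancel_right]

open Classical in
private noncomputable def c1_fun (f : V → ℤ × ℤ) (e : V → V) (u : ℤ × ℤ) : ℤ × ℤ :=
  if h : ∃ x, f x = u then f (e h.choose) else u

private theorem c1_fun_im {f : V → ℤ × ℤ} (hf : Function.Injective f) (e : V → V) (x : V) :
    c1_fun f e (f x) = f (e x) := by
  have h : ∃ y, f y = f x := ⟨x, rfl⟩
  rw [c1_fun, dif_pos h, hf h.choose_spec]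

private theorem c1_fun_out {f : V → ℤ × ℤ} (e : V → V) {u : ℤ × ℤ} (h : ¬ ∃ x, f x = u) :
    c1_fun f e u = u := by
  rw [c1_fun, dif_neg h]

private theorem c1_fun_inv {f : V → ℤ × ℤ} (hf : Function.Injective f) (e e' : V → V) (he : ∀ x, e' (e x) = x)
    (u : ℤ × ℤ) : c1_fun f e' (c1_fun f e u) = u := by
  by_cases h : ∃ x, f x = u
  · obtain ⟨x, rfl⟩ := h
    rw [c1_fun_im hf, c1_fun_im hf, he]
  · rw [c1_fun_out e h, c1_fun_out e' h]

private theorem c1_adj {H : SimpleGraph V} {f : V → ℤ × ℤ} (hf : Function.Injective f) (φ : H ≃g H) {u v : ℤ × ℤ}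
    (h : (imG H f hf).Adj u v) : (imG H f hf).Adj (c1_fun f φ u) (c1_fun f φ v) := by
  obtain ⟨x, y, hxy, rfl, rfl⟩ := h
  rw [c1_fun_im hf, c1_fun_im hf]
  exact ⟨φ x, φ y, φ.map_rel_iff.2 hxy, rfl, rfl⟩

private noncomputable def c1_iso {H : SimpleGraph V} {f : V → ℤ × ℤ} (hf : Function.Injective f) (φ : H ≃g H) :
    imG H f hf ≃g imG H f hf where
  toFun := c1_fun f φ
  invFun := c1_fun f φ.symm
  left_inv := c1_fun_inv hf _ _ fun x => φ.symm_apply_apply x
  right_inv := c1_fun_inv hf _ _ fun x => φ.apply_symm_apply x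
  map_rel_iff' := by
    intro u v
    constructor
    · intro h
      have h1 := c1_adj hf φ.symm h
      have h2 := fun w => c1_fun_inv hf (⇑φ) (⇑φ.symm) (fun x => φ.symm_apply_apply x) w
      have h3 : (imG H f hf).Adj (c1_fun f φ.symm (c1_fun f φ u)) (c1_fun f φ.symm (c1_fun f φ v)) := h1
      rwa [h2, h2] at h3
    · intro h
      exact c1_adj hf φ h

theorem nice_im {H : SimpleGraph V} {f : V → ℤ × ℤ} {p : ℕ} (hp : 1 ≤ p) (hd : Drawing H f p) (hc : H.Connected)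
    (ht : ∀ x y, ∃ φ : H ≃g H, φ x = y) : Nice (imG H f hd.inj) where
  sub := by
    rintro u v ⟨x, y, hxy, rfl, rfl⟩
    have h := hd.edge x y hxy
    simp only [tri, Set.mem_insert_iff, Set.mem_singleton_iff] at h
    rcases h with h | h | h | h | h | h <;> rw [h] <;> decide
  per := by
    refine ⟨p, hp, fun a b u v huv => ?_⟩
    obtain ⟨τ, hτ⟩ := hd.perx
    obtain ⟨τ', hτ'⟩ := hd.pery
    obtain ⟨σ, hσ⟩ := c1_shift _ τ hτ a
    obtain ⟨σ', hσ'⟩ := c1_shift _ τ' hτ' b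
    obtain ⟨x, y, hxy, rfl, rfl⟩ := huv
    have h : ∀ z, f (σ' (σ z)) = f z + ((p : ℤ) * a, (p : ℤ) * b) := fun z => by
      rw [hσ', hσ]
      ext
      · simp [mul_comm]
      · simp [mul_comm]
    exact ⟨σ' (σ x), σ' (σ y), σ'.map_rel_iff.2 (σ.map_rel_iff.2 hxy), h x, h y⟩
  conn := by
    intro u v hu hv
    obtain ⟨x, rfl⟩ := (sup_im hd u).1 hu
    obtain ⟨y, rfl⟩ := (sup_im hd v).1 hv
    let g : H →g imG H f hd.inj := ⟨f, fun {a b} h => ⟨a, b, h, rfl, rfl⟩⟩
    exact (hc.preconnected x y).map g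
  nxt := by
    intro u hu
    obtain ⟨x, rfl⟩ := (sup_im hd u).1 hu
    obtain ⟨y, hy, h⟩ := hd.next x
    exact ⟨f y, ⟨x, y, hy, rfl, rfl⟩, h⟩
  prv := by
    intro u hu
    obtain ⟨x, rfl⟩ := (sup_im hd u).1 hu
    obtain ⟨y, hy, h⟩ := hd.prev x
    exact ⟨f y, ⟨x, y, hy, rfl, rfl⟩, h⟩
  tr := by
    intro u v hu hv
    obtain ⟨x, rfl⟩ := (sup_im hd u).1 hu
    obtain ⟨y, rfl⟩ := (sup_im hd v).1 hv
    obtain ⟨φ, hφ⟩ := ht x y
    refine ⟨c1_iso hd.inj φ, ?_⟩
    have h : c1_iso hd.inj φ (f x) = c1_fun f φ (f x) := rfl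
    rw [h, c1_fun_im hd.inj, hφ]

end Pool.Agent.RPL.Fin
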