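import Pool.Agent.RPL.C1
import Pool.Agent.RPL.B2a
import Pool.Agent.SHP.Walks

/-!
Module C2: paths as functions and as words.

PAPER PROOF. `G = imG H f hf`. A path `w ∈ Omega H x n` gives the word `l` of the steps `f (w (i + 1)) - f (w i)`, `i < n` (`List.ofFn`; see `word`, `unword`, `ncard_Om`, `Omega_eq` in SHP/Walks and SHP/Plane, and `pairs_ge` in ZHW/Split), `l ∈ Sw G (f x)`, `l.length = n`, and the sum of the prefix of length `i` is `f (w i) - f x`. Conversely a word of
`Sw G (f x)` of length `n` has all its vertices in the range of `f` (its edges are edges of the image), and `w i` is the vertex of `H` drawn at `f x + (l.take i).sum`. Injectivity of `w` is the self-avoidance (a block `v` of `l` with sum zero means `f (w i) = f (w j)`). The steps of a word of `Sw G (f x)` are in `steps true` by the definition of `saws`; for the converse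
direction they are in `steps true` by `hs`. `pairs_im`: `w {1..n} ∩ w' {0..n} = ∅` is `Disj l l'` (`Disj` also excludes `w_0 = w'_j`, `j ≥ 1`, which cannot happen because `w'` is injective and `w_0 = w'_0`).
-/

set_option autoImplicit false

namespace Pool.Agent.RPL.Fin

open Pool.Agent.SHP Pool.Agent.ZHW Pool.Agent.RPL

variable {V : Type}

/-- The path in the plane, seen from its start. -/
private def gg {n : ℕ} (f : V → ℤ × ℤ) (x : V) (w : Fin (n + 1) → V) : Fin (n + 1) → ℤ × ℤ := fun i => f (w i) - f x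

private theorem gg_zero {n : ℕ} {f : V → ℤ × ℤ} {x : V} {w : Fin (n + 1) → V} (h : w 0 = x) : gg f x w 0 = 0 := by
  show f (w 0) - f x = 0
  rw [h, sub_self]

private theorem gg_inj {n : ℕ} {f : V → ℤ × ℤ} (hf : Function.Injective f) {x : V} {w w' : Fin (n + 1) → V}
    (h : gg f x w = gg f x w') : w = w' := by
  funext i
  have h1 : f (w i) - f x = f (w' i) - f x := congrFun h i
  exact hf (sub_left_injective h1)

private theorem gg_Om {H : SimpleGraph V} {f : V → ℤ × ℤ} (hf : Function.Injective f)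
    (hs : ∀ x y, H.Adj x y → f y - f x ∈ steps true) {x : V} {n : ℕ} {w : Fin (n + 1) → V} (hw : w ∈ Omega H x n) :
    gg f x w ∈ Om true n := by
  refine ⟨gg_zero hw.1, fun i => ?_, fun i j hij => ?_⟩
  · show f (w i.succ) - f x - (f (w i.castSucc) - f x) ∈ steps true
    rw [sub_sub_sub_cancel_right]
    exact hs _ _ (hw.2.1 i)
  · have h1 : f (w i) - f x = f (w j) - f x := hij
    exact hw.2.2 (hf (sub_left_injective h1))

private theorem gg_Sw {H : SimpleGraph V} {f : V → ℤ × ℤ} (hf : Function.Injective f)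
    (hs : ∀ x y, H.Adj x y → f y - f x ∈ steps true) {x : V} {n : ℕ} {w : Fin (n + 1) → V} (hw : w ∈ Omega H x n) :
    word (gg f x w) ∈ Sw (imG H f hf) (f x) := by
  have h0 := gg_zero (f := f) hw.1
  refine ⟨(mem_Om_iff.1 (gg_Om hf hs hw)).2, ?_⟩
  intro u s v huv
  obtain ⟨i, hi, hi2⟩ := sum_prefix h0 huv
  obtain ⟨j, hj, hj2⟩ := sum_prefix h0 (u := u ++ [s]) (v := v) (by rw [huv, List.append_assoc]; rfl)
  rw [List.length_append, List.length_singleton] at hj
  rw [List.sum_append, List.sum_singleton] at hj2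
  have e1 : f x + u.sum = f (w i) := by
    rw [hi2]
    exact add_sub_cancel (f x) (f (w i))
  have e2 : f x + u.sum + s = f (w j) := by
    rw [add_assoc, hj2]
    exact add_sub_cancel (f x) (f (w j))
  rw [e2, e1, adj_im]
  have h3 : u.length < n := by
    have := j.2
    omega
  have h4 := hw.2.1 ⟨u.length, h3⟩
  have h5 : (⟨u.length, h3⟩ : Fin n).castSucc = i := Fin.ext hi.symm
  have h6 : (⟨u.length, h3⟩ : Fin n).succ = j := Fin.ext hj.symm
  rwa [h5, h6] at h4

private theorem exists_Omega {H : SimpleGraph V} {f : V → ℤ × ℤ} (hf : Function.Injective f) {x : V} {n : ℕ} {l : Wd}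
    (hl : l ∈ Sw (imG H f hf) (f x)) (hn : l.length = n) : ∃ w ∈ Omega H x n, gg f x w = unword n l := by
  have hadj : ∀ (i : ℕ), i < n → (imG H f hf).Adj (f x + (l.take i).sum) (f x + (l.take (i + 1)).sum) := by
    intro i hi
    have h1 : l = l.take i ++ l[i] :: l.drop (i + 1) := by
      rw [← List.drop_eq_getElem_cons, List.take_append_drop]
    have h2 := hl.2 _ _ _ h1
    rwa [add_assoc, ← List.sum_take_succ l i (by omega)] at h2
  have hex : ∀ i : Fin (n + 1), ∃ y, f y = f x + (l.take i).sum := by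
    intro i
    rcases Nat.eq_zero_or_pos (i : ℕ) with h | h
    · refine ⟨x, ?_⟩
      rw [h, List.take_zero, List.sum_nil, add_zero]
    · have hi := i.2
      obtain ⟨a, b, -, -, hb⟩ := hadj ((i : ℕ) - 1) (by omega)
      rw [Nat.sub_add_cancel h] at hb
      exact ⟨b, hb⟩
  choose w hw using hex
  have hg : gg f x w = unword n l := by
    funext i
    show f (w i) - f x = (l.take i).sum
    rw [hw i, add_sub_cancel_left]
  have hOm : unword n l ∈ Om true n := by
    rw [mem_Om_iff, word_unword hn]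
    exact ⟨unword_zero n l, hl.1⟩
  refine ⟨w, ⟨?_, fun i => ?_, fun i j hij => ?_⟩, hg⟩
  · refine hf ?_
    rw [hw 0]
    simp
  · rw [← adj_im H f hf, hw, hw]
    exact hadj i i.2
  · refine hOm.2.2 ?_
    rw [← hg]
    show f (w i) - f x = f (w j) - f x
    rw [hij]

private theorem gg_disj {n : ℕ} {w w' : Fin (n + 1) → ℤ × ℤ} (h10 : w 0 = 0) (h20 : w' 0 = 0) (hinj : Function.Injective w') :
    (∀ i j : Fin (n + 1), i ≠ 0 → w i ≠ w' j) ↔ Disj (word w) (word w') := by
  constructor
  · intro h3 p q r s hp hq hs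
    obtain ⟨i, hi, hi2⟩ := sum_prefix h10 hp
    obtain ⟨j, hj, hj2⟩ := sum_prefix h20 hq
    rw [hi2, hj2] at hs
    have hi0 : i = 0 := by
      by_contra hne
      exact h3 i j hne hs
    rw [hi0] at hi hs
    rw [h10, ← h20] at hs
    have hj0 : (0 : Fin (n + 1)) = j := hinj hs
    rw [← hj0] at hj
    exact ⟨List.length_eq_zero_iff.mp (by simpa using hi.symm),
      List.length_eq_zero_iff.mp (by simpa using hj.symm)⟩
  · intro h3 i j hi he
    have h4 := (h3 ((word w).take i) ((word w').take j) ((word w).drop i) ((word w').drop j)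
      (List.take_append_drop _ _).symm (List.take_append_drop _ _).symm
      (by rw [take_word h10, take_word h20]; exact he)).1
    have h5 := congrArg List.length h4
    rw [List.length_take, length_word, List.length_nil] at h5
    have := i.2
    have h6 : (i : ℕ) ≠ 0 := fun h => hi (Fin.ext h)
    omega

theorem a_im {H : SimpleGraph V} {f : V → ℤ × ℤ} (hf : Function.Injective f) (hs : ∀ x y, H.Adj x y → f y - f x ∈ steps true)
    (x : V) (n : ℕ) : a H x n = (cnt (Sw (imG H f hf) (f x)) n : ℝ) := by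
  unfold a cnt
  have himg : (fun w : Fin (n + 1) → V => word (gg f x w)) '' (Omega H x n) =
      {l | l ∈ Sw (imG H f hf) (f x) ∧ l.length = n} := by
    ext l
    constructor
    · rintro ⟨w, hw, rfl⟩
      exact ⟨gg_Sw hf hs hw, length_word _⟩
    · rintro ⟨h1, h2⟩
      obtain ⟨w, hw, hg⟩ := exists_Omega hf h1 h2
      refine ⟨w, hw, ?_⟩
      show word (gg f x w) = l
      rw [hg, word_unword h2]
  rw [← himg, Set.InjOn.ncard_image]
  intro w hw w' hw' h
  exact gg_inj hf (word_injOn (gg_zero hw.1) (gg_zero hw'.1) h)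

theorem pairs_im {H : SimpleGraph V} {f : V → ℤ × ℤ} (hf : Function.Injective f) (hs : ∀ x y, H.Adj x y → f y - f x ∈ steps true)
    (x : V) (n : ℕ) : (Pairs H x n).ncard = (Prs (imG H f hf) (f x) n).ncard := by
  have hiff : ∀ w w' : Fin (n + 1) → V, w ∈ Omega H x n → w' ∈ Omega H x n →
      ((∀ i j : Fin (n + 1), i ≠ 0 → w i ≠ w' j) ↔ Disj (word (gg f x w)) (word (gg f x w'))) := by
    intro w w' hw hw'
    rw [← gg_disj (gg_zero hw.1) (gg_zero hw'.1) (gg_Om hf hs hw').2.2]
    refine forall_congr' fun i => forall_congr' fun j => imp_congr_right fun _ => not_congr ?_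
    show w i = w' j ↔ f (w i) - f x = f (w' j) - f x
    rw [sub_left_inj]
    exact hf.eq_iff.symm
  have himg : (fun p : (Fin (n + 1) → V) × (Fin (n + 1) → V) => (word (gg f x p.1), word (gg f x p.2))) '' (Pairs H x n) =
      Prs (imG H f hf) (f x) n := by
    ext ⟨a, b⟩
    constructor
    · rintro ⟨⟨w, w'⟩, ⟨hw, hw', hd⟩, he⟩
      rw [Prod.mk.injEq] at he
      obtain ⟨rfl, rfl⟩ := he
      exact ⟨gg_Sw hf hs hw, gg_Sw hf hs hw', length_word _, length_word _, (hiff w w' hw hw').1 hd⟩
    · rintro ⟨h1, h2, h3, h4, h5⟩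
      obtain ⟨w, hw, hg⟩ := exists_Omega hf h1 h3
      obtain ⟨w', hw', hg'⟩ := exists_Omega hf h2 h4
      have e1 : word (gg f x w) = a := by rw [hg, word_unword h3]
      have e2 : word (gg f x w') = b := by rw [hg', word_unword h4]
      refine ⟨(w, w'), ⟨hw, hw', (hiff w w' hw hw').2 ?_⟩, ?_⟩
      · rw [e1, e2]
        exact h5
      · show (word (gg f x w), word (gg f x w')) = (a, b)
        rw [e1, e2]
  rw [← himg, Set.InjOn.ncard_image]
  rintro ⟨w, w'⟩ hw ⟨y, y'⟩ hy he
  simp only [Prod.mk.injEq] at he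
  have e1 : w = y := gg_inj hf (word_injOn (gg_zero hw.1.1) (gg_zero hy.1.1) he.1)
  have e2 : w' = y' := gg_inj hf (word_injOn (gg_zero hw.2.1.1) (gg_zero hy.2.1.1) he.2)
  rw [e1, e2]

end Pool.Agent.RPL.Fin
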