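import Pool.Agent.RPL.C0

/-!
Project RPL: doubly periodic subgraphs of the triangular lattice given by a finite table, and a finite check which shows that such a graph is connected,
vertex-transitive and drawn as in `Drawing`.
-/

set_option autoImplicit false

namespace Pool.Agent.RPL.Arch

open Pool.Agent.RPL.Fin

/-- A doubly periodic subgraph of the triangular lattice. The periods are spanned by `(m, k)` and `(0, n)`; entry `x * n + y` of `E` lists the steps from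
the point `(x, y)`, `0 ≤ x < m`, `0 ≤ y < n`, to its neighbours; the empty list means that the point is not a vertex. -/
structure Per where
  m : ℕ
  k : ℤ
  n : ℕ
  E : List (List (ℤ × ℤ))

namespace Per

variable (c : Per)

/-- First coordinate of the cell of `u`. -/
def qx (u : ℤ × ℤ) : ℤ := u.1 / c.m

/-- First coordinate of the point of the box equivalent to `u`. -/
def rx (u : ℤ × ℤ) : ℤ := u.1 % c.m

/-- Second coordinate of the cell of `u`. -/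
def qy (u : ℤ × ℤ) : ℤ := (u.2 - c.qx u * c.k) / c.n

/-- Second coordinate of the point of the box equivalent to `u`. -/
def ry (u : ℤ × ℤ) : ℤ := (u.2 - c.qx u * c.k) % c.n

/-- The number of the class of `u` in the table. -/
def idx (u : ℤ × ℤ) : ℕ := (c.rx u * c.n + c.ry u).toNat

/-- The steps from `u` to its neighbours. -/
def tab (u : ℤ × ℤ) : List (ℤ × ℤ) := c.E.getD (c.idx u) []

/-- The period `i (m, k) + j (0, n)`. -/
def lam (i j : ℤ) : ℤ × ℤ := (i * c.m, i * c.k + j * c.n)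

/-- The points of the box. -/
def reps : List (ℤ × ℤ) := (List.range c.m).flatMap fun x : ℕ => (List.range c.n).map fun y : ℕ => ((x : ℤ), (y : ℤ))

/-- The vertices. -/
abbrev Vx : Type := {u : ℤ × ℤ // c.tab u ≠ []}

/-- The graph. -/
def gr : SimpleGraph c.Vx where
  Adj u v := u ≠ v ∧ v.1 - u.1 ∈ c.tab u.1 ∧ u.1 - v.1 ∈ c.tab v.1
  symm := ⟨fun _ _ h => ⟨h.1.symm, h.2.2, h.2.1⟩⟩
  loopless := ⟨fun _ h => h.1 rfl⟩

/-- The point of the box equivalent to `u`. -/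
def rp (u : ℤ × ℤ) : ℤ × ℤ := (c.rx u, c.ry u)

variable {c}

theorem rp_lam (u : ℤ × ℤ) : c.rp u + c.lam (c.qx u) (c.qy u) = u := by
  have h1 := Int.emod_add_mul_ediv u.1 c.m
  have h2 := Int.emod_add_mul_ediv (u.2 - c.qx u * c.k) c.n
  ext
  · simp only [rp, rx, qx, lam, Prod.fst_add]
    linarith [mul_comm (u.1 / (c.m : ℤ)) (c.m : ℤ)]
  · simp only [rp, ry, qy, lam, Prod.snd_add]
    linarith [mul_comm ((u.2 - c.qx u * c.k) / (c.n : ℤ)) (c.n : ℤ)]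

theorem qx_add (hm : 0 < c.m) (u : ℤ × ℤ) (i j : ℤ) : c.qx (u + c.lam i j) = c.qx u + i := by
  have h : (c.m : ℤ) ≠ 0 := by exact_mod_cast hm.ne'
  simp only [qx, lam, Prod.fst_add]
  rw [Int.add_mul_ediv_right _ _ h]

theorem rx_add (u : ℤ × ℤ) (i j : ℤ) : c.rx (u + c.lam i j) = c.rx u := by
  simp only [rx, lam, Prod.fst_add]
  exact Int.add_mul_emod_self_right _ _ _

theorem aux (hm : 0 < c.m) (u : ℤ × ℤ) (i j : ℤ) :
    (u + c.lam i j).2 - c.qx (u + c.lam i j) * c.k = (u.2 - c.qx u * c.k) + j * c.n := by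
  rw [qx_add hm]
  simp only [lam, Prod.snd_add]
  ring

theorem qy_add (hm : 0 < c.m) (hn : 0 < c.n) (u : ℤ × ℤ) (i j : ℤ) : c.qy (u + c.lam i j) = c.qy u + j := by
  have h : (c.n : ℤ) ≠ 0 := by exact_mod_cast hn.ne'
  unfold qy
  rw [aux hm, Int.add_mul_ediv_right _ _ h]

theorem ry_add (hm : 0 < c.m) (u : ℤ × ℤ) (i j : ℤ) : c.ry (u + c.lam i j) = c.ry u := by
  unfold ry
  rw [aux hm]
  exact Int.add_mul_emod_self_right _ _ _

theorem idx_add (hm : 0 < c.m) (u : ℤ × ℤ) (i j : ℤ) : c.idx (u + c.lam i j) = c.idx u := by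
  unfold idx
  rw [rx_add, ry_add hm]

theorem tab_add (hm : 0 < c.m) (u : ℤ × ℤ) (i j : ℤ) : c.tab (u + c.lam i j) = c.tab u := by
  unfold tab
  rw [idx_add hm]

theorem tab_rp (hm : 0 < c.m) (u : ℤ × ℤ) : c.tab (c.rp u) = c.tab u := by
  conv_rhs => rw [← rp_lam (c := c) u]
  rw [tab_add hm]

theorem idx_rp (hm : 0 < c.m) (u : ℤ × ℤ) : c.idx (c.rp u) = c.idx u := by
  conv_rhs => rw [← rp_lam (c := c) u]
  rw [idx_add hm]

theorem rp_mem (hm : 0 < c.m) (hn : 0 < c.n) (u : ℤ × ℤ) : c.rp u ∈ c.reps := by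
  have h1 : (c.m : ℤ) ≠ 0 := by exact_mod_cast hm.ne'
  have h2 : (c.n : ℤ) ≠ 0 := by exact_mod_cast hn.ne'
  have hm' : (0 : ℤ) < c.m := by exact_mod_cast hm
  have hn' : (0 : ℤ) < c.n := by exact_mod_cast hn
  have a1 : 0 ≤ c.rx u := Int.emod_nonneg _ h1
  have a2 : 0 ≤ c.ry u := Int.emod_nonneg _ h2
  have a3 : c.rx u < c.m := Int.emod_lt_of_pos _ hm'
  have a4 : c.ry u < c.n := Int.emod_lt_of_pos _ hn'
  unfold reps rp
  rw [List.mem_flatMap]
  refine ⟨(c.rx u).toNat, List.mem_range.2 (by omega), ?_⟩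
  rw [List.mem_map]
  refine ⟨(c.ry u).toNat, List.mem_range.2 (by omega), ?_⟩
  rw [Int.toNat_of_nonneg a1, Int.toNat_of_nonneg a2]

variable (c)

/-- The steps are steps of the triangular lattice and the table is symmetric. -/
def Sym : Prop := ∀ r ∈ c.reps, ∀ s ∈ c.tab r,
  s ∈ [((1 : ℤ), (0 : ℤ)), (0, 1), (-1, 1), (-1, 0), (0, -1), (1, -1)] ∧ -s ∈ c.tab (r + s)

instance : Decidable c.Sym := by unfold Sym; infer_instance

variable {c}

theorem sym (hm : 0 < c.m) (hn : 0 < c.n) (h : c.Sym) (u s : ℤ × ℤ) (hs : s ∈ c.tab u) :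
    s ∈ tri ∧ -s ∈ c.tab (u + s) := by
  rw [← tab_rp hm] at hs
  obtain ⟨h1, h2⟩ := h _ (rp_mem hm hn u) s hs
  constructor
  · simp only [List.mem_cons, List.not_mem_nil, or_false] at h1
    simp only [tri, Set.mem_insert_iff, Set.mem_singleton_iff]
    tauto
  · rw [← tab_add hm _ (c.qx u) (c.qy u)] at h2
    rw [show c.rp u + s + c.lam (c.qx u) (c.qy u) = (c.rp u + c.lam (c.qx u) (c.qy u)) + s by abel, rp_lam] at h2
    exact h2

theorem ne_zero_of_tri {s : ℤ × ℤ} (h : s ∈ tri) : s ≠ 0 := by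
  rintro rfl
  simp only [tri, Set.mem_insert_iff, Set.mem_singleton_iff, Prod.ext_iff, Prod.fst_zero, Prod.snd_zero] at h
  omega

theorem adj_iff (hm : 0 < c.m) (hn : 0 < c.n) (h : c.Sym) (u v : c.Vx) : c.gr.Adj u v ↔ v.1 - u.1 ∈ c.tab u.1 := by
  constructor
  · exact fun h => h.2.1
  · intro hs
    obtain ⟨h1, h2⟩ := sym hm hn h _ _ hs
    refine ⟨?_, hs, ?_⟩
    · rintro rfl
      exact ne_zero_of_tri h1 (sub_self _)
    · rw [neg_sub, add_sub_cancel] at h2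
      exact h2

/-- Maps given by their values on the box and a matrix. -/
structure _root_.Pool.Agent.RPL.Arch.Aff where
  T : List (ℤ × ℤ)
  a1 : ℤ
  b1 : ℤ
  a2 : ℤ
  b2 : ℤ

variable (c)

/-- The map. -/
def ap (f : Aff) (u : ℤ × ℤ) : ℤ × ℤ :=
  f.T.getD (c.idx u) (0, 0) + c.lam (c.qx u * f.a1 + c.qy u * f.a2) (c.qx u * f.b1 + c.qy u * f.b2)

/-- The map preserves the edges. -/
def Pres (f : Aff) : Prop := ∀ r ∈ c.reps, ∀ s ∈ c.tab r, c.ap f (r + s) - c.ap f r ∈ c.tab (c.ap f r)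

instance (f : Aff) : Decidable (c.Pres f) := by unfold Pres; infer_instance

/-- `g` is a left inverse of `f`. -/
def Inv (f g : Aff) : Prop := (∀ r ∈ c.reps, c.tab r ≠ [] → c.ap g (c.ap f r) = r) ∧
  f.a1 * g.a1 + f.b1 * g.a2 = 1 ∧ f.a2 * g.a1 + f.b2 * g.a2 = 0 ∧
  f.a1 * g.b1 + f.b1 * g.b2 = 0 ∧ f.a2 * g.b1 + f.b2 * g.b2 = 1

instance (f g : Aff) : Decidable (c.Inv f g) := by unfold Inv; infer_instance

variable {c}

theorem ap_add (hm : 0 < c.m) (hn : 0 < c.n) (f : Aff) (u : ℤ × ℤ) (i j : ℤ) :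
    c.ap f (u + c.lam i j) = c.ap f u + c.lam (i * f.a1 + j * f.a2) (i * f.b1 + j * f.b2) := by
  unfold ap
  rw [idx_add hm, qx_add hm, qy_add hm hn]
  ext
  · simp only [lam, Prod.fst_add]
    ring
  · simp only [lam, Prod.snd_add]
    ring

theorem pres (hm : 0 < c.m) (hn : 0 < c.n) {f : Aff} (h : c.Pres f) (u s : ℤ × ℤ) (hs : s ∈ c.tab u) :
    c.ap f (u + s) - c.ap f u ∈ c.tab (c.ap f u) := by
  rw [← tab_rp hm] at hs
  have h1 := h _ (rp_mem hm hn u) s hs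
  have e1 : c.ap f u = c.ap f (c.rp u) + c.lam (c.qx u * f.a1 + c.qy u * f.a2) (c.qx u * f.b1 + c.qy u * f.b2) := by
    rw [← ap_add hm hn, rp_lam]
  have e2 : c.ap f (u + s) = c.ap f (c.rp u + s) +
      c.lam (c.qx u * f.a1 + c.qy u * f.a2) (c.qx u * f.b1 + c.qy u * f.b2) := by
    rw [← ap_add hm hn, show c.rp u + s + c.lam (c.qx u) (c.qy u) = (c.rp u + c.lam (c.qx u) (c.qy u)) + s by abel, rp_lam]
  rw [e1, e2, tab_add hm, add_sub_add_right_eq_sub]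
  exact h1

theorem inv (hm : 0 < c.m) (hn : 0 < c.n) {f g : Aff} (h : c.Inv f g) (u : ℤ × ℤ) (hu : c.tab u ≠ []) :
    c.ap g (c.ap f u) = u := by
  obtain ⟨h0, h1, h2, h3, h4⟩ := h
  have e1 : c.ap f u = c.ap f (c.rp u) + c.lam (c.qx u * f.a1 + c.qy u * f.a2) (c.qx u * f.b1 + c.qy u * f.b2) := by
    rw [← ap_add hm hn, rp_lam]
  rw [e1, ap_add hm hn, h0 _ (rp_mem hm hn u) (by rwa [tab_rp hm])]
  conv_rhs => rw [← rp_lam (c := c) u]
  congr 2
  · linear_combination (c.qx u) * h1 + (c.qy u) * h2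
  · linear_combination (c.qx u) * h3 + (c.qy u) * h4

theorem iso_of (hm : 0 < c.m) (hn : 0 < c.n) (h : c.Sym) (F G : ℤ × ℤ → ℤ × ℤ)
    (hF : ∀ u s, s ∈ c.tab u → F (u + s) - F u ∈ c.tab (F u)) (hG : ∀ u s, s ∈ c.tab u → G (u + s) - G u ∈ c.tab (G u))
    (hGF : ∀ u, c.tab u ≠ [] → G (F u) = u) (hFG : ∀ u, c.tab u ≠ [] → F (G u) = u) :
    ∃ φ : c.gr ≃g c.gr, ∀ u, (φ u).1 = F u.1 := by
  have key : ∀ F : ℤ × ℤ → ℤ × ℤ, (∀ u s, s ∈ c.tab u → F (u + s) - F u ∈ c.tab (F u)) → ∀ u, c.tab u ≠ [] → c.tab (F u) ≠ [] := by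
    intro F hF u hu
    obtain ⟨s, hs⟩ := List.exists_mem_of_ne_nil _ hu
    exact List.ne_nil_of_mem (hF u s hs)
  refine ⟨{ toFun := fun u => ⟨F u.1, key F hF u.1 u.2⟩, invFun := fun u => ⟨G u.1, key G hG u.1 u.2⟩,
            left_inv := fun u => Subtype.ext (hGF u.1 u.2), right_inv := fun u => Subtype.ext (hFG u.1 u.2),
            map_rel_iff' := ?_ }, fun u => rfl⟩
  intro u v
  rw [adj_iff hm hn h, adj_iff hm hn h]
  change F v.1 - F u.1 ∈ c.tab (F u.1) ↔ v.1 - u.1 ∈ c.tab u.1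
  constructor
  · intro h1
    have h2 := hG _ _ h1
    rwa [add_sub_cancel, hGF _ u.2, hGF _ v.2] at h2
  · intro h1
    have h2 := hF _ _ h1
    rwa [add_sub_cancel] at h2

theorem iso_lam (hm : 0 < c.m) (hn : 0 < c.n) (h : c.Sym) (i j : ℤ) :
    ∃ φ : c.gr ≃g c.gr, ∀ u, (φ u).1 = u.1 + c.lam i j := by
  have e : c.lam i j + c.lam (-i) (-j) = 0 := by
    ext
    · simp only [lam, Prod.fst_add, Prod.fst_zero]; ring
    · simp only [lam, Prod.snd_add, Prod.snd_zero]; ring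
  refine iso_of hm hn h (fun u => u + c.lam i j) (fun u => u + c.lam (-i) (-j)) ?_ ?_ ?_ ?_
  · intro u s hs
    rw [tab_add hm, show u + s + c.lam i j - (u + c.lam i j) = s by abel]
    exact hs
  · intro u s hs
    rw [tab_add hm, show u + s + c.lam (-i) (-j) - (u + c.lam (-i) (-j)) = s by abel]
    exact hs
  · intro u _
    show u + c.lam i j + c.lam (-i) (-j) = u
    rw [add_assoc, e, add_zero]
  · intro u _
    show u + c.lam (-i) (-j) + c.lam i j = u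
    rw [add_assoc, add_comm (c.lam (-i) (-j)), e, add_zero]

variable (c)

/-- The end of the walk from `u` with the given steps, if all of them are edges. -/
def go : ℤ × ℤ → List (ℤ × ℤ) → Option (ℤ × ℤ)
  | u, [] => some u
  | u, s :: w => if s ∈ c.tab u then go (u + s) w else none

/-- `u` and `v` are vertices joined by a walk. -/
def Rch (u v : ℤ × ℤ) : Prop := ∃ (hu : c.tab u ≠ []) (hv : c.tab v ≠ []), c.gr.Reachable ⟨u, hu⟩ ⟨v, hv⟩

variable {c}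

theorem Rch.trans {u v w : ℤ × ℤ} (h : c.Rch u v) (h' : c.Rch v w) : c.Rch u w := by
  obtain ⟨hu, hv, h⟩ := h
  obtain ⟨_, hw, h'⟩ := h'
  exact ⟨hu, hw, h.trans h'⟩

theorem Rch.symm {u v : ℤ × ℤ} (h : c.Rch u v) : c.Rch v u := by
  obtain ⟨hu, hv, h⟩ := h
  exact ⟨hv, hu, h.symm⟩

theorem Rch.add (hm : 0 < c.m) (hn : 0 < c.n) (h : c.Sym) {u v : ℤ × ℤ} (h' : c.Rch u v) (i j : ℤ) :
    c.Rch (u + c.lam i j) (v + c.lam i j) := by
  obtain ⟨hu, hv, h'⟩ := h'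
  obtain ⟨φ, hφ⟩ := iso_lam hm hn h i j
  have h1 : c.gr.Reachable (φ ⟨u, hu⟩) (φ ⟨v, hv⟩) := h'.map φ.toHom
  refine ⟨by rwa [tab_add hm], by rwa [tab_add hm], ?_⟩
  have e1 : φ ⟨u, hu⟩ = ⟨u + c.lam i j, by rwa [tab_add hm]⟩ := Subtype.ext (hφ _)
  have e2 : φ ⟨v, hv⟩ = ⟨v + c.lam i j, by rwa [tab_add hm]⟩ := Subtype.ext (hφ _)
  rwa [e1, e2] at h1

theorem go_rch (hm : 0 < c.m) (hn : 0 < c.n) (h : c.Sym) : ∀ (w : List (ℤ × ℤ)) (u v : ℤ × ℤ), c.tab u ≠ [] →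
    c.go u w = some v → c.Rch u v := by
  intro w
  induction w with
  | nil =>
    intro u v hu e
    rw [go, Option.some.injEq] at e
    subst e
    exact ⟨hu, hu, SimpleGraph.Reachable.refl _⟩
  | cons s w ih =>
    intro u v hu e
    rw [go] at e
    split_ifs at e with hs
    obtain ⟨h1, h2⟩ := sym hm hn h _ _ hs
    have hv : c.tab (u + s) ≠ [] := List.ne_nil_of_mem h2
    refine Rch.trans ⟨hu, hv, ?_⟩ (ih _ _ hv e)
    apply SimpleGraph.Adj.reachable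
    rw [adj_iff hm hn h]
    change u + s - u ∈ c.tab u
    rwa [add_sub_cancel_left]

end Per

/-- A table with a certificate: a vertex `o`, walks from `o` to the vertices of the box and to the two translates of `o`, and, for the vertices of the
box, a map with its inverse. -/
structure Cert extends Per where
  o : ℤ × ℤ
  W : List (List (ℤ × ℤ))
  W1 : List (ℤ × ℤ)
  W2 : List (ℤ × ℤ)
  A : List (Aff × Aff)

namespace Cert

variable (c : Cert)

/-- The finite check. -/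
def Ok : Prop := 0 < c.m ∧ 0 < c.n ∧ c.Sym ∧ c.tab c.o ≠ [] ∧
  c.go c.o c.W1 = some (c.o + c.lam 1 0) ∧ c.go c.o c.W2 = some (c.o + c.lam 0 1) ∧
  ∀ r ∈ c.reps, c.tab r ≠ [] → (∃ s ∈ c.tab r, s.1 = 1) ∧ (∃ s ∈ c.tab r, s.1 = -1) ∧
    c.go c.o (c.W.getD (c.idx r) []) = some r ∧
    c.ap (c.A.getD (c.idx r) (⟨[], 0, 0, 0, 0⟩, ⟨[], 0, 0, 0, 0⟩)).1 c.o = r ∧
    c.Pres (c.A.getD (c.idx r) (⟨[], 0, 0, 0, 0⟩, ⟨[], 0, 0, 0, 0⟩)).1 ∧
    c.Pres (c.A.getD (c.idx r) (⟨[], 0, 0, 0, 0⟩, ⟨[], 0, 0, 0, 0⟩)).2 ∧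
    c.Inv (c.A.getD (c.idx r) (⟨[], 0, 0, 0, 0⟩, ⟨[], 0, 0, 0, 0⟩)).1 (c.A.getD (c.idx r) (⟨[], 0, 0, 0, 0⟩, ⟨[], 0, 0, 0, 0⟩)).2 ∧
    c.Inv (c.A.getD (c.idx r) (⟨[], 0, 0, 0, 0⟩, ⟨[], 0, 0, 0, 0⟩)).2 (c.A.getD (c.idx r) (⟨[], 0, 0, 0, 0⟩, ⟨[], 0, 0, 0, 0⟩)).1

instance : Decidable c.Ok := by unfold Ok; infer_instance

variable {c}

theorem rch_lam (h : c.Ok) (i j : ℤ) : c.Rch c.o (c.o + c.lam i j) := by
  obtain ⟨hm, hn, hs, ho, h1, h2, -⟩ := h
  have r1 := Per.go_rch hm hn hs _ _ _ ho h1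
  have r2 := Per.go_rch hm hn hs _ _ _ ho h2
  have l0 : c.lam 0 0 = 0 := by ext <;> simp [Per.lam]
  have lad : ∀ a b a' b' : ℤ, c.lam a b + c.lam a' b' = c.lam (a + a') (b + b') := by
    intro a b a' b'
    ext
    · simp only [Per.lam, Prod.fst_add]; ring
    · simp only [Per.lam, Prod.snd_add]; ring
  have r0 : c.Rch c.o (c.o + c.lam 0 0) := by
    rw [l0, add_zero]; exact ⟨ho, ho, SimpleGraph.Reachable.refl _⟩
  have s1 : ∀ i j : ℤ, c.Rch (c.o + c.lam i j) (c.o + c.lam (i + 1) j) := by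
    intro i j
    have := r1.add hm hn hs i j
    rw [add_assoc, lad, add_comm 1 i, zero_add] at this
    exact this
  have s2 : ∀ i j : ℤ, c.Rch (c.o + c.lam i j) (c.o + c.lam i (j + 1)) := by
    intro i j
    have := r2.add hm hn hs i j
    rw [add_assoc, lad, add_comm 1 j, zero_add] at this
    exact this
  have t1 : c.Rch c.o (c.o + c.lam i 0) := by
    induction i using Int.induction_on with
    | zero => exact r0
    | succ k ih => exact ih.trans (s1 _ _)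
    | pred k ih =>
      have := s1 (-(k : ℤ) - 1) 0
      rw [sub_add_cancel] at this
      exact ih.trans this.symm
  induction j using Int.induction_on with
  | zero => exact t1
  | succ k ih => exact ih.trans (s2 _ _)
  | pred k ih =>
    have := s2 i (-(k : ℤ) - 1)
    rw [sub_add_cancel] at this
    exact ih.trans this.symm

theorem connected (h : c.Ok) : c.gr.Connected := by
  have key : ∀ v, c.tab v ≠ [] → c.Rch c.o v := by
    intro v hv
    have h' := h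
    obtain ⟨hm, hn, hs, ho, -, -, h3⟩ := h'
    have hr := Per.rp_mem hm hn v
    have r1 := Per.go_rch hm hn hs _ _ _ ho (h3 _ hr (by rwa [Per.tab_rp hm])).2.2.1
    have r2 := r1.add hm hn hs (c.qx v) (c.qy v)
    rw [Per.rp_lam] at r2
    exact (rch_lam h _ _).trans r2
  rw [SimpleGraph.connected_iff]
  refine ⟨?_, ⟨⟨c.o, h.2.2.2.1⟩⟩⟩
  intro u v
  obtain ⟨_, _, h1⟩ := (key u.1 u.2).symm.trans (key v.1 v.2)
  exact h1

theorem transitive (h : c.Ok) (x y : c.Vx) : ∃ φ : c.gr ≃g c.gr, φ x = y := by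
  have ho := h.2.2.2.1
  have key : ∀ v : c.Vx, ∃ φ : c.gr ≃g c.gr, φ ⟨c.o, ho⟩ = v := by
    intro v
    obtain ⟨hm, hn, hs, -, -, -, h3⟩ := h
    have hr := Per.rp_mem hm hn v.1
    obtain ⟨-, -, -, h4, h5, h6, h7, h8⟩ := h3 _ hr (by rw [Per.tab_rp hm]; exact v.2)
    obtain ⟨φ, hφ⟩ := Per.iso_of hm hn hs _ _ (Per.pres hm hn h5) (Per.pres hm hn h6) (Per.inv hm hn h7) (Per.inv hm hn h8)
    obtain ⟨ψ, hψ⟩ := Per.iso_lam hm hn hs (c.qx v.1) (c.qy v.1)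
    refine ⟨φ.trans ψ, ?_⟩
    apply Subtype.ext
    change (ψ (φ _)).1 = v.1
    rw [hψ, hφ]
    change c.ap _ c.o + _ = _
    rw [h4, Per.rp_lam]
  obtain ⟨φ, hφ⟩ := key x
  obtain ⟨ψ, hψ⟩ := key y
  refine ⟨φ.symm.trans ψ, ?_⟩
  change ψ (φ.symm x) = y
  rw [← hφ, RelIso.symm_apply_apply, hψ]

theorem drawing (h : c.Ok) : Drawing c.gr Subtype.val (c.m * c.n) := by
  obtain ⟨hm, hn, hs, -, -, -, h3⟩ := h
  refine ⟨Subtype.val_injective, ?_, ?_, ?_, ?_, ?_⟩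
  · intro x y hxy
    exact (Per.sym hm hn hs _ _ ((Per.adj_iff hm hn hs x y).1 hxy)).1
  · obtain ⟨φ, hφ⟩ := Per.iso_lam hm hn hs c.n (-c.k)
    refine ⟨φ, fun x => ?_⟩
    rw [hφ]
    congr 1
    ext
    · simp only [Per.lam]; push_cast; ring
    · simp only [Per.lam]; ring
  · obtain ⟨φ, hφ⟩ := Per.iso_lam hm hn hs 0 c.m
    refine ⟨φ, fun x => ?_⟩
    rw [hφ]
    congr 1
    ext
    · simp only [Per.lam]; ring
    · simp only [Per.lam]; push_cast; ring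
  · intro x
    obtain ⟨⟨s, h4, h5⟩, -⟩ := h3 _ (Per.rp_mem hm hn x.1) (by rw [Per.tab_rp hm]; exact x.2)
    rw [Per.tab_rp hm] at h4
    have h6 := (Per.sym hm hn hs _ _ h4).2
    refine ⟨⟨x.1 + s, List.ne_nil_of_mem h6⟩, ?_, ?_⟩
    · rw [Per.adj_iff hm hn hs]
      change x.1 + s - x.1 ∈ _
      rwa [add_sub_cancel_left]
    · change (x.1 + s).1 = _
      rw [Prod.fst_add, h5]
  · intro x
    obtain ⟨-, ⟨s, h4, h5⟩, -⟩ := h3 _ (Per.rp_mem hm hn x.1) (by rw [Per.tab_rp hm]; exact x.2)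
    rw [Per.tab_rp hm] at h4
    have h6 := (Per.sym hm hn hs _ _ h4).2
    refine ⟨⟨x.1 + s, List.ne_nil_of_mem h6⟩, ?_, ?_⟩
    · rw [Per.adj_iff hm hn hs]
      change x.1 + s - x.1 ∈ _
      rwa [add_sub_cancel_left]
    · change (x.1 + s).1 = _
      rw [Prod.fst_add, h5]
      rfl

end Cert

end Pool.Agent.RPL.Arch
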