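import Pool.Agent.ZHW.Split

/-!
Project RPL: the eleven Archimedean lattices as subsets of the complex plane, with edges of length one.

`ζ` is the root of unity `exp (π i / 6)` (`e = false`) or `exp (π i / 4)` (`e = true`). A lattice is given by two periods `s`, `t` and the list `B` of the
points `b` modulo the periods; all these are integer combinations `(a, b, c, d) = a + b ζ + c ζ ^ 2 + d ζ ^ 3`.
-/

set_option autoImplicit false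

namespace Pool.Agent.RPL.Euc

/-- `exp (π i / 4)`, resp. `exp (π i / 6)`. -/
noncomputable def zeta (e : Bool) : ℂ := if e then ⟨Real.sqrt 2 / 2, Real.sqrt 2 / 2⟩ else ⟨Real.sqrt 3 / 2, 1 / 2⟩

/-- The number `a + b ζ + c ζ ^ 2 + d ζ ^ 3`. -/
noncomputable def ev (e : Bool) (v : ℤ × ℤ × ℤ × ℤ) : ℂ :=
  (v.1 : ℂ) + (v.2.1 : ℂ) * zeta e + (v.2.2.1 : ℂ) * zeta e ^ 2 + (v.2.2.2 : ℂ) * zeta e ^ 3

/-- A lattice: root of unity, periods, points modulo the periods. -/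
structure Dat where
  e : Bool
  s : ℤ × ℤ × ℤ × ℤ
  t : ℤ × ℤ × ℤ × ℤ
  B : List (ℤ × ℤ × ℤ × ℤ)

/-- The points `b + i s + j t`. -/
def Dat.pts (d : Dat) : Set ℂ := {z | ∃ b ∈ d.B, ∃ i j : ℤ, z = ev d.e b + (i : ℂ) * ev d.e d.s + (j : ℂ) * ev d.e d.t}

/-- Triangular lattice 3^6. -/
def triangular : Dat := ⟨false, (1, 0, 0, 0), (0, 0, 1, 0), [(0, 0, 0, 0)]⟩

/-- Square lattice 4^4. -/
def square : Dat := ⟨false, (1, 0, 0, 0), (0, 0, 0, 1), [(0, 0, 0, 0)]⟩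

/-- Honeycomb 6^3. -/
def honeycomb : Dat := ⟨false, (0, 2, 0, -1), (0, 1, 0, 1), [(0, 0, 0, 0), (0, -1, 0, 0)]⟩

/-- Kagome 3.6.3.6. -/
def kagome : Dat := ⟨false, (2, 0, 0, 0), (0, 0, 2, 0), [(0, 0, 0, 0), (0, 0, -1, 0), (-1, 0, 0, 0)]⟩

/-- Truncated hexagonal 3.12^2. -/
def truncHexagonal : Dat := ⟨false, (2, 2, 0, -1), (0, 1, 2, 1), [(0, 0, 0, 0), (0, -1, 0, 1), (1, 1, 0, 0), (1, 0, -1, -1), (1, 0, 0, 0), (1, 0, -1, 0)]⟩

/-- Truncated square 4.8^2. -/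
def truncSquare : Dat := ⟨true, (1, 1, 0, -1), (0, 1, 1, 1), [(0, 0, 0, 0), (0, 0, 1, 0), (0, 0, 0, -1), (0, -1, 0, 0)]⟩

/-- Truncated trihexagonal 4.6.12. -/
def truncTrihexagonal : Dat := ⟨false, (3, 2, 0, -1), (0, 1, 3, 1), [(0, 0, 0, 0), (0, 1, 1, -1), (1, 1, -1, -1), (-2, 0, 1, 0), (-1, -1, 0, 0), (-1, 0, 2, 0), (-1, 0, 0, 0), (0, 0, 1, 0), (0, 1, 0, -1), (-2, -1, 1, 0), (-1, -1, -1, 0), (-2, 0, 2, 0)]⟩

/-- Rhombitrihexagonal 3.4.6.4. -/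
def rhombitrihexagonal : Dat := ⟨false, (1, 2, 0, -1), (0, 1, 1, 1), [(0, 0, 0, 0), (0, 0, 0, -1), (1, 0, 0, 0), (1, 0, 0, -1), (0, -1, 0, 1), (0, 0, 1, 0)]⟩

/-- Elongated triangular 3^3.4^2. -/
def elongated : Dat := ⟨false, (1, 0, 0, 0), (0, 0, 1, 1), [(0, 0, 0, 0), (0, 0, 0, -1)]⟩

/-- Snub square 3^2.4.3.4. -/
def snubSquare : Dat := ⟨false, (1, 1, 0, 0), (-1, 0, 1, 1), [(0, 0, 0, 0), (0, 0, 1, 0), (0, -1, 0, 0), (0, 0, 0, -1)]⟩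

/-- Snub hexagonal 3^4.6. -/
def snubHexagonal : Dat := ⟨false, (0, 3, 0, -1), (0, 1, 0, 2), [(0, 0, 0, 0), (0, 0, 0, -1), (0, 1, 0, 0), (0, 1, 0, -1), (0, -1, 0, 0), (0, 0, 0, 1)]⟩

/-- The eleven Archimedean lattices. -/
def eleven : List Dat := [triangular, square, honeycomb, kagome, truncHexagonal, truncSquare, truncTrihexagonal,
  rhombitrihexagonal, elongated, snubSquare, snubHexagonal]

end Pool.Agent.RPL.Euc
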