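import Pool.Agent.RPL.E0

/-!
Module E1: integer combinations of roots of unity of absolute value one.

PAPER PROOF. Real and imaginary part of `ev e v`, `v = (a, b, c, d)`: `e = false` (`ζ = √3/2 + i/2`, `ζ ^ 2 = 1/2 + i √3/2`, `ζ ^ 3 = i`): `re = a + c / 2 + b √3 / 2`, `im = d + b / 2 + c √3 / 2`; `e = true` (`ζ = √2/2 (1 + i)`, `ζ ^ 2 = i`, `ζ ^ 3 = √2/2 (-1 + i)`):
`re = a + (b - d) √2 / 2`, `im = c + (b + d) √2 / 2`. `ev_inj`: `√3`, `√2` irrational (`Nat.Prime.irrational_sqrt`, `irrational_sqrt_two`), so `x + y √3 = 0` with rational (here: integer) `x`, `y` gives `x = y = 0`. `norm_ev`: `‖z‖ = 1 ↔ normSq z = 1`;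
`normSq = A + √3 B` with `A = a² + a c + c² + b² + b d + d²`, `B = a b + b c + c d` (`e = false`), `normSq = A + √2 B` with `A = a² + b² + c² + d²`, `B = a b + b c + c d - a d` (`e = true`); so `normSq = 1` iff `A = 1` and `B = 0`. `e = false`: `a² + a c + c² ≥ 0` and `b² + b d + d² ≥ 0` are integers with sum `1`, so one is `0` (both
variables `0`) and the other `1` (the six solutions `±(1, 0), ±(0, 1), ±(1, -1)`; bounds `|a|, |c| ≤ 1` from `4 (a² + a c + c²) = (2 a + c)² + 3 c²`, then `interval_cases`). `e = true`: exactly one of the coordinates is `±1`. In all these cases `B = 0`.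
-/

set_option autoImplicit false

namespace Pool.Agent.RPL.Euc

/-- The roots of unity. -/
def units (e : Bool) : List (ℤ × ℤ × ℤ × ℤ) :=
  if e then [(1, 0, 0, 0), (0, 1, 0, 0), (0, 0, 1, 0), (0, 0, 0, 1), (-1, 0, 0, 0), (0, -1, 0, 0), (0, 0, -1, 0), (0, 0, 0, -1)]
  else [(1, 0, 0, 0), (0, 1, 0, 0), (0, 0, 1, 0), (0, 0, 0, 1), (-1, 0, 1, 0), (0, -1, 0, 1),
    (-1, 0, 0, 0), (0, -1, 0, 0), (0, 0, -1, 0), (0, 0, 0, -1), (1, 0, -1, 0), (0, 1, 0, -1)]

private theorem e1_s3 : Real.sqrt 3 * Real.sqrt 3 = 3 := Real.mul_self_sqrt (by norm_num)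

private theorem e1_s2 : Real.sqrt 2 * Real.sqrt 2 = 2 := Real.mul_self_sqrt (by norm_num)

private theorem e1_ext {z w : ℂ} (h1 : z.re = w.re) (h2 : z.im = w.im) : z = w := Complex.ext h1 h2

private theorem e1_zf : zeta false = ⟨Real.sqrt 3 / 2, 1 / 2⟩ := rfl

private theorem e1_zt : zeta true = ⟨Real.sqrt 2 / 2, Real.sqrt 2 / 2⟩ := rfl

private theorem e1_zf2 : zeta false ^ 2 = ⟨1 / 2, Real.sqrt 3 / 2⟩ := by
  have h := e1_s3
  rw [e1_zf, sq]
  refine Complex.ext ?_ ?_
  · rw [Complex.mul_re]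
    show Real.sqrt 3 / 2 * (Real.sqrt 3 / 2) - 1 / 2 * (1 / 2) = 1 / 2
    linarith
  · rw [Complex.mul_im]
    show Real.sqrt 3 / 2 * (1 / 2) + 1 / 2 * (Real.sqrt 3 / 2) = Real.sqrt 3 / 2
    ring

private theorem e1_zf3 : zeta false ^ 3 = ⟨0, 1⟩ := by
  have h := e1_s3
  rw [pow_succ, e1_zf2, e1_zf]
  refine Complex.ext ?_ ?_
  · rw [Complex.mul_re]
    show 1 / 2 * (Real.sqrt 3 / 2) - Real.sqrt 3 / 2 * (1 / 2) = 0
    ring
  · rw [Complex.mul_im]
    show 1 / 2 * (1 / 2) + Real.sqrt 3 / 2 * (Real.sqrt 3 / 2) = 1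
    linarith

private theorem e1_zt2 : zeta true ^ 2 = ⟨0, 1⟩ := by
  have h := e1_s2
  rw [e1_zt, sq]
  refine Complex.ext ?_ ?_
  · rw [Complex.mul_re]
    show Real.sqrt 2 / 2 * (Real.sqrt 2 / 2) - Real.sqrt 2 / 2 * (Real.sqrt 2 / 2) = 0
    ring
  · rw [Complex.mul_im]
    show Real.sqrt 2 / 2 * (Real.sqrt 2 / 2) + Real.sqrt 2 / 2 * (Real.sqrt 2 / 2) = 1
    linarith

private theorem e1_zt3 : zeta true ^ 3 = ⟨-(Real.sqrt 2 / 2), Real.sqrt 2 / 2⟩ := by
  rw [pow_succ, e1_zt2, e1_zt]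
  refine Complex.ext ?_ ?_
  · rw [Complex.mul_re]
    show 0 * (Real.sqrt 2 / 2) - 1 * (Real.sqrt 2 / 2) = -(Real.sqrt 2 / 2)
    ring
  · rw [Complex.mul_im]
    show 0 * (Real.sqrt 2 / 2) + 1 * (Real.sqrt 2 / 2) = Real.sqrt 2 / 2
    ring

private theorem e1_ref (a b c d : ℤ) : (ev false (a, b, c, d)).re = a + c / 2 + b * Real.sqrt 3 / 2 := by
  unfold ev
  rw [e1_zf3, e1_zf2, e1_zf]
  simp only [Complex.add_re, Complex.mul_re, Complex.intCast_re, Complex.intCast_im]
  ring

private theorem e1_imf (a b c d : ℤ) : (ev false (a, b, c, d)).im = d + b / 2 + c * Real.sqrt 3 / 2 := by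
  unfold ev
  rw [e1_zf3, e1_zf2, e1_zf]
  simp only [Complex.add_im, Complex.mul_im, Complex.intCast_re, Complex.intCast_im]
  ring

private theorem e1_ret (a b c d : ℤ) : (ev true (a, b, c, d)).re = a + (b - d) * Real.sqrt 2 / 2 := by
  unfold ev
  rw [e1_zt3, e1_zt2, e1_zt]
  simp only [Complex.add_re, Complex.mul_re, Complex.intCast_re, Complex.intCast_im]
  ring

private theorem e1_imt (a b c d : ℤ) : (ev true (a, b, c, d)).im = c + (b + d) * Real.sqrt 2 / 2 := by
  unfold ev
  rw [e1_zt3, e1_zt2, e1_zt]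
  simp only [Complex.add_im, Complex.mul_im, Complex.intCast_re, Complex.intCast_im]
  ring

private theorem e1_irr {r : ℝ} (hr : Irrational r) {x y : ℤ} (h : (x : ℝ) + y * r = 0) : x = 0 ∧ y = 0 := by
  have hy : y = 0 := by
    by_contra hy
    have hy' : (y : ℝ) ≠ 0 := by exact_mod_cast hy
    refine hr ⟨-(x : ℚ) / y, ?_⟩
    push_cast
    rw [div_eq_iff hy']
    linarith
  refine ⟨?_, hy⟩
  rw [hy, Int.cast_zero, zero_mul, add_zero] at h
  exact_mod_cast h

private theorem e1_i3 : Irrational (Real.sqrt 3) := by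
  have h := Nat.Prime.irrational_sqrt (show Nat.Prime 3 by norm_num)
  exact_mod_cast h

theorem ev_zero (e : Bool) : ev e 0 = 0 := by
  simp [ev]

theorem ev_add (e : Bool) (v w : ℤ × ℤ × ℤ × ℤ) : ev e (v + w) = ev e v + ev e w := by
  simp only [ev, Prod.fst_add, Prod.snd_add, Int.cast_add]
  ring

theorem ev_sub (e : Bool) (v w : ℤ × ℤ × ℤ × ℤ) : ev e (v - w) = ev e v - ev e w := by
  simp only [ev, Prod.fst_sub, Prod.snd_sub, Int.cast_sub]
  ring

theorem ev_smul (e : Bool) (n : ℤ) (v : ℤ × ℤ × ℤ × ℤ) : ev e (n • v) = (n : ℂ) * ev e v := by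
  simp only [ev, Prod.smul_fst, Prod.smul_snd, smul_eq_mul, Int.cast_mul]
  ring

private theorem e1_zero (e : Bool) (v : ℤ × ℤ × ℤ × ℤ) (h : ev e v = 0) : v = 0 := by
  obtain ⟨a, b, c, d⟩ := v
  have hre := congrArg Complex.re h
  have him := congrArg Complex.im h
  rw [Complex.zero_re] at hre
  rw [Complex.zero_im] at him
  cases e
  · rw [e1_ref] at hre
    rw [e1_imf] at him
    have h1 := e1_irr e1_i3 (x := 2 * a + c) (y := b) (by push_cast; linarith)
    have h2 := e1_irr e1_i3 (x := 2 * d + b) (y := c) (by push_cast; linarith)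
    have ha : a = 0 := by omega
    have hb : b = 0 := by omega
    have hc : c = 0 := by omega
    have hd : d = 0 := by omega
    rw [ha, hb, hc, hd]
    rfl
  · rw [e1_ret] at hre
    rw [e1_imt] at him
    have h1 := e1_irr irrational_sqrt_two (x := 2 * a) (y := b - d) (by push_cast; linarith)
    have h2 := e1_irr irrational_sqrt_two (x := 2 * c) (y := b + d) (by push_cast; linarith)
    have ha : a = 0 := by omega
    have hb : b = 0 := by omega
    have hc : c = 0 := by omega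
    have hd : d = 0 := by omega
    rw [ha, hb, hc, hd]
    rfl

theorem ev_inj (e : Bool) {v w : ℤ × ℤ × ℤ × ℤ} (h : ev e v = ev e w) : v = w := by
  have h1 : ev e (v - w) = 0 := by rw [ev_sub, h, sub_self]
  exact sub_eq_zero.1 (e1_zero e _ h1)

private theorem e1_norm {z : ℂ} : ‖z‖ = 1 ↔ z.re * z.re + z.im * z.im = 1 := by
  rw [← Complex.normSq_apply, Complex.normSq_eq_norm_sq]
  constructor
  · intro h
    rw [h, one_pow]
  · intro h
    exact (pow_eq_one_iff_of_nonneg (norm_nonneg z) two_ne_zero).1 h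

private theorem e1_nf (a b c d : ℤ) : ‖ev false (a, b, c, d)‖ = 1 ↔
    a * a + a * c + c * c + b * b + b * d + d * d = 1 ∧ a * b + b * c + c * d = 0 := by
  rw [e1_norm, e1_ref, e1_imf]
  have h := e1_s3
  have h0 : ((a : ℝ) + c / 2 + b * Real.sqrt 3 / 2) * (a + c / 2 + b * Real.sqrt 3 / 2) +
      (d + b / 2 + c * Real.sqrt 3 / 2) * (d + b / 2 + c * Real.sqrt 3 / 2) =
      (a + c / 2) * (a + c / 2) + (d + b / 2) * (d + b / 2) + (b * b + c * c) / 4 * (Real.sqrt 3 * Real.sqrt 3) +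
      (a * b + b * c + c * d) * Real.sqrt 3 := by ring
  rw [h0, h]
  constructor
  · intro h1
    have h2 := e1_irr e1_i3 (x := a * a + a * c + c * c + b * b + b * d + d * d - 1)
      (y := a * b + b * c + c * d) (by push_cast; linarith)
    exact ⟨by linarith [h2.1], h2.2⟩
  · rintro ⟨h1, h2⟩
    have h3 : (a : ℝ) * a + a * c + c * c + b * b + b * d + d * d = 1 := by exact_mod_cast h1
    have h4 : (a : ℝ) * b + b * c + c * d = 0 := by exact_mod_cast h2
    rw [h4]
    linarith

private theorem e1_nt (a b c d : ℤ) : ‖ev true (a, b, c, d)‖ = 1 ↔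
    a * a + b * b + c * c + d * d = 1 ∧ a * b + b * c + c * d - a * d = 0 := by
  rw [e1_norm, e1_ret, e1_imt]
  have h := e1_s2
  have h0 : ((a : ℝ) + (b - d) * Real.sqrt 2 / 2) * (a + (b - d) * Real.sqrt 2 / 2) +
      (c + (b + d) * Real.sqrt 2 / 2) * (c + (b + d) * Real.sqrt 2 / 2) =
      a * a + c * c + (b * b + d * d) / 2 * (Real.sqrt 2 * Real.sqrt 2) +
      (a * b + b * c + c * d - a * d) * Real.sqrt 2 := by ring
  rw [h0, h]
  constructor
  · intro h1
    have h2 := e1_irr irrational_sqrt_two (x := a * a + b * b + c * c + d * d - 1)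
      (y := a * b + b * c + c * d - a * d) (by push_cast; linarith)
    exact ⟨by linarith [h2.1], h2.2⟩
  · rintro ⟨h1, h2⟩
    have h3 : (a : ℝ) * a + b * b + c * c + d * d = 1 := by exact_mod_cast h1
    have h4 : (a : ℝ) * b + b * c + c * d - a * d = 0 := by exact_mod_cast h2
    rw [h4]
    linarith

private theorem e1_small {x : ℤ} (h : x * x ≤ 1) : x = -1 ∨ x = 0 ∨ x = 1 := by
  have h1 : x ≤ 1 := by nlinarith
  have h2 : -1 ≤ x := by nlinarith
  omega

theorem norm_ev (e : Bool) (v : ℤ × ℤ × ℤ × ℤ) : ‖ev e v‖ = 1 ↔ v ∈ units e := by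
  obtain ⟨a, b, c, d⟩ := v
  cases e
  · rw [e1_nf]
    constructor
    · rintro ⟨hA, hB⟩
      have ha : a = -1 ∨ a = 0 ∨ a = 1 := e1_small (by
        nlinarith [mul_self_nonneg (2 * c + a), mul_self_nonneg (2 * b + d), mul_self_nonneg d])
      have hb : b = -1 ∨ b = 0 ∨ b = 1 := e1_small (by
        nlinarith [mul_self_nonneg (2 * d + b), mul_self_nonneg (2 * a + c), mul_self_nonneg c])
      have hc : c = -1 ∨ c = 0 ∨ c = 1 := e1_small (by
        nlinarith [mul_self_nonneg (2 * a + c), mul_self_nonneg (2 * b + d), mul_self_nonneg d])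
      have hd : d = -1 ∨ d = 0 ∨ d = 1 := e1_small (by
        nlinarith [mul_self_nonneg (2 * b + d), mul_self_nonneg (2 * a + c), mul_self_nonneg c])
      rcases ha with rfl | rfl | rfl <;> rcases hb with rfl | rfl | rfl <;>
        rcases hc with rfl | rfl | rfl <;> rcases hd with rfl | rfl | rfl <;>
        first
          | (exfalso; revert hA; decide)
          | (exfalso; revert hB; decide)
          | decide
    · intro h
      simp only [units, Bool.false_eq_true, if_false, List.mem_cons, Prod.mk.injEq, List.not_mem_nil,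
        or_false] at h
      rcases h with h | h | h | h | h | h | h | h | h | h | h | h <;> obtain ⟨rfl, rfl, rfl, rfl⟩ := h <;> decide
  · rw [e1_nt]
    constructor
    · rintro ⟨hA, hB⟩
      have ha : a = -1 ∨ a = 0 ∨ a = 1 := e1_small (by
        nlinarith [mul_self_nonneg b, mul_self_nonneg c, mul_self_nonneg d])
      have hb : b = -1 ∨ b = 0 ∨ b = 1 := e1_small (by
        nlinarith [mul_self_nonneg a, mul_self_nonneg c, mul_self_nonneg d])
      have hc : c = -1 ∨ c = 0 ∨ c = 1 := e1_small (by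
        nlinarith [mul_self_nonneg b, mul_self_nonneg a, mul_self_nonneg d])
      have hd : d = -1 ∨ d = 0 ∨ d = 1 := e1_small (by
        nlinarith [mul_self_nonneg b, mul_self_nonneg c, mul_self_nonneg a])
      rcases ha with rfl | rfl | rfl <;> rcases hb with rfl | rfl | rfl <;>
        rcases hc with rfl | rfl | rfl <;> rcases hd with rfl | rfl | rfl <;>
        first
          | (exfalso; revert hA; decide)
          | (exfalso; revert hB; decide)
          | decide
    · intro h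
      simp only [units, if_true, List.mem_cons, Prod.mk.injEq, List.not_mem_nil, or_false] at h
      rcases h with h | h | h | h | h | h | h | h <;> obtain ⟨rfl, rfl, rfl, rfl⟩ := h <;> decide

end Pool.Agent.RPL.Euc
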