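import Pool.Agent.RPL.C0
import Pool.Agent.ZHW.Split

/-!
Module E2: paths of an abstract graph and paths in the plane.

PAPER PROOF. `w ↦ F ∘ w` is injective and maps `Fin.Omega H x0 n` onto `Plane.Omega (Set.range F) n` (choose preimages of the values, as in `exists_of_mem_Omega`, `Omega_eq` of SHP/Plane): `w 0 = x0` iff `F (w 0) = 0` (`F` injective, `F x0 = 0`), `H.Adj (w i.castSucc) (w i.succ)` iff the distance is one, injectivity of `w` iff of `F ∘ w`. The same for
the pairs. `Set.ncard_image_of_injective`. Then `muL`, `P` follow by unfolding.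
-/

set_option autoImplicit false

namespace Pool.Agent.RPL.Euc

open Pool.Agent.SHP

private theorem E2_comp {V : Type} (H : SimpleGraph V) (F : V → ℂ) (hF : Function.Injective F)
    (hadj : ∀ u v, H.Adj u v ↔ ‖F v - F u‖ = 1) (x0 : V) (h0 : F x0 = 0) {n : ℕ} {w : Fin (n + 1) → V} :
    (fun i => F (w i)) ∈ Plane.Omega (Set.range F) n ↔ w ∈ Fin.Omega H x0 n := by
  constructor
  · rintro ⟨h1, -, h3, h4⟩
    refine ⟨hF (by rw [h0]; exact h1), fun i => (hadj _ _).2 (h3 i), ?_⟩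
    intro i j hij
    exact h4 (by simp only [hij])
  · rintro ⟨h1, h2, h3⟩
    refine ⟨by simp only [h1, h0], fun i => ⟨_, rfl⟩, fun i => (hadj _ _).1 (h2 i), ?_⟩
    intro i j hij
    exact h3 (hF hij)

private theorem E2_lift {V : Type} (F : V → ℂ) {n : ℕ} {w : Fin (n + 1) → ℂ}
    (h : w ∈ Plane.Omega (Set.range F) n) : ∃ w' : Fin (n + 1) → V, (fun i => F (w' i)) = w := by
  have h2 : ∀ i, ∃ v, F v = w i := h.2.1
  choose w' hw' using h2
  exact ⟨w', funext hw'⟩

private theorem E2_inj {V : Type} (F : V → ℂ) (hF : Function.Injective F) (n : ℕ) :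
    Function.Injective (fun (w : Fin (n + 1) → V) (i : Fin (n + 1)) => F (w i)) := by
  intro w w' h
  funext i
  exact hF (congrFun h i)

theorem a_eq {V : Type} (H : SimpleGraph V) (F : V → ℂ) (hF : Function.Injective F)
    (hadj : ∀ u v, H.Adj u v ↔ ‖F v - F u‖ = 1) (x0 : V) (h0 : F x0 = 0) (n : ℕ) :
    Plane.a (Set.range F) n = Fin.a H x0 n := by
  have h : Plane.Omega (Set.range F) n = (fun (w : Fin (n + 1) → V) i => F (w i)) '' Fin.Omega H x0 n := by
    ext w
    constructor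
    · intro h
      obtain ⟨w', rfl⟩ := E2_lift F h
      exact ⟨w', (E2_comp H F hF hadj x0 h0).1 h, rfl⟩
    · rintro ⟨w', h, rfl⟩
      exact (E2_comp H F hF hadj x0 h0).2 h
  unfold Plane.a Fin.a
  rw [h, Set.ncard_image_of_injective _ (E2_inj F hF n)]

theorem mu_eq {V : Type} (H : SimpleGraph V) (F : V → ℂ) (hF : Function.Injective F)
    (hadj : ∀ u v, H.Adj u v ↔ ‖F v - F u‖ = 1) (x0 : V) (h0 : F x0 = 0) :
    Plane.muL (Set.range F) = Fin.mu H x0 := by
  unfold Plane.muL Fin.mu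
  simp only [a_eq H F hF hadj x0 h0]

theorem P_eq {V : Type} (H : SimpleGraph V) (F : V → ℂ) (hF : Function.Injective F)
    (hadj : ∀ u v, H.Adj u v ↔ ‖F v - F u‖ = 1) (x0 : V) (h0 : F x0 = 0) (n : ℕ) :
    ZHW.P (Set.range F) n = Fin.P H x0 n := by
  have h : ZHW.Pairs (Set.range F) n =
      (fun p : (Fin (n + 1) → V) × (Fin (n + 1) → V) =>
        ((fun i => F (p.1 i)), (fun i => F (p.2 i)))) '' Fin.Pairs H x0 n := by
    ext ⟨w, v⟩
    constructor
    · rintro ⟨h1, h2, h3⟩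
      obtain ⟨w', rfl⟩ := E2_lift F h1
      obtain ⟨v', rfl⟩ := E2_lift F h2
      refine ⟨(w', v'), ⟨(E2_comp H F hF hadj x0 h0).1 h1, (E2_comp H F hF hadj x0 h0).1 h2, ?_⟩, rfl⟩
      intro i j hi hij
      exact h3 i j hi (by simp only at hij ⊢; rw [hij])
    · rintro ⟨⟨w', v'⟩, ⟨h1, h2, h3⟩, h⟩
      simp only [Prod.mk.injEq] at h
      obtain ⟨rfl, rfl⟩ := h
      refine ⟨(E2_comp H F hF hadj x0 h0).2 h1, (E2_comp H F hF hadj x0 h0).2 h2, ?_⟩
      intro i j hi hij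
      exact h3 i j hi (hF hij)
  unfold ZHW.P Fin.P
  rw [h, a_eq H F hF hadj x0 h0, Set.ncard_image_of_injective]
  rintro ⟨w, v⟩ ⟨w', v'⟩ h
  simp only [Prod.mk.injEq] at h
  rw [E2_inj F hF n h.1, E2_inj F hF n h.2]

end Pool.Agent.RPL.Euc
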