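import Pool.Agent.RPL.E1
import Pool.Agent.RPL.Arch

/-!
Module E3: the unit distance graph of `d.pts` is the graph of the table `c`, by a finite check.

`f4 q u` is the position (in `ℤ ^ 4`) of the point `u` of the drawing.

PAPER PROOF. Equivariance: `f4 (u + c.lam i j) = f4 u + (i * x1 + j * y1) • s + (i * x2 + j * y2) • t` (`idx_add`, `qx_add`, `qy_add` of Cert), in particular `f4 u = f4 (rp u) + (qx u * x1 + qy u * y1) • s + ...` (`rp_lam`; for `r ∈ reps`, `qx r = qy r = 0`, so `f4 r = (C r).1 + (C r).2.1 • s + (C r).2.2 • t`).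
`F u = ev d.e (f4 u.1)`. Injective: `ev_inj`; if `f4 u = f4 v` with the classes `r = rp u`, `r' = rp v` then `(C r).1 - (C r').1` is an integer combination `i • s + j • t`, and `dt al` of it is `i * D`, `dt be` of it is `j * D`, so the test `inLam` holds (`i = dt al _ / D`, `Int.mul_ediv_cancel`), hence `r = r'` by the check, and then
`i = j = 0` (`dt al (i • s + j • t) = i * D`, `D ≠ 0`), i.e. `(qx u - qx v) * x1 + (qy u - qy v) * y1 = 0` and the same with `x2, y2`; the determinant is `±1`, so `qx u = qx v`, `qy u = qy v`, `u = v` (`rp_lam`). Range: `⊆` by `(C r).1 ∈ B`; `⊇`: for `b = (C r).1`, `i`, `j` solve `z1 + qx x1 + qy y1 = i`, `z2 + qx x2 + qy y2 = j` (determinant `±1`),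
`u = r + c.lam qx qy` (`tab_add`: it is a vertex). Adjacency: `adj_iff` (Cert): `Adj u v ↔ v - u ∈ tab u`. If `s' = v - u ∈ tab u = tab (rp u)` (`tab_rp`) then `f4 (rp u + s') - f4 (rp u) ∈ units` by the check, equivariance gives the same for `u`, and `ev_sub`, `norm_ev`. Conversely let `w = f4 v - f4 u`, `‖ev w‖ = 1`, so `w ∈ units` (`norm_ev`). In the check at
`r = rp u` the second alternative fails for `r' = rp v` (`(C r).1 + w - (C r').1` is an integer combination of `s`, `t`), so there is `s' ∈ tab r` with `f4 (r + s') = f4 r + w`, i.e. `f4 (u + s') = f4 v`; `u + s'` is a vertex (`Per.sym`), so `v = u + s'` by the injectivity. The point `x0` is `c.o` (`f4 c.o = 0` by the check).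
-/

set_option autoImplicit false

namespace Pool.Agent.RPL.Euc

open Pool.Agent.RPL.Arch

/-- A lattice in the plane with its table. -/
structure EC where
  c : Cert
  d : Dat
  C : List ((ℤ × ℤ × ℤ × ℤ) × ℤ × ℤ)
  x1 : ℤ
  x2 : ℤ
  y1 : ℤ
  y2 : ℤ
  al : ℤ × ℤ × ℤ × ℤ
  be : ℤ × ℤ × ℤ × ℤ
  D : ℤ

/-- Scalar product. -/
def dt (v w : ℤ × ℤ × ℤ × ℤ) : ℤ := v.1 * w.1 + v.2.1 * w.2.1 + v.2.2.1 * w.2.2.1 + v.2.2.2 * w.2.2.2

namespace EC

variable (q : EC)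

/-- The entry of the class of `u`. -/
def ce (u : ℤ × ℤ) : (ℤ × ℤ × ℤ × ℤ) × ℤ × ℤ := q.C.getD (q.c.idx u) (0, 0, 0)

/-- The position of `u`. -/
def f4 (u : ℤ × ℤ) : ℤ × ℤ × ℤ × ℤ :=
  (q.ce u).1 + ((q.ce u).2.1 + q.c.qx u * q.x1 + q.c.qy u * q.y1) • q.d.s +
    ((q.ce u).2.2 + q.c.qx u * q.x2 + q.c.qy u * q.y2) • q.d.t

/-- The test for integer combinations of the periods. -/
def inLam (v : ℤ × ℤ × ℤ × ℤ) : Prop := v = (dt q.al v / q.D) • q.d.s + (dt q.be v / q.D) • q.d.t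

instance (v : ℤ × ℤ × ℤ × ℤ) : Decidable (q.inLam v) := by unfold inLam; infer_instance

/-- The periods. -/
def Ok1 : Prop :=
  (q.x1 * q.y2 - q.x2 * q.y1 = 1 ∨ q.x1 * q.y2 - q.x2 * q.y1 = -1) ∧
  dt q.al q.d.s = q.D ∧ dt q.al q.d.t = 0 ∧ dt q.be q.d.s = 0 ∧ dt q.be q.d.t = q.D ∧ q.D ≠ 0 ∧ q.f4 q.c.o = 0

instance : Decidable q.Ok1 := by unfold Ok1; infer_instance

/-- The points modulo the periods. -/
def Ok2 : Prop :=
  (∀ r ∈ q.c.reps, q.c.tab r ≠ [] → (q.ce r).1 ∈ q.d.B) ∧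
  (∀ b ∈ q.d.B, ∃ r ∈ q.c.reps, q.c.tab r ≠ [] ∧ (q.ce r).1 = b)

instance : Decidable q.Ok2 := by unfold Ok2; infer_instance

/-- Different classes. -/
def Ok3 : Prop :=
  ∀ r ∈ q.c.reps, ∀ r' ∈ q.c.reps, q.c.tab r ≠ [] → q.c.tab r' ≠ [] → q.inLam ((q.ce r).1 - (q.ce r').1) → r = r'

instance : Decidable q.Ok3 := by unfold Ok3; infer_instance

/-- Edges have length one. -/
def Ok4 : Prop := ∀ r ∈ q.c.reps, ∀ s ∈ q.c.tab r, q.f4 (r + s) - q.f4 r ∈ units q.d.e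

instance : Decidable q.Ok4 := by unfold Ok4; infer_instance

/-- There are no other pairs of points at distance one. -/
def Ok5 : Prop :=
  ∀ r ∈ q.c.reps, q.c.tab r ≠ [] → ∀ w ∈ units q.d.e, (∃ s ∈ q.c.tab r, q.f4 (r + s) = q.f4 r + w) ∨
    (∀ r' ∈ q.c.reps, q.c.tab r' ≠ [] → ¬ q.inLam ((q.ce r).1 + w - (q.ce r').1))

instance : Decidable q.Ok5 := by unfold Ok5; infer_instance

/-- The finite check. -/
def Ok : Prop := q.Ok1 ∧ q.Ok2 ∧ q.Ok3 ∧ q.Ok4 ∧ q.Ok5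

instance : Decidable q.Ok := by unfold Ok; infer_instance

variable {q}

private theorem E3_dt (v s t : ℤ × ℤ × ℤ × ℤ) (i j : ℤ) : dt v (i • s + j • t) = i * dt v s + j * dt v t := by
  simp only [dt, Prod.fst_add, Prod.snd_add, Prod.smul_fst, Prod.smul_snd, smul_eq_mul]
  ring

private theorem E3_al (h : q.Ok1) (i j : ℤ) : dt q.al (i • q.d.s + j • q.d.t) = i * q.D := by
  rw [E3_dt, h.2.1, h.2.2.1]
  ring

private theorem E3_be (h : q.Ok1) (i j : ℤ) : dt q.be (i • q.d.s + j • q.d.t) = j * q.D := by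
  rw [E3_dt, h.2.2.2.1, h.2.2.2.2.1]
  ring

private theorem E3_lam (h : q.Ok1) (i j : ℤ) : q.inLam (i • q.d.s + j • q.d.t) := by
  unfold inLam
  have hD := h.2.2.2.2.2.1
  rw [E3_al h, E3_be h, Int.mul_ediv_cancel _ hD, Int.mul_ediv_cancel _ hD]

private theorem E3_uni (h : q.Ok1) {i j i' j' : ℤ} (e : i • q.d.s + j • q.d.t = i' • q.d.s + j' • q.d.t) :
    i = i' ∧ j = j' := by
  have hD := h.2.2.2.2.2.1
  have h1 := congrArg (dt q.al) e
  have h2 := congrArg (dt q.be) e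
  rw [E3_al h, E3_al h] at h1
  rw [E3_be h, E3_be h] at h2
  exact ⟨mul_right_cancel₀ hD h1, mul_right_cancel₀ hD h2⟩

private theorem E3_add (hm : 0 < q.c.m) (hn : 0 < q.c.n) (u : ℤ × ℤ) (i j : ℤ) :
    q.f4 (u + q.c.lam i j) = q.f4 u + ((i * q.x1 + j * q.y1) • q.d.s + (i * q.x2 + j * q.y2) • q.d.t) := by
  unfold f4 ce
  rw [Per.idx_add hm, Per.qx_add hm, Per.qy_add hm hn]
  module

/-- The position in terms of the class. -/
private theorem E3_cls (hm : 0 < q.c.m) (u : ℤ × ℤ) :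
    q.f4 u = (q.ce (q.c.rp u)).1 + (((q.ce (q.c.rp u)).2.1 + q.c.qx u * q.x1 + q.c.qy u * q.y1) • q.d.s +
      ((q.ce (q.c.rp u)).2.2 + q.c.qx u * q.x2 + q.c.qy u * q.y2) • q.d.t) := by
  unfold f4 ce
  rw [Per.idx_rp hm]
  module

private theorem E3_tabrp (hm : 0 < q.c.m) (u : q.c.Vx) : q.c.tab (q.c.rp u.1) ≠ [] := by
  rw [Per.tab_rp hm]
  exact u.2

private theorem E3_inj (h : q.Ok) (hc : q.c.Ok) {u v : q.c.Vx} (e : q.f4 u.1 = q.f4 v.1) : u = v := by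
  obtain ⟨hm, hn, -⟩ := hc
  obtain ⟨h1, -, h3, -, -⟩ := h
  rw [E3_cls hm, E3_cls hm v.1] at e
  have e1 : (q.ce (q.c.rp u.1)).1 - (q.ce (q.c.rp v.1)).1 =
      (((q.ce (q.c.rp v.1)).2.1 + q.c.qx v.1 * q.x1 + q.c.qy v.1 * q.y1) -
        ((q.ce (q.c.rp u.1)).2.1 + q.c.qx u.1 * q.x1 + q.c.qy u.1 * q.y1)) • q.d.s +
      (((q.ce (q.c.rp v.1)).2.2 + q.c.qx v.1 * q.x2 + q.c.qy v.1 * q.y2) -
        ((q.ce (q.c.rp u.1)).2.2 + q.c.qx u.1 * q.x2 + q.c.qy u.1 * q.y2)) • q.d.t := by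
    rw [sub_smul, sub_smul]
    rw [← sub_eq_zero] at e ⊢
    rw [← e]
    abel
  have e2 : q.inLam ((q.ce (q.c.rp u.1)).1 - (q.ce (q.c.rp v.1)).1) := by
    rw [e1]
    exact E3_lam h1 _ _
  have e3 := h3 _ (Per.rp_mem hm hn _) _ (Per.rp_mem hm hn _) (E3_tabrp hm u) (E3_tabrp hm v) e2
  rw [e3] at e
  have e4 := E3_uni h1 (add_left_cancel e)
  obtain ⟨e5, e6⟩ := e4
  have hdet := h1.1
  have e7 : (q.c.qx u.1 - q.c.qx v.1) * q.x1 + (q.c.qy u.1 - q.c.qy v.1) * q.y1 = 0 := by linarith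
  have e8 : (q.c.qx u.1 - q.c.qx v.1) * q.x2 + (q.c.qy u.1 - q.c.qy v.1) * q.y2 = 0 := by linarith
  have e9 : (q.c.qx u.1 - q.c.qx v.1) * (q.x1 * q.y2 - q.x2 * q.y1) = 0 := by
    linear_combination q.y2 * e7 - q.y1 * e8
  have e10 : (q.c.qy u.1 - q.c.qy v.1) * (q.x1 * q.y2 - q.x2 * q.y1) = 0 := by
    linear_combination q.x1 * e8 - q.x2 * e7
  have hne : q.x1 * q.y2 - q.x2 * q.y1 ≠ 0 := by
    rcases hdet with h | h <;> rw [h] <;> norm_num
  have e11 : q.c.qx u.1 = q.c.qx v.1 := by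
    rcases mul_eq_zero.1 e9 with h | h
    · linarith
    · exact absurd h hne
  have e12 : q.c.qy u.1 = q.c.qy v.1 := by
    rcases mul_eq_zero.1 e10 with h | h
    · linarith
    · exact absurd h hne
  apply Subtype.ext
  rw [← Per.rp_lam (c := q.c.toPer) u.1, ← Per.rp_lam (c := q.c.toPer) v.1, e3, e11, e12]

private theorem E3_rep (hm : 0 < q.c.m) (hn : 0 < q.c.n) (u s : ℤ × ℤ) :
    q.f4 (u + s) - q.f4 u = q.f4 (q.c.rp u + s) - q.f4 (q.c.rp u) := by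
  have e1 : u + s = (q.c.rp u + s) + q.c.lam (q.c.qx u) (q.c.qy u) := by
    conv_lhs => rw [← Per.rp_lam (c := q.c.toPer) u]
    abel
  have e2 : q.f4 u = q.f4 (q.c.rp u + q.c.lam (q.c.qx u) (q.c.qy u)) := by
    rw [Per.rp_lam (c := q.c.toPer) u]
  rw [e1, e2, E3_add hm hn, E3_add hm hn]
  abel

theorem realize (h : q.Ok) (hc : q.c.Ok) : ∃ F : q.c.Vx → ℂ, Function.Injective F ∧ Set.range F = q.d.pts ∧
    (∀ u v, q.c.gr.Adj u v ↔ ‖F v - F u‖ = 1) ∧ ∃ x0, F x0 = 0 := by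
  have hm := hc.1
  have hn := hc.2.1
  have hs : q.c.Sym := hc.2.2.1
  obtain ⟨h1, h2, h3, h4, h5⟩ := h
  refine ⟨fun u => ev q.d.e (q.f4 u.1), ?_, ?_, ?_, ?_⟩
  · intro u v e
    exact E3_inj ⟨h1, h2, h3, h4, h5⟩ hc (ev_inj _ e)
  · ext z
    constructor
    · rintro ⟨u, rfl⟩
      refine ⟨(q.ce (q.c.rp u.1)).1, h2.1 _ (Per.rp_mem hm hn _) (E3_tabrp hm u),
        (q.ce (q.c.rp u.1)).2.1 + q.c.qx u.1 * q.x1 + q.c.qy u.1 * q.y1,
        (q.ce (q.c.rp u.1)).2.2 + q.c.qx u.1 * q.x2 + q.c.qy u.1 * q.y2, ?_⟩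
      show ev q.d.e (q.f4 u.1) = _
      rw [E3_cls hm, ev_add, ev_add, ev_smul, ev_smul, ← add_assoc]
    · rintro ⟨b, hb, i, j, rfl⟩
      obtain ⟨r, hr, hr0, rfl⟩ := h2.2 b hb
      have hex : ∃ a b : ℤ, a * q.x1 + b * q.y1 = i - (q.ce r).2.1 ∧ a * q.x2 + b * q.y2 = j - (q.ce r).2.2 := by
        rcases h1.1 with h | h
        · refine ⟨(i - (q.ce r).2.1) * q.y2 - (j - (q.ce r).2.2) * q.y1,
            (j - (q.ce r).2.2) * q.x1 - (i - (q.ce r).2.1) * q.x2, ?_, ?_⟩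
          · linear_combination (i - (q.ce r).2.1) * h
          · linear_combination (j - (q.ce r).2.2) * h
        · refine ⟨-((i - (q.ce r).2.1) * q.y2 - (j - (q.ce r).2.2) * q.y1),
            -((j - (q.ce r).2.2) * q.x1 - (i - (q.ce r).2.1) * q.x2), ?_, ?_⟩
          · linear_combination (-(i - (q.ce r).2.1)) * h
          · linear_combination (-(j - (q.ce r).2.2)) * h
      obtain ⟨a, b, ha, hb'⟩ := hex
      have hqr : q.c.qx r = 0 ∧ q.c.qy r = 0 := by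
        unfold Per.reps at hr
        rw [List.mem_flatMap] at hr
        obtain ⟨x, hx, hr⟩ := hr
        rw [List.mem_map] at hr
        obtain ⟨y, hy, rfl⟩ := hr
        rw [List.mem_range] at hx hy
        have hx' : ((x : ℤ)) / (q.c.m : ℤ) = 0 := Int.ediv_eq_zero_of_lt (by positivity) (by exact_mod_cast hx)
        have hy' : ((y : ℤ)) / (q.c.n : ℤ) = 0 := Int.ediv_eq_zero_of_lt (by positivity) (by exact_mod_cast hy)
        constructor
        · exact hx'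
        · show ((y : ℤ) - ((x : ℤ) / (q.c.m : ℤ)) * q.c.k) / (q.c.n : ℤ) = 0
          rw [hx', zero_mul, sub_zero, hy']
      refine ⟨⟨r + q.c.lam a b, by rw [Per.tab_add hm]; exact hr0⟩, ?_⟩
      show ev q.d.e (q.f4 (r + q.c.lam a b)) = _
      rw [E3_add hm hn, ha, hb']
      have e1 : q.f4 r = (q.ce r).1 + ((q.ce r).2.1 • q.d.s + (q.ce r).2.2 • q.d.t) := by
        unfold f4
        rw [hqr.1, hqr.2]
        module
      have e2 : q.f4 r + ((i - (q.ce r).2.1) • q.d.s + (j - (q.ce r).2.2) • q.d.t) =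
          (q.ce r).1 + i • q.d.s + j • q.d.t := by
        rw [e1]
        module
      rw [e2, ev_add, ev_add, ev_smul, ev_smul]
  · intro u v
    rw [Per.adj_iff hm hn hs]
    show _ ↔ ‖ev q.d.e (q.f4 v.1) - ev q.d.e (q.f4 u.1)‖ = 1
    rw [← ev_sub, norm_ev]
    constructor
    · intro hst
      have e1 := E3_rep (q := q) hm hn u.1 (v.1 - u.1)
      rw [add_sub_cancel] at e1
      rw [e1]
      exact h4 _ (Per.rp_mem hm hn _) _ (by rw [Per.tab_rp hm]; exact hst)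
    · intro hw
      rcases h5 _ (Per.rp_mem hm hn u.1) (E3_tabrp hm u) _ hw with ⟨s, hs1, hs2⟩ | hno
      · have hs1' : s ∈ q.c.tab u.1 := by rwa [Per.tab_rp hm] at hs1
        obtain ⟨-, hv'⟩ := Per.sym hm hn hs _ _ hs1'
        have hne : q.c.tab (u.1 + s) ≠ [] := List.ne_nil_of_mem hv'
        have e1 := E3_rep (q := q) hm hn u.1 s
        rw [hs2] at e1
        have e2 : q.f4 (u.1 + s) = q.f4 v.1 := by
          have : q.f4 (u.1 + s) = q.f4 u.1 + (q.f4 (u.1 + s) - q.f4 u.1) := by abel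
          rw [this, e1]
          abel
        have e3 : (⟨u.1 + s, hne⟩ : q.c.Vx) = v := E3_inj ⟨h1, h2, h3, h4, h5⟩ hc e2
        have e4 : u.1 + s = v.1 := congrArg Subtype.val e3
        rw [← e4, add_sub_cancel_left]
        exact hs1'
      · exfalso
        apply hno _ (Per.rp_mem hm hn v.1) (E3_tabrp hm v)
        have e1 : (q.ce (q.c.rp u.1)).1 + (q.f4 v.1 - q.f4 u.1) - (q.ce (q.c.rp v.1)).1 =
            (((q.ce (q.c.rp v.1)).2.1 + q.c.qx v.1 * q.x1 + q.c.qy v.1 * q.y1) -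
              ((q.ce (q.c.rp u.1)).2.1 + q.c.qx u.1 * q.x1 + q.c.qy u.1 * q.y1)) • q.d.s +
            (((q.ce (q.c.rp v.1)).2.2 + q.c.qx v.1 * q.x2 + q.c.qy v.1 * q.y2) -
              ((q.ce (q.c.rp u.1)).2.2 + q.c.qx u.1 * q.x2 + q.c.qy u.1 * q.y2)) • q.d.t := by
          rw [E3_cls hm u.1, E3_cls hm v.1]
          module
        rw [e1]
        exact E3_lam h1 _ _
  · exact ⟨⟨q.c.o, hc.2.2.2.1⟩, by
      show ev q.d.e (q.f4 q.c.o) = 0
      rw [h1.2.2.2.2.2.2, ev_zero]⟩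

end EC

end Pool.Agent.RPL.Euc
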