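import Pool.Agent.RPL.B8
import Pool.Agent.RPL.BCnt
import Pool.Agent.RPL.BMid
import Pool.Agent.RPL.BLat
import Pool.Agent.RPL.C2

/-!
Project RPL: the theorem.
-/

set_option autoImplicit false

namespace Pool.Agent.RPL.Fin

open Pool.Agent.SHP Pool.Agent.ZHW Pool.Agent.RPL

variable {V : Type}

private theorem Final_L (L : Lat) : ∃ C : ℝ, 0 < C ∧ ∀ n : ℕ,
    (cnt (Sw L.G L.o) n : ℝ) ≤ muo L ^ n * Real.exp (C * (n : ℝ) ^ (1 / 3 : ℝ)) ∧
    Real.exp (-(C * (n : ℝ) ^ (1 / 3 : ℝ))) ≤ ((Prs L.G L.o n).ncard : ℝ) / (cnt (Sw L.G L.o) n : ℝ) ^ 2 := by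
  obtain ⟨C0, hC0, h0⟩ := main_HU L
  obtain ⟨C, hC, h⟩ := cntL_le L C0 hC0 (fun ε h1 h2 q hq m => h0 ε h1 h2 q m hq)
  refine ⟨2 * C, by positivity, fun n => ?_⟩
  have hmu : 0 < muo L := lt_of_lt_of_le one_pos (one_le_muo L)
  have hx : 0 ≤ (n : ℝ) ^ (1 / 3 : ℝ) := by positivity
  have h1 := h n
  set x : ℝ := (n : ℝ) ^ (1 / 3 : ℝ)
  have hmun : 0 < muo L ^ n := pow_pos hmu n
  constructor
  · refine h1.trans (mul_le_mul_of_nonneg_left (Real.exp_le_exp.2 ?_) hmun.le)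
    nlinarith
  · have h2 := muo_pow_le L (2 * n)
    have h3 : (cnt (Sw L.G L.o) (2 * n) : ℝ) ≤ ((Prs L.G L.o n).ncard : ℝ) := by exact_mod_cast prs_ge L n
    have ha : 0 < (cnt (Sw L.G L.o) n : ℝ) := lt_of_lt_of_le hmun (muo_pow_le L n)
    rw [le_div_iff₀ (by positivity)]
    have h4 : (cnt (Sw L.G L.o) n : ℝ) ^ 2 ≤ (muo L ^ n * Real.exp (C * x)) ^ 2 :=
      pow_le_pow_left₀ ha.le h1 2
    calc Real.exp (-(2 * C * x)) * (cnt (Sw L.G L.o) n : ℝ) ^ 2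
        ≤ Real.exp (-(2 * C * x)) * (muo L ^ n * Real.exp (C * x)) ^ 2 :=
          mul_le_mul_of_nonneg_left h4 (Real.exp_pos _).le
      _ = muo L ^ (2 * n) * (Real.exp (-(2 * C * x)) * (Real.exp (C * x)) ^ 2) := by
          rw [mul_pow, ← pow_mul, mul_comm n 2]; ring
      _ = muo L ^ (2 * n) := by
          rw [← Real.exp_nat_mul, ← Real.exp_add]
          have : -(2 * C * x) + ((2 : ℕ) : ℝ) * (C * x) = 0 := by push_cast; ring
          rw [this, Real.exp_zero, mul_one]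
      _ ≤ _ := h2.trans h3

private theorem Final_nice {H : SimpleGraph V} {f : V → ℤ × ℤ} (hf : Function.Injective f) (hn : Nice (imG H f hf)) (x : V)
    (hx : Sup (imG H f hf) (f x)) : ∃ C : ℝ, 0 < C ∧ ∀ n : ℕ,
    a H x n ≤ mu H x ^ n * Real.exp (C * (n : ℝ) ^ (1 / 3 : ℝ)) ∧
    Real.exp (-(C * (n : ℝ) ^ (1 / 3 : ℝ))) ≤ P H x n := by
  have hs : ∀ x y, H.Adj x y → f y - f x ∈ steps true := fun x y h => hn.sub _ _ ⟨x, y, h, rfl, rfl⟩
  obtain ⟨L, hG, ho⟩ := lat_exists hn (f x) hx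
  have ha : ∀ n, a H x n = (cnt (Sw L.G L.o) n : ℝ) := by
    intro n
    rw [hG, ho]
    exact a_im hf hs x n
  have hmu : mu H x = muo L := by
    unfold mu muo
    simp only [ha]
  have hP : ∀ n, P H x n = ((Prs L.G L.o n).ncard : ℝ) / (cnt (Sw L.G L.o) n : ℝ) ^ 2 := by
    intro n
    unfold P
    rw [ha, pairs_im hf hs x n, hG, ho]
  obtain ⟨C, hC, h⟩ := Final_L L
  refine ⟨C, hC, fun n => ?_⟩
  rw [ha, hmu, hP]
  exact h n

/-- The theorem for a graph `H` with a drawing. -/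
theorem final (H : SimpleGraph V) (hc : H.Connected) (ht : ∀ x y, ∃ φ : H ≃g H, φ x = y)
    (f : V → ℤ × ℤ) (p : ℕ) (hp : 1 ≤ p) (hd : Drawing H f p) (x : V) : ∃ C : ℝ, 0 < C ∧ ∀ n : ℕ,
    a H x n ≤ mu H x ^ n * Real.exp (C * (n : ℝ) ^ (1 / 3 : ℝ)) ∧
    Real.exp (-(C * (n : ℝ) ^ (1 / 3 : ℝ))) ≤ P H x n :=
  Final_nice hd.inj (nice_im hp hd hc ht) x ((sup_im hd _).2 ⟨x, rfl⟩)

/-- The theorem for a graph on `ℤ × ℤ` with the hypotheses `Nice` and a point `o` which has a neighbour. -/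
theorem final_nice {G : SimpleGraph (ℤ × ℤ)} (hN : Nice G) (o : ℤ × ℤ) (ho : Sup G o) : ∃ C : ℝ, 0 < C ∧ ∀ n : ℕ,
    a G o n ≤ mu G o ^ n * Real.exp (C * (n : ℝ) ^ (1 / 3 : ℝ)) ∧
    Real.exp (-(C * (n : ℝ) ^ (1 / 3 : ℝ))) ≤ P G o n := by
  have e : imG G id Function.injective_id = G := by
    ext u v
    constructor
    · rintro ⟨x, y, h, rfl, rfl⟩
      exact h
    · intro h
      exact ⟨u, v, h, rfl, rfl⟩
  exact Final_nice (f := id) Function.injective_id (by rw [e]; exact hN) o (by rw [e]; exact ho)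

end Pool.Agent.RPL.Fin
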