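import Pool.Agent.RPL.E3
import Pool.Agent.RPL.E2
import Pool.Agent.RPL.Final

/-!
Module E4: the theorem for the eleven Archimedean lattices in the plane.
-/

set_option autoImplicit false

namespace Pool.Agent.RPL.Euc

open Pool.Agent.SHP Pool.Agent.RPL.Arch

/-- 3^6 -/
def e666 : EC := ⟨c666, triangular, [((0, 0, 0, 0), 0, 0)], -1, 0, 0, -1, (1, 0, 0, 0), (0, 0, 1, 0), 1⟩

/-- 4^4 -/
def e44 : EC := ⟨c44, square, [((0, 0, 0, 0), 0, 0)], -1, -1, 0, -1, (1, 0, 0, 0), (0, 0, 0, 1), 1⟩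

/-- 6^3 -/
def e63 : EC := ⟨c63, honeycomb, [((0, 0, 0, 0), 0, 0), ((0, -1, 0, 0), 1, -1)], 0, -1, 1, -2, (0, 1, 0, -1), (0, 1, 0, 2), 3⟩

/-- 3.6.3.6 -/
def ekag : EC := ⟨ckag, kagome, [((0, 0, 0, 0), 0, 0), ((0, 0, -1, 0), 0, 0), ((-1, 0, 0, 0), 0, 0), ((0, 0, 0, 0), 0, 0)], -1, 0, 0, -1, (2, 0, 0, 0), (0, 0, 2, 0), 4⟩

/-- 3.12^2 -/
def e312 : EC := ⟨c312, truncHexagonal, [((0, 0, 0, 0), 0, 0), ((0, 0, 0, 0), 0, 0), ((0, -1, 0, 1), 0, 0), ((0, 0, 0, 0), 0, 0), ((1, 1, 0, 0), -1, 0), ((1, 0, -1, -1), -1, 0), ((1, 0, 0, 0), -1, 0), ((1, 0, -1, 0), -1, 0)], -1, 0, 0, -1, (1, 0, 0, 0), (-2, 2, 0, 0), 2⟩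

/-- 4.8^2 -/
def e48 : EC := ⟨c48, truncSquare, [((0, 0, 0, 0), 0, 0), ((0, 0, 1, 0), 0, -1), ((0, 0, 0, -1), 0, -1), ((0, -1, 0, 0), 1, -2)], 0, -1, 1, -3, (1, 0, 0, 0), (-1, 1, 0, 0), 1⟩

/-- 4.6.12 -/
def e4612 : EC := ⟨c4612, truncTrihexagonal, [((0, 0, 0, 0), 0, 0), ((0, 0, 0, 0), 0, 0), ((0, 0, 0, 0), 0, 0), ((0, 1, 1, -1), 0, -1), ((1, 1, -1, -1), 0, -1), ((-2, 0, 1, 0), 1, -2), ((-1, -1, 0, 0), 1, -2), ((-1, 0, 2, 0), 1, -3), ((-1, 0, 0, 0), 0, 0), ((0, 0, 0, 0), 0, 0), ((0, 0, 1, 0), 0, -1), ((0, 1, 0, -1), 0, -1), ((0, 0, 0, 0), 0, 0), ((-2, -1, 1, 0), 1, -2), ((-1, -1, -1, 0), 1, -2), ((-2, 0, 2, 0), 1, -3)], 0, -1, 1, -3, (1, 0, 0, 0), (-2, 3, 0, 0), 3⟩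

/-- 3.4.6.4 -/
def e3464 : EC := ⟨c3464, rhombitrihexagonal, [((0, 0, 0, 0), 0, 0), ((0, 0, 0, -1), 0, 0), ((1, 0, 0, 0), 0, -1), ((1, 0, 0, -1), 0, -1), ((0, -1, 0, 1), 1, -2), ((0, 0, 1, 0), 1, -3)], 0, -1, 1, -3, (1, 0, 0, 0), (-2, 1, 0, 0), 1⟩

/-- 3^3.4^2 -/
def e3342 : EC := ⟨c3342, elongated, [((0, 0, 0, 0), 0, 0), ((0, 0, 0, -1), 0, 0)], -1, 0, 0, -1, (1, 0, 0, 0), (0, 0, 1, 0), 1⟩

/-- 3^2.4.3.4 -/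
def e32434 : EC := ⟨c32434, snubSquare, [((0, 0, 0, 0), 0, 0), ((0, 0, 1, 0), 0, -1), ((0, -1, 0, 0), 1, -1), ((0, 0, 0, -1), 1, -1)], 0, -1, 1, -2, (0, 1, 0, 0), (-1, 1, 0, 0), 1⟩

/-- 3^4.6 -/
def e346 : EC := ⟨c346, snubHexagonal, [((0, 0, 0, 0), 0, 0), ((0, 0, 0, -1), 0, 0), ((0, 1, 0, 0), 0, -1), ((0, 1, 0, -1), 0, -1), ((0, 0, 0, 0), 0, 0), ((0, -1, 0, 0), 1, -2), ((0, 0, 0, 1), 1, -3)], 0, -1, 1, -3, (0, 2, 0, -1), (0, 1, 0, 3), 7⟩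

/-- The eleven lattices with their tables. -/
def ecs : List EC := [e666, e44, e63, ekag, e312, e48, e4612, e3464, e3342, e32434, e346]

theorem ecs_ok : ∀ q ∈ ecs, q.Ok := by decide +kernel

theorem ecs_cert : ∀ q ∈ ecs, q.c.Ok := by decide +kernel

theorem ecs_dat : ecs.map EC.d = eleven := rfl

theorem main_eleven : ∀ d ∈ eleven, ∃ C : ℝ, 0 < C ∧ ∀ n : ℕ,
    Plane.a d.pts n ≤ Plane.muL d.pts ^ n * Real.exp (C * (n : ℝ) ^ (1 / 3 : ℝ)) ∧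
    Real.exp (-(C * (n : ℝ) ^ (1 / 3 : ℝ))) ≤ ZHW.P d.pts n := by
  intro d hd
  rw [← ecs_dat, List.mem_map] at hd
  obtain ⟨q, hq, rfl⟩ := hd
  have hc := ecs_cert q hq
  obtain ⟨F, hF, hr, hadj, x0, h0⟩ := EC.realize (ecs_ok q hq) hc
  obtain ⟨C, hC, h⟩ := Fin.final q.c.gr (Cert.connected hc) (Cert.transitive hc) Subtype.val _
    (Nat.mul_pos hc.1 hc.2.1) (Cert.drawing hc) x0
  refine ⟨C, hC, fun n => ?_⟩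
  rw [← hr, a_eq q.c.gr F hF hadj x0 h0, mu_eq q.c.gr F hF hadj x0 h0, P_eq q.c.gr F hF hadj x0 h0]
  exact h n

end Pool.Agent.RPL.Euc
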