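import Pool.Agent.RPL.Final
import Pool.Agent.RPL.Arch

/-!
Project RPL: the theorem with the eleven Archimedean lattices.
-/

set_option autoImplicit false

namespace Pool.Agent.RPL.Arch

open Pool.Agent.RPL.Fin

/-- The theorem for all drawings, and the eleven Archimedean lattices with their drawings. -/
theorem all :
    (∀ (V : Type) (H : SimpleGraph V), H.Connected → (∀ x y, ∃ φ : H ≃g H, φ x = y) →
      ∀ (f : V → ℤ × ℤ) (p : ℕ), 1 ≤ p → Drawing H f p → ∀ x : V, ∃ C : ℝ, 0 < C ∧ ∀ n : ℕ,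
      a H x n ≤ mu H x ^ n * Real.exp (C * (n : ℝ) ^ (1 / 3 : ℝ)) ∧
      Real.exp (-(C * (n : ℝ) ^ (1 / 3 : ℝ))) ≤ P H x n) ∧
    (∀ q ∈ arch, q.2.gr.Connected ∧ (∀ x y, ∃ φ : q.2.gr ≃g q.2.gr, φ x = y) ∧
      Drawing q.2.gr Subtype.val (q.2.m * q.2.n) ∧ (∀ u : q.2.Vx, Cyc (q.2.faces u.1) q.1) ∧
      ∀ x, ∃ C : ℝ, 0 < C ∧ ∀ n : ℕ,
        a q.2.gr x n ≤ mu q.2.gr x ^ n * Real.exp (C * (n : ℝ) ^ (1 / 3 : ℝ)) ∧
        Real.exp (-(C * (n : ℝ) ^ (1 / 3 : ℝ))) ≤ P q.2.gr x n) := by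
  refine ⟨fun V H hc ht f p hp hd x => final H hc ht f p hp hd x, fun q hq => ?_⟩
  obtain ⟨h1, h2, h3, h4, h5⟩ := arch_lattice q hq
  exact ⟨h1, h2, h4, h5, fun x => final _ h1 h2 _ _ h3 h4 x⟩

end Pool.Agent.RPL.Arch
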